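import Pool.Agent.EM.XFacts

/-!
# EM-19: the rational constants of one interval (kernel check over `ℚ`)

Generated by `/tmp/em19/gen2.py` (helper19) from the structures `XNum.Ok`, `SNum.Ok`, `INum.Ok`.
`RNum.chk r = true` implies the numerical hypotheses of `reach_piece`.
-/

set_option autoImplicit false
set_option linter.unusedSimpArgs false

namespace Pool.Agent.EM

namespace SNum

/-- the constants as real numbers -/
noncomputable def cast (n : SNum ℚ) : SNum ℝ :=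
  ⟨(n.b0 : ℝ), (n.b1 : ℝ), (n.b2 : ℝ), (n.a0 : ℝ), (n.a1 : ℝ), (n.d0 : ℝ), (n.d1 : ℝ), (n.g1 : ℝ), (n.W : ℝ), (n.S : ℝ), (n.eta : ℝ), (n.es : ℝ), (n.z : ℝ), (n.th : ℝ), (n.Lr : ℝ), (n.rho : ℝ), (n.Llo : ℝ), (n.Lhi : ℝ), (n.rL : ℝ)⟩

theorem cast_b0 (n : SNum ℚ) : n.cast.b0 = (n.b0 : ℝ) := rfl
theorem cast_b1 (n : SNum ℚ) : n.cast.b1 = (n.b1 : ℝ) := rfl
theorem cast_b2 (n : SNum ℚ) : n.cast.b2 = (n.b2 : ℝ) := rfl
theorem cast_a0 (n : SNum ℚ) : n.cast.a0 = (n.a0 : ℝ) := rfl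
theorem cast_a1 (n : SNum ℚ) : n.cast.a1 = (n.a1 : ℝ) := rfl
theorem cast_d0 (n : SNum ℚ) : n.cast.d0 = (n.d0 : ℝ) := rfl
theorem cast_d1 (n : SNum ℚ) : n.cast.d1 = (n.d1 : ℝ) := rfl
theorem cast_g1 (n : SNum ℚ) : n.cast.g1 = (n.g1 : ℝ) := rfl
theorem cast_W (n : SNum ℚ) : n.cast.W = (n.W : ℝ) := rfl
theorem cast_S (n : SNum ℚ) : n.cast.S = (n.S : ℝ) := rfl
theorem cast_eta (n : SNum ℚ) : n.cast.eta = (n.eta : ℝ) := rfl
theorem cast_es (n : SNum ℚ) : n.cast.es = (n.es : ℝ) := rfl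
theorem cast_z (n : SNum ℚ) : n.cast.z = (n.z : ℝ) := rfl
theorem cast_th (n : SNum ℚ) : n.cast.th = (n.th : ℝ) := rfl
theorem cast_Lr (n : SNum ℚ) : n.cast.Lr = (n.Lr : ℝ) := rfl
theorem cast_rho (n : SNum ℚ) : n.cast.rho = (n.rho : ℝ) := rfl
theorem cast_Llo (n : SNum ℚ) : n.cast.Llo = (n.Llo : ℝ) := rfl
theorem cast_Lhi (n : SNum ℚ) : n.cast.Lhi = (n.Lhi : ℝ) := rfl
theorem cast_rL (n : SNum ℚ) : n.cast.rL = (n.rL : ℝ) := rfl

theorem cast_dq (n : SNum ℚ) : n.cast.dq = ((n.dq : ℚ) : ℝ) := by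
  unfold dq
  simp only [cast_b0, cast_b1, cast_b2, cast_a0, cast_a1, cast_d0, cast_d1, cast_g1, cast_W, cast_S, cast_eta, cast_es, cast_z, cast_th, cast_Lr, cast_rho, cast_Llo, cast_Lhi, cast_rL]
  push_cast
  rfl
theorem cast_c1 (n : SNum ℚ) : n.cast.c1 = ((n.c1 : ℚ) : ℝ) := by
  unfold c1
  simp only [cast_b0, cast_b1, cast_b2, cast_a0, cast_a1, cast_d0, cast_d1, cast_g1, cast_W, cast_S, cast_eta, cast_es, cast_z, cast_th, cast_Lr, cast_rho, cast_Llo, cast_Lhi, cast_rL, cast_dq]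
  push_cast
  rfl
theorem cast_c2 (n : SNum ℚ) : n.cast.c2 = ((n.c2 : ℚ) : ℝ) := by
  unfold c2
  simp only [cast_b0, cast_b1, cast_b2, cast_a0, cast_a1, cast_d0, cast_d1, cast_g1, cast_W, cast_S, cast_eta, cast_es, cast_z, cast_th, cast_Lr, cast_rho, cast_Llo, cast_Lhi, cast_rL, cast_dq, cast_c1]
  push_cast
  rfl
theorem cast_c3 (n : SNum ℚ) : n.cast.c3 = ((n.c3 : ℚ) : ℝ) := by
  unfold c3
  simp only [cast_b0, cast_b1, cast_b2, cast_a0, cast_a1, cast_d0, cast_d1, cast_g1, cast_W, cast_S, cast_eta, cast_es, cast_z, cast_th, cast_Lr, cast_rho, cast_Llo, cast_Lhi, cast_rL, cast_dq, cast_c1, cast_c2]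
  push_cast
  rfl
theorem cast_c4 (n : SNum ℚ) : n.cast.c4 = ((n.c4 : ℚ) : ℝ) := by
  unfold c4
  simp only [cast_b0, cast_b1, cast_b2, cast_a0, cast_a1, cast_d0, cast_d1, cast_g1, cast_W, cast_S, cast_eta, cast_es, cast_z, cast_th, cast_Lr, cast_rho, cast_Llo, cast_Lhi, cast_rL, cast_dq, cast_c1, cast_c2, cast_c3]
  push_cast
  rfl
theorem cast_c5 (n : SNum ℚ) : n.cast.c5 = ((n.c5 : ℚ) : ℝ) := by
  unfold c5
  simp only [cast_b0, cast_b1, cast_b2, cast_a0, cast_a1, cast_d0, cast_d1, cast_g1, cast_W, cast_S, cast_eta, cast_es, cast_z, cast_th, cast_Lr, cast_rho, cast_Llo, cast_Lhi, cast_rL, cast_dq, cast_c1, cast_c2, cast_c3, cast_c4]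
  push_cast
  rfl
theorem cast_c6 (n : SNum ℚ) : n.cast.c6 = ((n.c6 : ℚ) : ℝ) := by
  unfold c6
  simp only [cast_b0, cast_b1, cast_b2, cast_a0, cast_a1, cast_d0, cast_d1, cast_g1, cast_W, cast_S, cast_eta, cast_es, cast_z, cast_th, cast_Lr, cast_rho, cast_Llo, cast_Lhi, cast_rL, cast_dq, cast_c1, cast_c2, cast_c3, cast_c4, cast_c5]
  push_cast
  rfl
theorem cast_cxy (n : SNum ℚ) : n.cast.cxy = ((n.cxy : ℚ) : ℝ) := by
  unfold cxy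
  simp only [cast_b0, cast_b1, cast_b2, cast_a0, cast_a1, cast_d0, cast_d1, cast_g1, cast_W, cast_S, cast_eta, cast_es, cast_z, cast_th, cast_Lr, cast_rho, cast_Llo, cast_Lhi, cast_rL, cast_dq, cast_c1, cast_c2, cast_c3, cast_c4, cast_c5, cast_c6]
  push_cast
  rfl
theorem cast_cL (n : SNum ℚ) : n.cast.cL = ((n.cL : ℚ) : ℝ) := by
  unfold cL
  simp only [cast_b0, cast_b1, cast_b2, cast_a0, cast_a1, cast_d0, cast_d1, cast_g1, cast_W, cast_S, cast_eta, cast_es, cast_z, cast_th, cast_Lr, cast_rho, cast_Llo, cast_Lhi, cast_rL, cast_dq, cast_c1, cast_c2, cast_c3, cast_c4, cast_c5, cast_c6, cast_cxy]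
  push_cast
  rfl
theorem cast_cQ (n : SNum ℚ) : n.cast.cQ = ((n.cQ : ℚ) : ℝ) := by
  unfold cQ
  simp only [cast_b0, cast_b1, cast_b2, cast_a0, cast_a1, cast_d0, cast_d1, cast_g1, cast_W, cast_S, cast_eta, cast_es, cast_z, cast_th, cast_Lr, cast_rho, cast_Llo, cast_Lhi, cast_rL, cast_dq, cast_c1, cast_c2, cast_c3, cast_c4, cast_c5, cast_c6, cast_cxy, cast_cL]
  push_cast
  rfl

/-- the check -/
def chk (n : SNum ℚ) : Bool :=
  decide (0 < n.b0) &&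
  decide (0 < n.b1) &&
  decide (0 < n.b2) &&
  decide (0 ≤ n.a0) &&
  decide (0 ≤ n.a1) &&
  decide (0 ≤ n.d0) &&
  decide (0 ≤ n.d1) &&
  decide (0 ≤ n.g1) &&
  decide (0 < n.W) &&
  decide (0 < n.S) &&
  decide (0 < n.eta) &&
  decide (n.eta < 1) &&
  decide (0 ≤ n.es) &&
  decide (0 < n.z) &&
  decide (0 < n.th) &&
  decide (0 ≤ n.rho) &&
  decide (0 < n.Llo) &&
  decide (n.Llo ≤ n.Lhi) &&
  decide (0 < n.rL) &&
  decide (n.Lhi ≤ n.rL ^ 2) &&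
  decide (n.S ≤ 1 / 100) &&
  decide (n.b0 * n.W ≤ 1 / 100) &&
  decide (n.c1 + n.c2 * n.z / 2 + n.cxy ^ 2 / (4 * n.th) ≤ n.Lr) &&
  decide (n.c6 + n.c5 / (2 * n.z) + n.th + 15 * n.S ^ 2 ≤ n.eta / 2)

theorem ok_of_chk (n : SNum ℚ) (h : chk n = true) : n.Ok := by
  unfold chk at h
  simp only [Bool.and_eq_true, decide_eq_true_eq] at h
  obtain ⟨⟨⟨⟨⟨⟨⟨⟨⟨⟨⟨⟨⟨⟨⟨⟨⟨⟨⟨⟨⟨⟨⟨h1, h2⟩, h3⟩, h4⟩, h5⟩, h6⟩, h7⟩, h8⟩, h9⟩, h10⟩, h11⟩, h12⟩, h13⟩, h14⟩, h15⟩, h16⟩, h17⟩, h18⟩, h19⟩, h20⟩, h21⟩, h22⟩, h23⟩, h24⟩ := h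
  exact ⟨h1, h2, h3, h4, h5, h6, h7, h8, h9, h10, h11, h12, h13, h14, h15, h16, h17, h18, h19, h20, h21, h22, h23, h24⟩

theorem ok_cast (n : SNum ℚ) (h : n.Ok) : n.cast.Ok := by
  refine ⟨?_, ?_, ?_, ?_, ?_, ?_, ?_, ?_, ?_, ?_, ?_, ?_, ?_, ?_, ?_, ?_, ?_, ?_, ?_, ?_, ?_, ?_, ?_, ?_⟩
  · have h1 := (Rat.cast_lt (K := ℝ)).2 h.b0
    push_cast at h1
    simp only [cast_b0, cast_b1, cast_b2, cast_a0, cast_a1, cast_d0, cast_d1, cast_g1, cast_W, cast_S, cast_eta, cast_es, cast_z, cast_th, cast_Lr, cast_rho, cast_Llo, cast_Lhi, cast_rL, cast_dq, cast_c1, cast_c2, cast_c3, cast_c4, cast_c5, cast_c6, cast_cxy, cast_cL, cast_cQ]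
    exact h1
  · have h1 := (Rat.cast_lt (K := ℝ)).2 h.b1
    push_cast at h1
    simp only [cast_b0, cast_b1, cast_b2, cast_a0, cast_a1, cast_d0, cast_d1, cast_g1, cast_W, cast_S, cast_eta, cast_es, cast_z, cast_th, cast_Lr, cast_rho, cast_Llo, cast_Lhi, cast_rL, cast_dq, cast_c1, cast_c2, cast_c3, cast_c4, cast_c5, cast_c6, cast_cxy, cast_cL, cast_cQ]
    exact h1
  · have h1 := (Rat.cast_lt (K := ℝ)).2 h.b2
    push_cast at h1
    simp only [cast_b0, cast_b1, cast_b2, cast_a0, cast_a1, cast_d0, cast_d1, cast_g1, cast_W, cast_S, cast_eta, cast_es, cast_z, cast_th, cast_Lr, cast_rho, cast_Llo, cast_Lhi, cast_rL, cast_dq, cast_c1, cast_c2, cast_c3, cast_c4, cast_c5, cast_c6, cast_cxy, cast_cL, cast_cQ]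
    exact h1
  · have h1 := (Rat.cast_le (K := ℝ)).2 h.a0
    push_cast at h1
    simp only [cast_b0, cast_b1, cast_b2, cast_a0, cast_a1, cast_d0, cast_d1, cast_g1, cast_W, cast_S, cast_eta, cast_es, cast_z, cast_th, cast_Lr, cast_rho, cast_Llo, cast_Lhi, cast_rL, cast_dq, cast_c1, cast_c2, cast_c3, cast_c4, cast_c5, cast_c6, cast_cxy, cast_cL, cast_cQ]
    exact h1
  · have h1 := (Rat.cast_le (K := ℝ)).2 h.a1
    push_cast at h1
    simp only [cast_b0, cast_b1, cast_b2, cast_a0, cast_a1, cast_d0, cast_d1, cast_g1, cast_W, cast_S, cast_eta, cast_es, cast_z, cast_th, cast_Lr, cast_rho, cast_Llo, cast_Lhi, cast_rL, cast_dq, cast_c1, cast_c2, cast_c3, cast_c4, cast_c5, cast_c6, cast_cxy, cast_cL, cast_cQ]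
    exact h1
  · have h1 := (Rat.cast_le (K := ℝ)).2 h.d0
    push_cast at h1
    simp only [cast_b0, cast_b1, cast_b2, cast_a0, cast_a1, cast_d0, cast_d1, cast_g1, cast_W, cast_S, cast_eta, cast_es, cast_z, cast_th, cast_Lr, cast_rho, cast_Llo, cast_Lhi, cast_rL, cast_dq, cast_c1, cast_c2, cast_c3, cast_c4, cast_c5, cast_c6, cast_cxy, cast_cL, cast_cQ]
    exact h1
  · have h1 := (Rat.cast_le (K := ℝ)).2 h.d1
    push_cast at h1
    simp only [cast_b0, cast_b1, cast_b2, cast_a0, cast_a1, cast_d0, cast_d1, cast_g1, cast_W, cast_S, cast_eta, cast_es, cast_z, cast_th, cast_Lr, cast_rho, cast_Llo, cast_Lhi, cast_rL, cast_dq, cast_c1, cast_c2, cast_c3, cast_c4, cast_c5, cast_c6, cast_cxy, cast_cL, cast_cQ]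
    exact h1
  · have h1 := (Rat.cast_le (K := ℝ)).2 h.g1
    push_cast at h1
    simp only [cast_b0, cast_b1, cast_b2, cast_a0, cast_a1, cast_d0, cast_d1, cast_g1, cast_W, cast_S, cast_eta, cast_es, cast_z, cast_th, cast_Lr, cast_rho, cast_Llo, cast_Lhi, cast_rL, cast_dq, cast_c1, cast_c2, cast_c3, cast_c4, cast_c5, cast_c6, cast_cxy, cast_cL, cast_cQ]
    exact h1
  · have h1 := (Rat.cast_lt (K := ℝ)).2 h.W
    push_cast at h1
    simp only [cast_b0, cast_b1, cast_b2, cast_a0, cast_a1, cast_d0, cast_d1, cast_g1, cast_W, cast_S, cast_eta, cast_es, cast_z, cast_th, cast_Lr, cast_rho, cast_Llo, cast_Lhi, cast_rL, cast_dq, cast_c1, cast_c2, cast_c3, cast_c4, cast_c5, cast_c6, cast_cxy, cast_cL, cast_cQ]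
    exact h1
  · have h1 := (Rat.cast_lt (K := ℝ)).2 h.S
    push_cast at h1
    simp only [cast_b0, cast_b1, cast_b2, cast_a0, cast_a1, cast_d0, cast_d1, cast_g1, cast_W, cast_S, cast_eta, cast_es, cast_z, cast_th, cast_Lr, cast_rho, cast_Llo, cast_Lhi, cast_rL, cast_dq, cast_c1, cast_c2, cast_c3, cast_c4, cast_c5, cast_c6, cast_cxy, cast_cL, cast_cQ]
    exact h1
  · have h1 := (Rat.cast_lt (K := ℝ)).2 h.eta
    push_cast at h1
    simp only [cast_b0, cast_b1, cast_b2, cast_a0, cast_a1, cast_d0, cast_d1, cast_g1, cast_W, cast_S, cast_eta, cast_es, cast_z, cast_th, cast_Lr, cast_rho, cast_Llo, cast_Lhi, cast_rL, cast_dq, cast_c1, cast_c2, cast_c3, cast_c4, cast_c5, cast_c6, cast_cxy, cast_cL, cast_cQ]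
    exact h1
  · have h1 := (Rat.cast_lt (K := ℝ)).2 h.eta1
    push_cast at h1
    simp only [cast_b0, cast_b1, cast_b2, cast_a0, cast_a1, cast_d0, cast_d1, cast_g1, cast_W, cast_S, cast_eta, cast_es, cast_z, cast_th, cast_Lr, cast_rho, cast_Llo, cast_Lhi, cast_rL, cast_dq, cast_c1, cast_c2, cast_c3, cast_c4, cast_c5, cast_c6, cast_cxy, cast_cL, cast_cQ]
    exact h1
  · have h1 := (Rat.cast_le (K := ℝ)).2 h.es
    push_cast at h1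
    simp only [cast_b0, cast_b1, cast_b2, cast_a0, cast_a1, cast_d0, cast_d1, cast_g1, cast_W, cast_S, cast_eta, cast_es, cast_z, cast_th, cast_Lr, cast_rho, cast_Llo, cast_Lhi, cast_rL, cast_dq, cast_c1, cast_c2, cast_c3, cast_c4, cast_c5, cast_c6, cast_cxy, cast_cL, cast_cQ]
    exact h1
  · have h1 := (Rat.cast_lt (K := ℝ)).2 h.z
    push_cast at h1
    simp only [cast_b0, cast_b1, cast_b2, cast_a0, cast_a1, cast_d0, cast_d1, cast_g1, cast_W, cast_S, cast_eta, cast_es, cast_z, cast_th, cast_Lr, cast_rho, cast_Llo, cast_Lhi, cast_rL, cast_dq, cast_c1, cast_c2, cast_c3, cast_c4, cast_c5, cast_c6, cast_cxy, cast_cL, cast_cQ]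
    exact h1
  · have h1 := (Rat.cast_lt (K := ℝ)).2 h.th
    push_cast at h1
    simp only [cast_b0, cast_b1, cast_b2, cast_a0, cast_a1, cast_d0, cast_d1, cast_g1, cast_W, cast_S, cast_eta, cast_es, cast_z, cast_th, cast_Lr, cast_rho, cast_Llo, cast_Lhi, cast_rL, cast_dq, cast_c1, cast_c2, cast_c3, cast_c4, cast_c5, cast_c6, cast_cxy, cast_cL, cast_cQ]
    exact h1
  · have h1 := (Rat.cast_le (K := ℝ)).2 h.rho
    push_cast at h1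
    simp only [cast_b0, cast_b1, cast_b2, cast_a0, cast_a1, cast_d0, cast_d1, cast_g1, cast_W, cast_S, cast_eta, cast_es, cast_z, cast_th, cast_Lr, cast_rho, cast_Llo, cast_Lhi, cast_rL, cast_dq, cast_c1, cast_c2, cast_c3, cast_c4, cast_c5, cast_c6, cast_cxy, cast_cL, cast_cQ]
    exact h1
  · have h1 := (Rat.cast_lt (K := ℝ)).2 h.Llo
    push_cast at h1
    simp only [cast_b0, cast_b1, cast_b2, cast_a0, cast_a1, cast_d0, cast_d1, cast_g1, cast_W, cast_S, cast_eta, cast_es, cast_z, cast_th, cast_Lr, cast_rho, cast_Llo, cast_Lhi, cast_rL, cast_dq, cast_c1, cast_c2, cast_c3, cast_c4, cast_c5, cast_c6, cast_cxy, cast_cL, cast_cQ]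
    exact h1
  · have h1 := (Rat.cast_le (K := ℝ)).2 h.Llh
    push_cast at h1
    simp only [cast_b0, cast_b1, cast_b2, cast_a0, cast_a1, cast_d0, cast_d1, cast_g1, cast_W, cast_S, cast_eta, cast_es, cast_z, cast_th, cast_Lr, cast_rho, cast_Llo, cast_Lhi, cast_rL, cast_dq, cast_c1, cast_c2, cast_c3, cast_c4, cast_c5, cast_c6, cast_cxy, cast_cL, cast_cQ]
    exact h1
  · have h1 := (Rat.cast_lt (K := ℝ)).2 h.rL
    push_cast at h1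
    simp only [cast_b0, cast_b1, cast_b2, cast_a0, cast_a1, cast_d0, cast_d1, cast_g1, cast_W, cast_S, cast_eta, cast_es, cast_z, cast_th, cast_Lr, cast_rho, cast_Llo, cast_Lhi, cast_rL, cast_dq, cast_c1, cast_c2, cast_c3, cast_c4, cast_c5, cast_c6, cast_cxy, cast_cL, cast_cQ]
    exact h1
  · have h1 := (Rat.cast_le (K := ℝ)).2 h.rL2
    push_cast at h1
    simp only [cast_b0, cast_b1, cast_b2, cast_a0, cast_a1, cast_d0, cast_d1, cast_g1, cast_W, cast_S, cast_eta, cast_es, cast_z, cast_th, cast_Lr, cast_rho, cast_Llo, cast_Lhi, cast_rL, cast_dq, cast_c1, cast_c2, cast_c3, cast_c4, cast_c5, cast_c6, cast_cxy, cast_cL, cast_cQ]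
    exact h1
  · have h1 := (Rat.cast_le (K := ℝ)).2 h.S1
    push_cast at h1
    simp only [cast_b0, cast_b1, cast_b2, cast_a0, cast_a1, cast_d0, cast_d1, cast_g1, cast_W, cast_S, cast_eta, cast_es, cast_z, cast_th, cast_Lr, cast_rho, cast_Llo, cast_Lhi, cast_rL, cast_dq, cast_c1, cast_c2, cast_c3, cast_c4, cast_c5, cast_c6, cast_cxy, cast_cL, cast_cQ]
    exact h1
  · have h1 := (Rat.cast_le (K := ℝ)).2 h.bW
    push_cast at h1
    simp only [cast_b0, cast_b1, cast_b2, cast_a0, cast_a1, cast_d0, cast_d1, cast_g1, cast_W, cast_S, cast_eta, cast_es, cast_z, cast_th, cast_Lr, cast_rho, cast_Llo, cast_Lhi, cast_rL, cast_dq, cast_c1, cast_c2, cast_c3, cast_c4, cast_c5, cast_c6, cast_cxy, cast_cL, cast_cQ]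
    exact h1
  · have h1 := (Rat.cast_le (K := ℝ)).2 h.n1
    push_cast at h1
    simp only [cast_b0, cast_b1, cast_b2, cast_a0, cast_a1, cast_d0, cast_d1, cast_g1, cast_W, cast_S, cast_eta, cast_es, cast_z, cast_th, cast_Lr, cast_rho, cast_Llo, cast_Lhi, cast_rL, cast_dq, cast_c1, cast_c2, cast_c3, cast_c4, cast_c5, cast_c6, cast_cxy, cast_cL, cast_cQ]
    exact h1
  · have h1 := (Rat.cast_le (K := ℝ)).2 h.n2
    push_cast at h1
    simp only [cast_b0, cast_b1, cast_b2, cast_a0, cast_a1, cast_d0, cast_d1, cast_g1, cast_W, cast_S, cast_eta, cast_es, cast_z, cast_th, cast_Lr, cast_rho, cast_Llo, cast_Lhi, cast_rL, cast_dq, cast_c1, cast_c2, cast_c3, cast_c4, cast_c5, cast_c6, cast_cxy, cast_cL, cast_cQ]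
    exact h1

end SNum

namespace XNum

/-- the constants as real numbers -/
noncomputable def cast (m : XNum ℚ) : XNum ℝ :=
  ⟨(m.eB0 : ℝ), (m.eB1 : ℝ), (m.eB2 : ℝ), (m.eBx : ℝ), (m.eA0 : ℝ), (m.eA1 : ℝ), (m.eA2 : ℝ), (m.eAx : ℝ), (m.eR : ℝ), (m.k0 : ℝ), (m.k1 : ℝ), (m.k2 : ℝ), (m.kx : ℝ), (m.Plo : ℝ), (m.Phi : ℝ), (m.dP : ℝ), (m.l0 : ℝ), (m.l1 : ℝ), (m.h : ℝ), (m.ec0 : ℝ), (m.ec1 : ℝ), (m.ec2 : ℝ), (m.kc0 : ℝ), (m.kc1 : ℝ), (m.kc2 : ℝ), (m.A0 : ℝ), (m.A1 : ℝ), (m.A2 : ℝ), (m.A3 : ℝ), (m.eta' : ℝ), (m.lam0 : ℝ), (m.lam1 : ℝ), (m.lam2 : ℝ), (m.mg : ℝ)⟩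

theorem cast_eB0 (m : XNum ℚ) : m.cast.eB0 = (m.eB0 : ℝ) := rfl
theorem cast_eB1 (m : XNum ℚ) : m.cast.eB1 = (m.eB1 : ℝ) := rfl
theorem cast_eB2 (m : XNum ℚ) : m.cast.eB2 = (m.eB2 : ℝ) := rfl
theorem cast_eBx (m : XNum ℚ) : m.cast.eBx = (m.eBx : ℝ) := rfl
theorem cast_eA0 (m : XNum ℚ) : m.cast.eA0 = (m.eA0 : ℝ) := rfl
theorem cast_eA1 (m : XNum ℚ) : m.cast.eA1 = (m.eA1 : ℝ) := rfl
theorem cast_eA2 (m : XNum ℚ) : m.cast.eA2 = (m.eA2 : ℝ) := rfl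
theorem cast_eAx (m : XNum ℚ) : m.cast.eAx = (m.eAx : ℝ) := rfl
theorem cast_eR (m : XNum ℚ) : m.cast.eR = (m.eR : ℝ) := rfl
theorem cast_k0 (m : XNum ℚ) : m.cast.k0 = (m.k0 : ℝ) := rfl
theorem cast_k1 (m : XNum ℚ) : m.cast.k1 = (m.k1 : ℝ) := rfl
theorem cast_k2 (m : XNum ℚ) : m.cast.k2 = (m.k2 : ℝ) := rfl
theorem cast_kx (m : XNum ℚ) : m.cast.kx = (m.kx : ℝ) := rfl
theorem cast_Plo (m : XNum ℚ) : m.cast.Plo = (m.Plo : ℝ) := rfl
theorem cast_Phi (m : XNum ℚ) : m.cast.Phi = (m.Phi : ℝ) := rfl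
theorem cast_dP (m : XNum ℚ) : m.cast.dP = (m.dP : ℝ) := rfl
theorem cast_l0 (m : XNum ℚ) : m.cast.l0 = (m.l0 : ℝ) := rfl
theorem cast_l1 (m : XNum ℚ) : m.cast.l1 = (m.l1 : ℝ) := rfl
theorem cast_h (m : XNum ℚ) : m.cast.h = (m.h : ℝ) := rfl
theorem cast_ec0 (m : XNum ℚ) : m.cast.ec0 = (m.ec0 : ℝ) := rfl
theorem cast_ec1 (m : XNum ℚ) : m.cast.ec1 = (m.ec1 : ℝ) := rfl
theorem cast_ec2 (m : XNum ℚ) : m.cast.ec2 = (m.ec2 : ℝ) := rfl
theorem cast_kc0 (m : XNum ℚ) : m.cast.kc0 = (m.kc0 : ℝ) := rfl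
theorem cast_kc1 (m : XNum ℚ) : m.cast.kc1 = (m.kc1 : ℝ) := rfl
theorem cast_kc2 (m : XNum ℚ) : m.cast.kc2 = (m.kc2 : ℝ) := rfl
theorem cast_A0 (m : XNum ℚ) : m.cast.A0 = (m.A0 : ℝ) := rfl
theorem cast_A1 (m : XNum ℚ) : m.cast.A1 = (m.A1 : ℝ) := rfl
theorem cast_A2 (m : XNum ℚ) : m.cast.A2 = (m.A2 : ℝ) := rfl
theorem cast_A3 (m : XNum ℚ) : m.cast.A3 = (m.A3 : ℝ) := rfl
theorem cast_etap (m : XNum ℚ) : m.cast.eta' = (m.eta' : ℝ) := rfl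
theorem cast_lam0 (m : XNum ℚ) : m.cast.lam0 = (m.lam0 : ℝ) := rfl
theorem cast_lam1 (m : XNum ℚ) : m.cast.lam1 = (m.lam1 : ℝ) := rfl
theorem cast_lam2 (m : XNum ℚ) : m.cast.lam2 = (m.lam2 : ℝ) := rfl
theorem cast_mg (m : XNum ℚ) : m.cast.mg = (m.mg : ℝ) := rfl

theorem cast_E0 (m : XNum ℚ) : m.cast.E0 = ((m.E0 : ℚ) : ℝ) := by
  unfold E0
  simp only [cast_eB0, cast_eB1, cast_eB2, cast_eBx, cast_eA0, cast_eA1, cast_eA2, cast_eAx, cast_eR, cast_k0, cast_k1, cast_k2, cast_kx, cast_Plo, cast_Phi, cast_dP, cast_l0, cast_l1, cast_h, cast_ec0, cast_ec1, cast_ec2, cast_kc0, cast_kc1, cast_kc2, cast_A0, cast_A1, cast_A2, cast_A3, cast_etap, cast_lam0, cast_lam1, cast_lam2, cast_mg]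
  push_cast
  rfl
theorem cast_E1 (m : XNum ℚ) : m.cast.E1 = ((m.E1 : ℚ) : ℝ) := by
  unfold E1
  simp only [cast_eB0, cast_eB1, cast_eB2, cast_eBx, cast_eA0, cast_eA1, cast_eA2, cast_eAx, cast_eR, cast_k0, cast_k1, cast_k2, cast_kx, cast_Plo, cast_Phi, cast_dP, cast_l0, cast_l1, cast_h, cast_ec0, cast_ec1, cast_ec2, cast_kc0, cast_kc1, cast_kc2, cast_A0, cast_A1, cast_A2, cast_A3, cast_etap, cast_lam0, cast_lam1, cast_lam2, cast_mg, cast_E0]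
  push_cast
  rfl
theorem cast_E2 (m : XNum ℚ) : m.cast.E2 = ((m.E2 : ℚ) : ℝ) := by
  unfold E2
  simp only [cast_eB0, cast_eB1, cast_eB2, cast_eBx, cast_eA0, cast_eA1, cast_eA2, cast_eAx, cast_eR, cast_k0, cast_k1, cast_k2, cast_kx, cast_Plo, cast_Phi, cast_dP, cast_l0, cast_l1, cast_h, cast_ec0, cast_ec1, cast_ec2, cast_kc0, cast_kc1, cast_kc2, cast_A0, cast_A1, cast_A2, cast_A3, cast_etap, cast_lam0, cast_lam1, cast_lam2, cast_mg, cast_E0, cast_E1]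
  push_cast
  rfl
theorem cast_ek0 (m : XNum ℚ) : m.cast.ek0 = ((m.ek0 : ℚ) : ℝ) := by
  unfold ek0
  simp only [cast_eB0, cast_eB1, cast_eB2, cast_eBx, cast_eA0, cast_eA1, cast_eA2, cast_eAx, cast_eR, cast_k0, cast_k1, cast_k2, cast_kx, cast_Plo, cast_Phi, cast_dP, cast_l0, cast_l1, cast_h, cast_ec0, cast_ec1, cast_ec2, cast_kc0, cast_kc1, cast_kc2, cast_A0, cast_A1, cast_A2, cast_A3, cast_etap, cast_lam0, cast_lam1, cast_lam2, cast_mg, cast_E0, cast_E1, cast_E2]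
  push_cast
  rfl
theorem cast_ek1 (m : XNum ℚ) : m.cast.ek1 = ((m.ek1 : ℚ) : ℝ) := by
  unfold ek1
  simp only [cast_eB0, cast_eB1, cast_eB2, cast_eBx, cast_eA0, cast_eA1, cast_eA2, cast_eAx, cast_eR, cast_k0, cast_k1, cast_k2, cast_kx, cast_Plo, cast_Phi, cast_dP, cast_l0, cast_l1, cast_h, cast_ec0, cast_ec1, cast_ec2, cast_kc0, cast_kc1, cast_kc2, cast_A0, cast_A1, cast_A2, cast_A3, cast_etap, cast_lam0, cast_lam1, cast_lam2, cast_mg, cast_E0, cast_E1, cast_E2, cast_ek0]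
  push_cast
  rfl
theorem cast_ek2 (m : XNum ℚ) : m.cast.ek2 = ((m.ek2 : ℚ) : ℝ) := by
  unfold ek2
  simp only [cast_eB0, cast_eB1, cast_eB2, cast_eBx, cast_eA0, cast_eA1, cast_eA2, cast_eAx, cast_eR, cast_k0, cast_k1, cast_k2, cast_kx, cast_Plo, cast_Phi, cast_dP, cast_l0, cast_l1, cast_h, cast_ec0, cast_ec1, cast_ec2, cast_kc0, cast_kc1, cast_kc2, cast_A0, cast_A1, cast_A2, cast_A3, cast_etap, cast_lam0, cast_lam1, cast_lam2, cast_mg, cast_E0, cast_E1, cast_E2, cast_ek0, cast_ek1]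
  push_cast
  rfl
theorem cast_t (m : XNum ℚ) : m.cast.t = ((m.t : ℚ) : ℝ) := by
  unfold t
  simp only [cast_eB0, cast_eB1, cast_eB2, cast_eBx, cast_eA0, cast_eA1, cast_eA2, cast_eAx, cast_eR, cast_k0, cast_k1, cast_k2, cast_kx, cast_Plo, cast_Phi, cast_dP, cast_l0, cast_l1, cast_h, cast_ec0, cast_ec1, cast_ec2, cast_kc0, cast_kc1, cast_kc2, cast_A0, cast_A1, cast_A2, cast_A3, cast_etap, cast_lam0, cast_lam1, cast_lam2, cast_mg, cast_E0, cast_E1, cast_E2, cast_ek0, cast_ek1, cast_ek2]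
  push_cast
  rfl
theorem cast_b (m : XNum ℚ) : m.cast.b = ((m.b : ℚ) : ℝ) := by
  unfold b
  simp only [cast_eB0, cast_eB1, cast_eB2, cast_eBx, cast_eA0, cast_eA1, cast_eA2, cast_eAx, cast_eR, cast_k0, cast_k1, cast_k2, cast_kx, cast_Plo, cast_Phi, cast_dP, cast_l0, cast_l1, cast_h, cast_ec0, cast_ec1, cast_ec2, cast_kc0, cast_kc1, cast_kc2, cast_A0, cast_A1, cast_A2, cast_A3, cast_etap, cast_lam0, cast_lam1, cast_lam2, cast_mg, cast_E0, cast_E1, cast_E2, cast_ek0, cast_ek1, cast_ek2, cast_t]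
  push_cast
  rfl
theorem cast_b1 (m : XNum ℚ) : m.cast.b1 = ((m.b1 : ℚ) : ℝ) := by
  unfold b1
  simp only [cast_eB0, cast_eB1, cast_eB2, cast_eBx, cast_eA0, cast_eA1, cast_eA2, cast_eAx, cast_eR, cast_k0, cast_k1, cast_k2, cast_kx, cast_Plo, cast_Phi, cast_dP, cast_l0, cast_l1, cast_h, cast_ec0, cast_ec1, cast_ec2, cast_kc0, cast_kc1, cast_kc2, cast_A0, cast_A1, cast_A2, cast_A3, cast_etap, cast_lam0, cast_lam1, cast_lam2, cast_mg, cast_E0, cast_E1, cast_E2, cast_ek0, cast_ek1, cast_ek2, cast_t, cast_b]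
  push_cast
  rfl
theorem cast_b2 (m : XNum ℚ) : m.cast.b2 = ((m.b2 : ℚ) : ℝ) := by
  unfold b2
  simp only [cast_eB0, cast_eB1, cast_eB2, cast_eBx, cast_eA0, cast_eA1, cast_eA2, cast_eAx, cast_eR, cast_k0, cast_k1, cast_k2, cast_kx, cast_Plo, cast_Phi, cast_dP, cast_l0, cast_l1, cast_h, cast_ec0, cast_ec1, cast_ec2, cast_kc0, cast_kc1, cast_kc2, cast_A0, cast_A1, cast_A2, cast_A3, cast_etap, cast_lam0, cast_lam1, cast_lam2, cast_mg, cast_E0, cast_E1, cast_E2, cast_ek0, cast_ek1, cast_ek2, cast_t, cast_b, cast_b1]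
  push_cast
  rfl
theorem cast_hB (m : XNum ℚ) : m.cast.hB = ((m.hB : ℚ) : ℝ) := by
  unfold hB
  simp only [cast_eB0, cast_eB1, cast_eB2, cast_eBx, cast_eA0, cast_eA1, cast_eA2, cast_eAx, cast_eR, cast_k0, cast_k1, cast_k2, cast_kx, cast_Plo, cast_Phi, cast_dP, cast_l0, cast_l1, cast_h, cast_ec0, cast_ec1, cast_ec2, cast_kc0, cast_kc1, cast_kc2, cast_A0, cast_A1, cast_A2, cast_A3, cast_etap, cast_lam0, cast_lam1, cast_lam2, cast_mg, cast_E0, cast_E1, cast_E2, cast_ek0, cast_ek1, cast_ek2, cast_t, cast_b, cast_b1, cast_b2]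
  push_cast
  rfl
theorem cast_hB1 (m : XNum ℚ) : m.cast.hB1 = ((m.hB1 : ℚ) : ℝ) := by
  unfold hB1
  simp only [cast_eB0, cast_eB1, cast_eB2, cast_eBx, cast_eA0, cast_eA1, cast_eA2, cast_eAx, cast_eR, cast_k0, cast_k1, cast_k2, cast_kx, cast_Plo, cast_Phi, cast_dP, cast_l0, cast_l1, cast_h, cast_ec0, cast_ec1, cast_ec2, cast_kc0, cast_kc1, cast_kc2, cast_A0, cast_A1, cast_A2, cast_A3, cast_etap, cast_lam0, cast_lam1, cast_lam2, cast_mg, cast_E0, cast_E1, cast_E2, cast_ek0, cast_ek1, cast_ek2, cast_t, cast_b, cast_b1, cast_b2, cast_hB]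
  push_cast
  rfl
theorem cast_hC1 (m : XNum ℚ) : m.cast.hC1 = ((m.hC1 : ℚ) : ℝ) := by
  unfold hC1
  simp only [cast_eB0, cast_eB1, cast_eB2, cast_eBx, cast_eA0, cast_eA1, cast_eA2, cast_eAx, cast_eR, cast_k0, cast_k1, cast_k2, cast_kx, cast_Plo, cast_Phi, cast_dP, cast_l0, cast_l1, cast_h, cast_ec0, cast_ec1, cast_ec2, cast_kc0, cast_kc1, cast_kc2, cast_A0, cast_A1, cast_A2, cast_A3, cast_etap, cast_lam0, cast_lam1, cast_lam2, cast_mg, cast_E0, cast_E1, cast_E2, cast_ek0, cast_ek1, cast_ek2, cast_t, cast_b, cast_b1, cast_b2, cast_hB, cast_hB1]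
  push_cast
  rfl
theorem cast_Ewp (m : XNum ℚ) : m.cast.Ewp = ((m.Ewp : ℚ) : ℝ) := by
  unfold Ewp
  simp only [cast_eB0, cast_eB1, cast_eB2, cast_eBx, cast_eA0, cast_eA1, cast_eA2, cast_eAx, cast_eR, cast_k0, cast_k1, cast_k2, cast_kx, cast_Plo, cast_Phi, cast_dP, cast_l0, cast_l1, cast_h, cast_ec0, cast_ec1, cast_ec2, cast_kc0, cast_kc1, cast_kc2, cast_A0, cast_A1, cast_A2, cast_A3, cast_etap, cast_lam0, cast_lam1, cast_lam2, cast_mg, cast_E0, cast_E1, cast_E2, cast_ek0, cast_ek1, cast_ek2, cast_t, cast_b, cast_b1, cast_b2, cast_hB, cast_hB1, cast_hC1]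
  push_cast
  rfl
theorem cast_Ess (m : XNum ℚ) : m.cast.Ess = ((m.Ess : ℚ) : ℝ) := by
  unfold Ess
  simp only [cast_eB0, cast_eB1, cast_eB2, cast_eBx, cast_eA0, cast_eA1, cast_eA2, cast_eAx, cast_eR, cast_k0, cast_k1, cast_k2, cast_kx, cast_Plo, cast_Phi, cast_dP, cast_l0, cast_l1, cast_h, cast_ec0, cast_ec1, cast_ec2, cast_kc0, cast_kc1, cast_kc2, cast_A0, cast_A1, cast_A2, cast_A3, cast_etap, cast_lam0, cast_lam1, cast_lam2, cast_mg, cast_E0, cast_E1, cast_E2, cast_ek0, cast_ek1, cast_ek2, cast_t, cast_b, cast_b1, cast_b2, cast_hB, cast_hB1, cast_hC1, cast_Ewp]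
  push_cast
  rfl
theorem cast_Ews (m : XNum ℚ) : m.cast.Ews = ((m.Ews : ℚ) : ℝ) := by
  unfold Ews
  simp only [cast_eB0, cast_eB1, cast_eB2, cast_eBx, cast_eA0, cast_eA1, cast_eA2, cast_eAx, cast_eR, cast_k0, cast_k1, cast_k2, cast_kx, cast_Plo, cast_Phi, cast_dP, cast_l0, cast_l1, cast_h, cast_ec0, cast_ec1, cast_ec2, cast_kc0, cast_kc1, cast_kc2, cast_A0, cast_A1, cast_A2, cast_A3, cast_etap, cast_lam0, cast_lam1, cast_lam2, cast_mg, cast_E0, cast_E1, cast_E2, cast_ek0, cast_ek1, cast_ek2, cast_t, cast_b, cast_b1, cast_b2, cast_hB, cast_hB1, cast_hC1, cast_Ewp, cast_Ess]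
  push_cast
  rfl
theorem cast_Eww (m : XNum ℚ) : m.cast.Eww = ((m.Eww : ℚ) : ℝ) := by
  unfold Eww
  simp only [cast_eB0, cast_eB1, cast_eB2, cast_eBx, cast_eA0, cast_eA1, cast_eA2, cast_eAx, cast_eR, cast_k0, cast_k1, cast_k2, cast_kx, cast_Plo, cast_Phi, cast_dP, cast_l0, cast_l1, cast_h, cast_ec0, cast_ec1, cast_ec2, cast_kc0, cast_kc1, cast_kc2, cast_A0, cast_A1, cast_A2, cast_A3, cast_etap, cast_lam0, cast_lam1, cast_lam2, cast_mg, cast_E0, cast_E1, cast_E2, cast_ek0, cast_ek1, cast_ek2, cast_t, cast_b, cast_b1, cast_b2, cast_hB, cast_hB1, cast_hC1, cast_Ewp, cast_Ess, cast_Ews]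
  push_cast
  rfl

/-- the check -/
def chk (m : XNum ℚ) (n : SNum ℚ) (Lp : ℚ) : Bool :=
  decide (0 < m.h) &&
  decide (0 ≤ m.eB0) &&
  decide (m.eB0 ≤ m.eB1) &&
  decide (m.eB1 ≤ m.eB2) &&
  decide (m.eB2 ≤ 1 / 1000) &&
  decide (0 ≤ m.eBx) &&
  decide (0 ≤ m.eA0) &&
  decide (m.eA0 ≤ m.eA1) &&
  decide (m.eA1 ≤ m.eA2) &&
  decide (m.eA2 ≤ 1 / 1000) &&
  decide (0 ≤ m.eAx) &&
  decide (0 ≤ m.eR) &&
  decide (0 ≤ m.ec0) &&
  decide (0 ≤ m.ec1) &&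
  decide (0 ≤ m.ec2) &&
  decide (1 ≤ m.k0) &&
  decide (0 ≤ m.k1) &&
  decide (0 ≤ m.k2) &&
  decide (0 ≤ m.kx) &&
  decide (0 ≤ m.kc0) &&
  decide (0 ≤ m.kc1) &&
  decide (0 ≤ m.kc2) &&
  decide (0 < m.Plo) &&
  decide (0 < m.l0) &&
  decide (0 < m.l1) &&
  decide (m.l0 ^ 4 ≤ m.Plo) &&
  decide (m.Phi ≤ m.l1 ^ 4) &&
  decide (m.eta' < 1) &&
  decide (n.eta < m.eta') &&
  decide ((m.k0 + m.E0) / m.l0 ≤ n.b0) &&
  decide ((m.k1 + m.E1) / m.l0 ^ 2 ≤ n.b1) &&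
  decide ((m.k2 + m.E2) / m.l0 ^ 3 ≤ n.b2) &&
  decide ((101 / 100 * m.eR / m.h + m.eB0 * (m.k2 + m.k0 ^ 3) + m.E2 + 2 * (m.k0 + m.E0) ^ 2 * m.E0) / m.l0 ^ 3 ≤ n.rho) &&
  decide (103 / 100 * (62832 / 10000 * m.l1 * (1 + m.eB0)) ≤ n.Lhi) &&
  decide (103 / 100 * n.Llo ≤ 628 / 100 * m.l0 * (1 - m.eB0)) &&
  decide (m.t * m.A0 / m.l0 ≤ n.a0) &&
  decide (101 / 100 * (m.t * m.A1) / m.l0 ^ 2 ≤ n.a1) &&
  decide (m.hB / m.l0 ^ 2 ≤ n.d0) &&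
  decide (101 / 100 * m.hB1 / m.l0 ^ 3 ≤ n.d1) &&
  decide (101 / 100 * m.hC1 / m.l0 ^ 4 ≤ n.g1) &&
  decide ((m.Ess + m.Ews / 2) / m.l0 ^ 2 ≤ n.es) &&
  decide (m.Ewp ^ 2 / (4 * (m.eta' - n.eta)) + m.Ews / 2 + m.Eww ≤ m.mg) &&
  decide (64 / 10 / (m.h * m.l0) * (2 * (m.k0 + m.eA0) * (m.kx + m.eAx) + 3 * m.eBx * (m.k0 + m.eA0) ^ 2 + (m.k0 + m.eA0) ^ 2 * m.dP / (4 * m.Plo)) ≤ Lp)

theorem ok_of_chk (m : XNum ℚ) (n : SNum ℚ) (Lp : ℚ) (h : chk m n Lp = true) : m.Ok n Lp := by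
  unfold chk at h
  simp only [Bool.and_eq_true, decide_eq_true_eq] at h
  obtain ⟨⟨⟨⟨⟨⟨⟨⟨⟨⟨⟨⟨⟨⟨⟨⟨⟨⟨⟨⟨⟨⟨⟨⟨⟨⟨⟨⟨⟨⟨⟨⟨⟨⟨⟨⟨⟨⟨⟨⟨⟨⟨h1, h2⟩, h3⟩, h4⟩, h5⟩, h6⟩, h7⟩, h8⟩, h9⟩, h10⟩, h11⟩, h12⟩, h13⟩, h14⟩, h15⟩, h16⟩, h17⟩, h18⟩, h19⟩, h20⟩, h21⟩, h22⟩, h23⟩, h24⟩, h25⟩, h26⟩, h27⟩, h28⟩, h29⟩, h30⟩, h31⟩, h32⟩, h33⟩, h34⟩, h35⟩, h36⟩, h37⟩, h38⟩, h39⟩, h40⟩, h41⟩, h42⟩, h43⟩ := h
  exact ⟨h1, h2, h3, h4, h5, h6, h7, h8, h9, h10, h11, h12, h13, h14, h15, h16, h17, h18, h19, h20, h21, h22, h23, h24, h25, h26, h27, h28, h29, h30, h31, h32, h33, h34, h35, h36, h37, h38, h39, h40, h41, h42, h43⟩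

theorem ok_cast (m : XNum ℚ) (n : SNum ℚ) (Lp : ℚ) (h : m.Ok n Lp) : m.cast.Ok n.cast (Lp : ℝ) := by
  refine ⟨?_, ?_, ?_, ?_, ?_, ?_, ?_, ?_, ?_, ?_, ?_, ?_, ?_, ?_, ?_, ?_, ?_, ?_, ?_, ?_, ?_, ?_, ?_, ?_, ?_, ?_, ?_, ?_, ?_, ?_, ?_, ?_, ?_, ?_, ?_, ?_, ?_, ?_, ?_, ?_, ?_, ?_, ?_⟩
  · have h1 := (Rat.cast_lt (K := ℝ)).2 h.h
    push_cast at h1
    simp only [cast_eB0, cast_eB1, cast_eB2, cast_eBx, cast_eA0, cast_eA1, cast_eA2, cast_eAx, cast_eR, cast_k0, cast_k1, cast_k2, cast_kx, cast_Plo, cast_Phi, cast_dP, cast_l0, cast_l1, cast_h, cast_ec0, cast_ec1, cast_ec2, cast_kc0, cast_kc1, cast_kc2, cast_A0, cast_A1, cast_A2, cast_A3, cast_etap, cast_lam0, cast_lam1, cast_lam2, cast_mg, cast_E0, cast_E1, cast_E2, cast_ek0, cast_ek1, cast_ek2, cast_t, cast_b, cast_b1, cast_b2, cast_hB, cast_hB1, cast_hC1, cast_Ewp, cast_Ess, cast_Ews, cast_Eww, SNum.cast_b0, SNum.cast_b1,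 SNum.cast_b2, SNum.cast_a0, SNum.cast_a1, SNum.cast_d0, SNum.cast_d1, SNum.cast_g1, SNum.cast_W, SNum.cast_S, SNum.cast_eta, SNum.cast_es, SNum.cast_z, SNum.cast_th, SNum.cast_Lr, SNum.cast_rho, SNum.cast_Llo, SNum.cast_Lhi, SNum.cast_rL, SNum.cast_dq, SNum.cast_c1, SNum.cast_c2, SNum.cast_c3, SNum.cast_c4, SNum.cast_c5, SNum.cast_c6, SNum.cast_cxy, SNum.cast_cL, SNum.cast_cQ]
    exact h1
  · have h1 := (Rat.cast_le (K := ℝ)).2 h.eB0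
    push_cast at h1
    simp only [cast_eB0, cast_eB1, cast_eB2, cast_eBx, cast_eA0, cast_eA1, cast_eA2, cast_eAx, cast_eR, cast_k0, cast_k1, cast_k2, cast_kx, cast_Plo, cast_Phi, cast_dP, cast_l0, cast_l1, cast_h, cast_ec0, cast_ec1, cast_ec2, cast_kc0, cast_kc1, cast_kc2, cast_A0, cast_A1, cast_A2, cast_A3, cast_etap, cast_lam0, cast_lam1, cast_lam2, cast_mg, cast_E0, cast_E1, cast_E2, cast_ek0, cast_ek1, cast_ek2, cast_t, cast_b, cast_b1, cast_b2, cast_hB, cast_hB1, cast_hC1, cast_Ewp, cast_Ess, cast_Ews, cast_Eww, SNum.cast_b0, SNum.cast_b1, SNum.cast_b2, SNum.cast_a0, SNum.cast_a1, SNum.cast_d0, SNum.cast_d1, SNum.cast_g1, SNum.cast_W, SNum.cast_S, SNum.cast_eta, SNum.cast_es, SNum.cast_z, SNum.cast_th, SNum.cast_Lr, SNum.cast_rho, SNum.cast_Llo, SNum.cast_Lhi, SNum.cast_rL, SNum.cast_dq, SNum.cast_c1, SNum.cast_c2, SNum.cast_c3, SNum.cast_c4, SNum.cast_c5,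 SNum.cast_c6, SNum.cast_cxy, SNum.cast_cL, SNum.cast_cQ]
    exact h1
  · have h1 := (Rat.cast_le (K := ℝ)).2 h.eB01
    push_cast at h1
    simp only [cast_eB0, cast_eB1, cast_eB2, cast_eBx, cast_eA0, cast_eA1, cast_eA2, cast_eAx, cast_eR, cast_k0, cast_k1, cast_k2, cast_kx, cast_Plo, cast_Phi, cast_dP, cast_l0, cast_l1, cast_h, cast_ec0, cast_ec1, cast_ec2, cast_kc0, cast_kc1, cast_kc2, cast_A0, cast_A1, cast_A2, cast_A3, cast_etap, cast_lam0, cast_lam1, cast_lam2, cast_mg, cast_E0, cast_E1, cast_E2, cast_ek0, cast_ek1, cast_ek2, cast_t, cast_b, cast_b1, cast_b2, cast_hB, cast_hB1, cast_hC1, cast_Ewp, cast_Ess, cast_Ews, cast_Eww, SNum.cast_b0, SNum.cast_b1, SNum.cast_b2, SNum.cast_a0, SNum.cast_a1, SNum.cast_d0, SNum.cast_d1, SNum.cast_g1, SNum.cast_W, SNum.cast_S, SNum.cast_eta, SNum.cast_es, SNum.cast_z, SNum.cast_th, SNum.cast_Lr, SNum.cast_rho, SNum.cast_Llo,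 SNum.cast_Lhi, SNum.cast_rL, SNum.cast_dq, SNum.cast_c1, SNum.cast_c2, SNum.cast_c3, SNum.cast_c4, SNum.cast_c5, SNum.cast_c6, SNum.cast_cxy, SNum.cast_cL, SNum.cast_cQ]
    exact h1
  · have h1 := (Rat.cast_le (K := ℝ)).2 h.eB12
    push_cast at h1
    simp only [cast_eB0, cast_eB1, cast_eB2, cast_eBx, cast_eA0, cast_eA1, cast_eA2, cast_eAx, cast_eR, cast_k0, cast_k1, cast_k2, cast_kx, cast_Plo, cast_Phi, cast_dP, cast_l0, cast_l1, cast_h, cast_ec0, cast_ec1, cast_ec2, cast_kc0, cast_kc1, cast_kc2, cast_A0, cast_A1, cast_A2, cast_A3, cast_etap, cast_lam0, cast_lam1, cast_lam2, cast_mg, cast_E0, cast_E1, cast_E2, cast_ek0, cast_ek1, cast_ek2, cast_t, cast_b, cast_b1, cast_b2, cast_hB, cast_hB1, cast_hC1, cast_Ewp, cast_Ess, cast_Ews, cast_Eww, SNum.cast_b0, SNum.cast_b1, SNum.cast_b2, SNum.cast_a0, SNum.cast_a1, SNum.cast_d0, SNum.cast_d1, SNum.cast_g1, SNum.cast_W,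 SNum.cast_S, SNum.cast_eta, SNum.cast_es, SNum.cast_z, SNum.cast_th, SNum.cast_Lr, SNum.cast_rho, SNum.cast_Llo, SNum.cast_Lhi, SNum.cast_rL, SNum.cast_dq, SNum.cast_c1, SNum.cast_c2, SNum.cast_c3, SNum.cast_c4, SNum.cast_c5, SNum.cast_c6, SNum.cast_cxy, SNum.cast_cL, SNum.cast_cQ]
    exact h1
  · have h1 := (Rat.cast_le (K := ℝ)).2 h.eB2
    push_cast at h1
    simp only [cast_eB0, cast_eB1, cast_eB2, cast_eBx, cast_eA0, cast_eA1, cast_eA2, cast_eAx, cast_eR, cast_k0, cast_k1, cast_k2, cast_kx, cast_Plo, cast_Phi, cast_dP, cast_l0, cast_l1, cast_h, cast_ec0, cast_ec1, cast_ec2, cast_kc0, cast_kc1, cast_kc2, cast_A0, cast_A1, cast_A2, cast_A3, cast_etap, cast_lam0, cast_lam1, cast_lam2, cast_mg, cast_E0, cast_E1, cast_E2, cast_ek0, cast_ek1, cast_ek2, cast_t, cast_b, cast_b1, cast_b2, cast_hB, cast_hB1, cast_hC1, cast_Ewp, cast_Ess, cast_Ews, cast_Eww, SNum.cast_b0,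 SNum.cast_b1, SNum.cast_b2, SNum.cast_a0, SNum.cast_a1, SNum.cast_d0, SNum.cast_d1, SNum.cast_g1, SNum.cast_W, SNum.cast_S, SNum.cast_eta, SNum.cast_es, SNum.cast_z, SNum.cast_th, SNum.cast_Lr, SNum.cast_rho, SNum.cast_Llo, SNum.cast_Lhi, SNum.cast_rL, SNum.cast_dq, SNum.cast_c1, SNum.cast_c2, SNum.cast_c3, SNum.cast_c4, SNum.cast_c5, SNum.cast_c6, SNum.cast_cxy, SNum.cast_cL, SNum.cast_cQ]
    exact h1
  · have h1 := (Rat.cast_le (K := ℝ)).2 h.eBx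
    push_cast at h1
    simp only [cast_eB0, cast_eB1, cast_eB2, cast_eBx, cast_eA0, cast_eA1, cast_eA2, cast_eAx, cast_eR, cast_k0, cast_k1, cast_k2, cast_kx, cast_Plo, cast_Phi, cast_dP, cast_l0, cast_l1, cast_h, cast_ec0, cast_ec1, cast_ec2, cast_kc0, cast_kc1, cast_kc2, cast_A0, cast_A1, cast_A2, cast_A3, cast_etap, cast_lam0, cast_lam1, cast_lam2, cast_mg, cast_E0, cast_E1, cast_E2, cast_ek0, cast_ek1, cast_ek2, cast_t, cast_b, cast_b1, cast_b2, cast_hB, cast_hB1, cast_hC1, cast_Ewp, cast_Ess, cast_Ews, cast_Eww, SNum.cast_b0, SNum.cast_b1, SNum.cast_b2, SNum.cast_a0, SNum.cast_a1, SNum.cast_d0, SNum.cast_d1, SNum.cast_g1, SNum.cast_W, SNum.cast_S, SNum.cast_eta, SNum.cast_es, SNum.cast_z, SNum.cast_th, SNum.cast_Lr, SNum.cast_rho, SNum.cast_Llo, SNum.cast_Lhi, SNum.cast_rL, SNum.cast_dq, SNum.cast_c1, SNum.cast_c2, SNum.cast_c3, SNum.cast_c4, SNum.cast_c5,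 SNum.cast_c6, SNum.cast_cxy, SNum.cast_cL, SNum.cast_cQ]
    exact h1
  · have h1 := (Rat.cast_le (K := ℝ)).2 h.eA0
    push_cast at h1
    simp only [cast_eB0, cast_eB1, cast_eB2, cast_eBx, cast_eA0, cast_eA1, cast_eA2, cast_eAx, cast_eR, cast_k0, cast_k1, cast_k2, cast_kx, cast_Plo, cast_Phi, cast_dP, cast_l0, cast_l1, cast_h, cast_ec0, cast_ec1, cast_ec2, cast_kc0, cast_kc1, cast_kc2, cast_A0, cast_A1, cast_A2, cast_A3, cast_etap, cast_lam0, cast_lam1, cast_lam2, cast_mg, cast_E0, cast_E1, cast_E2, cast_ek0, cast_ek1, cast_ek2, cast_t, cast_b, cast_b1, cast_b2, cast_hB, cast_hB1, cast_hC1, cast_Ewp, cast_Ess, cast_Ews, cast_Eww, SNum.cast_b0, SNum.cast_b1, SNum.cast_b2, SNum.cast_a0, SNum.cast_a1, SNum.cast_d0, SNum.cast_d1, SNum.cast_g1, SNum.cast_W, SNum.cast_S, SNum.cast_eta, SNum.cast_es, SNum.cast_z, SNum.cast_th, SNum.cast_Lr, SNum.cast_rho, SNum.cast_Llo,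 SNum.cast_Lhi, SNum.cast_rL, SNum.cast_dq, SNum.cast_c1, SNum.cast_c2, SNum.cast_c3, SNum.cast_c4, SNum.cast_c5, SNum.cast_c6, SNum.cast_cxy, SNum.cast_cL, SNum.cast_cQ]
    exact h1
  · have h1 := (Rat.cast_le (K := ℝ)).2 h.eA01
    push_cast at h1
    simp only [cast_eB0, cast_eB1, cast_eB2, cast_eBx, cast_eA0, cast_eA1, cast_eA2, cast_eAx, cast_eR, cast_k0, cast_k1, cast_k2, cast_kx, cast_Plo, cast_Phi, cast_dP, cast_l0, cast_l1, cast_h, cast_ec0, cast_ec1, cast_ec2, cast_kc0, cast_kc1, cast_kc2, cast_A0, cast_A1, cast_A2, cast_A3, cast_etap, cast_lam0, cast_lam1, cast_lam2, cast_mg, cast_E0, cast_E1, cast_E2, cast_ek0, cast_ek1, cast_ek2, cast_t, cast_b, cast_b1, cast_b2, cast_hB, cast_hB1, cast_hC1, cast_Ewp, cast_Ess, cast_Ews, cast_Eww, SNum.cast_b0, SNum.cast_b1, SNum.cast_b2, SNum.cast_a0, SNum.cast_a1, SNum.cast_d0, SNum.cast_d1, SNum.cast_g1, SNum.cast_W,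 SNum.cast_S, SNum.cast_eta, SNum.cast_es, SNum.cast_z, SNum.cast_th, SNum.cast_Lr, SNum.cast_rho, SNum.cast_Llo, SNum.cast_Lhi, SNum.cast_rL, SNum.cast_dq, SNum.cast_c1, SNum.cast_c2, SNum.cast_c3, SNum.cast_c4, SNum.cast_c5, SNum.cast_c6, SNum.cast_cxy, SNum.cast_cL, SNum.cast_cQ]
    exact h1
  · have h1 := (Rat.cast_le (K := ℝ)).2 h.eA12
    push_cast at h1
    simp only [cast_eB0, cast_eB1, cast_eB2, cast_eBx, cast_eA0, cast_eA1, cast_eA2, cast_eAx, cast_eR, cast_k0, cast_k1, cast_k2, cast_kx, cast_Plo, cast_Phi, cast_dP, cast_l0, cast_l1, cast_h, cast_ec0, cast_ec1, cast_ec2, cast_kc0, cast_kc1, cast_kc2, cast_A0, cast_A1, cast_A2, cast_A3, cast_etap, cast_lam0, cast_lam1, cast_lam2, cast_mg, cast_E0, cast_E1, cast_E2, cast_ek0, cast_ek1, cast_ek2, cast_t, cast_b, cast_b1, cast_b2, cast_hB, cast_hB1, cast_hC1, cast_Ewp, cast_Ess, cast_Ews, cast_Eww, SNum.cast_b0,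 SNum.cast_b1, SNum.cast_b2, SNum.cast_a0, SNum.cast_a1, SNum.cast_d0, SNum.cast_d1, SNum.cast_g1, SNum.cast_W, SNum.cast_S, SNum.cast_eta, SNum.cast_es, SNum.cast_z, SNum.cast_th, SNum.cast_Lr, SNum.cast_rho, SNum.cast_Llo, SNum.cast_Lhi, SNum.cast_rL, SNum.cast_dq, SNum.cast_c1, SNum.cast_c2, SNum.cast_c3, SNum.cast_c4, SNum.cast_c5, SNum.cast_c6, SNum.cast_cxy, SNum.cast_cL, SNum.cast_cQ]
    exact h1
  · have h1 := (Rat.cast_le (K := ℝ)).2 h.eA2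
    push_cast at h1
    simp only [cast_eB0, cast_eB1, cast_eB2, cast_eBx, cast_eA0, cast_eA1, cast_eA2, cast_eAx, cast_eR, cast_k0, cast_k1, cast_k2, cast_kx, cast_Plo, cast_Phi, cast_dP, cast_l0, cast_l1, cast_h, cast_ec0, cast_ec1, cast_ec2, cast_kc0, cast_kc1, cast_kc2, cast_A0, cast_A1, cast_A2, cast_A3, cast_etap, cast_lam0, cast_lam1, cast_lam2, cast_mg, cast_E0, cast_E1, cast_E2, cast_ek0, cast_ek1, cast_ek2, cast_t, cast_b, cast_b1, cast_b2, cast_hB, cast_hB1, cast_hC1, cast_Ewp, cast_Ess, cast_Ews, cast_Eww, SNum.cast_b0, SNum.cast_b1, SNum.cast_b2, SNum.cast_a0, SNum.cast_a1, SNum.cast_d0, SNum.cast_d1, SNum.cast_g1, SNum.cast_W, SNum.cast_S, SNum.cast_eta, SNum.cast_es, SNum.cast_z, SNum.cast_th, SNum.cast_Lr, SNum.cast_rho, SNum.cast_Llo, SNum.cast_Lhi, SNum.cast_rL, SNum.cast_dq, SNum.cast_c1, SNum.cast_c2, SNum.cast_c3, SNum.cast_c4, SNum.cast_c5,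 SNum.cast_c6, SNum.cast_cxy, SNum.cast_cL, SNum.cast_cQ]
    exact h1
  · have h1 := (Rat.cast_le (K := ℝ)).2 h.eAx
    push_cast at h1
    simp only [cast_eB0, cast_eB1, cast_eB2, cast_eBx, cast_eA0, cast_eA1, cast_eA2, cast_eAx, cast_eR, cast_k0, cast_k1, cast_k2, cast_kx, cast_Plo, cast_Phi, cast_dP, cast_l0, cast_l1, cast_h, cast_ec0, cast_ec1, cast_ec2, cast_kc0, cast_kc1, cast_kc2, cast_A0, cast_A1, cast_A2, cast_A3, cast_etap, cast_lam0, cast_lam1, cast_lam2, cast_mg, cast_E0, cast_E1, cast_E2, cast_ek0, cast_ek1, cast_ek2, cast_t, cast_b, cast_b1, cast_b2, cast_hB, cast_hB1, cast_hC1, cast_Ewp, cast_Ess, cast_Ews, cast_Eww, SNum.cast_b0, SNum.cast_b1, SNum.cast_b2, SNum.cast_a0, SNum.cast_a1, SNum.cast_d0, SNum.cast_d1, SNum.cast_g1, SNum.cast_W, SNum.cast_S, SNum.cast_eta, SNum.cast_es, SNum.cast_z, SNum.cast_th, SNum.cast_Lr, SNum.cast_rho, SNum.cast_Llo,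 SNum.cast_Lhi, SNum.cast_rL, SNum.cast_dq, SNum.cast_c1, SNum.cast_c2, SNum.cast_c3, SNum.cast_c4, SNum.cast_c5, SNum.cast_c6, SNum.cast_cxy, SNum.cast_cL, SNum.cast_cQ]
    exact h1
  · have h1 := (Rat.cast_le (K := ℝ)).2 h.eR
    push_cast at h1
    simp only [cast_eB0, cast_eB1, cast_eB2, cast_eBx, cast_eA0, cast_eA1, cast_eA2, cast_eAx, cast_eR, cast_k0, cast_k1, cast_k2, cast_kx, cast_Plo, cast_Phi, cast_dP, cast_l0, cast_l1, cast_h, cast_ec0, cast_ec1, cast_ec2, cast_kc0, cast_kc1, cast_kc2, cast_A0, cast_A1, cast_A2, cast_A3, cast_etap, cast_lam0, cast_lam1, cast_lam2, cast_mg, cast_E0, cast_E1, cast_E2, cast_ek0, cast_ek1, cast_ek2, cast_t, cast_b, cast_b1, cast_b2, cast_hB, cast_hB1, cast_hC1, cast_Ewp, cast_Ess, cast_Ews, cast_Eww, SNum.cast_b0, SNum.cast_b1, SNum.cast_b2, SNum.cast_a0, SNum.cast_a1, SNum.cast_d0, SNum.cast_d1, SNum.cast_g1, SNum.cast_W,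 SNum.cast_S, SNum.cast_eta, SNum.cast_es, SNum.cast_z, SNum.cast_th, SNum.cast_Lr, SNum.cast_rho, SNum.cast_Llo, SNum.cast_Lhi, SNum.cast_rL, SNum.cast_dq, SNum.cast_c1, SNum.cast_c2, SNum.cast_c3, SNum.cast_c4, SNum.cast_c5, SNum.cast_c6, SNum.cast_cxy, SNum.cast_cL, SNum.cast_cQ]
    exact h1
  · have h1 := (Rat.cast_le (K := ℝ)).2 h.ec0
    push_cast at h1
    simp only [cast_eB0, cast_eB1, cast_eB2, cast_eBx, cast_eA0, cast_eA1, cast_eA2, cast_eAx, cast_eR, cast_k0, cast_k1, cast_k2, cast_kx, cast_Plo, cast_Phi, cast_dP, cast_l0, cast_l1, cast_h, cast_ec0, cast_ec1, cast_ec2, cast_kc0, cast_kc1, cast_kc2, cast_A0, cast_A1, cast_A2, cast_A3, cast_etap, cast_lam0, cast_lam1, cast_lam2, cast_mg, cast_E0, cast_E1, cast_E2, cast_ek0, cast_ek1, cast_ek2, cast_t, cast_b, cast_b1, cast_b2, cast_hB, cast_hB1, cast_hC1, cast_Ewp, cast_Ess, cast_Ews, cast_Eww, SNum.cast_b0,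 SNum.cast_b1, SNum.cast_b2, SNum.cast_a0, SNum.cast_a1, SNum.cast_d0, SNum.cast_d1, SNum.cast_g1, SNum.cast_W, SNum.cast_S, SNum.cast_eta, SNum.cast_es, SNum.cast_z, SNum.cast_th, SNum.cast_Lr, SNum.cast_rho, SNum.cast_Llo, SNum.cast_Lhi, SNum.cast_rL, SNum.cast_dq, SNum.cast_c1, SNum.cast_c2, SNum.cast_c3, SNum.cast_c4, SNum.cast_c5, SNum.cast_c6, SNum.cast_cxy, SNum.cast_cL, SNum.cast_cQ]
    exact h1
  · have h1 := (Rat.cast_le (K := ℝ)).2 h.ec1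
    push_cast at h1
    simp only [cast_eB0, cast_eB1, cast_eB2, cast_eBx, cast_eA0, cast_eA1, cast_eA2, cast_eAx, cast_eR, cast_k0, cast_k1, cast_k2, cast_kx, cast_Plo, cast_Phi, cast_dP, cast_l0, cast_l1, cast_h, cast_ec0, cast_ec1, cast_ec2, cast_kc0, cast_kc1, cast_kc2, cast_A0, cast_A1, cast_A2, cast_A3, cast_etap, cast_lam0, cast_lam1, cast_lam2, cast_mg, cast_E0, cast_E1, cast_E2, cast_ek0, cast_ek1, cast_ek2, cast_t, cast_b, cast_b1, cast_b2, cast_hB, cast_hB1, cast_hC1, cast_Ewp, cast_Ess, cast_Ews, cast_Eww, SNum.cast_b0, SNum.cast_b1, SNum.cast_b2, SNum.cast_a0, SNum.cast_a1, SNum.cast_d0, SNum.cast_d1, SNum.cast_g1, SNum.cast_W, SNum.cast_S, SNum.cast_eta, SNum.cast_es, SNum.cast_z, SNum.cast_th, SNum.cast_Lr, SNum.cast_rho, SNum.cast_Llo, SNum.cast_Lhi, SNum.cast_rL, SNum.cast_dq, SNum.cast_c1, SNum.cast_c2, SNum.cast_c3, SNum.cast_c4, SNum.cast_c5,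 SNum.cast_c6, SNum.cast_cxy, SNum.cast_cL, SNum.cast_cQ]
    exact h1
  · have h1 := (Rat.cast_le (K := ℝ)).2 h.ec2
    push_cast at h1
    simp only [cast_eB0, cast_eB1, cast_eB2, cast_eBx, cast_eA0, cast_eA1, cast_eA2, cast_eAx, cast_eR, cast_k0, cast_k1, cast_k2, cast_kx, cast_Plo, cast_Phi, cast_dP, cast_l0, cast_l1, cast_h, cast_ec0, cast_ec1, cast_ec2, cast_kc0, cast_kc1, cast_kc2, cast_A0, cast_A1, cast_A2, cast_A3, cast_etap, cast_lam0, cast_lam1, cast_lam2, cast_mg, cast_E0, cast_E1, cast_E2, cast_ek0, cast_ek1, cast_ek2, cast_t, cast_b, cast_b1, cast_b2, cast_hB, cast_hB1, cast_hC1, cast_Ewp, cast_Ess, cast_Ews, cast_Eww, SNum.cast_b0, SNum.cast_b1, SNum.cast_b2, SNum.cast_a0, SNum.cast_a1, SNum.cast_d0, SNum.cast_d1, SNum.cast_g1, SNum.cast_W, SNum.cast_S, SNum.cast_eta, SNum.cast_es, SNum.cast_z, SNum.cast_th, SNum.cast_Lr, SNum.cast_rho, SNum.cast_Llo,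 SNum.cast_Lhi, SNum.cast_rL, SNum.cast_dq, SNum.cast_c1, SNum.cast_c2, SNum.cast_c3, SNum.cast_c4, SNum.cast_c5, SNum.cast_c6, SNum.cast_cxy, SNum.cast_cL, SNum.cast_cQ]
    exact h1
  · have h1 := (Rat.cast_le (K := ℝ)).2 h.k0
    push_cast at h1
    simp only [cast_eB0, cast_eB1, cast_eB2, cast_eBx, cast_eA0, cast_eA1, cast_eA2, cast_eAx, cast_eR, cast_k0, cast_k1, cast_k2, cast_kx, cast_Plo, cast_Phi, cast_dP, cast_l0, cast_l1, cast_h, cast_ec0, cast_ec1, cast_ec2, cast_kc0, cast_kc1, cast_kc2, cast_A0, cast_A1, cast_A2, cast_A3, cast_etap, cast_lam0, cast_lam1, cast_lam2, cast_mg, cast_E0, cast_E1, cast_E2, cast_ek0, cast_ek1, cast_ek2, cast_t, cast_b, cast_b1, cast_b2, cast_hB, cast_hB1, cast_hC1, cast_Ewp, cast_Ess, cast_Ews, cast_Eww, SNum.cast_b0, SNum.cast_b1, SNum.cast_b2, SNum.cast_a0, SNum.cast_a1, SNum.cast_d0, SNum.cast_d1, SNum.cast_g1, SNum.cast_W,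 SNum.cast_S, SNum.cast_eta, SNum.cast_es, SNum.cast_z, SNum.cast_th, SNum.cast_Lr, SNum.cast_rho, SNum.cast_Llo, SNum.cast_Lhi, SNum.cast_rL, SNum.cast_dq, SNum.cast_c1, SNum.cast_c2, SNum.cast_c3, SNum.cast_c4, SNum.cast_c5, SNum.cast_c6, SNum.cast_cxy, SNum.cast_cL, SNum.cast_cQ]
    exact h1
  · have h1 := (Rat.cast_le (K := ℝ)).2 h.k1
    push_cast at h1
    simp only [cast_eB0, cast_eB1, cast_eB2, cast_eBx, cast_eA0, cast_eA1, cast_eA2, cast_eAx, cast_eR, cast_k0, cast_k1, cast_k2, cast_kx, cast_Plo, cast_Phi, cast_dP, cast_l0, cast_l1, cast_h, cast_ec0, cast_ec1, cast_ec2, cast_kc0, cast_kc1, cast_kc2, cast_A0, cast_A1, cast_A2, cast_A3, cast_etap, cast_lam0, cast_lam1, cast_lam2, cast_mg, cast_E0, cast_E1, cast_E2, cast_ek0, cast_ek1, cast_ek2, cast_t, cast_b, cast_b1, cast_b2, cast_hB, cast_hB1, cast_hC1, cast_Ewp, cast_Ess, cast_Ews, cast_Eww, SNum.cast_b0,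 SNum.cast_b1, SNum.cast_b2, SNum.cast_a0, SNum.cast_a1, SNum.cast_d0, SNum.cast_d1, SNum.cast_g1, SNum.cast_W, SNum.cast_S, SNum.cast_eta, SNum.cast_es, SNum.cast_z, SNum.cast_th, SNum.cast_Lr, SNum.cast_rho, SNum.cast_Llo, SNum.cast_Lhi, SNum.cast_rL, SNum.cast_dq, SNum.cast_c1, SNum.cast_c2, SNum.cast_c3, SNum.cast_c4, SNum.cast_c5, SNum.cast_c6, SNum.cast_cxy, SNum.cast_cL, SNum.cast_cQ]
    exact h1
  · have h1 := (Rat.cast_le (K := ℝ)).2 h.k2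
    push_cast at h1
    simp only [cast_eB0, cast_eB1, cast_eB2, cast_eBx, cast_eA0, cast_eA1, cast_eA2, cast_eAx, cast_eR, cast_k0, cast_k1, cast_k2, cast_kx, cast_Plo, cast_Phi, cast_dP, cast_l0, cast_l1, cast_h, cast_ec0, cast_ec1, cast_ec2, cast_kc0, cast_kc1, cast_kc2, cast_A0, cast_A1, cast_A2, cast_A3, cast_etap, cast_lam0, cast_lam1, cast_lam2, cast_mg, cast_E0, cast_E1, cast_E2, cast_ek0, cast_ek1, cast_ek2, cast_t, cast_b, cast_b1, cast_b2, cast_hB, cast_hB1, cast_hC1, cast_Ewp, cast_Ess, cast_Ews, cast_Eww, SNum.cast_b0, SNum.cast_b1, SNum.cast_b2, SNum.cast_a0, SNum.cast_a1, SNum.cast_d0, SNum.cast_d1, SNum.cast_g1, SNum.cast_W, SNum.cast_S, SNum.cast_eta, SNum.cast_es, SNum.cast_z, SNum.cast_th, SNum.cast_Lr, SNum.cast_rho, SNum.cast_Llo, SNum.cast_Lhi, SNum.cast_rL, SNum.cast_dq, SNum.cast_c1, SNum.cast_c2, SNum.cast_c3, SNum.cast_c4, SNum.cast_c5,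 SNum.cast_c6, SNum.cast_cxy, SNum.cast_cL, SNum.cast_cQ]
    exact h1
  · have h1 := (Rat.cast_le (K := ℝ)).2 h.kx
    push_cast at h1
    simp only [cast_eB0, cast_eB1, cast_eB2, cast_eBx, cast_eA0, cast_eA1, cast_eA2, cast_eAx, cast_eR, cast_k0, cast_k1, cast_k2, cast_kx, cast_Plo, cast_Phi, cast_dP, cast_l0, cast_l1, cast_h, cast_ec0, cast_ec1, cast_ec2, cast_kc0, cast_kc1, cast_kc2, cast_A0, cast_A1, cast_A2, cast_A3, cast_etap, cast_lam0, cast_lam1, cast_lam2, cast_mg, cast_E0, cast_E1, cast_E2, cast_ek0, cast_ek1, cast_ek2, cast_t, cast_b, cast_b1, cast_b2, cast_hB, cast_hB1, cast_hC1, cast_Ewp, cast_Ess, cast_Ews, cast_Eww, SNum.cast_b0, SNum.cast_b1, SNum.cast_b2, SNum.cast_a0, SNum.cast_a1, SNum.cast_d0, SNum.cast_d1, SNum.cast_g1, SNum.cast_W, SNum.cast_S, SNum.cast_eta, SNum.cast_es, SNum.cast_z, SNum.cast_th, SNum.cast_Lr, SNum.cast_rho, SNum.cast_Llo,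 SNum.cast_Lhi, SNum.cast_rL, SNum.cast_dq, SNum.cast_c1, SNum.cast_c2, SNum.cast_c3, SNum.cast_c4, SNum.cast_c5, SNum.cast_c6, SNum.cast_cxy, SNum.cast_cL, SNum.cast_cQ]
    exact h1
  · have h1 := (Rat.cast_le (K := ℝ)).2 h.kc0
    push_cast at h1
    simp only [cast_eB0, cast_eB1, cast_eB2, cast_eBx, cast_eA0, cast_eA1, cast_eA2, cast_eAx, cast_eR, cast_k0, cast_k1, cast_k2, cast_kx, cast_Plo, cast_Phi, cast_dP, cast_l0, cast_l1, cast_h, cast_ec0, cast_ec1, cast_ec2, cast_kc0, cast_kc1, cast_kc2, cast_A0, cast_A1, cast_A2, cast_A3, cast_etap, cast_lam0, cast_lam1, cast_lam2, cast_mg, cast_E0, cast_E1, cast_E2, cast_ek0, cast_ek1, cast_ek2, cast_t, cast_b, cast_b1, cast_b2, cast_hB, cast_hB1, cast_hC1, cast_Ewp, cast_Ess, cast_Ews, cast_Eww, SNum.cast_b0, SNum.cast_b1, SNum.cast_b2, SNum.cast_a0, SNum.cast_a1, SNum.cast_d0, SNum.cast_d1, SNum.cast_g1, SNum.cast_W,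 SNum.cast_S, SNum.cast_eta, SNum.cast_es, SNum.cast_z, SNum.cast_th, SNum.cast_Lr, SNum.cast_rho, SNum.cast_Llo, SNum.cast_Lhi, SNum.cast_rL, SNum.cast_dq, SNum.cast_c1, SNum.cast_c2, SNum.cast_c3, SNum.cast_c4, SNum.cast_c5, SNum.cast_c6, SNum.cast_cxy, SNum.cast_cL, SNum.cast_cQ]
    exact h1
  · have h1 := (Rat.cast_le (K := ℝ)).2 h.kc1
    push_cast at h1
    simp only [cast_eB0, cast_eB1, cast_eB2, cast_eBx, cast_eA0, cast_eA1, cast_eA2, cast_eAx, cast_eR, cast_k0, cast_k1, cast_k2, cast_kx, cast_Plo, cast_Phi, cast_dP, cast_l0, cast_l1, cast_h, cast_ec0, cast_ec1, cast_ec2, cast_kc0, cast_kc1, cast_kc2, cast_A0, cast_A1, cast_A2, cast_A3, cast_etap, cast_lam0, cast_lam1, cast_lam2, cast_mg, cast_E0, cast_E1, cast_E2, cast_ek0, cast_ek1, cast_ek2, cast_t, cast_b, cast_b1, cast_b2, cast_hB, cast_hB1, cast_hC1, cast_Ewp, cast_Ess, cast_Ews, cast_Eww, SNum.cast_b0,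 SNum.cast_b1, SNum.cast_b2, SNum.cast_a0, SNum.cast_a1, SNum.cast_d0, SNum.cast_d1, SNum.cast_g1, SNum.cast_W, SNum.cast_S, SNum.cast_eta, SNum.cast_es, SNum.cast_z, SNum.cast_th, SNum.cast_Lr, SNum.cast_rho, SNum.cast_Llo, SNum.cast_Lhi, SNum.cast_rL, SNum.cast_dq, SNum.cast_c1, SNum.cast_c2, SNum.cast_c3, SNum.cast_c4, SNum.cast_c5, SNum.cast_c6, SNum.cast_cxy, SNum.cast_cL, SNum.cast_cQ]
    exact h1
  · have h1 := (Rat.cast_le (K := ℝ)).2 h.kc2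
    push_cast at h1
    simp only [cast_eB0, cast_eB1, cast_eB2, cast_eBx, cast_eA0, cast_eA1, cast_eA2, cast_eAx, cast_eR, cast_k0, cast_k1, cast_k2, cast_kx, cast_Plo, cast_Phi, cast_dP, cast_l0, cast_l1, cast_h, cast_ec0, cast_ec1, cast_ec2, cast_kc0, cast_kc1, cast_kc2, cast_A0, cast_A1, cast_A2, cast_A3, cast_etap, cast_lam0, cast_lam1, cast_lam2, cast_mg, cast_E0, cast_E1, cast_E2, cast_ek0, cast_ek1, cast_ek2, cast_t, cast_b, cast_b1, cast_b2, cast_hB, cast_hB1, cast_hC1, cast_Ewp, cast_Ess, cast_Ews, cast_Eww, SNum.cast_b0, SNum.cast_b1, SNum.cast_b2, SNum.cast_a0, SNum.cast_a1, SNum.cast_d0, SNum.cast_d1, SNum.cast_g1, SNum.cast_W, SNum.cast_S, SNum.cast_eta, SNum.cast_es, SNum.cast_z, SNum.cast_th, SNum.cast_Lr, SNum.cast_rho, SNum.cast_Llo, SNum.cast_Lhi, SNum.cast_rL, SNum.cast_dq, SNum.cast_c1, SNum.cast_c2, SNum.cast_c3, SNum.cast_c4, SNum.cast_c5,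 SNum.cast_c6, SNum.cast_cxy, SNum.cast_cL, SNum.cast_cQ]
    exact h1
  · have h1 := (Rat.cast_lt (K := ℝ)).2 h.Plo
    push_cast at h1
    simp only [cast_eB0, cast_eB1, cast_eB2, cast_eBx, cast_eA0, cast_eA1, cast_eA2, cast_eAx, cast_eR, cast_k0, cast_k1, cast_k2, cast_kx, cast_Plo, cast_Phi, cast_dP, cast_l0, cast_l1, cast_h, cast_ec0, cast_ec1, cast_ec2, cast_kc0, cast_kc1, cast_kc2, cast_A0, cast_A1, cast_A2, cast_A3, cast_etap, cast_lam0, cast_lam1, cast_lam2, cast_mg, cast_E0, cast_E1, cast_E2, cast_ek0, cast_ek1, cast_ek2, cast_t, cast_b, cast_b1, cast_b2, cast_hB, cast_hB1, cast_hC1, cast_Ewp, cast_Ess, cast_Ews, cast_Eww, SNum.cast_b0, SNum.cast_b1, SNum.cast_b2, SNum.cast_a0, SNum.cast_a1, SNum.cast_d0, SNum.cast_d1, SNum.cast_g1, SNum.cast_W, SNum.cast_S, SNum.cast_eta, SNum.cast_es, SNum.cast_z, SNum.cast_th, SNum.cast_Lr, SNum.cast_rho, SNum.cast_Llo,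 SNum.cast_Lhi, SNum.cast_rL, SNum.cast_dq, SNum.cast_c1, SNum.cast_c2, SNum.cast_c3, SNum.cast_c4, SNum.cast_c5, SNum.cast_c6, SNum.cast_cxy, SNum.cast_cL, SNum.cast_cQ]
    exact h1
  · have h1 := (Rat.cast_lt (K := ℝ)).2 h.l0
    push_cast at h1
    simp only [cast_eB0, cast_eB1, cast_eB2, cast_eBx, cast_eA0, cast_eA1, cast_eA2, cast_eAx, cast_eR, cast_k0, cast_k1, cast_k2, cast_kx, cast_Plo, cast_Phi, cast_dP, cast_l0, cast_l1, cast_h, cast_ec0, cast_ec1, cast_ec2, cast_kc0, cast_kc1, cast_kc2, cast_A0, cast_A1, cast_A2, cast_A3, cast_etap, cast_lam0, cast_lam1, cast_lam2, cast_mg, cast_E0, cast_E1, cast_E2, cast_ek0, cast_ek1, cast_ek2, cast_t, cast_b, cast_b1, cast_b2, cast_hB, cast_hB1, cast_hC1, cast_Ewp, cast_Ess, cast_Ews, cast_Eww, SNum.cast_b0, SNum.cast_b1, SNum.cast_b2, SNum.cast_a0, SNum.cast_a1, SNum.cast_d0, SNum.cast_d1, SNum.cast_g1, SNum.cast_W,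 SNum.cast_S, SNum.cast_eta, SNum.cast_es, SNum.cast_z, SNum.cast_th, SNum.cast_Lr, SNum.cast_rho, SNum.cast_Llo, SNum.cast_Lhi, SNum.cast_rL, SNum.cast_dq, SNum.cast_c1, SNum.cast_c2, SNum.cast_c3, SNum.cast_c4, SNum.cast_c5, SNum.cast_c6, SNum.cast_cxy, SNum.cast_cL, SNum.cast_cQ]
    exact h1
  · have h1 := (Rat.cast_lt (K := ℝ)).2 h.l1
    push_cast at h1
    simp only [cast_eB0, cast_eB1, cast_eB2, cast_eBx, cast_eA0, cast_eA1, cast_eA2, cast_eAx, cast_eR, cast_k0, cast_k1, cast_k2, cast_kx, cast_Plo, cast_Phi, cast_dP, cast_l0, cast_l1, cast_h, cast_ec0, cast_ec1, cast_ec2, cast_kc0, cast_kc1, cast_kc2, cast_A0, cast_A1, cast_A2, cast_A3, cast_etap, cast_lam0, cast_lam1, cast_lam2, cast_mg, cast_E0, cast_E1, cast_E2, cast_ek0, cast_ek1, cast_ek2, cast_t, cast_b, cast_b1, cast_b2, cast_hB, cast_hB1, cast_hC1, cast_Ewp, cast_Ess, cast_Ews, cast_Eww, SNum.cast_b0,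 SNum.cast_b1, SNum.cast_b2, SNum.cast_a0, SNum.cast_a1, SNum.cast_d0, SNum.cast_d1, SNum.cast_g1, SNum.cast_W, SNum.cast_S, SNum.cast_eta, SNum.cast_es, SNum.cast_z, SNum.cast_th, SNum.cast_Lr, SNum.cast_rho, SNum.cast_Llo, SNum.cast_Lhi, SNum.cast_rL, SNum.cast_dq, SNum.cast_c1, SNum.cast_c2, SNum.cast_c3, SNum.cast_c4, SNum.cast_c5, SNum.cast_c6, SNum.cast_cxy, SNum.cast_cL, SNum.cast_cQ]
    exact h1
  · have h1 := (Rat.cast_le (K := ℝ)).2 h.hl0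
    push_cast at h1
    simp only [cast_eB0, cast_eB1, cast_eB2, cast_eBx, cast_eA0, cast_eA1, cast_eA2, cast_eAx, cast_eR, cast_k0, cast_k1, cast_k2, cast_kx, cast_Plo, cast_Phi, cast_dP, cast_l0, cast_l1, cast_h, cast_ec0, cast_ec1, cast_ec2, cast_kc0, cast_kc1, cast_kc2, cast_A0, cast_A1, cast_A2, cast_A3, cast_etap, cast_lam0, cast_lam1, cast_lam2, cast_mg, cast_E0, cast_E1, cast_E2, cast_ek0, cast_ek1, cast_ek2, cast_t, cast_b, cast_b1, cast_b2, cast_hB, cast_hB1, cast_hC1, cast_Ewp, cast_Ess, cast_Ews, cast_Eww, SNum.cast_b0, SNum.cast_b1, SNum.cast_b2, SNum.cast_a0, SNum.cast_a1, SNum.cast_d0, SNum.cast_d1, SNum.cast_g1, SNum.cast_W, SNum.cast_S, SNum.cast_eta, SNum.cast_es, SNum.cast_z, SNum.cast_th, SNum.cast_Lr, SNum.cast_rho, SNum.cast_Llo, SNum.cast_Lhi, SNum.cast_rL, SNum.cast_dq, SNum.cast_c1, SNum.cast_c2, SNum.cast_c3, SNum.cast_c4, SNum.cast_c5,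 SNum.cast_c6, SNum.cast_cxy, SNum.cast_cL, SNum.cast_cQ]
    exact h1
  · have h1 := (Rat.cast_le (K := ℝ)).2 h.hl1
    push_cast at h1
    simp only [cast_eB0, cast_eB1, cast_eB2, cast_eBx, cast_eA0, cast_eA1, cast_eA2, cast_eAx, cast_eR, cast_k0, cast_k1, cast_k2, cast_kx, cast_Plo, cast_Phi, cast_dP, cast_l0, cast_l1, cast_h, cast_ec0, cast_ec1, cast_ec2, cast_kc0, cast_kc1, cast_kc2, cast_A0, cast_A1, cast_A2, cast_A3, cast_etap, cast_lam0, cast_lam1, cast_lam2, cast_mg, cast_E0, cast_E1, cast_E2, cast_ek0, cast_ek1, cast_ek2, cast_t, cast_b, cast_b1, cast_b2, cast_hB, cast_hB1, cast_hC1, cast_Ewp, cast_Ess, cast_Ews, cast_Eww, SNum.cast_b0, SNum.cast_b1, SNum.cast_b2, SNum.cast_a0, SNum.cast_a1, SNum.cast_d0, SNum.cast_d1, SNum.cast_g1, SNum.cast_W, SNum.cast_S, SNum.cast_eta, SNum.cast_es, SNum.cast_z, SNum.cast_th, SNum.cast_Lr, SNum.cast_rho, SNum.cast_Llo,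 SNum.cast_Lhi, SNum.cast_rL, SNum.cast_dq, SNum.cast_c1, SNum.cast_c2, SNum.cast_c3, SNum.cast_c4, SNum.cast_c5, SNum.cast_c6, SNum.cast_cxy, SNum.cast_cL, SNum.cast_cQ]
    exact h1
  · have h1 := (Rat.cast_lt (K := ℝ)).2 h.eta'
    push_cast at h1
    simp only [cast_eB0, cast_eB1, cast_eB2, cast_eBx, cast_eA0, cast_eA1, cast_eA2, cast_eAx, cast_eR, cast_k0, cast_k1, cast_k2, cast_kx, cast_Plo, cast_Phi, cast_dP, cast_l0, cast_l1, cast_h, cast_ec0, cast_ec1, cast_ec2, cast_kc0, cast_kc1, cast_kc2, cast_A0, cast_A1, cast_A2, cast_A3, cast_etap, cast_lam0, cast_lam1, cast_lam2, cast_mg, cast_E0, cast_E1, cast_E2, cast_ek0, cast_ek1, cast_ek2, cast_t, cast_b, cast_b1, cast_b2, cast_hB, cast_hB1, cast_hC1, cast_Ewp, cast_Ess, cast_Ews, cast_Eww, SNum.cast_b0, SNum.cast_b1, SNum.cast_b2, SNum.cast_a0, SNum.cast_a1, SNum.cast_d0, SNum.cast_d1, SNum.cast_g1, SNum.cast_W,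 SNum.cast_S, SNum.cast_eta, SNum.cast_es, SNum.cast_z, SNum.cast_th, SNum.cast_Lr, SNum.cast_rho, SNum.cast_Llo, SNum.cast_Lhi, SNum.cast_rL, SNum.cast_dq, SNum.cast_c1, SNum.cast_c2, SNum.cast_c3, SNum.cast_c4, SNum.cast_c5, SNum.cast_c6, SNum.cast_cxy, SNum.cast_cL, SNum.cast_cQ]
    exact h1
  · have h1 := (Rat.cast_lt (K := ℝ)).2 h.eta
    push_cast at h1
    simp only [cast_eB0, cast_eB1, cast_eB2, cast_eBx, cast_eA0, cast_eA1, cast_eA2, cast_eAx, cast_eR, cast_k0, cast_k1, cast_k2, cast_kx, cast_Plo, cast_Phi, cast_dP, cast_l0, cast_l1, cast_h, cast_ec0, cast_ec1, cast_ec2, cast_kc0, cast_kc1, cast_kc2, cast_A0, cast_A1, cast_A2, cast_A3, cast_etap, cast_lam0, cast_lam1, cast_lam2, cast_mg, cast_E0, cast_E1, cast_E2, cast_ek0, cast_ek1, cast_ek2, cast_t, cast_b, cast_b1, cast_b2, cast_hB, cast_hB1, cast_hC1, cast_Ewp, cast_Ess, cast_Ews, cast_Eww, SNum.cast_b0,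 SNum.cast_b1, SNum.cast_b2, SNum.cast_a0, SNum.cast_a1, SNum.cast_d0, SNum.cast_d1, SNum.cast_g1, SNum.cast_W, SNum.cast_S, SNum.cast_eta, SNum.cast_es, SNum.cast_z, SNum.cast_th, SNum.cast_Lr, SNum.cast_rho, SNum.cast_Llo, SNum.cast_Lhi, SNum.cast_rL, SNum.cast_dq, SNum.cast_c1, SNum.cast_c2, SNum.cast_c3, SNum.cast_c4, SNum.cast_c5, SNum.cast_c6, SNum.cast_cxy, SNum.cast_cL, SNum.cast_cQ]
    exact h1
  · have h1 := (Rat.cast_le (K := ℝ)).2 h.b0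
    push_cast at h1
    simp only [cast_eB0, cast_eB1, cast_eB2, cast_eBx, cast_eA0, cast_eA1, cast_eA2, cast_eAx, cast_eR, cast_k0, cast_k1, cast_k2, cast_kx, cast_Plo, cast_Phi, cast_dP, cast_l0, cast_l1, cast_h, cast_ec0, cast_ec1, cast_ec2, cast_kc0, cast_kc1, cast_kc2, cast_A0, cast_A1, cast_A2, cast_A3, cast_etap, cast_lam0, cast_lam1, cast_lam2, cast_mg, cast_E0, cast_E1, cast_E2, cast_ek0, cast_ek1, cast_ek2, cast_t, cast_b, cast_b1, cast_b2, cast_hB, cast_hB1, cast_hC1, cast_Ewp, cast_Ess, cast_Ews, cast_Eww, SNum.cast_b0, SNum.cast_b1, SNum.cast_b2, SNum.cast_a0, SNum.cast_a1, SNum.cast_d0, SNum.cast_d1, SNum.cast_g1, SNum.cast_W, SNum.cast_S, SNum.cast_eta, SNum.cast_es, SNum.cast_z, SNum.cast_th, SNum.cast_Lr, SNum.cast_rho, SNum.cast_Llo, SNum.cast_Lhi, SNum.cast_rL, SNum.cast_dq, SNum.cast_c1, SNum.cast_c2, SNum.cast_c3, SNum.cast_c4, SNum.cast_c5,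 SNum.cast_c6, SNum.cast_cxy, SNum.cast_cL, SNum.cast_cQ]
    exact h1
  · have h1 := (Rat.cast_le (K := ℝ)).2 h.b1
    push_cast at h1
    simp only [cast_eB0, cast_eB1, cast_eB2, cast_eBx, cast_eA0, cast_eA1, cast_eA2, cast_eAx, cast_eR, cast_k0, cast_k1, cast_k2, cast_kx, cast_Plo, cast_Phi, cast_dP, cast_l0, cast_l1, cast_h, cast_ec0, cast_ec1, cast_ec2, cast_kc0, cast_kc1, cast_kc2, cast_A0, cast_A1, cast_A2, cast_A3, cast_etap, cast_lam0, cast_lam1, cast_lam2, cast_mg, cast_E0, cast_E1, cast_E2, cast_ek0, cast_ek1, cast_ek2, cast_t, cast_b, cast_b1, cast_b2, cast_hB, cast_hB1, cast_hC1, cast_Ewp, cast_Ess, cast_Ews, cast_Eww, SNum.cast_b0, SNum.cast_b1, SNum.cast_b2, SNum.cast_a0, SNum.cast_a1, SNum.cast_d0, SNum.cast_d1, SNum.cast_g1, SNum.cast_W, SNum.cast_S, SNum.cast_eta, SNum.cast_es, SNum.cast_z, SNum.cast_th, SNum.cast_Lr, SNum.cast_rho, SNum.cast_Llo,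 SNum.cast_Lhi, SNum.cast_rL, SNum.cast_dq, SNum.cast_c1, SNum.cast_c2, SNum.cast_c3, SNum.cast_c4, SNum.cast_c5, SNum.cast_c6, SNum.cast_cxy, SNum.cast_cL, SNum.cast_cQ]
    exact h1
  · have h1 := (Rat.cast_le (K := ℝ)).2 h.b2
    push_cast at h1
    simp only [cast_eB0, cast_eB1, cast_eB2, cast_eBx, cast_eA0, cast_eA1, cast_eA2, cast_eAx, cast_eR, cast_k0, cast_k1, cast_k2, cast_kx, cast_Plo, cast_Phi, cast_dP, cast_l0, cast_l1, cast_h, cast_ec0, cast_ec1, cast_ec2, cast_kc0, cast_kc1, cast_kc2, cast_A0, cast_A1, cast_A2, cast_A3, cast_etap, cast_lam0, cast_lam1, cast_lam2, cast_mg, cast_E0, cast_E1, cast_E2, cast_ek0, cast_ek1, cast_ek2, cast_t, cast_b, cast_b1, cast_b2, cast_hB, cast_hB1, cast_hC1, cast_Ewp, cast_Ess, cast_Ews, cast_Eww, SNum.cast_b0, SNum.cast_b1, SNum.cast_b2, SNum.cast_a0, SNum.cast_a1, SNum.cast_d0, SNum.cast_d1, SNum.cast_g1, SNum.cast_W,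 SNum.cast_S, SNum.cast_eta, SNum.cast_es, SNum.cast_z, SNum.cast_th, SNum.cast_Lr, SNum.cast_rho, SNum.cast_Llo, SNum.cast_Lhi, SNum.cast_rL, SNum.cast_dq, SNum.cast_c1, SNum.cast_c2, SNum.cast_c3, SNum.cast_c4, SNum.cast_c5, SNum.cast_c6, SNum.cast_cxy, SNum.cast_cL, SNum.cast_cQ]
    exact h1
  · have h1 := (Rat.cast_le (K := ℝ)).2 h.rho
    push_cast at h1
    simp only [cast_eB0, cast_eB1, cast_eB2, cast_eBx, cast_eA0, cast_eA1, cast_eA2, cast_eAx, cast_eR, cast_k0, cast_k1, cast_k2, cast_kx, cast_Plo, cast_Phi, cast_dP, cast_l0, cast_l1, cast_h, cast_ec0, cast_ec1, cast_ec2, cast_kc0, cast_kc1, cast_kc2, cast_A0, cast_A1, cast_A2, cast_A3, cast_etap, cast_lam0, cast_lam1, cast_lam2, cast_mg, cast_E0, cast_E1, cast_E2, cast_ek0, cast_ek1, cast_ek2, cast_t, cast_b, cast_b1, cast_b2, cast_hB, cast_hB1, cast_hC1, cast_Ewp, cast_Ess, cast_Ews, cast_Eww, SNum.cast_b0,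 SNum.cast_b1, SNum.cast_b2, SNum.cast_a0, SNum.cast_a1, SNum.cast_d0, SNum.cast_d1, SNum.cast_g1, SNum.cast_W, SNum.cast_S, SNum.cast_eta, SNum.cast_es, SNum.cast_z, SNum.cast_th, SNum.cast_Lr, SNum.cast_rho, SNum.cast_Llo, SNum.cast_Lhi, SNum.cast_rL, SNum.cast_dq, SNum.cast_c1, SNum.cast_c2, SNum.cast_c3, SNum.cast_c4, SNum.cast_c5, SNum.cast_c6, SNum.cast_cxy, SNum.cast_cL, SNum.cast_cQ]
    exact h1
  · have h1 := (Rat.cast_le (K := ℝ)).2 h.Lhi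
    push_cast at h1
    simp only [cast_eB0, cast_eB1, cast_eB2, cast_eBx, cast_eA0, cast_eA1, cast_eA2, cast_eAx, cast_eR, cast_k0, cast_k1, cast_k2, cast_kx, cast_Plo, cast_Phi, cast_dP, cast_l0, cast_l1, cast_h, cast_ec0, cast_ec1, cast_ec2, cast_kc0, cast_kc1, cast_kc2, cast_A0, cast_A1, cast_A2, cast_A3, cast_etap, cast_lam0, cast_lam1, cast_lam2, cast_mg, cast_E0, cast_E1, cast_E2, cast_ek0, cast_ek1, cast_ek2, cast_t, cast_b, cast_b1, cast_b2, cast_hB, cast_hB1, cast_hC1, cast_Ewp, cast_Ess, cast_Ews, cast_Eww, SNum.cast_b0, SNum.cast_b1, SNum.cast_b2, SNum.cast_a0, SNum.cast_a1, SNum.cast_d0, SNum.cast_d1, SNum.cast_g1, SNum.cast_W, SNum.cast_S, SNum.cast_eta, SNum.cast_es, SNum.cast_z, SNum.cast_th, SNum.cast_Lr, SNum.cast_rho, SNum.cast_Llo, SNum.cast_Lhi, SNum.cast_rL, SNum.cast_dq, SNum.cast_c1, SNum.cast_c2, SNum.cast_c3, SNum.cast_c4, SNum.cast_c5,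 SNum.cast_c6, SNum.cast_cxy, SNum.cast_cL, SNum.cast_cQ]
    exact h1
  · have h1 := (Rat.cast_le (K := ℝ)).2 h.Llo
    push_cast at h1
    simp only [cast_eB0, cast_eB1, cast_eB2, cast_eBx, cast_eA0, cast_eA1, cast_eA2, cast_eAx, cast_eR, cast_k0, cast_k1, cast_k2, cast_kx, cast_Plo, cast_Phi, cast_dP, cast_l0, cast_l1, cast_h, cast_ec0, cast_ec1, cast_ec2, cast_kc0, cast_kc1, cast_kc2, cast_A0, cast_A1, cast_A2, cast_A3, cast_etap, cast_lam0, cast_lam1, cast_lam2, cast_mg, cast_E0, cast_E1, cast_E2, cast_ek0, cast_ek1, cast_ek2, cast_t, cast_b, cast_b1, cast_b2, cast_hB, cast_hB1, cast_hC1, cast_Ewp, cast_Ess, cast_Ews, cast_Eww, SNum.cast_b0, SNum.cast_b1, SNum.cast_b2, SNum.cast_a0, SNum.cast_a1, SNum.cast_d0, SNum.cast_d1, SNum.cast_g1, SNum.cast_W, SNum.cast_S, SNum.cast_eta, SNum.cast_es, SNum.cast_z, SNum.cast_th, SNum.cast_Lr, SNum.cast_rho, SNum.cast_Llo,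 SNum.cast_Lhi, SNum.cast_rL, SNum.cast_dq, SNum.cast_c1, SNum.cast_c2, SNum.cast_c3, SNum.cast_c4, SNum.cast_c5, SNum.cast_c6, SNum.cast_cxy, SNum.cast_cL, SNum.cast_cQ]
    exact h1
  · have h1 := (Rat.cast_le (K := ℝ)).2 h.a0
    push_cast at h1
    simp only [cast_eB0, cast_eB1, cast_eB2, cast_eBx, cast_eA0, cast_eA1, cast_eA2, cast_eAx, cast_eR, cast_k0, cast_k1, cast_k2, cast_kx, cast_Plo, cast_Phi, cast_dP, cast_l0, cast_l1, cast_h, cast_ec0, cast_ec1, cast_ec2, cast_kc0, cast_kc1, cast_kc2, cast_A0, cast_A1, cast_A2, cast_A3, cast_etap, cast_lam0, cast_lam1, cast_lam2, cast_mg, cast_E0, cast_E1, cast_E2, cast_ek0, cast_ek1, cast_ek2, cast_t, cast_b, cast_b1, cast_b2, cast_hB, cast_hB1, cast_hC1, cast_Ewp, cast_Ess, cast_Ews, cast_Eww, SNum.cast_b0, SNum.cast_b1, SNum.cast_b2, SNum.cast_a0, SNum.cast_a1, SNum.cast_d0, SNum.cast_d1, SNum.cast_g1, SNum.cast_W,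 SNum.cast_S, SNum.cast_eta, SNum.cast_es, SNum.cast_z, SNum.cast_th, SNum.cast_Lr, SNum.cast_rho, SNum.cast_Llo, SNum.cast_Lhi, SNum.cast_rL, SNum.cast_dq, SNum.cast_c1, SNum.cast_c2, SNum.cast_c3, SNum.cast_c4, SNum.cast_c5, SNum.cast_c6, SNum.cast_cxy, SNum.cast_cL, SNum.cast_cQ]
    exact h1
  · have h1 := (Rat.cast_le (K := ℝ)).2 h.a1
    push_cast at h1
    simp only [cast_eB0, cast_eB1, cast_eB2, cast_eBx, cast_eA0, cast_eA1, cast_eA2, cast_eAx, cast_eR, cast_k0, cast_k1, cast_k2, cast_kx, cast_Plo, cast_Phi, cast_dP, cast_l0, cast_l1, cast_h, cast_ec0, cast_ec1, cast_ec2, cast_kc0, cast_kc1, cast_kc2, cast_A0, cast_A1, cast_A2, cast_A3, cast_etap, cast_lam0, cast_lam1, cast_lam2, cast_mg, cast_E0, cast_E1, cast_E2, cast_ek0, cast_ek1, cast_ek2, cast_t, cast_b, cast_b1, cast_b2, cast_hB, cast_hB1, cast_hC1, cast_Ewp, cast_Ess, cast_Ews, cast_Eww, SNum.cast_b0,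 SNum.cast_b1, SNum.cast_b2, SNum.cast_a0, SNum.cast_a1, SNum.cast_d0, SNum.cast_d1, SNum.cast_g1, SNum.cast_W, SNum.cast_S, SNum.cast_eta, SNum.cast_es, SNum.cast_z, SNum.cast_th, SNum.cast_Lr, SNum.cast_rho, SNum.cast_Llo, SNum.cast_Lhi, SNum.cast_rL, SNum.cast_dq, SNum.cast_c1, SNum.cast_c2, SNum.cast_c3, SNum.cast_c4, SNum.cast_c5, SNum.cast_c6, SNum.cast_cxy, SNum.cast_cL, SNum.cast_cQ]
    exact h1
  · have h1 := (Rat.cast_le (K := ℝ)).2 h.d0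
    push_cast at h1
    simp only [cast_eB0, cast_eB1, cast_eB2, cast_eBx, cast_eA0, cast_eA1, cast_eA2, cast_eAx, cast_eR, cast_k0, cast_k1, cast_k2, cast_kx, cast_Plo, cast_Phi, cast_dP, cast_l0, cast_l1, cast_h, cast_ec0, cast_ec1, cast_ec2, cast_kc0, cast_kc1, cast_kc2, cast_A0, cast_A1, cast_A2, cast_A3, cast_etap, cast_lam0, cast_lam1, cast_lam2, cast_mg, cast_E0, cast_E1, cast_E2, cast_ek0, cast_ek1, cast_ek2, cast_t, cast_b, cast_b1, cast_b2, cast_hB, cast_hB1, cast_hC1, cast_Ewp, cast_Ess, cast_Ews, cast_Eww, SNum.cast_b0, SNum.cast_b1, SNum.cast_b2, SNum.cast_a0, SNum.cast_a1, SNum.cast_d0, SNum.cast_d1, SNum.cast_g1, SNum.cast_W, SNum.cast_S, SNum.cast_eta, SNum.cast_es, SNum.cast_z, SNum.cast_th, SNum.cast_Lr, SNum.cast_rho, SNum.cast_Llo, SNum.cast_Lhi, SNum.cast_rL, SNum.cast_dq, SNum.cast_c1, SNum.cast_c2, SNum.cast_c3, SNum.cast_c4, SNum.cast_c5,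 SNum.cast_c6, SNum.cast_cxy, SNum.cast_cL, SNum.cast_cQ]
    exact h1
  · have h1 := (Rat.cast_le (K := ℝ)).2 h.d1
    push_cast at h1
    simp only [cast_eB0, cast_eB1, cast_eB2, cast_eBx, cast_eA0, cast_eA1, cast_eA2, cast_eAx, cast_eR, cast_k0, cast_k1, cast_k2, cast_kx, cast_Plo, cast_Phi, cast_dP, cast_l0, cast_l1, cast_h, cast_ec0, cast_ec1, cast_ec2, cast_kc0, cast_kc1, cast_kc2, cast_A0, cast_A1, cast_A2, cast_A3, cast_etap, cast_lam0, cast_lam1, cast_lam2, cast_mg, cast_E0, cast_E1, cast_E2, cast_ek0, cast_ek1, cast_ek2, cast_t, cast_b, cast_b1, cast_b2, cast_hB, cast_hB1, cast_hC1, cast_Ewp, cast_Ess, cast_Ews, cast_Eww, SNum.cast_b0, SNum.cast_b1, SNum.cast_b2, SNum.cast_a0, SNum.cast_a1, SNum.cast_d0, SNum.cast_d1, SNum.cast_g1, SNum.cast_W, SNum.cast_S, SNum.cast_eta, SNum.cast_es, SNum.cast_z, SNum.cast_th, SNum.cast_Lr, SNum.cast_rho, SNum.cast_Llo,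 SNum.cast_Lhi, SNum.cast_rL, SNum.cast_dq, SNum.cast_c1, SNum.cast_c2, SNum.cast_c3, SNum.cast_c4, SNum.cast_c5, SNum.cast_c6, SNum.cast_cxy, SNum.cast_cL, SNum.cast_cQ]
    exact h1
  · have h1 := (Rat.cast_le (K := ℝ)).2 h.g1
    push_cast at h1
    simp only [cast_eB0, cast_eB1, cast_eB2, cast_eBx, cast_eA0, cast_eA1, cast_eA2, cast_eAx, cast_eR, cast_k0, cast_k1, cast_k2, cast_kx, cast_Plo, cast_Phi, cast_dP, cast_l0, cast_l1, cast_h, cast_ec0, cast_ec1, cast_ec2, cast_kc0, cast_kc1, cast_kc2, cast_A0, cast_A1, cast_A2, cast_A3, cast_etap, cast_lam0, cast_lam1, cast_lam2, cast_mg, cast_E0, cast_E1, cast_E2, cast_ek0, cast_ek1, cast_ek2, cast_t, cast_b, cast_b1, cast_b2, cast_hB, cast_hB1, cast_hC1, cast_Ewp, cast_Ess, cast_Ews, cast_Eww, SNum.cast_b0, SNum.cast_b1, SNum.cast_b2, SNum.cast_a0, SNum.cast_a1, SNum.cast_d0, SNum.cast_d1, SNum.cast_g1, SNum.cast_W,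 SNum.cast_S, SNum.cast_eta, SNum.cast_es, SNum.cast_z, SNum.cast_th, SNum.cast_Lr, SNum.cast_rho, SNum.cast_Llo, SNum.cast_Lhi, SNum.cast_rL, SNum.cast_dq, SNum.cast_c1, SNum.cast_c2, SNum.cast_c3, SNum.cast_c4, SNum.cast_c5, SNum.cast_c6, SNum.cast_cxy, SNum.cast_cL, SNum.cast_cQ]
    exact h1
  · have h1 := (Rat.cast_le (K := ℝ)).2 h.es
    push_cast at h1
    simp only [cast_eB0, cast_eB1, cast_eB2, cast_eBx, cast_eA0, cast_eA1, cast_eA2, cast_eAx, cast_eR, cast_k0, cast_k1, cast_k2, cast_kx, cast_Plo, cast_Phi, cast_dP, cast_l0, cast_l1, cast_h, cast_ec0, cast_ec1, cast_ec2, cast_kc0, cast_kc1, cast_kc2, cast_A0, cast_A1, cast_A2, cast_A3, cast_etap, cast_lam0, cast_lam1, cast_lam2, cast_mg, cast_E0, cast_E1, cast_E2, cast_ek0, cast_ek1, cast_ek2, cast_t, cast_b, cast_b1, cast_b2, cast_hB, cast_hB1, cast_hC1, cast_Ewp, cast_Ess, cast_Ews, cast_Eww, SNum.cast_b0,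 SNum.cast_b1, SNum.cast_b2, SNum.cast_a0, SNum.cast_a1, SNum.cast_d0, SNum.cast_d1, SNum.cast_g1, SNum.cast_W, SNum.cast_S, SNum.cast_eta, SNum.cast_es, SNum.cast_z, SNum.cast_th, SNum.cast_Lr, SNum.cast_rho, SNum.cast_Llo, SNum.cast_Lhi, SNum.cast_rL, SNum.cast_dq, SNum.cast_c1, SNum.cast_c2, SNum.cast_c3, SNum.cast_c4, SNum.cast_c5, SNum.cast_c6, SNum.cast_cxy, SNum.cast_cL, SNum.cast_cQ]
    exact h1
  · have h1 := (Rat.cast_le (K := ℝ)).2 h.mg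
    push_cast at h1
    simp only [cast_eB0, cast_eB1, cast_eB2, cast_eBx, cast_eA0, cast_eA1, cast_eA2, cast_eAx, cast_eR, cast_k0, cast_k1, cast_k2, cast_kx, cast_Plo, cast_Phi, cast_dP, cast_l0, cast_l1, cast_h, cast_ec0, cast_ec1, cast_ec2, cast_kc0, cast_kc1, cast_kc2, cast_A0, cast_A1, cast_A2, cast_A3, cast_etap, cast_lam0, cast_lam1, cast_lam2, cast_mg, cast_E0, cast_E1, cast_E2, cast_ek0, cast_ek1, cast_ek2, cast_t, cast_b, cast_b1, cast_b2, cast_hB, cast_hB1, cast_hC1, cast_Ewp, cast_Ess, cast_Ews, cast_Eww, SNum.cast_b0, SNum.cast_b1, SNum.cast_b2, SNum.cast_a0, SNum.cast_a1, SNum.cast_d0, SNum.cast_d1, SNum.cast_g1, SNum.cast_W, SNum.cast_S, SNum.cast_eta, SNum.cast_es, SNum.cast_z, SNum.cast_th, SNum.cast_Lr, SNum.cast_rho, SNum.cast_Llo, SNum.cast_Lhi, SNum.cast_rL, SNum.cast_dq, SNum.cast_c1, SNum.cast_c2, SNum.cast_c3, SNum.cast_c4, SNum.cast_c5,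 SNum.cast_c6, SNum.cast_cxy, SNum.cast_cL, SNum.cast_cQ]
    exact h1
  · have h1 := (Rat.cast_le (K := ℝ)).2 h.Lp
    push_cast at h1
    simp only [cast_eB0, cast_eB1, cast_eB2, cast_eBx, cast_eA0, cast_eA1, cast_eA2, cast_eAx, cast_eR, cast_k0, cast_k1, cast_k2, cast_kx, cast_Plo, cast_Phi, cast_dP, cast_l0, cast_l1, cast_h, cast_ec0, cast_ec1, cast_ec2, cast_kc0, cast_kc1, cast_kc2, cast_A0, cast_A1, cast_A2, cast_A3, cast_etap, cast_lam0, cast_lam1, cast_lam2, cast_mg, cast_E0, cast_E1, cast_E2, cast_ek0, cast_ek1, cast_ek2, cast_t, cast_b, cast_b1, cast_b2, cast_hB, cast_hB1, cast_hC1, cast_Ewp, cast_Ess, cast_Ews, cast_Eww, SNum.cast_b0, SNum.cast_b1, SNum.cast_b2, SNum.cast_a0, SNum.cast_a1, SNum.cast_d0, SNum.cast_d1, SNum.cast_g1, SNum.cast_W, SNum.cast_S, SNum.cast_eta, SNum.cast_es, SNum.cast_z, SNum.cast_th, SNum.cast_Lr, SNum.cast_rho, SNum.cast_Llo,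 SNum.cast_Lhi, SNum.cast_rL, SNum.cast_dq, SNum.cast_c1, SNum.cast_c2, SNum.cast_c3, SNum.cast_c4, SNum.cast_c5, SNum.cast_c6, SNum.cast_cxy, SNum.cast_cL, SNum.cast_cQ]
    exact h1

end XNum

namespace INum

/-- the constants as real numbers -/
noncomputable def cast (m : INum ℚ) : INum ℝ :=
  ⟨(m.n0 : ℝ), (m.N : ℝ), (m.dl : ℝ), (m.D : ℝ), (m.e0 : ℝ), (m.e1 : ℝ), (m.Phi : ℝ), (m.G : ℝ), (m.Wo : ℝ), (m.So : ℝ), (m.Lp : ℝ), (m.Lb : ℝ), (m.Y : ℝ), (m.len : ℝ)⟩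

theorem cast_n0 (m : INum ℚ) : m.cast.n0 = (m.n0 : ℝ) := rfl
theorem cast_N (m : INum ℚ) : m.cast.N = (m.N : ℝ) := rfl
theorem cast_dl (m : INum ℚ) : m.cast.dl = (m.dl : ℝ) := rfl
theorem cast_D (m : INum ℚ) : m.cast.D = (m.D : ℝ) := rfl
theorem cast_e0 (m : INum ℚ) : m.cast.e0 = (m.e0 : ℝ) := rfl
theorem cast_e1 (m : INum ℚ) : m.cast.e1 = (m.e1 : ℝ) := rfl
theorem cast_Phi (m : INum ℚ) : m.cast.Phi = (m.Phi : ℝ) := rfl
theorem cast_G (m : INum ℚ) : m.cast.G = (m.G : ℝ) := rfl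
theorem cast_Wo (m : INum ℚ) : m.cast.Wo = (m.Wo : ℝ) := rfl
theorem cast_So (m : INum ℚ) : m.cast.So = (m.So : ℝ) := rfl
theorem cast_Lp (m : INum ℚ) : m.cast.Lp = (m.Lp : ℝ) := rfl
theorem cast_Lb (m : INum ℚ) : m.cast.Lb = (m.Lb : ℝ) := rfl
theorem cast_Y (m : INum ℚ) : m.cast.Y = (m.Y : ℝ) := rfl
theorem cast_len (m : INum ℚ) : m.cast.len = (m.len : ℝ) := rfl


/-- the check -/
def chk (m : INum ℚ) (n : SNum ℚ) : Bool :=
  decide (0 < m.n0) &&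
  decide (0 < m.dl) &&
  decide (0 ≤ m.e0) &&
  decide (0 < m.Phi) &&
  decide (0 < m.G) &&
  decide (0 < m.Wo) &&
  decide (0 < m.So) &&
  decide (0 ≤ m.Lp) &&
  decide (0 ≤ m.Lb) &&
  decide (0 ≤ m.Y) &&
  decide (m.Y ≤ 1) &&
  decide (0 < m.len) &&
  decide ((m.n0 + n.rho * n.rL * m.len) * (1 + m.Y + m.Y ^ 2 / 2 + m.Y ^ 3 / 4) ≤ m.N) &&
  decide (2 / n.eta * (m.N ^ 2 / 2 + m.dl * (m.Lb * m.N ^ 2 + n.rho * n.rL * m.N)) ≤ m.D) &&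
  decide (m.e0 + m.dl * m.Lp ≤ m.e1) &&
  decide (m.dl * m.Lp + n.cL * m.N + n.cQ * m.N ^ 2 + 5 / 4 * m.D / m.dl ≤ m.e1) &&
  decide (4 / 3 * (m.e1 + n.cL * m.N + n.cQ * m.N ^ 2) ≤ m.Phi ^ 2) &&
  decide (m.N * m.Phi ≤ m.G ^ 2) &&
  decide (2 * m.N * m.G + m.N ^ 2 / n.Llo ≤ m.Wo ^ 2) &&
  decide (2 * m.G * m.Phi + m.G ^ 2 / n.Llo ≤ m.So ^ 2) &&
  decide (m.Wo ≤ n.W / 2) &&
  decide (m.So ≤ n.S / 2)

theorem ok_of_chk (m : INum ℚ) (n : SNum ℚ) (h : chk m n = true) : m.Ok n := by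
  unfold chk at h
  simp only [Bool.and_eq_true, decide_eq_true_eq] at h
  obtain ⟨⟨⟨⟨⟨⟨⟨⟨⟨⟨⟨⟨⟨⟨⟨⟨⟨⟨⟨⟨⟨h1, h2⟩, h3⟩, h4⟩, h5⟩, h6⟩, h7⟩, h8⟩, h9⟩, h10⟩, h11⟩, h12⟩, h13⟩, h14⟩, h15⟩, h16⟩, h17⟩, h18⟩, h19⟩, h20⟩, h21⟩, h22⟩ := h
  exact ⟨h1, h2, h3, h4, h5, h6, h7, h8, h9, h10, h11, h12, h13, h14, h15, h16, h17, h18, h19, h20, h21, h22⟩

theorem ok_cast (m : INum ℚ) (n : SNum ℚ) (h : m.Ok n) : m.cast.Ok n.cast := by
  refine ⟨?_, ?_, ?_, ?_, ?_, ?_, ?_, ?_, ?_, ?_, ?_, ?_, ?_, ?_, ?_, ?_, ?_, ?_, ?_, ?_, ?_, ?_⟩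
  · have h1 := (Rat.cast_lt (K := ℝ)).2 h.n0
    push_cast at h1
    simp only [cast_n0, cast_N, cast_dl, cast_D, cast_e0, cast_e1, cast_Phi, cast_G, cast_Wo, cast_So, cast_Lp, cast_Lb, cast_Y, cast_len, SNum.cast_b0, SNum.cast_b1, SNum.cast_b2, SNum.cast_a0, SNum.cast_a1, SNum.cast_d0, SNum.cast_d1, SNum.cast_g1, SNum.cast_W, SNum.cast_S, SNum.cast_eta, SNum.cast_es, SNum.cast_z, SNum.cast_th, SNum.cast_Lr, SNum.cast_rho, SNum.cast_Llo, SNum.cast_Lhi, SNum.cast_rL, SNum.cast_dq, SNum.cast_c1, SNum.cast_c2, SNum.cast_c3, SNum.cast_c4, SNum.cast_c5, SNum.cast_c6, SNum.cast_cxy, SNum.cast_cL, SNum.cast_cQ]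
    exact h1
  · have h1 := (Rat.cast_lt (K := ℝ)).2 h.dl
    push_cast at h1
    simp only [cast_n0, cast_N, cast_dl, cast_D, cast_e0, cast_e1, cast_Phi, cast_G, cast_Wo, cast_So, cast_Lp, cast_Lb, cast_Y, cast_len, SNum.cast_b0, SNum.cast_b1, SNum.cast_b2, SNum.cast_a0, SNum.cast_a1, SNum.cast_d0, SNum.cast_d1, SNum.cast_g1, SNum.cast_W, SNum.cast_S, SNum.cast_eta, SNum.cast_es, SNum.cast_z, SNum.cast_th, SNum.cast_Lr, SNum.cast_rho, SNum.cast_Llo, SNum.cast_Lhi, SNum.cast_rL, SNum.cast_dq, SNum.cast_c1, SNum.cast_c2, SNum.cast_c3, SNum.cast_c4, SNum.cast_c5, SNum.cast_c6, SNum.cast_cxy, SNum.cast_cL, SNum.cast_cQ]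
    exact h1
  · have h1 := (Rat.cast_le (K := ℝ)).2 h.e0
    push_cast at h1
    simp only [cast_n0, cast_N, cast_dl, cast_D, cast_e0, cast_e1, cast_Phi, cast_G, cast_Wo, cast_So, cast_Lp, cast_Lb, cast_Y, cast_len, SNum.cast_b0, SNum.cast_b1, SNum.cast_b2, SNum.cast_a0, SNum.cast_a1, SNum.cast_d0, SNum.cast_d1, SNum.cast_g1, SNum.cast_W, SNum.cast_S, SNum.cast_eta, SNum.cast_es, SNum.cast_z, SNum.cast_th, SNum.cast_Lr, SNum.cast_rho, SNum.cast_Llo, SNum.cast_Lhi, SNum.cast_rL, SNum.cast_dq, SNum.cast_c1, SNum.cast_c2, SNum.cast_c3, SNum.cast_c4, SNum.cast_c5, SNum.cast_c6, SNum.cast_cxy, SNum.cast_cL, SNum.cast_cQ]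
    exact h1
  · have h1 := (Rat.cast_lt (K := ℝ)).2 h.Phi
    push_cast at h1
    simp only [cast_n0, cast_N, cast_dl, cast_D, cast_e0, cast_e1, cast_Phi, cast_G, cast_Wo, cast_So, cast_Lp, cast_Lb, cast_Y, cast_len, SNum.cast_b0, SNum.cast_b1, SNum.cast_b2, SNum.cast_a0, SNum.cast_a1, SNum.cast_d0, SNum.cast_d1, SNum.cast_g1, SNum.cast_W, SNum.cast_S, SNum.cast_eta, SNum.cast_es, SNum.cast_z, SNum.cast_th, SNum.cast_Lr, SNum.cast_rho, SNum.cast_Llo, SNum.cast_Lhi, SNum.cast_rL, SNum.cast_dq, SNum.cast_c1, SNum.cast_c2, SNum.cast_c3, SNum.cast_c4, SNum.cast_c5, SNum.cast_c6, SNum.cast_cxy, SNum.cast_cL, SNum.cast_cQ]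
    exact h1
  · have h1 := (Rat.cast_lt (K := ℝ)).2 h.G
    push_cast at h1
    simp only [cast_n0, cast_N, cast_dl, cast_D, cast_e0, cast_e1, cast_Phi, cast_G, cast_Wo, cast_So, cast_Lp, cast_Lb, cast_Y, cast_len, SNum.cast_b0, SNum.cast_b1, SNum.cast_b2, SNum.cast_a0, SNum.cast_a1, SNum.cast_d0, SNum.cast_d1, SNum.cast_g1, SNum.cast_W, SNum.cast_S, SNum.cast_eta, SNum.cast_es, SNum.cast_z, SNum.cast_th, SNum.cast_Lr, SNum.cast_rho, SNum.cast_Llo, SNum.cast_Lhi, SNum.cast_rL, SNum.cast_dq, SNum.cast_c1, SNum.cast_c2, SNum.cast_c3, SNum.cast_c4, SNum.cast_c5, SNum.cast_c6, SNum.cast_cxy, SNum.cast_cL, SNum.cast_cQ]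
    exact h1
  · have h1 := (Rat.cast_lt (K := ℝ)).2 h.Wo
    push_cast at h1
    simp only [cast_n0, cast_N, cast_dl, cast_D, cast_e0, cast_e1, cast_Phi, cast_G, cast_Wo, cast_So, cast_Lp, cast_Lb, cast_Y, cast_len, SNum.cast_b0, SNum.cast_b1, SNum.cast_b2, SNum.cast_a0, SNum.cast_a1, SNum.cast_d0, SNum.cast_d1, SNum.cast_g1, SNum.cast_W, SNum.cast_S, SNum.cast_eta, SNum.cast_es, SNum.cast_z, SNum.cast_th, SNum.cast_Lr, SNum.cast_rho, SNum.cast_Llo, SNum.cast_Lhi, SNum.cast_rL, SNum.cast_dq, SNum.cast_c1, SNum.cast_c2, SNum.cast_c3, SNum.cast_c4, SNum.cast_c5, SNum.cast_c6, SNum.cast_cxy, SNum.cast_cL, SNum.cast_cQ]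
    exact h1
  · have h1 := (Rat.cast_lt (K := ℝ)).2 h.So
    push_cast at h1
    simp only [cast_n0, cast_N, cast_dl, cast_D, cast_e0, cast_e1, cast_Phi, cast_G, cast_Wo, cast_So, cast_Lp, cast_Lb, cast_Y, cast_len, SNum.cast_b0, SNum.cast_b1, SNum.cast_b2, SNum.cast_a0, SNum.cast_a1, SNum.cast_d0, SNum.cast_d1, SNum.cast_g1, SNum.cast_W, SNum.cast_S, SNum.cast_eta, SNum.cast_es, SNum.cast_z, SNum.cast_th, SNum.cast_Lr, SNum.cast_rho, SNum.cast_Llo, SNum.cast_Lhi, SNum.cast_rL, SNum.cast_dq, SNum.cast_c1, SNum.cast_c2, SNum.cast_c3, SNum.cast_c4, SNum.cast_c5, SNum.cast_c6, SNum.cast_cxy, SNum.cast_cL, SNum.cast_cQ]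
    exact h1
  · have h1 := (Rat.cast_le (K := ℝ)).2 h.Lp
    push_cast at h1
    simp only [cast_n0, cast_N, cast_dl, cast_D, cast_e0, cast_e1, cast_Phi, cast_G, cast_Wo, cast_So, cast_Lp, cast_Lb, cast_Y, cast_len, SNum.cast_b0, SNum.cast_b1, SNum.cast_b2, SNum.cast_a0, SNum.cast_a1, SNum.cast_d0, SNum.cast_d1, SNum.cast_g1, SNum.cast_W, SNum.cast_S, SNum.cast_eta, SNum.cast_es, SNum.cast_z, SNum.cast_th, SNum.cast_Lr, SNum.cast_rho, SNum.cast_Llo, SNum.cast_Lhi, SNum.cast_rL, SNum.cast_dq, SNum.cast_c1, SNum.cast_c2, SNum.cast_c3, SNum.cast_c4, SNum.cast_c5, SNum.cast_c6, SNum.cast_cxy, SNum.cast_cL, SNum.cast_cQ]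
    exact h1
  · have h1 := (Rat.cast_le (K := ℝ)).2 h.Lb
    push_cast at h1
    simp only [cast_n0, cast_N, cast_dl, cast_D, cast_e0, cast_e1, cast_Phi, cast_G, cast_Wo, cast_So, cast_Lp, cast_Lb, cast_Y, cast_len, SNum.cast_b0, SNum.cast_b1, SNum.cast_b2, SNum.cast_a0, SNum.cast_a1, SNum.cast_d0, SNum.cast_d1, SNum.cast_g1, SNum.cast_W, SNum.cast_S, SNum.cast_eta, SNum.cast_es, SNum.cast_z, SNum.cast_th, SNum.cast_Lr, SNum.cast_rho, SNum.cast_Llo, SNum.cast_Lhi, SNum.cast_rL, SNum.cast_dq, SNum.cast_c1, SNum.cast_c2, SNum.cast_c3, SNum.cast_c4, SNum.cast_c5, SNum.cast_c6, SNum.cast_cxy, SNum.cast_cL, SNum.cast_cQ]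
    exact h1
  · have h1 := (Rat.cast_le (K := ℝ)).2 h.Y0
    push_cast at h1
    simp only [cast_n0, cast_N, cast_dl, cast_D, cast_e0, cast_e1, cast_Phi, cast_G, cast_Wo, cast_So, cast_Lp, cast_Lb, cast_Y, cast_len, SNum.cast_b0, SNum.cast_b1, SNum.cast_b2, SNum.cast_a0, SNum.cast_a1, SNum.cast_d0, SNum.cast_d1, SNum.cast_g1, SNum.cast_W, SNum.cast_S, SNum.cast_eta, SNum.cast_es, SNum.cast_z, SNum.cast_th, SNum.cast_Lr, SNum.cast_rho, SNum.cast_Llo, SNum.cast_Lhi, SNum.cast_rL, SNum.cast_dq, SNum.cast_c1, SNum.cast_c2, SNum.cast_c3, SNum.cast_c4, SNum.cast_c5, SNum.cast_c6, SNum.cast_cxy, SNum.cast_cL, SNum.cast_cQ]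
    exact h1
  · have h1 := (Rat.cast_le (K := ℝ)).2 h.Y1
    push_cast at h1
    simp only [cast_n0, cast_N, cast_dl, cast_D, cast_e0, cast_e1, cast_Phi, cast_G, cast_Wo, cast_So, cast_Lp, cast_Lb, cast_Y, cast_len, SNum.cast_b0, SNum.cast_b1, SNum.cast_b2, SNum.cast_a0, SNum.cast_a1, SNum.cast_d0, SNum.cast_d1, SNum.cast_g1, SNum.cast_W, SNum.cast_S, SNum.cast_eta, SNum.cast_es, SNum.cast_z, SNum.cast_th, SNum.cast_Lr, SNum.cast_rho, SNum.cast_Llo, SNum.cast_Lhi, SNum.cast_rL, SNum.cast_dq, SNum.cast_c1, SNum.cast_c2, SNum.cast_c3, SNum.cast_c4, SNum.cast_c5, SNum.cast_c6, SNum.cast_cxy, SNum.cast_cL, SNum.cast_cQ]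
    exact h1
  · have h1 := (Rat.cast_lt (K := ℝ)).2 h.len
    push_cast at h1
    simp only [cast_n0, cast_N, cast_dl, cast_D, cast_e0, cast_e1, cast_Phi, cast_G, cast_Wo, cast_So, cast_Lp, cast_Lb, cast_Y, cast_len, SNum.cast_b0, SNum.cast_b1, SNum.cast_b2, SNum.cast_a0, SNum.cast_a1, SNum.cast_d0, SNum.cast_d1, SNum.cast_g1, SNum.cast_W, SNum.cast_S, SNum.cast_eta, SNum.cast_es, SNum.cast_z, SNum.cast_th, SNum.cast_Lr, SNum.cast_rho, SNum.cast_Llo, SNum.cast_Lhi, SNum.cast_rL, SNum.cast_dq, SNum.cast_c1, SNum.cast_c2, SNum.cast_c3, SNum.cast_c4, SNum.cast_c5, SNum.cast_c6, SNum.cast_cxy, SNum.cast_cL, SNum.cast_cQ]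
    exact h1
  · have h1 := (Rat.cast_le (K := ℝ)).2 h.hN
    push_cast at h1
    simp only [cast_n0, cast_N, cast_dl, cast_D, cast_e0, cast_e1, cast_Phi, cast_G, cast_Wo, cast_So, cast_Lp, cast_Lb, cast_Y, cast_len, SNum.cast_b0, SNum.cast_b1, SNum.cast_b2, SNum.cast_a0, SNum.cast_a1, SNum.cast_d0, SNum.cast_d1, SNum.cast_g1, SNum.cast_W, SNum.cast_S, SNum.cast_eta, SNum.cast_es, SNum.cast_z, SNum.cast_th, SNum.cast_Lr, SNum.cast_rho, SNum.cast_Llo, SNum.cast_Lhi, SNum.cast_rL, SNum.cast_dq, SNum.cast_c1, SNum.cast_c2, SNum.cast_c3, SNum.cast_c4, SNum.cast_c5, SNum.cast_c6, SNum.cast_cxy, SNum.cast_cL, SNum.cast_cQ]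
    exact h1
  · have h1 := (Rat.cast_le (K := ℝ)).2 h.hD
    push_cast at h1
    simp only [cast_n0, cast_N, cast_dl, cast_D, cast_e0, cast_e1, cast_Phi, cast_G, cast_Wo, cast_So, cast_Lp, cast_Lb, cast_Y, cast_len, SNum.cast_b0, SNum.cast_b1, SNum.cast_b2, SNum.cast_a0, SNum.cast_a1, SNum.cast_d0, SNum.cast_d1, SNum.cast_g1, SNum.cast_W, SNum.cast_S, SNum.cast_eta, SNum.cast_es, SNum.cast_z, SNum.cast_th, SNum.cast_Lr, SNum.cast_rho, SNum.cast_Llo, SNum.cast_Lhi, SNum.cast_rL, SNum.cast_dq, SNum.cast_c1, SNum.cast_c2, SNum.cast_c3, SNum.cast_c4, SNum.cast_c5, SNum.cast_c6, SNum.cast_cxy, SNum.cast_cL, SNum.cast_cQ]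
    exact h1
  · have h1 := (Rat.cast_le (K := ℝ)).2 h.h1
    push_cast at h1
    simp only [cast_n0, cast_N, cast_dl, cast_D, cast_e0, cast_e1, cast_Phi, cast_G, cast_Wo, cast_So, cast_Lp, cast_Lb, cast_Y, cast_len, SNum.cast_b0, SNum.cast_b1, SNum.cast_b2, SNum.cast_a0, SNum.cast_a1, SNum.cast_d0, SNum.cast_d1, SNum.cast_g1, SNum.cast_W, SNum.cast_S, SNum.cast_eta, SNum.cast_es, SNum.cast_z, SNum.cast_th, SNum.cast_Lr, SNum.cast_rho, SNum.cast_Llo, SNum.cast_Lhi, SNum.cast_rL, SNum.cast_dq, SNum.cast_c1, SNum.cast_c2, SNum.cast_c3, SNum.cast_c4, SNum.cast_c5, SNum.cast_c6, SNum.cast_cxy, SNum.cast_cL, SNum.cast_cQ]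
    exact h1
  · have h1 := (Rat.cast_le (K := ℝ)).2 h.h2
    push_cast at h1
    simp only [cast_n0, cast_N, cast_dl, cast_D, cast_e0, cast_e1, cast_Phi, cast_G, cast_Wo, cast_So, cast_Lp, cast_Lb, cast_Y, cast_len, SNum.cast_b0, SNum.cast_b1, SNum.cast_b2, SNum.cast_a0, SNum.cast_a1, SNum.cast_d0, SNum.cast_d1, SNum.cast_g1, SNum.cast_W, SNum.cast_S, SNum.cast_eta, SNum.cast_es, SNum.cast_z, SNum.cast_th, SNum.cast_Lr, SNum.cast_rho, SNum.cast_Llo, SNum.cast_Lhi, SNum.cast_rL, SNum.cast_dq, SNum.cast_c1, SNum.cast_c2, SNum.cast_c3, SNum.cast_c4, SNum.cast_c5, SNum.cast_c6, SNum.cast_cxy, SNum.cast_cL, SNum.cast_cQ]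
    exact h1
  · have h1 := (Rat.cast_le (K := ℝ)).2 h.hPhi
    push_cast at h1
    simp only [cast_n0, cast_N, cast_dl, cast_D, cast_e0, cast_e1, cast_Phi, cast_G, cast_Wo, cast_So, cast_Lp, cast_Lb, cast_Y, cast_len, SNum.cast_b0, SNum.cast_b1, SNum.cast_b2, SNum.cast_a0, SNum.cast_a1, SNum.cast_d0, SNum.cast_d1, SNum.cast_g1, SNum.cast_W, SNum.cast_S, SNum.cast_eta, SNum.cast_es, SNum.cast_z, SNum.cast_th, SNum.cast_Lr, SNum.cast_rho, SNum.cast_Llo, SNum.cast_Lhi, SNum.cast_rL, SNum.cast_dq, SNum.cast_c1, SNum.cast_c2, SNum.cast_c3, SNum.cast_c4, SNum.cast_c5, SNum.cast_c6, SNum.cast_cxy, SNum.cast_cL, SNum.cast_cQ]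
    exact h1
  · have h1 := (Rat.cast_le (K := ℝ)).2 h.hG
    push_cast at h1
    simp only [cast_n0, cast_N, cast_dl, cast_D, cast_e0, cast_e1, cast_Phi, cast_G, cast_Wo, cast_So, cast_Lp, cast_Lb, cast_Y, cast_len, SNum.cast_b0, SNum.cast_b1, SNum.cast_b2, SNum.cast_a0, SNum.cast_a1, SNum.cast_d0, SNum.cast_d1, SNum.cast_g1, SNum.cast_W, SNum.cast_S, SNum.cast_eta, SNum.cast_es, SNum.cast_z, SNum.cast_th, SNum.cast_Lr, SNum.cast_rho, SNum.cast_Llo, SNum.cast_Lhi, SNum.cast_rL, SNum.cast_dq, SNum.cast_c1, SNum.cast_c2, SNum.cast_c3, SNum.cast_c4, SNum.cast_c5, SNum.cast_c6, SNum.cast_cxy, SNum.cast_cL, SNum.cast_cQ]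
    exact h1
  · have h1 := (Rat.cast_le (K := ℝ)).2 h.hWo
    push_cast at h1
    simp only [cast_n0, cast_N, cast_dl, cast_D, cast_e0, cast_e1, cast_Phi, cast_G, cast_Wo, cast_So, cast_Lp, cast_Lb, cast_Y, cast_len, SNum.cast_b0, SNum.cast_b1, SNum.cast_b2, SNum.cast_a0, SNum.cast_a1, SNum.cast_d0, SNum.cast_d1, SNum.cast_g1, SNum.cast_W, SNum.cast_S, SNum.cast_eta, SNum.cast_es, SNum.cast_z, SNum.cast_th, SNum.cast_Lr, SNum.cast_rho, SNum.cast_Llo, SNum.cast_Lhi, SNum.cast_rL, SNum.cast_dq, SNum.cast_c1, SNum.cast_c2, SNum.cast_c3, SNum.cast_c4, SNum.cast_c5, SNum.cast_c6, SNum.cast_cxy, SNum.cast_cL, SNum.cast_cQ]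
    exact h1
  · have h1 := (Rat.cast_le (K := ℝ)).2 h.hSo
    push_cast at h1
    simp only [cast_n0, cast_N, cast_dl, cast_D, cast_e0, cast_e1, cast_Phi, cast_G, cast_Wo, cast_So, cast_Lp, cast_Lb, cast_Y, cast_len, SNum.cast_b0, SNum.cast_b1, SNum.cast_b2, SNum.cast_a0, SNum.cast_a1, SNum.cast_d0, SNum.cast_d1, SNum.cast_g1, SNum.cast_W, SNum.cast_S, SNum.cast_eta, SNum.cast_es, SNum.cast_z, SNum.cast_th, SNum.cast_Lr, SNum.cast_rho, SNum.cast_Llo, SNum.cast_Lhi, SNum.cast_rL, SNum.cast_dq, SNum.cast_c1, SNum.cast_c2, SNum.cast_c3, SNum.cast_c4, SNum.cast_c5, SNum.cast_c6, SNum.cast_cxy, SNum.cast_cL, SNum.cast_cQ]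
    exact h1
  · have h1 := (Rat.cast_le (K := ℝ)).2 h.hW
    push_cast at h1
    simp only [cast_n0, cast_N, cast_dl, cast_D, cast_e0, cast_e1, cast_Phi, cast_G, cast_Wo, cast_So, cast_Lp, cast_Lb, cast_Y, cast_len, SNum.cast_b0, SNum.cast_b1, SNum.cast_b2, SNum.cast_a0, SNum.cast_a1, SNum.cast_d0, SNum.cast_d1, SNum.cast_g1, SNum.cast_W, SNum.cast_S, SNum.cast_eta, SNum.cast_es, SNum.cast_z, SNum.cast_th, SNum.cast_Lr, SNum.cast_rho, SNum.cast_Llo, SNum.cast_Lhi, SNum.cast_rL, SNum.cast_dq, SNum.cast_c1, SNum.cast_c2, SNum.cast_c3, SNum.cast_c4, SNum.cast_c5, SNum.cast_c6, SNum.cast_cxy, SNum.cast_cL, SNum.cast_cQ]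
    exact h1
  · have h1 := (Rat.cast_le (K := ℝ)).2 h.hS
    push_cast at h1
    simp only [cast_n0, cast_N, cast_dl, cast_D, cast_e0, cast_e1, cast_Phi, cast_G, cast_Wo, cast_So, cast_Lp, cast_Lb, cast_Y, cast_len, SNum.cast_b0, SNum.cast_b1, SNum.cast_b2, SNum.cast_a0, SNum.cast_a1, SNum.cast_d0, SNum.cast_d1, SNum.cast_g1, SNum.cast_W, SNum.cast_S, SNum.cast_eta, SNum.cast_es, SNum.cast_z, SNum.cast_th, SNum.cast_Lr, SNum.cast_rho, SNum.cast_Llo, SNum.cast_Lhi, SNum.cast_rL, SNum.cast_dq, SNum.cast_c1, SNum.cast_c2, SNum.cast_c3, SNum.cast_c4, SNum.cast_c5, SNum.cast_c6, SNum.cast_cxy, SNum.cast_cL, SNum.cast_cQ]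
    exact h1

end INum

end Pool.Agent.EM
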