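import Pool.Agent.EM.Piece

/-!
# EM: facts about explicit functions (to be proved by the kernel check) and their consequences

`C θ x` plane curve, `K θ x`, `Kc θ x`, `a θ x` real functions, `P x`; `x` in `[-1,1]`.
The explicit family is `e θ t = P(x)^(1/4) C θ x`, `x = (t - tc)/h`.
-/

set_option autoImplicit false

open scoped Real ContDiff InnerProductSpace ComplexConjugate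
open MeasureTheory

namespace Pool.Agent.EM

open Pool.Agent.helper19.EL

/-- constants of the explicit functions; see `XFacts` -/
structure XNum (R : Type) where
  (eB0 eB1 eB2 eBx eA0 eA1 eA2 eAx eR k0 k1 k2 kx Plo Phi dP l0 l1 h ec0 ec1 ec2 kc0 kc1 kc2 A0 A1 A2 A3 eta' lam0 lam1 lam2 mg : R)

/-- the square of the speed of `C` -/
noncomputable def xB (C : ℝ → ℝ → ℂ) (θ x : ℝ) : ℝ := ‖pu C θ x‖ ^ 2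

/-- the numerator of the curvature of `C` -/
noncomputable def xA (C : ℝ → ℝ → ℂ) (θ x : ℝ) : ℝ := (conj (pu C θ x) * pu (pu C) θ x).im

/-- the residual (times `h`) -/
noncomputable def xR (C : ℝ → ℝ → ℂ) (K : ℝ → ℝ → ℝ) (P : ℝ → ℝ) (h θ x : ℝ) : ℝ :=
  deriv P x / 4 * (C θ x * conj (pu C θ x)).im + P x * (pt C θ x * conj (pu C θ x)).im +
    h * (pu (pu K) θ x + K θ x ^ 3 / 2)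

/-- certificate: `b`, `b'`, `b''` and the function which has to be at most `λ P` -/
noncomputable def cb (t k a a1 : ℝ) : ℝ := (a ^ 2 - a1) / 2 + 5 / (4 * t) * k ^ 2
noncomputable def cb1 (t k k1 a a1 a2 : ℝ) : ℝ := a * a1 - a2 / 2 + 5 / (2 * t) * (k * k1)
noncomputable def cb2 (t k k1 k2 a a1 a2 a3 : ℝ) : ℝ :=
  a1 ^ 2 + a * a2 - a3 / 2 + 5 / (2 * t) * (k1 ^ 2 + k * k2)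
noncomputable def cR (t k k1 k2 a a1 a2 a3 : ℝ) : ℝ :=
  t * (cb t k a a1 ^ 2 - (a1 * cb t k a a1 + a * cb1 t k k1 a a1 a2) + cb2 t k k1 k2 a a1 a2 a3) -
    (7 / 2 * (k * k2) + 3 * k1 ^ 2 + 5 / 4 * k ^ 4)

/-- what the kernel check proves about the explicit functions -/
structure XFacts (C : ℝ → ℝ → ℂ) (K Kc a : ℝ → ℝ → ℝ) (P : ℝ → ℝ) (m : XNum ℝ) : Prop where
  sC : ContDiff ℝ ∞ (fun p : ℝ × ℝ => C p.1 p.2)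
  sK : ContDiff ℝ ∞ (fun p : ℝ × ℝ => K p.1 p.2)
  sKc : ContDiff ℝ ∞ (fun p : ℝ × ℝ => Kc p.1 p.2)
  sa : ContDiff ℝ ∞ (fun p : ℝ × ℝ => a p.1 p.2)
  sP : ContDiff ℝ ∞ P
  pC : ∀ θ x, C (θ + 2 * π) x = C θ x
  pK : ∀ θ x, K (θ + 2 * π) x = K θ x
  pKc : ∀ θ x, Kc (θ + 2 * π) x = Kc θ x
  pa : ∀ θ x, a (θ + 2 * π) x = a θ x
  P_le : ∀ x ∈ Set.Icc (-1 : ℝ) 1, P x ≤ m.Phi
  le_P : ∀ x ∈ Set.Icc (-1 : ℝ) 1, m.Plo ≤ P x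
  dP : ∀ x ∈ Set.Icc (-1 : ℝ) 1, |deriv P x| ≤ m.dP
  B0 : ∀ x ∈ Set.Icc (-1 : ℝ) 1, ∀ θ, |xB C θ x - 1| ≤ m.eB0
  B1 : ∀ x ∈ Set.Icc (-1 : ℝ) 1, ∀ θ, |pu (xB C) θ x| ≤ m.eB1
  B2 : ∀ x ∈ Set.Icc (-1 : ℝ) 1, ∀ θ, |pu (pu (xB C)) θ x| ≤ m.eB2
  Bx : ∀ x ∈ Set.Icc (-1 : ℝ) 1, ∀ θ, |pt (xB C) θ x| ≤ m.eBx
  A0 : ∀ x ∈ Set.Icc (-1 : ℝ) 1, ∀ θ, |xA C θ x - K θ x| ≤ m.eA0
  A1 : ∀ x ∈ Set.Icc (-1 : ℝ) 1, ∀ θ, |pu (xA C) θ x - pu K θ x| ≤ m.eA1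
  A2 : ∀ x ∈ Set.Icc (-1 : ℝ) 1, ∀ θ, |pu (pu (xA C)) θ x - pu (pu K) θ x| ≤ m.eA2
  Ax : ∀ x ∈ Set.Icc (-1 : ℝ) 1, ∀ θ, |pt (xA C) θ x - pt K θ x| ≤ m.eAx
  R : ∀ x ∈ Set.Icc (-1 : ℝ) 1, ∀ θ, |xR C K P m.h θ x| ≤ m.eR
  K0 : ∀ x ∈ Set.Icc (-1 : ℝ) 1, ∀ θ, |K θ x| ≤ m.k0
  K1 : ∀ x ∈ Set.Icc (-1 : ℝ) 1, ∀ θ, |pu K θ x| ≤ m.k1
  K2 : ∀ x ∈ Set.Icc (-1 : ℝ) 1, ∀ θ, |pu (pu K) θ x| ≤ m.k2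
  Kx : ∀ x ∈ Set.Icc (-1 : ℝ) 1, ∀ θ, |pt K θ x| ≤ m.kx
  c0 : ∀ x ∈ Set.Icc (-1 : ℝ) 1, ∀ θ, |K θ x - Kc θ x| ≤ m.ec0
  c1 : ∀ x ∈ Set.Icc (-1 : ℝ) 1, ∀ θ, |pu K θ x - pu Kc θ x| ≤ m.ec1
  c2 : ∀ x ∈ Set.Icc (-1 : ℝ) 1, ∀ θ, |pu (pu K) θ x - pu (pu Kc) θ x| ≤ m.ec2
  kc0 : ∀ x ∈ Set.Icc (-1 : ℝ) 1, ∀ θ, |Kc θ x| ≤ m.kc0
  kc1 : ∀ x ∈ Set.Icc (-1 : ℝ) 1, ∀ θ, |pu Kc θ x| ≤ m.kc1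
  kc2 : ∀ x ∈ Set.Icc (-1 : ℝ) 1, ∀ θ, |pu (pu Kc) θ x| ≤ m.kc2
  a0 : ∀ x ∈ Set.Icc (-1 : ℝ) 1, ∀ θ, |a θ x| ≤ m.A0
  a1 : ∀ x ∈ Set.Icc (-1 : ℝ) 1, ∀ θ, |pu a θ x| ≤ m.A1
  a2 : ∀ x ∈ Set.Icc (-1 : ℝ) 1, ∀ θ, |pu (pu a) θ x| ≤ m.A2
  a3 : ∀ x ∈ Set.Icc (-1 : ℝ) 1, ∀ θ, |pu (pu (pu a)) θ x| ≤ m.A3
  cert : ∀ x ∈ Set.Icc (-1 : ℝ) 1, ∀ θ,
    cR (1 - m.eta') (Kc θ x) (pu Kc θ x) (pu (pu Kc) θ x) (a θ x) (pu a θ x) (pu (pu a) θ x)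
      (pu (pu (pu a)) θ x) ≤ (m.lam0 + m.lam1 * x + m.lam2 * x ^ 2) * P x - m.mg

namespace XNum

variable {R : Type} [Field R]

/-- errors of the curvature and its derivatives (dimensionless) -/
def E0 (m : XNum R) : R := 2 * m.eA0 + 2 * m.eB0 * m.k0
def E1 (m : XNum R) : R := 2 * m.eA1 + 3 * m.eB0 * m.k1 + 2 * m.eB1 * m.k0
def E2 (m : XNum R) : R := 2 * m.eA2 + 3 * m.eB0 * m.k2 + 4 * m.eB1 * m.k1 + m.eB1 * m.k0 + 2 * m.eB2 * m.k0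
/-- errors against `Kc` -/
def ek0 (m : XNum R) : R := m.ec0 + m.E0
def ek1 (m : XNum R) : R := m.ec1 + m.E1
def ek2 (m : XNum R) : R := m.ec2 + m.E2
def t (m : XNum R) : R := 1 - m.eta'
def b (m : XNum R) : R := (m.A0 ^ 2 + m.A1) / 2 + 5 / (4 * m.t) * m.kc0 ^ 2
def b1 (m : XNum R) : R := m.A0 * m.A1 + m.A2 / 2 + 5 / (2 * m.t) * (m.kc0 * m.kc1)
def b2 (m : XNum R) : R := m.A1 ^ 2 + m.A0 * m.A2 + m.A3 / 2 + 5 / (2 * m.t) * (m.kc1 ^ 2 + m.kc0 * m.kc2)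
/-- bounds of the dimensionless functions `Ahat' , Bhat, Bhat', Chat'` -/
def hB (m : XNum R) : R := m.t * m.b + 3 / 4 * m.kc0 ^ 2
def hB1 (m : XNum R) : R := m.t * m.b1 + 3 / 2 * (m.kc0 * m.kc1)
def hC1 (m : XNum R) : R := m.t * (m.A1 * m.b + m.A0 * m.b1) + m.t * m.b2 + (m.kc1 ^ 2 + m.kc0 * m.kc2) / 2
/-- errors in the quadratic form: coefficient of `w p`, `s²`, `w s`, `w²` -/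
def Ewp (m : XNum R) : R := 3 / 2 * (2 * m.kc0 + m.ek0) * m.ek0
def Ess (m : XNum R) : R := (2 * m.kc0 + m.ek0) * m.ek0 + m.eB0 * (m.t * m.A1)
def Ews (m : XNum R) : R := 4 * (m.ek0 * m.kc1 + m.kc0 * m.ek1 + m.ek0 * m.ek1) + 2 * m.eB0 * m.hB1
def Eww (m : XNum R) : R := 4 * (m.ek0 * m.kc2 + m.kc0 * m.ek2 + m.ek0 * m.ek2) +
  7 / 2 * m.ek1 * (2 * m.kc1 + m.ek1) + 5 * (m.kc0 + m.ek0) ^ 3 * m.ek0 + m.eB0 * m.hC1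

/-- numerical conditions linking `XNum` with `SNum` and the Lipschitz constant `Lp` -/
structure Ok [LinearOrder R] (m : XNum R) (n : SNum R) (Lp : R) : Prop where
  h : 0 < m.h
  eB0 : 0 ≤ m.eB0
  eB01 : m.eB0 ≤ m.eB1
  eB12 : m.eB1 ≤ m.eB2
  eB2 : m.eB2 ≤ 1 / 1000
  eBx : 0 ≤ m.eBx
  eA0 : 0 ≤ m.eA0
  eA01 : m.eA0 ≤ m.eA1
  eA12 : m.eA1 ≤ m.eA2
  eA2 : m.eA2 ≤ 1 / 1000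
  eAx : 0 ≤ m.eAx
  eR : 0 ≤ m.eR
  ec0 : 0 ≤ m.ec0
  ec1 : 0 ≤ m.ec1
  ec2 : 0 ≤ m.ec2
  k0 : 1 ≤ m.k0
  k1 : 0 ≤ m.k1
  k2 : 0 ≤ m.k2
  kx : 0 ≤ m.kx
  kc0 : 0 ≤ m.kc0
  kc1 : 0 ≤ m.kc1
  kc2 : 0 ≤ m.kc2
  Plo : 0 < m.Plo
  l0 : 0 < m.l0
  l1 : 0 < m.l1
  hl0 : m.l0 ^ 4 ≤ m.Plo
  hl1 : m.Phi ≤ m.l1 ^ 4
  eta' : m.eta' < 1
  eta : n.eta < m.eta'
  b0 : (m.k0 + m.E0) / m.l0 ≤ n.b0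
  b1 : (m.k1 + m.E1) / m.l0 ^ 2 ≤ n.b1
  b2 : (m.k2 + m.E2) / m.l0 ^ 3 ≤ n.b2
  rho : (101 / 100 * m.eR / m.h + m.eB0 * (m.k2 + m.k0 ^ 3) + m.E2 + 2 * (m.k0 + m.E0) ^ 2 * m.E0) / m.l0 ^ 3 ≤ n.rho
  Lhi : 103 / 100 * (62832 / 10000 * m.l1 * (1 + m.eB0)) ≤ n.Lhi
  Llo : 103 / 100 * n.Llo ≤ 628 / 100 * m.l0 * (1 - m.eB0)
  a0 : m.t * m.A0 / m.l0 ≤ n.a0
  a1 : 101 / 100 * (m.t * m.A1) / m.l0 ^ 2 ≤ n.a1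
  d0 : m.hB / m.l0 ^ 2 ≤ n.d0
  d1 : 101 / 100 * m.hB1 / m.l0 ^ 3 ≤ n.d1
  g1 : 101 / 100 * m.hC1 / m.l0 ^ 4 ≤ n.g1
  es : (m.Ess + m.Ews / 2) / m.l0 ^ 2 ≤ n.es
  mg : m.Ewp ^ 2 / (4 * (m.eta' - n.eta)) + m.Ews / 2 + m.Eww ≤ m.mg
  Lp : 64 / 10 / (m.h * m.l0) * (2 * (m.k0 + m.eA0) * (m.kx + m.eAx) + 3 * m.eBx * (m.k0 + m.eA0) ^ 2 +
    (m.k0 + m.eA0) ^ 2 * m.dP / (4 * m.Plo)) ≤ Lp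

end XNum

end Pool.Agent.EM
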