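import Mathlib

/-!
# EM-22: positivity of a cosine polynomial (Fejér–Riesz certificate, kernel check over `ℤ`)

`evc y θ = ∑ y_m cos (m θ)`.  `ac q` are the coefficients of `|∑ q_j exp (i j θ)|² ≥ 0`.
-/

set_option autoImplicit false

namespace Pool.Agent.EM

/-- `∑ y_m cos ((m + k) θ)` -/
noncomputable def evck : List ℤ → ℝ → ℝ → ℝ
  | [], _, _ => 0
  | a :: t, k, θ => a * Real.cos (k * θ) + evck t (k + 1) θ

/-- `∑ y_m sin ((m + k) θ)` -/
noncomputable def evsk : List ℤ → ℝ → ℝ → ℝ
  | [], _, _ => 0
  | a :: t, k, θ => a * Real.sin (k * θ) + evsk t (k + 1) θ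

/-- `∑ y_m cos (m θ)` -/
noncomputable def evc (y : List ℤ) (θ : ℝ) : ℝ := evck y 0 θ

/-- sum of two lists -/
def addL : List ℤ → List ℤ → List ℤ
  | [], l => l
  | l, [] => l
  | a :: s, b :: t => (a + b) :: addL s t

/-- difference of two lists -/
def subL : List ℤ → List ℤ → List ℤ
  | l, [] => l
  | [], b :: t => (-b) :: subL [] t
  | a :: s, b :: t => (a - b) :: subL s t

/-- multiple of a list -/
def scL (r : ℤ) : List ℤ → List ℤ
  | [] => []
  | a :: t => (r * a) :: scL r t

/-- coefficients of `|∑ q_j exp (i j θ)|²` -/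
def ac : List ℤ → List ℤ
  | [] => []
  | a :: t => addL (ac t) ((a * a) :: scL (2 * a) t)

/-- sum of the absolute values -/
def sumAbs : List ℤ → ℤ
  | [] => 0
  | a :: t => |a| + sumAbs t

theorem evck_add (s t : List ℤ) (k θ : ℝ) : evck (addL s t) k θ = evck s k θ + evck t k θ := by
  induction s generalizing t k with
  | nil => simp [addL, evck]
  | cons a s ih =>
    cases t with
    | nil => simp [addL, evck]
    | cons b t =>
      simp only [addL, evck, ih]
      push_cast
      ring

theorem evck_sub (s t : List ℤ) (k θ : ℝ) : evck (subL s t) k θ = evck s k θ - evck t k θ := by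
  induction t generalizing s k with
  | nil => simp [subL, evck]
  | cons b t ih =>
    cases s with
    | nil =>
      simp only [subL, evck, ih]
      push_cast
      ring
    | cons a s =>
      simp only [subL, evck, ih]
      push_cast
      ring

theorem evck_sc (r : ℤ) (t : List ℤ) (k θ : ℝ) : evck (scL r t) k θ = r * evck t k θ := by
  induction t generalizing k with
  | nil => simp [scL, evck]
  | cons a t ih =>
    simp only [scL, evck, ih]
    push_cast
    ring

/-- shift of the frequency -/
theorem evck_shift (t : List ℤ) (k j θ : ℝ) :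
    evck t (k + j) θ = Real.cos (j * θ) * evck t k θ - Real.sin (j * θ) * evsk t k θ := by
  induction t generalizing k with
  | nil => simp [evck, evsk]
  | cons a t ih =>
    have h1 := ih (k + 1)
    rw [show k + 1 + j = k + j + 1 by ring] at h1
    simp only [evck, evsk, h1, add_mul k j θ, Real.cos_add]
    ring

theorem evsk_shift (t : List ℤ) (k j θ : ℝ) :
    evsk t (k + j) θ = Real.cos (j * θ) * evsk t k θ + Real.sin (j * θ) * evck t k θ := by
  induction t generalizing k with
  | nil => simp [evck, evsk]
  | cons a t ih =>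
    have h1 := ih (k + 1)
    rw [show k + 1 + j = k + j + 1 by ring] at h1
    simp only [evck, evsk, h1, add_mul k j θ, Real.sin_add]
    ring

/-- `ac q` are the coefficients of the square of the absolute value -/
theorem evc_ac (q : List ℤ) (θ : ℝ) : evc (ac q) θ = evck q 0 θ ^ 2 + evsk q 0 θ ^ 2 := by
  unfold evc
  induction q with
  | nil => simp [ac, evck, evsk]
  | cons a t ih =>
    have h1 := evck_shift t 0 1 θ
    have h2 := evsk_shift t 0 1 θ
    have h3 := Real.sin_sq_add_cos_sq (1 * θ)
    simp only [ac, evck_add, ih]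
    simp only [evck, evsk, evck_sc]
    rw [h1, h2]
    simp only [zero_mul, Real.cos_zero, Real.sin_zero, mul_one, mul_zero, zero_add]
    push_cast
    linear_combination (-(evck t 0 θ ^ 2 + evsk t 0 θ ^ 2)) * h3

theorem evck_le (t : List ℤ) (k θ : ℝ) : |evck t k θ| ≤ sumAbs t := by
  induction t generalizing k with
  | nil => simp [evck, sumAbs]
  | cons a t ih =>
    simp only [evck, sumAbs]
    push_cast
    refine (abs_add_le _ _).trans (add_le_add ?_ (ih _))
    rw [abs_mul]
    exact mul_le_of_le_one_right (abs_nonneg _) (Real.abs_cos_le_one _)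

/-- the check: `y ≥ eps` -/
def chkPos (y q : List ℤ) (eps : ℤ) : Bool :=
  match subL y (ac q) with
  | [] => decide (eps ≤ 0)
  | a :: t => decide (eps + sumAbs t ≤ a)

/-- **Positivity of a cosine polynomial.** -/
theorem evc_ge {y q : List ℤ} {eps : ℤ} (h : chkPos y q eps = true) (θ : ℝ) :
    (eps : ℝ) ≤ evc y θ := by
  have h1 : evc y θ = evc (ac q) θ + evck (subL y (ac q)) 0 θ := by
    rw [evck_sub]
    unfold evc
    ring
  have h2 : 0 ≤ evc (ac q) θ := by
    rw [evc_ac]
    positivity
  unfold chkPos at h
  rw [h1]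
  split at h
  · rename_i h3
    rw [h3]
    have h4 := of_decide_eq_true h
    have h5 : (eps : ℝ) ≤ 0 := by exact_mod_cast h4
    simp only [evck]
    linarith
  · rename_i a t h3
    rw [h3]
    have h4 := of_decide_eq_true h
    have h5 : (eps : ℝ) + sumAbs t ≤ a := by exact_mod_cast h4
    simp only [evck, zero_mul, Real.cos_zero, mul_one]
    have h6 := (abs_le.1 (evck_le t (0 + 1) θ)).1
    linarith

/-- the check: `y ≤ -eps` -/
def chkNeg (y q : List ℤ) (eps : ℤ) : Bool := chkPos (subL [] y) q eps

theorem evc_le {y q : List ℤ} {eps : ℤ} (h : chkNeg y q eps = true) (θ : ℝ) :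
    evc y θ ≤ -(eps : ℝ) := by
  have h1 := evc_ge h θ
  unfold evc at h1 ⊢
  rw [evck_sub] at h1
  simp only [evck, zero_sub] at h1
  linarith

end Pool.Agent.EM
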