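import Pool.Agent.EM.EM21
import Pool.Agent.EM.Ck.Sign

/-!
# EM-23: assembly

`ND`: the curve at a common time (integers).  `nA r N`, `nB r N`: the states at the beginning and at the end of the
interval with the rational numbers `r`.  `reach_nd`: one interval; `link_nd`: neighbouring intervals; `final_nd`: the end.
-/

set_option autoImplicit false

open scoped Real ContDiff
open Polynomial

namespace Pool.Agent.EM

open Pool.Agent.helper19.EL Pool.Agent.helper19.EM Pool.Agent.EM.Ck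

/-! ## decoding of lists of integers -/

/-- `n` digits in base `W`, minus `off` -/
def unp (W off : ℕ) : ℕ → ℕ → List ℤ
  | 0, _ => []
  | n + 1, z => Int.subNatNat (z % W) off :: unp W off n (z / W)

/-- blocks `(number of digits, number)`; digit width `w` -/
def unpB (w : ℕ) (l : List (ℕ × ℕ)) : List ℤ :=
  l.flatMap fun p => unp (2 ^ w) (2 ^ (w - 1)) p.1 p.2

/-! ## the curve at a common time -/

/-- the integers of a curve: centre, coefficients, `P` -/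
structure ND where
  ME : ℕ
  E : List ℤ
  Q : ℤ

/-- the curve (scales `2^b` of the coefficients, `2^bP` of `P`) -/
noncomputable def ND.cur (b bP : ℕ) (N : ND) (θ : ℝ) : ℂ :=
  ((((N.Q : ℝ) / 2 ^ bP) ^ (1 / 4 : ℝ) : ℝ) : ℂ) * fC b N.ME (mkA (N.E.map C)) θ 0

/-- the state at the beginning of an interval -/
noncomputable def nA (b bP : ℕ) (r : RNum) (N : ND) : Node :=
  ⟨((r.tc - r.x.h : ℚ) : ℝ), ((r.n.W / 2 : ℚ) : ℝ), ((r.n.S / 2 : ℚ) : ℝ), (r.k.n0 : ℝ), (r.k.e0 : ℝ), N.cur b bP⟩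

/-- the state at the end of an interval -/
noncomputable def nB (b bP : ℕ) (r : RNum) (N : ND) : Node :=
  ⟨((r.tc + r.x.h : ℚ) : ℝ), (r.k.Wo : ℝ), (r.k.So : ℝ), (r.k.N : ℝ), (r.k.e1 : ℝ), N.cur b bP⟩

/-- **One interval.** -/
theorem reach_nd {b bP : ℕ} {r : RNum} {N N' : ND} (h : r.chk = true) {C0 : ℝ → ℝ → ℂ} {K Kc a : ℝ → ℝ → ℝ}
    {P : ℝ → ℝ} (hx : XFacts C0 K Kc a P r.x.cast)
    (h1 : ∀ θ, C0 θ (-1) = fC b N.ME (mkA (N.E.map C)) θ 0)
    (h2 : ∀ θ, C0 θ 1 = fC b N'.ME (mkA (N'.E.map C)) θ 0)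
    (h3 : P (-1) = N.Q / 2 ^ bP) (h4 : P 1 = N'.Q / 2 ^ bP) :
    Reach (nA b bP r N) (nB b bP r N') := by
  have h5 := r.reach h hx
  have eA : r.A C0 P = nA b bP r N := by
    unfold RNum.A nA
    congr 1
    funext θ
    unfold ND.cur
    rw [h1, h3]
  have eB : r.B C0 P = nB b bP r N' := by
    unfold RNum.B nB
    congr 1
    funext θ
    unfold ND.cur
    rw [h2, h4]
  rwa [eA, eB] at h5

/-- neighbouring intervals -/
theorem link_nd {b bP : ℕ} {r r' : RNum} (N : ND) (h : r.link r' = true) :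
    (nB b bP r N).Weak (nA b bP r' N) := by
  unfold RNum.link at h
  simp only [Bool.and_eq_true, decide_eq_true_eq] at h
  obtain ⟨⟨⟨⟨⟨h1, h2⟩, h3⟩, h4⟩, h5⟩, h6⟩ := h
  refine ⟨?_, ?_, ?_, ?_, ?_, ?_, fun θ => rfl⟩
  · show ((r.tc + r.x.h : ℚ) : ℝ) = ((r'.tc - r'.x.h : ℚ) : ℝ)
    rw [h1]
  · exact (Rat.cast_le (K := ℝ)).2 h2
  · exact (Rat.cast_le (K := ℝ)).2 h3
  · have := (Rat.cast_le (K := ℝ)).2 h4
    rw [Rat.cast_zero] at this
    exact this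
  · exact (Rat.cast_le (K := ℝ)).2 h5
  · exact (Rat.cast_le (K := ℝ)).2 h6

/-- two groups of intervals -/
theorem Reach.link {b bP : ℕ} {A D : Node} {r r' : RNum} {N : ND} (h1 : Reach A (nB b bP r N))
    (h : r.link r' = true) (h2 : Reach (nA b bP r' N) D) : Reach A D :=
  h1.trans (link_nd N h) h2

/-- the check at the start: time `0`, the curve is in the upper half-plane -/
def chkStart (r : RNum) (N : ND) (q : List ℤ) (eps : ℤ) : Bool :=
  decide (r.tc - r.x.h = 0) && decide (0 ≤ r.n.W / 2) && decide (0 ≤ r.n.S / 2) && decide (0 ≤ r.k.e0) &&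
  decide (N.ME ≤ N.E.length) && decide (0 < eps) && decide (0 < N.Q) && chkPos (foldE N.ME N.E) q eps

/-- the check at the end: the curve is in the lower half-plane, far from the real axis -/
def chkEnd (b bP : ℕ) (r : RNum) (N : ND) (q : List ℤ) (eps : ℤ) (l0 : ℚ) : Bool :=
  decide (0 < r.tc + r.x.h) && decide (0 < l0) && decide (l0 ^ 4 * 2 ^ bP ≤ N.Q) &&
  decide (r.k.Wo * 2 ^ b < l0 * eps) &&
  decide (N.ME ≤ N.E.length) && decide (0 < eps) && chkNeg (foldE N.ME N.E) q eps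

/-- **The conclusion.** -/
theorem final_nd {b bP : ℕ} {r r' : RNum} {N N' : ND} {q q' : List ℤ} {eps eps' : ℤ} {l0 : ℚ}
    (h : Reach (nA b bP r N) (nB b bP r' N')) (h1 : chkStart r N q eps = true)
    (h2 : chkEnd b bP r' N' q' eps' l0 = true) :
    ∃ (c : ℝ → ℂ) (t : ℝ), ContDiff ℝ ∞ c ∧ (∀ u, c (u + 1) = c u) ∧ (∀ u, deriv c u ≠ 0) ∧
      (∀ u, 0 < (c u).im) ∧ 0 < t ∧
      (∀ T : ℝ, 0 < T → ∃ γ : ℝ → ℝ → ℂ, IsFlow γ T ∧ ∀ u, γ u 0 = c u) ∧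
      ∀ (γ : ℝ → ℝ → ℂ) (T : ℝ), IsFlow γ T → t < T → (∀ u, γ u 0 = c u) →
        ∀ u, (γ u t).im < 0 := by
  unfold chkStart at h1
  unfold chkEnd at h2
  simp only [Bool.and_eq_true, decide_eq_true_eq] at h1 h2
  obtain ⟨⟨⟨⟨⟨⟨⟨a1, a2⟩, a3⟩, a4⟩, a5⟩, a6⟩, a7⟩, a8⟩ := h1
  obtain ⟨⟨⟨⟨⟨⟨b1, b2⟩, b3⟩, b4⟩, b5⟩, b6⟩, b7⟩ := h2
  have c1 := (Rat.cast_le (K := ℝ)).2 a2
  have c2 := (Rat.cast_le (K := ℝ)).2 a3
  have c3 := (Rat.cast_le (K := ℝ)).2 a4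
  have c4 := (Rat.cast_lt (K := ℝ)).2 b1
  have c5 := (Rat.cast_lt (K := ℝ)).2 b2
  have c6 := (Rat.cast_le (K := ℝ)).2 b3
  have c7 := (Rat.cast_lt (K := ℝ)).2 b4
  rw [Rat.cast_zero] at c1 c2 c3 c4 c5
  refine migrating_of_reach h ?_ c1 c2 c3 c4 (fun θ => ?_) fun θ => ?_
  · show ((r.tc - r.x.h : ℚ) : ℝ) = 0
    rw [a1, Rat.cast_zero]
  · refine im_pos a5 a6 a8 ?_ θ
    have : (0 : ℝ) < N.Q := by exact_mod_cast a7
    positivity
  · push_cast at c6 c7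
    refine im_neg b5 b6 b7 c5 ?_ c7 θ
    rw [le_div_iff₀ (by positivity)]
    exact c6

end Pool.Agent.EM
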