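import Pool.Agent.EM.Defs

/-!
# EM: the constants of one time interval

All constants are generic numbers (used over `ℝ` and, for the kernel check, over `ℚ`).
-/

set_option autoImplicit false

namespace Pool.Agent.EM

/-- Constants for the inequality on a slice.
`b0, b1, b2`: bounds of `|K|, |K1|, |K2|`; `a0, a1`: of `|A|, |A1|`; `d0, d1`: of `|B|, |B1|`; `g1`: of `|C1|`;
`W, S`: bounds of `|w|, |s|`; `eta, es`: constants of the quadratic form; `z, th`: free positive parameters;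
`Lr`: the contribution of the terms of higher order; `rho`: bound of the residual;
`Llo, Lhi`: bounds of the length of the curve; `rL`: bound of the square root of `Lhi`. -/
structure SNum (R : Type) where
  (b0 b1 b2 a0 a1 d0 d1 g1 W S eta es z th Lr rho Llo Lhi rL : R)

namespace SNum

variable {R : Type} [Field R]

/-- bound of `|c q - 1|` -/
def dq (n : SNum R) : R := n.S ^ 2 + 102 / 100 * n.b0 * n.W

/-- coefficients of `w², |w s|, |w p|, s², |s p|, p²` -/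
def c1 (n : SNum R) : R := n.W * (19 * n.b0 * n.b1 ^ 2 + 11 * n.b0 ^ 2 * n.b2 + 3 * n.b0 ^ 5) + n.dq * n.g1
def c2 (n : SNum R) : R := 18 * n.b0 ^ 2 * n.b1 * n.W + 9 * n.b0 * n.b1 * n.S ^ 2 + 2 * n.dq * n.d1
def c3 (n : SNum R) : R := n.W * (3 * n.b0 ^ 3 + 2 * n.b2) + 6 * n.b0 ^ 2 * n.S ^ 2 + 4 * n.b1 ^ 2 * n.W ^ 2 +
  2 * n.S ^ 2 * n.d0
def c4 (n : SNum R) : R := n.W * (3 * n.b0 ^ 3 + 3 * n.b2) + 2 * n.b0 ^ 2 * n.S ^ 2 + 8 * n.b1 ^ 2 * n.W ^ 2 +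
  n.dq * n.a1
def c5 (n : SNum R) : R := 5 * n.b1 * n.W + 2 * n.S ^ 2 * n.a0
def c6 (n : SNum R) : R := n.b0 * n.W + 3 * n.S ^ 2 + 3 * n.b1 * n.W ^ 2 * n.S

/-- the coefficient of `X Y` -/
def cxy (n : SNum R) : R := n.c3 + n.c4 + n.es + n.c2 / (2 * n.z) + n.c5 * n.z / 2

/-- coefficients of the energy comparison -/
def cL (n : SNum R) : R := n.rL * (11 / 10 * n.b0 ^ 3 + 23 / 10 * n.b2)
def cQ (n : SNum R) : R := 8 * n.b1 ^ 2 + 4 * n.b0 ^ 2 * n.b1 + (4 * n.b1 + 4 * n.b0 ^ 2) ^ 2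

/-- the numerical conditions -/
structure Ok [LinearOrder R] (n : SNum R) : Prop where
  b0 : 0 < n.b0
  b1 : 0 < n.b1
  b2 : 0 < n.b2
  a0 : 0 ≤ n.a0
  a1 : 0 ≤ n.a1
  d0 : 0 ≤ n.d0
  d1 : 0 ≤ n.d1
  g1 : 0 ≤ n.g1
  W : 0 < n.W
  S : 0 < n.S
  eta : 0 < n.eta
  eta1 : n.eta < 1
  es : 0 ≤ n.es
  z : 0 < n.z
  th : 0 < n.th
  rho : 0 ≤ n.rho
  Llo : 0 < n.Llo
  Llh : n.Llo ≤ n.Lhi
  rL : 0 < n.rL
  rL2 : n.Lhi ≤ n.rL ^ 2
  S1 : n.S ≤ 1 / 100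
  bW : n.b0 * n.W ≤ 1 / 100
  n1 : n.c1 + n.c2 * n.z / 2 + n.cxy ^ 2 / (4 * n.th) ≤ n.Lr
  n2 : n.c6 + n.c5 / (2 * n.z) + n.th + 15 * n.S ^ 2 ≤ n.eta / 2

end SNum

end Pool.Agent.EM
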