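import Mathlib
import Pool.Agent.helper19.EL.Evo

/-!
# EM: a migrating free elastic flow (MP_278900_an), definitions

A solution `γ` of the free elastic flow is compared with an explicit family `e` of closed curves.
`γ u t` has period `1` in `u`; `e θ t` has period `2π` in `θ`.

Slice data: at a fixed time every point `γ u` has a foot point `e (α u)`,
`γ u = e (α u) + w u • N̂ (α u)`.
-/

set_option autoImplicit false

open scoped Real ContDiff InnerProductSpace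
open MeasureTheory

namespace Pool.Agent.EM

open Pool.Agent.helper19.EL

/-! ## Slice data -/

/-- Functions of the parameter `u` (period 1) attached to a curve and an explicit curve at a fixed time.
`v` speed of the curve; `w` signed distance to the foot point; `s`, `c` sine and cosine of the angle between the
tangents; `k, k1, k2` curvature of the curve and its arc length derivatives; `K, K1, K2` the curvature of the
explicit curve and its arc length derivatives (with respect to the arc length of the explicit curve), at the foot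
point; `q = 1 / (1 - K w)`; `p = k - K c q`; `p1` the arc length derivative of `p` (along the curve). -/
structure SD where
  (v w s c k k1 k2 p p1 q K K1 K2 : ℝ → ℝ)

/-- the relations between slice data -/
structure SD.Ok (S : SD) : Prop where
  pv : ∀ u, S.v (u + 1) = S.v u
  pw : ∀ u, S.w (u + 1) = S.w u
  ps : ∀ u, S.s (u + 1) = S.s u
  pc : ∀ u, S.c (u + 1) = S.c u
  pk : ∀ u, S.k (u + 1) = S.k u
  pk1 : ∀ u, S.k1 (u + 1) = S.k1 u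
  pK : ∀ u, S.K (u + 1) = S.K u
  pK1 : ∀ u, S.K1 (u + 1) = S.K1 u
  cv : Continuous S.v
  ck2 : Continuous S.k2
  cK2 : Continuous S.K2
  cp1 : Continuous S.p1
  vpos : ∀ u, 0 < S.v u
  cpos : ∀ u, 0 < S.c u
  cs : ∀ u, S.c u ^ 2 + S.s u ^ 2 = 1
  hq : ∀ u, S.q u * (1 - S.K u * S.w u) = 1
  hp : ∀ u, S.p u = S.k u - S.K u * S.c u * S.q u
  dw : ∀ u, HasDerivAt S.w (S.v u * S.s u) u
  ds : ∀ u, HasDerivAt S.s (S.v u * (S.c u * S.p u)) u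
  dc : ∀ u, HasDerivAt S.c (-(S.v u * (S.s u * S.p u))) u
  dk : ∀ u, HasDerivAt S.k (S.v u * S.k1 u) u
  dk1 : ∀ u, HasDerivAt S.k1 (S.v u * S.k2 u) u
  dp : ∀ u, HasDerivAt S.p (S.v u * S.p1 u) u
  dK : ∀ u, HasDerivAt S.K (S.v u * (S.c u * S.q u * S.K1 u)) u
  dK1 : ∀ u, HasDerivAt S.K1 (S.v u * (S.c u * S.q u * S.K2 u)) u

/-- `f` lives on the explicit curve, with arc length derivative `f1` there -/
structure SD.Lift (S : SD) (f f1 : ℝ → ℝ) : Prop where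
  per : ∀ u, f (u + 1) = f u
  cont : Continuous f1
  der : ∀ u, HasDerivAt f (S.v u * (S.c u * S.q u * f1 u)) u

/-- `∮ f ds` -/
noncomputable def SD.I (S : SD) (f : ℝ → ℝ) : ℝ := ∫ u in (0 : ℝ)..1, f u * S.v u

/-- squared norms -/
noncomputable def SD.X2 (S : SD) : ℝ := S.I fun u => S.w u ^ 2
noncomputable def SD.Y2 (S : SD) : ℝ := S.I fun u => S.p u ^ 2
noncomputable def SD.G2 (S : SD) : ℝ := S.I fun u => S.s u ^ 2
noncomputable def SD.Z2 (S : SD) : ℝ := S.I fun u => S.w u ^ 2 * S.p1 u ^ 2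
noncomputable def SD.A2 (S : SD) : ℝ := S.I fun u => S.w u ^ 2 * S.p u ^ 4
noncomputable def SD.L (S : SD) : ℝ := S.I fun _ => 1
noncomputable def SD.E2 (S : SD) : ℝ := S.I fun u => S.k u ^ 2

/-- the integrand of `d/dt (1/2) ∮ w² ds` without the residual -/
noncomputable def SD.J (S : SD) (u : ℝ) : ℝ :=
  -(S.w u * S.c u - S.w u ^ 2 * S.k u / 2) * (S.k2 u + S.k u ^ 3 / 2) +
    S.w u * (S.K2 u + S.K u ^ 3 / 2)

/-- the quadratic part -/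
noncomputable def low (w s p K K1 K2 : ℝ) : ℝ :=
  -p ^ 2 - 3 / 2 * K ^ 2 * w * p + K ^ 2 * s ^ 2 - 4 * K * K1 * w * s -
    (4 * K * K2 + 7 / 2 * K1 ^ 2 + 5 / 4 * K ^ 4) * w ^ 2

/-- the part of higher order -/
noncomputable def high (w s c p q K K1 K2 : ℝ) : ℝ :=
  3 / 2 * K ^ 2 * (1 - c) * w * p + 4 * K * K1 * (1 - c) * w * s +
  s ^ 2 * p * c * K * (-3 / 2 * q - 1 / 2 * q ^ 2 + 2 * q ^ 3) +
  s ^ 3 * c * K1 * (-3 * q ^ 3 + 2 * q ^ 4 + q ^ 5) +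
  w * p ^ 2 * K * (-3 * q + 5 / 2 * q ^ 2) +
  w * s * p * K1 * (-2 * q ^ 3 + 6 * q ^ 4) +
  w * s ^ 2 * K ^ 3 * (q + q ^ 2 + q ^ 3 - q ^ 4) +
  w * s ^ 2 * K2 * (2 * q ^ 4) +
  w ^ 2 * p * c * K ^ 3 * (-3 / 2 * q - 3 / 2 * q ^ 2 + q ^ 3) +
  w ^ 2 * p * c * K2 * q ^ 4 +
  w ^ 2 * s * c * K ^ 2 * K1 * (-4 * q - 4 * q ^ 2 - 4 * q ^ 3 - 4 * q ^ 4 - q ^ 5) +
  w ^ 3 * K * K1 ^ 2 * (-7 / 2 * q - 7 / 2 * q ^ 2 - 7 / 2 * q ^ 3 - 7 / 2 * q ^ 4 - 7 / 2 * q ^ 5 - 1 / 2 * q ^ 6) +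
  w ^ 3 * K ^ 2 * K2 * (-4 * q - 3 * q ^ 2 - 2 * q ^ 3 - q ^ 4) +
  w ^ 3 * K ^ 5 * (-5 / 4 * q - 3 / 4 * q ^ 2 - 1 / 4 * q ^ 3 + 1 / 4 * q ^ 4) +
  s ^ 2 * p ^ 2 * (-7 / 2 + 19 / 2 * q - 4 * q ^ 2) +
  s ^ 4 * K ^ 2 * (-3 / 4 * q ^ 2 - q ^ 3 + 3 / 4 * q ^ 4) +
  w * p ^ 3 * c * (-3 / 2 + q) +
  w ^ 2 * s ^ 2 * K1 ^ 2 * (6 * q ^ 5 + q ^ 6) +
  w ^ 3 * p * c * K1 ^ 2 * (3 * q ^ 5) +
  w * s ^ 3 * p * K1 * (2 * q ^ 3 - 6 * q ^ 4) -
  w * s ^ 4 * K2 * q ^ 4 -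
  2 * w ^ 2 * s * p ^ 2 * c * K1 * q ^ 3 -
  w ^ 2 * s ^ 2 * p * c * K2 * q ^ 4 +
  1 / 4 * w ^ 2 * p ^ 4 +
  w ^ 2 * s ^ 4 * K1 ^ 2 * (-3 * q ^ 5 - 1 / 2 * q ^ 6) -
  3 * w ^ 3 * s ^ 2 * p * c * K1 ^ 2 * q ^ 5

/-! ## Explicit families and labels -/

/-- an explicit smooth family of closed immersed curves, period `2π` in the first variable -/
structure Fam (e : ℝ → ℝ → ℂ) (a b : ℝ) : Prop where
  smooth : ContDiff ℝ ∞ (fun p : ℝ × ℝ => e p.1 p.2)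
  per : ∀ θ t, e (θ + 2 * π) t = e θ t
  imm : ∀ t ∈ Set.Icc a b, ∀ θ, deriv (fun θ' => e θ' t) θ ≠ 0

/-- a label on the time interval `[a, b]`: `e (α u t) t` is the foot point of `γ u t` -/
structure Lab (γ e : ℝ → ℝ → ℂ) (α : ℝ → ℝ → ℝ) (a b W S : ℝ) : Prop where
  cont : ContinuousOn (fun p : ℝ × ℝ => α p.1 p.2) (Set.univ ×ˢ Set.Icc a b)
  per : ∀ t ∈ Set.Icc a b, ∀ u, α (u + 1) t = α u t + 2 * π
  foot : ∀ t ∈ Set.Icc a b, ∀ u,
    ⟪γ u t - e (α u t) t, tang (sl e t) (α u t)⟫_ℝ = 0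
  w_le : ∀ t ∈ Set.Icc a b, ∀ u, |⟪γ u t - e (α u t) t, nor (sl e t) (α u t)⟫_ℝ| ≤ W
  s_le : ∀ t ∈ Set.Icc a b, ∀ u, |⟪tang (sl γ t) u, nor (sl e t) (α u t)⟫_ℝ| ≤ S
  c_pos : ∀ t ∈ Set.Icc a b, ∀ u, 0 < ⟪tang (sl γ t) u, tang (sl e t) (α u t)⟫_ℝ

/-- the slice data of two curves with a label -/
noncomputable def mkSD (g f : ℝ → ℂ) (α : ℝ → ℝ) : SD where
  v := speed g
  w := fun u => ⟪g u - f (α u), nor f (α u)⟫_ℝ
  s := fun u => ⟪tang g u, nor f (α u)⟫_ℝ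
  c := fun u => ⟪tang g u, tang f (α u)⟫_ℝ
  k := curv g
  k1 := dsR g (curv g)
  k2 := dsR g (dsR g (curv g))
  p := fun u => curv g u - curv f (α u) * ⟪tang g u, tang f (α u)⟫_ℝ *
    (1 - curv f (α u) * ⟪g u - f (α u), nor f (α u)⟫_ℝ)⁻¹
  p1 := dsR g fun u => curv g u - curv f (α u) * ⟪tang g u, tang f (α u)⟫_ℝ *
    (1 - curv f (α u) * ⟪g u - f (α u), nor f (α u)⟫_ℝ)⁻¹
  q := fun u => (1 - curv f (α u) * ⟪g u - f (α u), nor f (α u)⟫_ℝ)⁻¹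
  K := fun u => curv f (α u)
  K1 := fun u => dsR f (curv f) (α u)
  K2 := fun u => dsR f (dsR f (curv f)) (α u)

/-- the slice data of a flow, an explicit family and a label at time `t` -/
noncomputable def sd (γ e : ℝ → ℝ → ℂ) (α : ℝ → ℝ → ℝ) (t : ℝ) : SD :=
  mkSD (sl γ t) (sl e t) fun u => α u t

/-- normal velocity of an explicit family -/
noncomputable def nuE (e : ℝ → ℝ → ℂ) (θ t : ℝ) : ℝ :=
  ⟪deriv (fun t' => e θ t') t, nor (sl e t) θ⟫_ℝ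

/-- the residual of an explicit family -/
noncomputable def resE (e : ℝ → ℝ → ℂ) (θ t : ℝ) : ℝ :=
  nuE e θ t + dsR (sl e t) (dsR (sl e t) (curv (sl e t))) θ + curv (sl e t) θ ^ 3 / 2

/-- twice the energy and the length of an explicit curve of period `2π` -/
noncomputable def En2 (f : ℝ → ℂ) : ℝ := ∫ θ in (0 : ℝ)..(2 * π), curv f θ ^ 2 * speed f θ
noncomputable def Len2 (f : ℝ → ℂ) : ℝ := ∫ θ in (0 : ℝ)..(2 * π), speed f θ

end Pool.Agent.EM
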