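import Pool.Agent.EM.Consts
import Pool.Agent.helper19.EL.IntEvo

/-!
# EM: hypotheses used by several files
-/

set_option autoImplicit false

open scoped Real ContDiff InnerProductSpace
open MeasureTheory

namespace Pool.Agent.EM

open Pool.Agent.helper19.EL

/-- bounds of the functions on the explicit curve and smallness of the slice -/
structure SD.Bd (S : SD) (A A1 B B1 C C1 r : ℝ → ℝ) (n : SNum ℝ) (Lam : ℝ) : Prop where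
  hA : S.Lift A A1
  hB : S.Lift B B1
  hC : S.Lift C C1
  hr : Continuous r
  K_le : ∀ u, |S.K u| ≤ n.b0
  K1_le : ∀ u, |S.K1 u| ≤ n.b1
  K2_le : ∀ u, |S.K2 u| ≤ n.b2
  A_le : ∀ u, |A u| ≤ n.a0
  A1_le : ∀ u, |A1 u| ≤ n.a1
  B_le : ∀ u, |B u| ≤ n.d0
  B1_le : ∀ u, |B1 u| ≤ n.d1
  C1_le : ∀ u, |C1 u| ≤ n.g1
  r_le : ∀ u, |r u| ≤ n.rho
  w_le : ∀ u, |S.w u| ≤ n.W
  s_le : ∀ u, |S.s u| ≤ n.S
  L_le : S.L ≤ n.Lhi
  le_L : n.Llo ≤ S.L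
  qf : ∀ u, ∀ w s p : ℝ, low w s p (S.K u) (S.K1 u) (S.K2 u) +
    (A1 u * s ^ 2 + 2 * A u * s * p + 2 * B1 u * w * s + 2 * B u * s ^ 2 + 2 * B u * w * p + C1 u * w ^ 2 +
      2 * C u * w * s) ≤ -n.eta * p ^ 2 + n.es * s ^ 2 + Lam * w ^ 2

/-- hypotheses on two curves and a continuous label at a fixed time -/
structure Slice (g f : ℝ → ℂ) (α : ℝ → ℝ) : Prop where
  smg : ContDiff ℝ ∞ g
  perg : ∀ u, g (u + 1) = g u
  immg : ∀ u, deriv g u ≠ 0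
  smf : ContDiff ℝ ∞ f
  perf : ∀ θ, f (θ + 2 * π) = f θ
  immf : ∀ θ, deriv f θ ≠ 0
  cont : Continuous α
  per : ∀ u, α (u + 1) = α u + 2 * π
  foot : ∀ u, ⟪g u - f (α u), tang f (α u)⟫_ℝ = 0
  small : ∀ u, |curv f (α u) * ⟪g u - f (α u), nor f (α u)⟫_ℝ| ≤ 1 / 100
  cpos : ∀ u, 0 < ⟪tang g u, tang f (α u)⟫_ℝ

/-- hypotheses of the comparison of a flow with an explicit family on a time interval -/
structure Cmp (γ e : ℝ → ℝ → ℂ) (α : ℝ → ℝ → ℝ) (T a b W S K0 : ℝ) : Prop where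
  flow : IsFlow γ T
  fam : Fam e a b
  lab : Lab γ e α a b W S
  ha : 0 ≤ a
  hab : a ≤ b
  hbT : b < T
  K0pos : 0 < K0
  hK0 : ∀ t ∈ Set.Icc a b, ∀ θ, |curv (sl e t) θ| ≤ K0
  hW : 0 ≤ W
  KW : K0 * W ≤ 1 / 100
  hS1 : S ≤ 1 / 100

end Pool.Agent.EM
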