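import Pool.Agent.EM.Defs2

/-!
# EM-01: the exact identity on a slice

PROOF of `identity`.  Write `P1 = c^2 q^3 K1 + K^2 c q^2 s` and `M = w c - w^2 k / 2`.
(1) `q = 1/(1 - K w)` (from `h.hq`; `1 - K w ≠ 0`), so `HasDerivAt q (v * (q^2 * (c q K1 w + K s))) u`,
    and `q = 1 + K w q`.
(2) `(K c q)' = v (P1 - K q s p)`: product rule gives
    `v (c^2 q^2 K1 - K q s p + K c q^2 (c q K1 w + K s))`; use `q = 1 + K w q`.
    As `k = p + K c q` (from `h.hp`), uniqueness of derivatives and `v > 0` give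
    `k1 = p1 + P1 - K q s p`.
(3) Put `Y = M k1 - p (s c - w s (K c q) - w^2 P1) - w c^3 q^3 K1`.  It is periodic (period 1) and
    `Y' = v (RHS - J)`, where RHS is the integrand of the right-hand side.  Derivatives to use:
    `w' = v s, s' = v c p, c' = -v s p, p' = v p1, k' = v k1, k1' = v k2, K' = v c q K1, K1' = v c q K2`,
    `(K c q)' = v (P1 - K q s p)`, `P1' = v dP1` with
    `dP1 = -2 c s p q^3 K1 + 3 c^2 q^4 (c q K1 w + K s) K1 + c^3 q^4 K2 + 2 K K1 c^2 q^3 s - K^2 s^2 p q^2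
           + 2 K^2 c q^3 (c q K1 w + K s) s + K^2 c^2 q^2 p`.
    With `k`, `k1` substituted, `J + Y'/v - RHS = cofA * (c^2 + s^2 - 1) + cofB * (K w q - q + 1)` exactly
    (checked with a computer algebra program), where
cofA =
- p ^ 2 + K ^ 2 * q ^ 2 * s ^ 2 - 1 / 2 * K ^ 3 * q ^ 3 * w + 1 / 4 * K ^ 4 * q ^ 4 * w ^ 2 - 3 * K1 ^ 2
* q ^ 5 * w ^ 2 - 1 / 2 * K1 ^ 2 * q ^ 6 * w ^ 2 - K2 * q ^ 4 * w - 1 / 2 * K * p ^ 2 * q * w + 5 / 2 * K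
^ 2 * p ^ 2 * q ^ 2 * w ^ 2 - 1 / 2 * K ^ 3 * c ^ 2 * q ^ 3 * w - 1 / 2 * K ^ 3 * q ^ 3 * s ^ 2 * w + 1 /
4 * K ^ 4 * c ^ 2 * q ^ 4 * w ^ 2 - 3 / 4 * K ^ 4 * q ^ 4 * s ^ 2 * w ^ 2 - 3 * K1 ^ 2 * c ^ 2 * q ^ 5 *
w ^ 2 - 1 / 2 * K1 ^ 2 * c ^ 2 * q ^ 6 * w ^ 2 + 3 * K1 ^ 2 * q ^ 5 * s ^ 2 * w ^ 2 + 1 / 2 * K1 ^ 2 * q
^ 6 * s ^ 2 * w ^ 2 - K2 * c ^ 2 * q ^ 4 * w + K2 * q ^ 4 * s ^ 2 * w - 3 / 2 * K ^ 2 * c * p * q ^ 2 * w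
+ K ^ 3 * c * p * q ^ 3 * w ^ 2 + 4 * K1 * p * q ^ 3 * s * w + 3 * K1 ^ 2 * c * p * q ^ 5 * w ^ 3 + K2 *
c * p * q ^ 4 * w ^ 2 - 4 * K * K1 * c * q ^ 4 * s * w + 2 * K * K1 * p * q ^ 3 * s * w ^ 2 + 4 * K * K1
* p * q ^ 4 * s * w ^ 2 - K ^ 2 * K1 * c * q ^ 5 * s * w ^ 2 + 2 * K ^ 2 * K1 * p * q ^ 4 * s * w ^ 3
cofB =
- K ^ 2 * s ^ 2 + 1 / 2 * K ^ 3 * w + 5 / 4 * K ^ 4 * w ^ 2 + 7 / 2 * K1 ^ 2 * w ^ 2 + K2 * w + 11 / 2 *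
p ^ 2 * s ^ 2 + 4 * K * K2 * w ^ 2 - K ^ 2 * q * s ^ 2 - 1 / 4 * K ^ 2 * q ^ 2 * s ^ 4 + 3 / 4 * K ^ 2 *
q ^ 3 * s ^ 4 + 1 / 2 * K ^ 3 * q * w + 1 / 2 * K ^ 3 * q ^ 2 * w + 3 / 4 * K ^ 4 * q * w ^ 2 + 1 / 4 * K
^ 4 * q ^ 2 * w ^ 2 - 1 / 4 * K ^ 4 * q ^ 3 * w ^ 2 + 7 / 2 * K1 ^ 2 * q * w ^ 2 + 7 / 2 * K1 ^ 2 * q ^ 2
* w ^ 2 + 7 / 2 * K1 ^ 2 * q ^ 3 * w ^ 2 + 7 / 2 * K1 ^ 2 * q ^ 4 * w ^ 2 + 1 / 2 * K1 ^ 2 * q ^ 5 * w ^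
2 + K2 * q * w + K2 * q ^ 2 * w + K2 * q ^ 3 * w + c * p ^ 3 * w - 4 * p ^ 2 * q * s ^ 2 + 3 * K * K2 * q
* w ^ 2 + 2 * K * K2 * q ^ 2 * w ^ 2 + K * K2 * q ^ 3 * w ^ 2 + 5 / 2 * K * p ^ 2 * q * w + 3 / 2 * K ^ 2
* c * p * w - K ^ 3 * q ^ 3 * s ^ 2 * w + 3 / 4 * K ^ 3 * q ^ 3 * s ^ 4 * w + 3 * K1 * c * q ^ 3 * s ^ 3
+ K1 * c * q ^ 4 * s ^ 3 + p * p1 * s * w + 4 * K * K1 * c * s * w + 3 / 2 * K * c * p * q * s ^ 2 + 2 *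
K * c * p * q ^ 2 * s ^ 2 - 4 * K * p ^ 2 * q * s ^ 2 * w + 3 / 2 * K ^ 2 * c * p * q * w + 6 * K1 * p *
q ^ 3 * s * w - 6 * K1 * p * q ^ 3 * s ^ 3 * w + 4 * K * K1 * c * q * s * w + 4 * K * K1 * c * q ^ 2 * s
* w + 4 * K * K1 * c * q ^ 3 * s * w + K * K1 * c * q ^ 4 * s ^ 3 * w + 2 * K * K1 * p * q ^ 3 * s * w ^
2 - 2 * K * K1 * p * q ^ 3 * s ^ 3 * w ^ 2 + 2 * K ^ 2 * c * p * q ^ 2 * s ^ 2 * w
    so the identity is one `linear_combination` (do the algebra in a separate lemma about real numbers).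
(4) `∫_0^1 Y' = Y 1 - Y 0 = 0` (`Pool.Agent.helper19.EL.int_der` or `intervalIntegral.integral_eq_sub_of_hasDerivAt`);
    all functions are continuous (differentiable, or given as continuous), so the integrals exist.

PROOF of `exact_terms`: the integrand times `v` is the derivative of `A s^2 + 2 B w s + C w^2`, which is periodic.
-/

set_option autoImplicit false

open scoped Real
open MeasureTheory
namespace Pool.Agent.EM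


/-- `(K c q)' = v (P1 - K q s p)` -/
def em01_P1 (s c q K K1 : ℝ) : ℝ := c ^ 2 * q ^ 3 * K1 + K ^ 2 * c * q ^ 2 * s

/-- the derivative of `P1` -/
def em01_dP1 (w s c p q K K1 K2 : ℝ) : ℝ :=
  -2 * c * s * p * q ^ 3 * K1 + 3 * c ^ 2 * q ^ 4 * (c * q * K1 * w + K * s) * K1 +
    c ^ 3 * q ^ 4 * K2 + 2 * K * K1 * c ^ 2 * q ^ 3 * s - K ^ 2 * s ^ 2 * p * q ^ 2 +
    2 * K ^ 2 * c * q ^ 3 * (c * q * K1 * w + K * s) * s + K ^ 2 * c ^ 2 * q ^ 2 * p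

/-- the integrand `J` -/
noncomputable def em01_J (w c k k2 K K2 : ℝ) : ℝ :=
  -(w * c - w ^ 2 * k / 2) * (k2 + k ^ 3 / 2) + w * (K2 + K ^ 3 / 2)

/-- the function `Y` -/
noncomputable def em01_Y (w s c k k1 p q K K1 : ℝ) : ℝ :=
  (w * c - w ^ 2 * k / 2) * k1 - p * (s * c - w * s * (K * c * q) - w ^ 2 * em01_P1 s c q K K1) -
    w * c ^ 3 * q ^ 3 * K1

/-- the derivative of `Y` -/
noncomputable def em01_D (w s c k k1 k2 p p1 q K K1 K2 : ℝ) : ℝ :=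
  (s * c - w * s * p - w * s * k - w ^ 2 * k1 / 2) * k1 + (w * c - w ^ 2 * k / 2) * k2 -
    p1 * (s * c - w * s * (K * c * q) - w ^ 2 * em01_P1 s c q K K1) -
    p * (c ^ 2 * p - s ^ 2 * p - s ^ 2 * (K * c * q) - w * (c * p) * (K * c * q) -
      w * s * (em01_P1 s c q K K1 - K * q * s * p) - 2 * w * s * em01_P1 s c q K K1 -
      w ^ 2 * em01_dP1 w s c p q K K1 K2) -
    s * c ^ 3 * q ^ 3 * K1 + 3 * w * c ^ 2 * s * p * q ^ 3 * K1 -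
    3 * w * c ^ 3 * q ^ 4 * (c * q * K1 * w + K * s) * K1 - w * c ^ 4 * q ^ 4 * K2

/-- the algebra of the exact identity -/
lemma em01_alg (w s c k2 p p1 q K K1 K2 : ℝ) (h1 : c ^ 2 + s ^ 2 = 1) (h2 : q * (1 - K * w) = 1) :
    em01_J w c (p + K * c * q) k2 K K2 +
      em01_D w s c (p + K * c * q) (p1 + em01_P1 s c q K K1 - K * q * s * p) k2 p p1 q K K1 K2 =
    -(1 / 2) * w ^ 2 * p1 ^ 2 + w * p1 * (s * p) * (q - 3) + low w s p K K1 K2 +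
      high w s c p q K K1 K2 := by
  rw [em01_J, em01_D, em01_dP1, em01_P1, low, high]
  linear_combination
    (- p ^ 2 + K ^ 2 * q ^ 2 * s ^ 2 - 1 / 2 * K ^ 3 * q ^ 3 * w + 1 / 4 * K ^ 4 * q ^ 4 * w ^
     2 - 3 * K1 ^ 2 * q ^ 5 * w ^ 2 - 1 / 2 * K1 ^ 2 * q ^ 6 * w ^ 2 - K2 * q ^ 4 * w - 1 / 2 *
     K * p ^ 2 * q * w + 5 / 2 * K ^ 2 * p ^ 2 * q ^ 2 * w ^ 2 - 1 / 2 * K ^ 3 * c ^ 2 * q ^ 3
     * w - 1 / 2 * K ^ 3 * q ^ 3 * s ^ 2 * w + 1 / 4 * K ^ 4 * c ^ 2 * q ^ 4 * w ^ 2 - 3 / 4 *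
     K ^ 4 * q ^ 4 * s ^ 2 * w ^ 2 - 3 * K1 ^ 2 * c ^ 2 * q ^ 5 * w ^ 2 - 1 / 2 * K1 ^ 2 * c ^
     2 * q ^ 6 * w ^ 2 + 3 * K1 ^ 2 * q ^ 5 * s ^ 2 * w ^ 2 + 1 / 2 * K1 ^ 2 * q ^ 6 * s ^ 2 *
     w ^ 2 - K2 * c ^ 2 * q ^ 4 * w + K2 * q ^ 4 * s ^ 2 * w - 3 / 2 * K ^ 2 * c * p * q ^ 2 *
     w + K ^ 3 * c * p * q ^ 3 * w ^ 2 + 4 * K1 * p * q ^ 3 * s * w + 3 * K1 ^ 2 * c * p * q ^
     5 * w ^ 3 + K2 * c * p * q ^ 4 * w ^ 2 - 4 * K * K1 * c * q ^ 4 * s * w + 2 * K * K1 * p *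
     q ^ 3 * s * w ^ 2 + 4 * K * K1 * p * q ^ 4 * s * w ^ 2 - K ^ 2 * K1 * c * q ^ 5 * s * w ^
     2 + 2 * K ^ 2 * K1 * p * q ^ 4 * s * w ^ 3) * h1 -
    (- K ^ 2 * s ^ 2 + 1 / 2 * K ^ 3 * w + 5 / 4 * K ^ 4 * w ^ 2 + 7 / 2 * K1 ^ 2 * w ^ 2 + K2
     * w + 11 / 2 * p ^ 2 * s ^ 2 + 4 * K * K2 * w ^ 2 - K ^ 2 * q * s ^ 2 - 1 / 4 * K ^ 2 * q
     ^ 2 * s ^ 4 + 3 / 4 * K ^ 2 * q ^ 3 * s ^ 4 + 1 / 2 * K ^ 3 * q * w + 1 / 2 * K ^ 3 * q ^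
     2 * w + 3 / 4 * K ^ 4 * q * w ^ 2 + 1 / 4 * K ^ 4 * q ^ 2 * w ^ 2 - 1 / 4 * K ^ 4 * q ^ 3
     * w ^ 2 + 7 / 2 * K1 ^ 2 * q * w ^ 2 + 7 / 2 * K1 ^ 2 * q ^ 2 * w ^ 2 + 7 / 2 * K1 ^ 2 * q
     ^ 3 * w ^ 2 + 7 / 2 * K1 ^ 2 * q ^ 4 * w ^ 2 + 1 / 2 * K1 ^ 2 * q ^ 5 * w ^ 2 + K2 * q * w
     + K2 * q ^ 2 * w + K2 * q ^ 3 * w + c * p ^ 3 * w - 4 * p ^ 2 * q * s ^ 2 + 3 * K * K2 * q
     * w ^ 2 + 2 * K * K2 * q ^ 2 * w ^ 2 + K * K2 * q ^ 3 * w ^ 2 + 5 / 2 * K * p ^ 2 * q * w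
     + 3 / 2 * K ^ 2 * c * p * w - K ^ 3 * q ^ 3 * s ^ 2 * w + 3 / 4 * K ^ 3 * q ^ 3 * s ^ 4 *
     w + 3 * K1 * c * q ^ 3 * s ^ 3 + K1 * c * q ^ 4 * s ^ 3 + p * p1 * s * w + 4 * K * K1 * c
     * s * w + 3 / 2 * K * c * p * q * s ^ 2 + 2 * K * c * p * q ^ 2 * s ^ 2 - 4 * K * p ^ 2 *
     q * s ^ 2 * w + 3 / 2 * K ^ 2 * c * p * q * w + 6 * K1 * p * q ^ 3 * s * w - 6 * K1 * p *
     q ^ 3 * s ^ 3 * w + 4 * K * K1 * c * q * s * w + 4 * K * K1 * c * q ^ 2 * s * w + 4 * K *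
     K1 * c * q ^ 3 * s * w + K * K1 * c * q ^ 4 * s ^ 3 * w + 2 * K * K1 * p * q ^ 3 * s * w ^
     2 - 2 * K * K1 * p * q ^ 3 * s ^ 3 * w ^ 2 + 2 * K ^ 2 * c * p * q ^ 2 * s ^ 2 * w) * h2

lemma em01_cont {f f' : ℝ → ℝ} (h : ∀ u, HasDerivAt f (f' u) u) : Continuous f :=
  continuous_iff_continuousAt.mpr fun u => (h u).continuousAt

section

variable {S : SD} (h : S.Ok)
include h

lemma em01_q (u : ℝ) : S.q u = 1 + S.K u * S.w u * S.q u := by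
  linear_combination h.hq u

lemma em01_dq (u : ℝ) :
    HasDerivAt S.q (S.v u * (S.q u ^ 2 * (S.c u * S.q u * S.K1 u * S.w u + S.K u * S.s u))) u := by
  have h1 : ∀ u, 1 - S.K u * S.w u ≠ 0 := fun u h0 => by
    have h2 := h.hq u
    rw [h0, mul_zero] at h2
    exact zero_ne_one h2
  have h2 : S.q = fun u => (1 - S.K u * S.w u)⁻¹ := by
    funext u
    exact eq_inv_of_mul_eq_one_left (h.hq u)
  have h3 : HasDerivAt (fun u => (1 - S.K u * S.w u)⁻¹)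
      (-(-(S.v u * (S.c u * S.q u * S.K1 u) * S.w u + S.K u * (S.v u * S.s u))) /
        (1 - S.K u * S.w u) ^ 2) u :=
    (((h.dK u).fun_mul (h.dw u)).const_sub 1).fun_inv (h1 u)
  rw [← h2] at h3
  refine h3.congr_deriv ?_
  have h4 : S.q u = (1 - S.K u * S.w u)⁻¹ := congrFun h2 u
  rw [div_eq_mul_inv, ← inv_pow, ← h4]
  ring

lemma em01_dKcq (u : ℝ) :
    HasDerivAt (fun u => S.K u * S.c u * S.q u)
      (S.v u * (em01_P1 (S.s u) (S.c u) (S.q u) (S.K u) (S.K1 u) -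
        S.K u * S.q u * S.s u * S.p u)) u := by
  refine (((h.dK u).fun_mul (h.dc u)).fun_mul (em01_dq h u)).congr_deriv ?_
  rw [em01_P1]
  linear_combination
    (S.v u * (-(S.c u ^ 2 * S.q u ^ 2 * S.K1 u))) * h.hq u

lemma em01_k (u : ℝ) : S.k u = S.p u + S.K u * S.c u * S.q u := by
  rw [h.hp]
  ring

lemma em01_k1 (u : ℝ) : S.k1 u = S.p1 u + em01_P1 (S.s u) (S.c u) (S.q u) (S.K u) (S.K1 u) -
    S.K u * S.q u * S.s u * S.p u := by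
  have h1 : S.k = fun u => S.p u + S.K u * S.c u * S.q u := funext fun u => em01_k h u
  have h2 := (h.dp u).fun_add (em01_dKcq h u)
  rw [← h1] at h2
  have h3 := (h.dk u).unique h2
  have h4 := (h.vpos u).ne'
  apply mul_left_cancel₀ h4
  rw [h3]
  ring

lemma em01_dP1' (u : ℝ) :
    HasDerivAt (fun u => em01_P1 (S.s u) (S.c u) (S.q u) (S.K u) (S.K1 u))
      (S.v u * em01_dP1 (S.w u) (S.s u) (S.c u) (S.p u) (S.q u) (S.K u) (S.K1 u) (S.K2 u)) u := by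
  have e1 := ((((h.dc u).fun_pow 2).fun_mul ((em01_dq h u).fun_pow 3)).fun_mul (h.dK1 u))
  have e2 := (((((h.dK u).fun_pow 2).fun_mul (h.dc u)).fun_mul
    ((em01_dq h u).fun_pow 2)).fun_mul (h.ds u))
  refine (e1.fun_add e2).congr_deriv ?_
  rw [em01_dP1]
  simp only [Nat.add_one_sub_one, Nat.cast_ofNat, pow_one]
  ring

lemma em01_dY (u : ℝ) :
    HasDerivAt (fun u => em01_Y (S.w u) (S.s u) (S.c u) (S.k u) (S.k1 u) (S.p u) (S.q u) (S.K u)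
      (S.K1 u))
      (S.v u * em01_D (S.w u) (S.s u) (S.c u) (S.k u) (S.k1 u) (S.k2 u) (S.p u) (S.p1 u) (S.q u)
        (S.K u) (S.K1 u) (S.K2 u)) u := by
  have eM := ((h.dw u).fun_mul (h.dc u)).fun_sub ((((h.dw u).fun_pow 2).fun_mul (h.dk u)).div_const 2)
  have e2 := (((h.ds u).fun_mul (h.dc u)).fun_sub
    (((h.dw u).fun_mul (h.ds u)).fun_mul (em01_dKcq h u))).fun_sub
      (((h.dw u).fun_pow 2).fun_mul (em01_dP1' h u))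
  have e3 := ((((h.dw u).fun_mul ((h.dc u).fun_pow 3)).fun_mul
    ((em01_dq h u).fun_pow 3)).fun_mul (h.dK1 u))
  refine (((eM.fun_mul (h.dk1 u)).fun_sub ((h.dp u).fun_mul e2)).fun_sub e3).congr_deriv ?_
  rw [em01_D]
  simp only [Nat.add_one_sub_one, Nat.cast_ofNat, pow_one]
  ring

end

/-- EM-01: the exact identity. -/
theorem identity (S : SD) (h : S.Ok) :
    S.I S.J = S.I (fun u => -(1 / 2) * S.w u ^ 2 * S.p1 u ^ 2 +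
      S.w u * S.p1 u * (S.s u * S.p u) * (S.q u - 3) +
      low (S.w u) (S.s u) (S.p u) (S.K u) (S.K1 u) (S.K2 u) +
      high (S.w u) (S.s u) (S.c u) (S.p u) (S.q u) (S.K u) (S.K1 u) (S.K2 u)) := by
  have cw := em01_cont h.dw
  have cs := em01_cont h.ds
  have cc := em01_cont h.dc
  have ck := em01_cont h.dk
  have ck1 := em01_cont h.dk1
  have cp := em01_cont h.dp
  have cK := em01_cont h.dK
  have cK1 := em01_cont h.dK1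
  have cq := em01_cont (em01_dq h)
  have cv := h.cv
  have ck2 := h.ck2
  have cK2 := h.cK2
  have cp1 := h.cp1
  have key : ∀ u, -(1 / 2) * S.w u ^ 2 * S.p1 u ^ 2 +
      S.w u * S.p1 u * (S.s u * S.p u) * (S.q u - 3) +
      low (S.w u) (S.s u) (S.p u) (S.K u) (S.K1 u) (S.K2 u) +
      high (S.w u) (S.s u) (S.c u) (S.p u) (S.q u) (S.K u) (S.K1 u) (S.K2 u) =
      S.J u + em01_D (S.w u) (S.s u) (S.c u) (S.k u) (S.k1 u) (S.k2 u) (S.p u) (S.p1 u) (S.q u)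
        (S.K u) (S.K1 u) (S.K2 u) := by
    intro u
    have e := em01_alg (S.w u) (S.s u) (S.c u) (S.k2 u) (S.p u) (S.p1 u) (S.q u) (S.K u) (S.K1 u)
      (S.K2 u) (h.cs u) (h.hq u)
    rw [← em01_k h u, ← em01_k1 h u] at e
    exact e.symm
  have hY : ∫ u in (0 : ℝ)..1, S.v u * em01_D (S.w u) (S.s u) (S.c u) (S.k u) (S.k1 u) (S.k2 u)
      (S.p u) (S.p1 u) (S.q u) (S.K u) (S.K1 u) (S.K2 u) = 0 := by
    refine Pool.Agent.helper19.EL.int_der (em01_dY h) ?_ ?_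
    · unfold em01_D em01_dP1 em01_P1
      fun_prop
    · intro u
      have pq : S.q (u + 1) = S.q u := by
        have h1 := h.hq (u + 1)
        rw [h.pK, h.pw] at h1
        have h2 := h.hq u
        have h3 : 1 - S.K u * S.w u ≠ 0 := fun h0 => by
          rw [h0, mul_zero] at h2
          exact zero_ne_one h2
        exact mul_right_cancel₀ h3 (h1.trans h2.symm)
      have pp : S.p (u + 1) = S.p u := by
        rw [h.hp, h.hp u, h.pk, h.pK, h.pc, pq]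
      show em01_Y _ _ _ _ _ _ _ _ _ = em01_Y _ _ _ _ _ _ _ _ _
      rw [h.pw, h.ps, h.pc, h.pk, h.pk1, pp, pq, h.pK, h.pK1]
  rw [SD.I, SD.I]
  have e1 : ∀ u, (-(1 / 2) * S.w u ^ 2 * S.p1 u ^ 2 +
      S.w u * S.p1 u * (S.s u * S.p u) * (S.q u - 3) +
      low (S.w u) (S.s u) (S.p u) (S.K u) (S.K1 u) (S.K2 u) +
      high (S.w u) (S.s u) (S.c u) (S.p u) (S.q u) (S.K u) (S.K1 u) (S.K2 u)) * S.v u =
      S.J u * S.v u + S.v u * em01_D (S.w u) (S.s u) (S.c u) (S.k u) (S.k1 u) (S.k2 u) (S.p u)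
        (S.p1 u) (S.q u) (S.K u) (S.K1 u) (S.K2 u) := by
    intro u
    rw [key]
    ring
  simp only [e1]
  rw [intervalIntegral.integral_add, hY, add_zero]
  · apply Continuous.intervalIntegrable
    unfold SD.J
    fun_prop
  · apply Continuous.intervalIntegrable
    unfold em01_D em01_dP1 em01_P1
    fun_prop

/-- EM-01b: exact terms of the three lifted functions. -/
theorem exact_terms (S : SD) (h : S.Ok) {A A1 B B1 C C1 : ℝ → ℝ} (hA : S.Lift A A1) (hB : S.Lift B B1)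
    (hC : S.Lift C C1) :
    S.I (fun u => S.c u * S.q u * A1 u * S.s u ^ 2 + 2 * A u * S.s u * (S.c u * S.p u) +
      2 * (S.c u * S.q u * B1 u) * S.w u * S.s u + 2 * B u * S.s u ^ 2 +
      2 * B u * S.w u * (S.c u * S.p u) + S.c u * S.q u * C1 u * S.w u ^ 2 +
      2 * C u * S.w u * S.s u) = 0 := by
  have cw := em01_cont h.dw
  have cs := em01_cont h.ds
  have cc := em01_cont h.dc
  have cp := em01_cont h.dp
  have cq := em01_cont (em01_dq h)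
  have cA := em01_cont hA.der
  have cB := em01_cont hB.der
  have cC := em01_cont hC.der
  have cA1 := hA.cont
  have cB1 := hB.cont
  have cC1 := hC.cont
  have cv := h.cv
  rw [SD.I]
  refine Pool.Agent.helper19.EL.int_der
    (f := fun u => A u * S.s u ^ 2 + 2 * (B u * S.w u * S.s u) + C u * S.w u ^ 2) (fun u => ?_)
    (by fun_prop) ?_
  · have e1 := (hA.der u).fun_mul ((h.ds u).fun_pow 2)
    have e2 := (((hB.der u).fun_mul (h.dw u)).fun_mul (h.ds u)).const_mul 2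
    have e3 := (hC.der u).fun_mul ((h.dw u).fun_pow 2)
    refine ((e1.fun_add e2).fun_add e3).congr_deriv ?_
    simp only [Nat.add_one_sub_one, Nat.cast_ofNat, pow_one]
    ring
  · intro u
    show A (u + 1) * S.s (u + 1) ^ 2 + 2 * (B (u + 1) * S.w (u + 1) * S.s (u + 1)) +
      C (u + 1) * S.w (u + 1) ^ 2 = A u * S.s u ^ 2 + 2 * (B u * S.w u * S.s u) + C u * S.w u ^ 2
    rw [hA.per, hB.per, hC.per, h.pw, h.ps]

end Pool.Agent.EM
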