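import Pool.Agent.EM.Defs2

/-!
# EM-02: pointwise bounds

`q = 1 + K w q`, `|K w| ≤ 1/100`, so `100/101 ≤ q ≤ 100/99`, `|q - 1| ≤ 102/100 b0 |w| ≤ 102/10000`.
`0 ≤ 1 - c ≤ s^2 ≤ S^2` (as `1 - c = s^2/(1+c)`), `c ≤ 1`, `c ≥ 9999/10000`.

PROOF of `high_bound`, term by term in the order of the definition of `high` (bounds of the absolute value unless
said otherwise; `q^6 ≤ 1.063`, `q^5 ≤ 1.052`, `q^4 ≤ 1.042`, `q^3 ≤ 1.031`, `q^2 ≤ 1.021`):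
 1. `3/2 K^2 (1-c) w p`        ≤ 1.5 b0^2 S^2 |w||p|
 2. `4 K K1 (1-c) w s`         ≤ 4 b0 b1 S^2 |w||s|
 3. `s^2 p c K q (2q^2 - q/2 - 3/2)`, and `2q^2 - q/2 - 3/2 = (q-1)(2q+3/2)`: ≤ 3.8 b0^2 |w| s^2 |p| ≤ 3.8 b0^2 S^2 |w||p|
 4. `s^3 c K1 q^3 (q^2+2q-3)`, `q^2+2q-3 = (q-1)(q+3)`: ≤ 4.4 b0 b1 |w||s|^3 ≤ 4.4 b0 b1 S^2 |w||s|
 5. `w p^2 K (5/2 q^2 - 3 q)`  ≤ 0.6 b0 W p^2
 6. `w s p K1 (6q^4 - 2q^3)`   ≤ 4.4 b1 W |s||p|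
 7. `w s^2 K^3 (..)`           ≤ 2.2 b0^3 W s^2
 8. `w s^2 K2 2 q^4`           ≤ 2.1 b2 W s^2
 9. `w^2 p c K^3 (..)`         ≤ 2.2 b0^3 W |w||p|
10. `w^2 p c K2 q^4`           ≤ 1.05 b2 W |w||p|
11. `w^2 s c K^2 K1 (..)`      ≤ 17.8 b0^2 b1 W |w||s|
12. `w^3 K K1^2 (..)`          ≤ 18.8 b0 b1^2 W w^2
13. `w^3 K^2 K2 (..)`          ≤ 10.3 b0^2 b2 W w^2
14. `w^3 K^5 (..)`             ≤ 2.2 b0^5 W w^2
15. `s^2 p^2 (..)`             ≤ 2.1 S^2 p^2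
16. `s^4 K^2 (..)`             ≤ 1.1 b0^2 S^2 s^2
17. `w p^3 c (q - 3/2)`        ≤ 0.52 |w||p|^3
18. `w^2 s^2 K1^2 (..)`        ≤ 7.5 b1^2 W^2 s^2
19. `w^3 p c K1^2 3 q^5`       ≤ 3.2 b1^2 W^2 |w||p|
20. `w s^3 p K1 (..)`          ≤ 4.4 b1 W S^2 |s||p|
21. `w s^4 K2 q^4`             ≤ 1.05 b2 W S^2 s^2
22. `2 w^2 s p^2 c K1 q^3`     ≤ 2.1 b1 W^2 S p^2
23. `w^2 s^2 p c K2 q^4`       ≤ 1.05 b2 W S^2 |w||p|
24. `1/4 w^2 p^4` is kept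
25. `w^2 s^4 K1^2 (..)`        ≤ 3.8 b1^2 W^2 S^2 s^2
26. `3 w^3 s^2 p c K1^2 q^5`   ≤ 3.2 b1^2 W^2 S^2 |w||p|
Add up (`S^2 ≤ 1/10000`).  Suggestion: a lemma `|x1 * ... * xn| ≤ ...` by `abs_mul` and `gcongr`.

PROOF of `cert_bound`: the difference of the two sides' first brackets is
`(cq-1) A1 s^2 + 2 A s p (c-1) + 2 (cq-1) B1 w s + 2 B w p (c-1) + (cq-1) C1 w^2`, with
`|c q - 1| ≤ |c-1| q + |q - 1|`; more precisely `c q - 1 = (c - 1) + c (q - 1)`, so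
`|c q - 1| ≤ S^2 + 102/100 b0 W`, and `|c - 1| ≤ S^2`.
-/

set_option autoImplicit false

open scoped Real
namespace Pool.Agent.EM

private lemma em02_bm {x y X Y : ℝ} (hx : |x| ≤ X) (hy : |y| ≤ Y) : |x * y| ≤ X * Y := by
  rw [abs_mul]
  exact mul_le_mul hx hy (abs_nonneg _) ((abs_nonneg _).trans hx)

private lemma em02_ba {x y X Y : ℝ} (hx : |x| ≤ X) (hy : |y| ≤ Y) : |x + y| ≤ X + Y :=
  (abs_add_le x y).trans (add_le_add hx hy)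

private lemma em02_bp {x X : ℝ} (n : ℕ) (hx : |x| ≤ X) : |x ^ n| ≤ X ^ n := by
  rw [abs_pow]
  exact pow_le_pow_left₀ (abs_nonneg _) hx n

private lemma em02_le {x y X Y : ℝ} (hx : |x| ≤ X) (hy : |y| = Y) : x * y ≤ X * Y := by
  have h1 : |x * y| ≤ X * Y := em02_bm hx hy.le
  exact (le_abs_self _).trans h1

private lemma em02_up {x X Y Z : ℝ} (h : x ≤ X * Y) (hX : X ≤ Z) (hY : 0 ≤ Y) : x ≤ Z * Y :=
  h.trans (mul_le_mul_of_nonneg_right hX hY)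

/-- bounds of `q` -/
private lemma em02_q {w q K b0 W : ℝ} (hq : q * (1 - K * w) = 1) (hK : |K| ≤ b0) (hw : |w| ≤ W)
    (hbW : b0 * W ≤ 1 / 100) :
    99 / 100 ≤ q ∧ q ≤ 10102 / 10000 ∧ |q - 1| ≤ 102 / 100 * b0 * W := by
  have h1 : |K * w| ≤ b0 * W := em02_bm hK hw
  have h2 := abs_le.1 (h1.trans hbW)
  have hpos : 0 < 1 - K * w := by linarith [h2.2]
  have hq0 : 0 < q := by
    by_contra hcon
    have : q * (1 - K * w) ≤ 0 := mul_nonpos_of_nonpos_of_nonneg (not_lt.1 hcon) hpos.le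
    linarith
  have hq1 : q ≤ 10102 / 10000 := by nlinarith [h2.1, h2.2]
  have hq2 : 99 / 100 ≤ q := by nlinarith [h2.1, h2.2]
  refine ⟨hq2, hq1, ?_⟩
  have h3 : q - 1 = K * w * q := by linear_combination hq
  rw [h3, abs_mul, abs_of_pos hq0]
  have h4 : |K * w| * q ≤ (b0 * W) * (102 / 100) :=
    mul_le_mul h1 (by linarith) hq0.le ((abs_nonneg _).trans h1)
  linarith

/-- bounds of `c` -/
private lemma em02_c {s c S : ℝ} (hc : 0 < c) (hcs : c ^ 2 + s ^ 2 = 1) (hs : |s| ≤ S) :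
    |c| ≤ 1 ∧ |1 - c| ≤ S ^ 2 ∧ |c - 1| ≤ S ^ 2 := by
  have hc1 : c ≤ 1 := by nlinarith [sq_nonneg s]
  have hs2 : s ^ 2 ≤ S ^ 2 := sq_le_sq' (abs_le.1 hs).1 (abs_le.1 hs).2
  have h1 : |1 - c| ≤ S ^ 2 := by
    rw [abs_of_nonneg (by linarith)]
    nlinarith
  refine ⟨?_, h1, ?_⟩
  · rw [abs_of_pos hc]; exact hc1
  · rw [abs_sub_comm]; exact h1

/-- bounds of the powers of `q` -/
private lemma em02_pow {q : ℝ} (q1 : 99 / 100 ≤ q) (q1' : q ≤ 10102 / 10000) :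
    (98 / 100 ≤ q ^ 2 ∧ q ^ 2 ≤ 1021 / 1000) ∧ (97 / 100 ≤ q ^ 3 ∧ q ^ 3 ≤ 1031 / 1000) ∧
    (96 / 100 ≤ q ^ 4 ∧ q ^ 4 ≤ 1042 / 1000) ∧ (95 / 100 ≤ q ^ 5 ∧ q ^ 5 ≤ 1053 / 1000) ∧
    (94 / 100 ≤ q ^ 6 ∧ q ^ 6 ≤ 1064 / 1000) := by
  have q0 : 0 < q := by linarith
  have h : ∀ n : ℕ, (99 / 100 : ℝ) ^ n ≤ q ^ n ∧ q ^ n ≤ (10102 / 10000 : ℝ) ^ n := fun n =>
    ⟨pow_le_pow_left₀ (by norm_num) q1 n, pow_le_pow_left₀ q0.le q1' n⟩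
  have h2 := h 2
  have h3 := h 3
  have h4 := h 4
  have h5 := h 5
  have h6 := h 6
  norm_num at h2 h3 h4 h5 h6
  refine ⟨⟨?_, ?_⟩, ⟨?_, ?_⟩, ⟨?_, ?_⟩, ⟨?_, ?_⟩, ⟨?_, ?_⟩⟩ <;>
    first
      | linarith only [h2.1] | linarith only [h2.2] | linarith only [h3.1] | linarith only [h3.2]
      | linarith only [h4.1] | linarith only [h4.2] | linarith only [h5.1] | linarith only [h5.2]
      | linarith only [h6.1] | linarith only [h6.2]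

/-- bounds of the coefficients -/
private lemma em02_coef {q r2 r3 r4 r5 r6 : ℝ} (q1 : 99 / 100 ≤ q) (q1' : q ≤ 10102 / 10000)
    (q2 : 98 / 100 ≤ r2) (q2' : r2 ≤ 1021 / 1000) (q3 : 97 / 100 ≤ r3) (q3' : r3 ≤ 1031 / 1000)
    (q4 : 96 / 100 ≤ r4) (q4' : r4 ≤ 1042 / 1000) (q5 : 95 / 100 ≤ r5) (q5' : r5 ≤ 1053 / 1000)
    (q6 : 94 / 100 ≤ r6) (q6' : r6 ≤ 1064 / 1000) :
    (|2 * r3 + 3 / 2 * r2| ≤ 38 / 10) ∧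
    (|r5 + 3 * r4| ≤ 44 / 10) ∧
    (|-3 * q + 5 / 2 * r2| ≤ 6 / 10) ∧
    (|-2 * r3 + 6 * r4| ≤ 44 / 10) ∧
    (|q + r2 + r3 - r4| ≤ 22 / 10) ∧
    (|2 * r4| ≤ 21 / 10) ∧
    (|-3 / 2 * q - 3 / 2 * r2 + r3| ≤ 22 / 10) ∧
    (|r4| ≤ 105 / 100) ∧
    (|-4 * q - 4 * r2 - 4 * r3 - 4 * r4 - r5| ≤ 178 / 10) ∧
    (|-7 / 2 * q - 7 / 2 * r2 - 7 / 2 * r3 - 7 / 2 * r4 - 7 / 2 * r5 - 1 / 2 * r6| ≤ 188 / 10) ∧
    (|-4 * q - 3 * r2 - 2 * r3 - r4| ≤ 103 / 10) ∧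
    (|-5 / 4 * q - 3 / 4 * r2 - 1 / 4 * r3 + 1 / 4 * r4| ≤ 22 / 10) ∧
    (|-7 / 2 + 19 / 2 * q - 4 * r2| ≤ 22 / 10) ∧
    (|-3 / 4 * r2 - r3 + 3 / 4 * r4| ≤ 11 / 10) ∧
    (|-3 / 2 + q| ≤ 13 / 25) ∧
    (|6 * r5 + r6| ≤ 75 / 10) ∧
    (|3 * r5| ≤ 32 / 10) ∧
    (|2 * r3 - 6 * r4| ≤ 44 / 10) ∧
    (|-r4| ≤ 105 / 100) ∧
    (|-2 * r3| ≤ 21 / 10) ∧
    (|-3 * r5 - 1 / 2 * r6| ≤ 38 / 10) ∧
    (|-3 * r5| ≤ 32 / 10) := by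
  refine ⟨?_, ?_, ?_, ?_, ?_, ?_, ?_, ?_, ?_, ?_, ?_, ?_, ?_, ?_, ?_, ?_, ?_, ?_, ?_, ?_, ?_, ?_⟩ <;>
    exact abs_le.2 ⟨by linarith, by linarith⟩

/-- EM-02: pointwise bound of the part of higher order. -/
theorem high_bound {w s c p q K K1 K2 b0 b1 b2 W S : ℝ} (hc : 0 < c) (hcs : c ^ 2 + s ^ 2 = 1)
    (hq : q * (1 - K * w) = 1) (hK : |K| ≤ b0) (hK1 : |K1| ≤ b1) (hK2 : |K2| ≤ b2) (hw : |w| ≤ W)
    (hs : |s| ≤ S) (hb0 : 0 < b0) (hW : 0 < W) (hS : 0 < S) (hS1 : S ≤ 1 / 100) (hbW : b0 * W ≤ 1 / 100) :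
    high w s c p q K K1 K2 ≤
      W * (19 * b0 * b1 ^ 2 + 11 * b0 ^ 2 * b2 + 3 * b0 ^ 5) * w ^ 2 +
      (18 * b0 ^ 2 * b1 * W + 9 * b0 * b1 * S ^ 2) * (|w| * |s|) +
      (W * (3 * b0 ^ 3 + 2 * b2) + 6 * b0 ^ 2 * S ^ 2 + 4 * b1 ^ 2 * W ^ 2) * (|w| * |p|) +
      (W * (3 * b0 ^ 3 + 3 * b2) + 2 * b0 ^ 2 * S ^ 2 + 8 * b1 ^ 2 * W ^ 2) * s ^ 2 +
      5 * b1 * W * (|s| * |p|) +
      (b0 * W + 3 * S ^ 2 + 3 * b1 * W ^ 2 * S) * p ^ 2 +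
      13 / 25 * (|w| * |p| ^ 3) + 1 / 4 * (w ^ 2 * p ^ 4) := by
  obtain ⟨hc1, h1c, -⟩ := em02_c hc hcs hs
  obtain ⟨q1, q1', -⟩ := em02_q hq hK hw hbW
  have hb1 : 0 ≤ b1 := (abs_nonneg _).trans hK1
  have hb2 : 0 ≤ b2 := (abs_nonneg _).trans hK2
  have hS2 : S ^ 2 ≤ 1 / 10000 := by nlinarith
  have q0 : 0 < q := by linarith
  obtain ⟨⟨q2, q2'⟩, ⟨q3, q3'⟩, ⟨q4, q4'⟩, ⟨q5, q5'⟩, ⟨q6, q6'⟩⟩ := em02_pow q1 q1'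
  obtain ⟨hx3, hx4, hx5, hx6, hx7, hx8, hx9, hx10, hx11, hx12, hx13, hx14, hx15, hx16, hx17, hx18, hx19, hx20, hx21, hx22, hx25, hx26⟩ :=
    em02_coef q1 q1' q2 q2' q3 q3' q4 q4' q5 q5' q6 q6'
  have h32 : |(3 / 2 : ℝ)| ≤ 3 / 2 := (abs_of_pos (by norm_num)).le
  have h4 : |(4 : ℝ)| ≤ 4 := (abs_of_pos (by norm_num)).le
  have hK2' := em02_bp 2 hK
  have hK3 := em02_bp 3 hK
  have hK5 := em02_bp 5 hK
  have hK12 := em02_bp 2 hK1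
  have hs2 := em02_bp 2 hs
  have hw2 := em02_bp 2 hw
  -- the coefficient of `w p`
  have cwp := em02_ba (em02_ba (em02_ba (em02_ba (em02_ba (em02_ba
    (em02_bm (em02_bm h32 hK2') h1c)
    (em02_bm (em02_bm (em02_bm hs2 hc1) hK2') hx3))
    (em02_bm (em02_bm (em02_bm hw hc1) hK3) hx9))
    (em02_bm (em02_bm (em02_bm hw hc1) hK2) hx10))
    (em02_bm (em02_bm (em02_bm hw2 hc1) hK12) hx19))
    (em02_bm (em02_bm (em02_bm (em02_bm hw hs2) hc1) hK2) hx21))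
    (em02_bm (em02_bm (em02_bm (em02_bm hw2 hs2) hc1) hK12) hx26)
  -- the coefficient of `w s`
  have cws := em02_ba (em02_ba
    (em02_bm (em02_bm (em02_bm h4 hK) hK1) h1c)
    (em02_bm (em02_bm (em02_bm (em02_bm hs2 hc1) hK1) hK) hx4))
    (em02_bm (em02_bm (em02_bm (em02_bm hw hc1) hK2') hK1) hx11)
  -- the coefficient of `w ^ 2`
  have cww := em02_ba (em02_ba
    (em02_bm (em02_bm (em02_bm hw hK) hK12) hx12)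
    (em02_bm (em02_bm (em02_bm hw hK2') hK2) hx13))
    (em02_bm (em02_bm hw hK5) hx14)
  -- the coefficient of `s ^ 2`
  have css := em02_ba (em02_ba (em02_ba (em02_ba (em02_ba
    (em02_bm (em02_bm hw hK3) hx7)
    (em02_bm (em02_bm hw hK2) hx8))
    (em02_bm (em02_bm hs2 hK2') hx16))
    (em02_bm (em02_bm hw2 hK12) hx18))
    (em02_bm (em02_bm (em02_bm hw hs2) hK2) hx21))
    (em02_bm (em02_bm (em02_bm hw2 hs2) hK12) hx25)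
  -- the coefficient of `s p`
  have csp := em02_ba
    (em02_bm (em02_bm hw hK1) hx6)
    (em02_bm (em02_bm (em02_bm hw hs2) hK1) hx20)
  -- the coefficient of `p ^ 2`
  have cpp := em02_ba (em02_ba
    (em02_bm (em02_bm hw hK) hx5)
    (em02_bm hs2 hx15))
    (em02_bm (em02_bm (em02_bm (em02_bm hw2 hs) hc1) hK1) hx22)
  have cwppp := em02_bm hc1 hx17
  have awp : |w * p| = |w| * |p| := abs_mul w p
  have aws : |w * s| = |w| * |s| := abs_mul w s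
  have asp : |s * p| = |s| * |p| := abs_mul s p
  have aww : |w ^ 2| = w ^ 2 := abs_of_nonneg (sq_nonneg w)
  have ass : |s ^ 2| = s ^ 2 := abs_of_nonneg (sq_nonneg s)
  have app : |p ^ 2| = p ^ 2 := abs_of_nonneg (sq_nonneg p)
  have awppp : |w * p ^ 3| = |w| * |p| ^ 3 := by rw [abs_mul, abs_pow]
  have e1 := em02_le cwp awp
  have e2 := em02_le cws aws
  have e3 := em02_le cww aww
  have e4 := em02_le css ass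
  have e5 := em02_le csp asp
  have e6 := em02_le cpp app
  have e7 := em02_le cwppp awppp
  have key : high w s c p q K K1 K2 =
      (3 / 2 * K ^ 2 * (1 - c) + s ^ 2 * c * K ^ 2 * (2 * q ^ 3 + 3 / 2 * q ^ 2) +
        w * c * K ^ 3 * (-3 / 2 * q - 3 / 2 * q ^ 2 + q ^ 3) + w * c * K2 * q ^ 4 +
        w ^ 2 * c * K1 ^ 2 * (3 * q ^ 5) + w * s ^ 2 * c * K2 * (-q ^ 4) +
        w ^ 2 * s ^ 2 * c * K1 ^ 2 * (-3 * q ^ 5)) * (w * p) +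
      (4 * K * K1 * (1 - c) + s ^ 2 * c * K1 * K * (q ^ 5 + 3 * q ^ 4) +
        w * c * K ^ 2 * K1 * (-4 * q - 4 * q ^ 2 - 4 * q ^ 3 - 4 * q ^ 4 - q ^ 5)) * (w * s) +
      (w * K * K1 ^ 2 * (-7 / 2 * q - 7 / 2 * q ^ 2 - 7 / 2 * q ^ 3 - 7 / 2 * q ^ 4 -
        7 / 2 * q ^ 5 - 1 / 2 * q ^ 6) + w * K ^ 2 * K2 * (-4 * q - 3 * q ^ 2 - 2 * q ^ 3 - q ^ 4) +
        w * K ^ 5 * (-5 / 4 * q - 3 / 4 * q ^ 2 - 1 / 4 * q ^ 3 + 1 / 4 * q ^ 4)) * w ^ 2 +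
      (w * K ^ 3 * (q + q ^ 2 + q ^ 3 - q ^ 4) + w * K2 * (2 * q ^ 4) +
        s ^ 2 * K ^ 2 * (-3 / 4 * q ^ 2 - q ^ 3 + 3 / 4 * q ^ 4) +
        w ^ 2 * K1 ^ 2 * (6 * q ^ 5 + q ^ 6) + w * s ^ 2 * K2 * (-q ^ 4) +
        w ^ 2 * s ^ 2 * K1 ^ 2 * (-3 * q ^ 5 - 1 / 2 * q ^ 6)) * s ^ 2 +
      (w * K1 * (-2 * q ^ 3 + 6 * q ^ 4) + w * s ^ 2 * K1 * (2 * q ^ 3 - 6 * q ^ 4)) * (s * p) +
      (w * K * (-3 * q + 5 / 2 * q ^ 2) + s ^ 2 * (-7 / 2 + 19 / 2 * q - 4 * q ^ 2) +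
        w ^ 2 * s * c * K1 * (-2 * q ^ 3)) * p ^ 2 +
      c * (-3 / 2 + q) * (w * p ^ 3) + 1 / 4 * (w ^ 2 * p ^ 4) := by
    rw [high]
    linear_combination (s ^ 2 * p * c * K * (2 * q ^ 2 + 3 / 2 * q) +
      s ^ 3 * c * K1 * (q ^ 4 + 3 * q ^ 3)) * hq
  -- comparison of the constants
  have n1 : 0 ≤ b2 * W * (1 / 10000 - S ^ 2) :=
    mul_nonneg (mul_nonneg hb2 hW.le) (by linarith)
  have n2 : 0 ≤ b1 ^ 2 * W ^ 2 * (1 / 10000 - S ^ 2) :=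
    mul_nonneg (mul_nonneg (sq_nonneg _) (sq_nonneg _)) (by linarith)
  have n3 : 0 ≤ b1 * W * (1 / 10000 - S ^ 2) :=
    mul_nonneg (mul_nonneg hb1 hW.le) (by linarith)
  have m1 : 0 ≤ b0 ^ 2 * S ^ 2 := by positivity
  have m2 : 0 ≤ b0 ^ 3 * W := by positivity
  have m3 : 0 ≤ b2 * W := by positivity
  have m4 : 0 ≤ b1 ^ 2 * W ^ 2 := by positivity
  have m5 : 0 ≤ b0 * b1 * S ^ 2 := by positivity
  have m6 : 0 ≤ b0 ^ 2 * b1 * W := by positivity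
  have m7 : 0 ≤ W * b0 * b1 ^ 2 := by positivity
  have m8 : 0 ≤ W * b0 ^ 2 * b2 := by positivity
  have m9 : 0 ≤ W * b0 ^ 5 := by positivity
  have m10 : 0 ≤ b1 * W := by positivity
  have m11 : 0 ≤ b0 * W := by positivity
  have m12 : 0 ≤ b1 * W ^ 2 * S := by positivity
  have m13 : 0 ≤ S ^ 2 := by positivity
  have f1 := em02_up (Z := W * (3 * b0 ^ 3 + 2 * b2) + 6 * b0 ^ 2 * S ^ 2 + 4 * b1 ^ 2 * W ^ 2) e1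
    (by linarith only [n1, n2, m1, m2, m3, m4]) (by positivity)
  have f2 := em02_up (Z := 18 * b0 ^ 2 * b1 * W + 9 * b0 * b1 * S ^ 2) e2
    (by linarith only [m5, m6]) (by positivity)
  have f3 := em02_up (Z := W * (19 * b0 * b1 ^ 2 + 11 * b0 ^ 2 * b2 + 3 * b0 ^ 5)) e3
    (by linarith only [m7, m8, m9]) (by positivity)
  have f4 := em02_up (Z := W * (3 * b0 ^ 3 + 3 * b2) + 2 * b0 ^ 2 * S ^ 2 + 8 * b1 ^ 2 * W ^ 2) e4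
    (by linarith only [n1, n2, m1, m2, m3, m4]) (by positivity)
  have f5 := em02_up (Z := 5 * b1 * W) e5 (by linarith only [n3, m10]) (by positivity)
  have f6 := em02_up (Z := b0 * W + 3 * S ^ 2 + 3 * b1 * W ^ 2 * S) e6
    (by linarith only [m11, m12, m13]) (by positivity)
  rw [one_mul] at e7
  rw [key]
  linarith only [e7, f1, f2, f3, f4, f5, f6]

/-- EM-02b: the exact terms against their quadratic part. -/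
theorem cert_bound {w s c p q K A A1 B B1 C C1 b0 W S a0 a1 d0 d1 g1 : ℝ} (hc : 0 < c)
    (hcs : c ^ 2 + s ^ 2 = 1) (hq : q * (1 - K * w) = 1) (hK : |K| ≤ b0) (hw : |w| ≤ W) (hs : |s| ≤ S)
    (hb0 : 0 < b0) (hW : 0 < W) (hS : 0 < S) (hS1 : S ≤ 1 / 100) (hbW : b0 * W ≤ 1 / 100)
    (hA : |A| ≤ a0) (hA1 : |A1| ≤ a1) (hB : |B| ≤ d0) (hB1 : |B1| ≤ d1) (hC1 : |C1| ≤ g1) :
    (c * q * A1 * s ^ 2 + 2 * A * s * (c * p) + 2 * (c * q * B1) * w * s + 2 * B * s ^ 2 +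
      2 * B * w * (c * p) + c * q * C1 * w ^ 2 + 2 * C * w * s) ≤
    (A1 * s ^ 2 + 2 * A * s * p + 2 * B1 * w * s + 2 * B * s ^ 2 + 2 * B * w * p + C1 * w ^ 2 +
      2 * C * w * s) +
      (S ^ 2 + 102 / 100 * b0 * W) * (g1 * w ^ 2 + 2 * d1 * (|w| * |s|) + a1 * s ^ 2) +
      2 * S ^ 2 * (d0 * (|w| * |p|) + a0 * (|s| * |p|)) := by
  obtain ⟨hc1, -, hc2⟩ := em02_c hc hcs hs
  obtain ⟨-, -, hq1⟩ := em02_q hq hK hw hbW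
  have hcq : |c * q - 1| ≤ S ^ 2 + 102 / 100 * b0 * W := by
    have h1 : c * q - 1 = (c - 1) + c * (q - 1) := by ring
    rw [h1]
    have h2 := em02_ba hc2 (em02_bm hc1 hq1)
    rwa [one_mul] at h2
  have awp : |w * p| = |w| * |p| := abs_mul w p
  have aws : |w * s| = |w| * |s| := abs_mul w s
  have asp : |s * p| = |s| * |p| := abs_mul s p
  have aww : |w ^ 2| = w ^ 2 := abs_of_nonneg (sq_nonneg w)
  have ass : |s ^ 2| = s ^ 2 := abs_of_nonneg (sq_nonneg s)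
  have e1 := em02_le (em02_bm hcq hA1) ass
  have e2 := em02_le (em02_bm hc2 hA) asp
  have e3 := em02_le (em02_bm hcq hB1) aws
  have e4 := em02_le (em02_bm hc2 hB) awp
  have e5 := em02_le (em02_bm hcq hC1) aww
  linarith only [e1, e2, e3, e4, e5]

end Pool.Agent.EM
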