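import Pool.Agent.EM.Defs2

/-!
# EM-03: interpolation on a slice

`I_cs`: Cauchy-Schwarz for `∫_0^1 . v du` (see `Pool.Agent.helper19.EL.cs` in `EL/Per.lean`).
`G2_le`: `∮ s^2 ds = ∮ s w_s ds = - ∮ c p w ds` (integrate the derivative of the periodic function `s w`:
  `(s w)' = v (c p w + s^2)`), `c ≤ 1`, Cauchy-Schwarz.
`sup_le`: let `m = min f^2` over a period; `m * L ≤ ∮ f^2 ds ≤ P^2`, so some `u0` has `f u0^2 ≤ P^2 / l`, and
  `f u^2 - f u0^2 = ∫ 2 f f1 v ≤ 2 ∮ |f||f1| ds ≤ 2 P Q`.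
`A2_le`: put `F = w^2 p^3 s / c`.  With `s' = v c p`, `(1/c)' = v s p / c^2`:
  `F' = v [ 2 w s^2 p^3 / c + 3 w^2 p^2 p1 s / c + w^2 p^4 / c^2 ]` (use `1 + s^2/c^2 = 1/c^2`).
  Integrate over a period and use the pointwise inequality `quart`.
-/

set_option autoImplicit false

open scoped Real
open MeasureTheory
namespace Pool.Agent.EM

open Pool.Agent.helper19.EL

private lemma cont_of {f f' : ℝ → ℝ} (h : ∀ u, HasDerivAt f (f' u) u) : Continuous f :=
  continuous_iff_continuousAt.2 fun u => (h u).continuousAt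

private lemma I_ii (S : SD) (h : S.Ok) {f : ℝ → ℝ} (hf : Continuous f) :
    IntervalIntegrable (fun u => f u * S.v u) volume 0 1 :=
  (hf.mul h.cv).intervalIntegrable 0 1

private lemma I_add (S : SD) (h : S.Ok) {f g : ℝ → ℝ} (hf : Continuous f) (hg : Continuous g) :
    (S.I fun u => f u + g u) = S.I f + S.I g := by
  unfold SD.I
  rw [← intervalIntegral.integral_add (I_ii S h hf) (I_ii S h hg)]
  congr 1
  funext u
  ring

private lemma I_mul (S : SD) (a : ℝ) (f : ℝ → ℝ) : (S.I fun u => a * f u) = a * S.I f := by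
  unfold SD.I
  rw [← intervalIntegral.integral_const_mul]
  congr 1
  funext u
  ring

private lemma I_mono (S : SD) (h : S.Ok) {f g : ℝ → ℝ} (hf : Continuous f) (hg : Continuous g)
    (hfg : ∀ u, f u ≤ g u) : S.I f ≤ S.I g := by
  unfold SD.I
  apply intervalIntegral.integral_mono_on zero_le_one (I_ii S h hf) (I_ii S h hg)
  intro u _
  exact mul_le_mul_of_nonneg_right (hfg u) (h.vpos u).le

private lemma I_nonneg (S : SD) (h : S.Ok) {f : ℝ → ℝ} (hf : ∀ u, 0 ≤ f u) : 0 ≤ S.I f := by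
  unfold SD.I
  apply intervalIntegral.integral_nonneg zero_le_one
  intro u _
  exact mul_nonneg (hf u) (h.vpos u).le

/-- EM-03: interpolation on a slice. -/
theorem I_cs (S : SD) (h : S.Ok) {f g : ℝ → ℝ} (hf : Continuous f) (hg : Continuous g) :
    (S.I fun u => |f u| * |g u|) ^ 2 ≤ (S.I fun u => f u ^ 2) * (S.I fun u => g u ^ 2) := by
  have h1 := cs (f := fun u => |f u|) (g := fun u => |g u|) hf.abs hg.abs h.cv
    (fun u => (h.vpos u).le)
  simp only [sq_abs] at h1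
  exact h1

theorem G2_le (S : SD) (h : S.Ok) : S.G2 ^ 2 ≤ S.X2 * S.Y2 := by
  have cw := cont_of h.dw
  have cs' := cont_of h.ds
  have cc := cont_of h.dc
  have cp := cont_of h.dp
  have cv := h.cv
  have hder : ∀ u, HasDerivAt (fun u => S.s u * S.w u)
      ((S.c u * S.p u * S.w u + S.s u ^ 2) * S.v u) u := fun u => by
    have h1 := (h.ds u).mul (h.dw u)
    refine h1.congr_deriv ?_
    ring
  have hz : (S.I fun u => S.c u * S.p u * S.w u + S.s u ^ 2) = 0 :=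
    int_der hder (by fun_prop) (fun u => by
      show S.s (u + 1) * S.w (u + 1) = S.s u * S.w u
      rw [h.ps, h.pw])
  rw [I_add S h (by fun_prop) (by fun_prop)] at hz
  have hneg : S.G2 = S.I fun u => (-1) * (S.c u * S.p u * S.w u) := by
    rw [I_mul]
    have : S.G2 = S.I fun u => S.s u ^ 2 := rfl
    rw [this]
    linarith
  have hle : S.G2 ≤ S.I fun u => |S.w u| * |S.p u| := by
    rw [hneg]
    apply I_mono S h (by fun_prop) (by fun_prop)
    intro u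
    have hc1 : S.c u ≤ 1 := by nlinarith [h.cs u, sq_nonneg (S.s u), h.cpos u]
    have hc0 := h.cpos u
    have h2 : (-1) * (S.c u * S.p u * S.w u) ≤ |S.c u * S.p u * S.w u| := by
      have := neg_le_abs (S.c u * S.p u * S.w u)
      linarith
    refine h2.trans ?_
    rw [abs_mul, abs_mul, abs_of_pos hc0]
    have h3 : 0 ≤ |S.p u| * |S.w u| := by positivity
    nlinarith
  have h0 : 0 ≤ S.G2 := I_nonneg S h fun u => sq_nonneg _
  calc S.G2 ^ 2 ≤ (S.I fun u => |S.w u| * |S.p u|) ^ 2 := pow_le_pow_left₀ h0 hle 2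
    _ ≤ S.X2 * S.Y2 := I_cs S h cw cp

/-- sup bound for a periodic function with arc length derivative `f1` -/
theorem sup_le (S : SD) (h : S.Ok) {f f1 : ℝ → ℝ} (hper : ∀ u, f (u + 1) = f u) (hf1 : Continuous f1)
    (hf : ∀ u, HasDerivAt f (S.v u * f1 u) u) {P Q l : ℝ} (hl : 0 < l) (hlL : l ≤ S.L) (hP : 0 ≤ P) (hQ : 0 ≤ Q)
    (h0 : (S.I fun u => f u ^ 2) ≤ P ^ 2) (h1 : (S.I fun u => f1 u ^ 2) ≤ Q ^ 2) :
    ∀ u, f u ^ 2 ≤ 2 * P * Q + P ^ 2 / l := by
  have cf := cont_of hf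
  have cv := h.cv
  -- the minimum
  obtain ⟨u0, hu0, hmin⟩ := isCompact_Icc.exists_isMinOn (s := Set.Icc (0 : ℝ) 1)
    ⟨0, by norm_num, by norm_num⟩ (f := fun u => f u ^ 2) (by fun_prop)
  have hm1 : f u0 ^ 2 * S.L ≤ P ^ 2 := by
    have e1 : f u0 ^ 2 * S.L = ∫ u in (0 : ℝ)..1, (f u0 ^ 2) * S.v u := by
      have e2 : S.L = ∫ u in (0 : ℝ)..1, 1 * S.v u := rfl
      rw [e2, ← intervalIntegral.integral_const_mul]
      congr 1
      funext u
      ring
    rw [e1]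
    refine le_trans ?_ h0
    apply intervalIntegral.integral_mono_on zero_le_one
      ((continuous_const.mul cv).intervalIntegrable 0 1) (I_ii S h (by fun_prop))
    intro u hu
    exact mul_le_mul_of_nonneg_right (hmin hu) (h.vpos u).le
  have hm2 : f u0 ^ 2 ≤ P ^ 2 / l := by
    rw [le_div_iff₀ hl]
    exact (mul_le_mul_of_nonneg_left hlL (sq_nonneg _)).trans hm1
  -- the product
  have hPQ : (S.I fun u => |f u| * |f1 u|) ≤ P * Q := by
    have h2 := I_cs S h cf hf1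
    have h3 : 0 ≤ S.I fun u => |f u| * |f1 u| := I_nonneg S h fun u => by positivity
    have h4 : 0 ≤ S.I fun u => f1 u ^ 2 := I_nonneg S h fun u => sq_nonneg _
    have h5 : (S.I fun u => |f u| * |f1 u|) ^ 2 ≤ (P * Q) ^ 2 := by
      rw [mul_pow]
      exact h2.trans (mul_le_mul h0 h1 h4 (sq_nonneg _))
    exact le_of_sq_le_sq h5 (mul_nonneg hP hQ)
  -- differences
  have hdiff : ∀ x y : ℝ, 0 ≤ x → x ≤ y → y ≤ 1 → |f y ^ 2 - f x ^ 2| ≤ 2 * (P * Q) := by
    intro x y hx hxy hy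
    have hd : ∀ u, HasDerivAt (fun u => f u ^ 2) (2 * (f u * f1 u) * S.v u) u := fun u => by
      have := (hf u).pow 2
      refine this.congr_deriv ?_
      push_cast
      ring
    have e1 := intervalIntegral.integral_eq_sub_of_hasDerivAt (a := x) (b := y) (fun u _ => hd u)
      (Continuous.intervalIntegrable (by fun_prop) x y)
    rw [← e1]
    have e2 : |∫ u in x..y, 2 * (f u * f1 u) * S.v u| ≤ ∫ u in x..y, |2 * (f u * f1 u) * S.v u| :=
      intervalIntegral.abs_integral_le_integral_abs hxy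
    have e3 : (∫ u in x..y, |2 * (f u * f1 u) * S.v u|) ≤
        ∫ u in (0 : ℝ)..1, |2 * (f u * f1 u) * S.v u| := by
      apply intervalIntegral.integral_mono_interval hx hxy hy
      · exact Filter.Eventually.of_forall fun u => abs_nonneg _
      · exact Continuous.intervalIntegrable (by fun_prop) 0 1
    have e4 : (∫ u in (0 : ℝ)..1, |2 * (f u * f1 u) * S.v u|) =
        2 * S.I fun u => |f u| * |f1 u| := by
      rw [← I_mul]
      unfold SD.I
      congr 1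
      funext u
      rw [abs_mul, abs_mul, abs_mul, abs_of_pos (h.vpos u), abs_two]
    rw [e4] at e3
    linarith
  intro u
  -- reduction to one period
  have hfl : ∀ (n : ℤ) (x : ℝ), f (x + n) = f x := by
    intro n x
    have hp : Function.Periodic f 1 := hper
    have := (hp.int_mul n) x
    simpa using this
  have hfr : f u = f (Int.fract u) := by
    have := hfl ⌊u⌋ (Int.fract u)
    rw [Int.fract_add_floor] at this
    exact this
  rw [hfr]
  have hx0 := Int.fract_nonneg u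
  have hx1 := (Int.fract_lt_one u).le
  rcases le_total u0 (Int.fract u) with hle | hle
  · have := hdiff _ _ hu0.1 hle hx1
    have := (abs_le.1 this).2
    linarith
  · have := hdiff _ _ hx0 hle hu0.2
    have := (abs_le.1 this).1
    linarith

private lemma quart (a b d s r Sg : ℝ) (hr1 : 1 ≤ r) (hr2 : r ≤ 10000 / 9999) (hs : |s| ≤ Sg) :
    a ^ 2 ≤ (r * (2 * s ^ 2 * a * b + 3 * s * a * d) + r ^ 2 * a ^ 2) +
      10000 / 9999 * (1 / 2 * a ^ 2 + (4 * Sg ^ 4 * b ^ 2 + 9 * Sg ^ 2 * d ^ 2)) := by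
  have hs2 : s ^ 2 ≤ Sg ^ 2 := by
    rw [← sq_abs s]
    exact pow_le_pow_left₀ (abs_nonneg _) hs 2
  have hs4 : s ^ 4 ≤ Sg ^ 4 := by
    have : s ^ 4 = (s ^ 2) ^ 2 := by ring
    rw [this]
    have h2 : Sg ^ 4 = (Sg ^ 2) ^ 2 := by ring
    rw [h2]
    exact pow_le_pow_left₀ (sq_nonneg _) hs2 2
  have hT : -(2 * s ^ 2 * a * b + 3 * s * a * d) ≤
      1 / 2 * a ^ 2 + (4 * s ^ 4 * b ^ 2 + 9 * s ^ 2 * d ^ 2) := by
    nlinarith [sq_nonneg (a + 2 * s ^ 2 * b + 3 * s * d), sq_nonneg (2 * s ^ 2 * b - 3 * s * d)]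
  have hB0 : 0 ≤ 1 / 2 * a ^ 2 + (4 * s ^ 4 * b ^ 2 + 9 * s ^ 2 * d ^ 2) := by positivity
  have hB : 1 / 2 * a ^ 2 + (4 * s ^ 4 * b ^ 2 + 9 * s ^ 2 * d ^ 2) ≤
      1 / 2 * a ^ 2 + (4 * Sg ^ 4 * b ^ 2 + 9 * Sg ^ 2 * d ^ 2) := by
    have h1 := mul_le_mul_of_nonneg_right hs4 (sq_nonneg b)
    have h2 := mul_le_mul_of_nonneg_right hs2 (sq_nonneg d)
    linarith
  have hr0 : 0 ≤ r := by linarith
  have h3 : r * -(2 * s ^ 2 * a * b + 3 * s * a * d) ≤
      10000 / 9999 * (1 / 2 * a ^ 2 + (4 * Sg ^ 4 * b ^ 2 + 9 * Sg ^ 2 * d ^ 2)) :=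
    (mul_le_mul_of_nonneg_left hT hr0).trans (mul_le_mul hr2 hB hB0 (by norm_num))
  have h4 : a ^ 2 ≤ r ^ 2 * a ^ 2 := by
    have : 1 ≤ r ^ 2 := by nlinarith
    nlinarith [sq_nonneg a]
  linarith

/-- the quartic term -/
theorem A2_le (S : SD) (h : S.Ok) {Sg : ℝ} (hS1 : Sg ≤ 1 / 100) (hs : ∀ u, |S.s u| ≤ Sg) :
    S.A2 ≤ 103 / 100 * (8 * Sg ^ 4 * S.Y2 + 18 * Sg ^ 2 * S.Z2) := by
  have cw := cont_of h.dw
  have cs' := cont_of h.ds
  have cc := cont_of h.dc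
  have cp := cont_of h.dp
  have cp1 := h.cp1
  have cv := h.cv
  have hc0 : ∀ u, S.c u ≠ 0 := fun u => (h.cpos u).ne'
  have cr : Continuous fun u => (S.c u)⁻¹ := cc.inv₀ hc0
  have hSg : 0 ≤ Sg := (abs_nonneg _).trans (hs 0)
  have hc1 : ∀ u, S.c u ≤ 1 := fun u => by
    nlinarith [h.cs u, sq_nonneg (S.s u), h.cpos u]
  have hc2 : ∀ u, 9999 / 10000 ≤ S.c u := fun u => by
    have h1 : S.s u ^ 2 ≤ (1 / 100) ^ 2 := by
      rw [← sq_abs (S.s u)]
      exact pow_le_pow_left₀ (abs_nonneg _) ((hs u).trans hS1) 2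
    nlinarith [h.cs u, h.cpos u, hc1 u]
  have hr1 : ∀ u, 1 ≤ (S.c u)⁻¹ := fun u => (one_le_inv₀ (h.cpos u)).2 (hc1 u)
  have hr2 : ∀ u, (S.c u)⁻¹ ≤ 10000 / 9999 := fun u => by
    rw [inv_le_comm₀ (h.cpos u) (by norm_num)]
    refine le_trans ?_ (hc2 u)
    norm_num
  have hder : ∀ u, HasDerivAt (fun u => S.w u ^ 2 * S.p u ^ 3 * S.s u * (S.c u)⁻¹)
      (((S.c u)⁻¹ * (2 * S.s u ^ 2 * (S.w u * S.p u ^ 2) * S.p u +
        3 * S.s u * (S.w u * S.p u ^ 2) * (S.w u * S.p1 u)) +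
        (S.c u)⁻¹ ^ 2 * (S.w u * S.p u ^ 2) ^ 2) * S.v u) u := fun u => by
    have h1 := ((((h.dw u).pow 2).mul ((h.dp u).pow 3)).mul (h.ds u)).mul ((h.dc u).inv (hc0 u))
    refine h1.congr_deriv ?_
    have hcs := h.cs u
    have hcu := hc0 u
    simp only [Pi.mul_apply, Pi.pow_apply, Pi.inv_apply, Nat.cast_ofNat, Nat.add_one_sub_one, pow_one]
    field_simp
    linear_combination (S.w u * S.v u * S.p u ^ 2 * (S.w u * S.p u ^ 2)) * hcs
  have hz : (S.I fun u => (S.c u)⁻¹ * (2 * S.s u ^ 2 * (S.w u * S.p u ^ 2) * S.p u +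
        3 * S.s u * (S.w u * S.p u ^ 2) * (S.w u * S.p1 u)) +
        (S.c u)⁻¹ ^ 2 * (S.w u * S.p u ^ 2) ^ 2) = 0 :=
    int_der hder (by fun_prop) (fun u => by
      show S.w (u + 1) ^ 2 * S.p (u + 1) ^ 3 * S.s (u + 1) * (S.c (u + 1))⁻¹ =
        S.w u ^ 2 * S.p u ^ 3 * S.s u * (S.c u)⁻¹
      have hpp : S.p (u + 1) = S.p u := by
        have hqq : S.q (u + 1) = S.q u := by
          have e1 := h.hq (u + 1)
          have e2 := h.hq u
          rw [h.pK, h.pw] at e1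
          have e3 : 1 - S.K u * S.w u ≠ 0 := fun e => by
            rw [e, mul_zero] at e2
            exact zero_ne_one e2
          exact mul_right_cancel₀ e3 (e1.trans e2.symm)
        rw [h.hp, h.hp, h.pk, h.pK, h.pc, hqq]
      rw [h.pw, h.ps, h.pc, hpp])
  have key : S.A2 ≤ S.I fun u => ((S.c u)⁻¹ * (2 * S.s u ^ 2 * (S.w u * S.p u ^ 2) * S.p u +
        3 * S.s u * (S.w u * S.p u ^ 2) * (S.w u * S.p1 u)) +
        (S.c u)⁻¹ ^ 2 * (S.w u * S.p u ^ 2) ^ 2) +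
        10000 / 9999 * (1 / 2 * (S.w u ^ 2 * S.p u ^ 4) + (4 * Sg ^ 4 * S.p u ^ 2 +
          9 * Sg ^ 2 * (S.w u ^ 2 * S.p1 u ^ 2))) := by
    apply I_mono S h (by fun_prop) (by fun_prop)
    intro u
    have := quart (S.w u * S.p u ^ 2) (S.p u) (S.w u * S.p1 u) (S.s u) (S.c u)⁻¹ Sg
      (hr1 u) (hr2 u) (hs u)
    have e1 : (S.w u * S.p u ^ 2) ^ 2 = S.w u ^ 2 * S.p u ^ 4 := by ring
    have e2 : (S.w u * S.p1 u) ^ 2 = S.w u ^ 2 * S.p1 u ^ 2 := by ring
    rw [e2] at this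
    rw [← e1]
    exact this
  rw [I_add S h (by fun_prop) (by fun_prop), hz, I_mul, I_add S h (by fun_prop) (by fun_prop), I_mul,
    I_add S h (by fun_prop) (by fun_prop), I_mul, I_mul] at key
  have hA : (S.I fun u => S.w u ^ 2 * S.p u ^ 4) = S.A2 := rfl
  have hY : (S.I fun u => S.p u ^ 2) = S.Y2 := rfl
  have hZ : (S.I fun u => S.w u ^ 2 * S.p1 u ^ 2) = S.Z2 := rfl
  rw [hA, hY, hZ] at key
  have hY0 : 0 ≤ S.Y2 := I_nonneg S h fun u => sq_nonneg _
  have hZ0 : 0 ≤ S.Z2 := I_nonneg S h fun u => by positivity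
  have h8 : 0 ≤ Sg ^ 4 * S.Y2 := by positivity
  have h9 : 0 ≤ Sg ^ 2 * S.Z2 := by positivity
  nlinarith [key, h8, h9]

end Pool.Agent.EM
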