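import Pool.Agent.EM.EM01
import Pool.Agent.EM.EM02
import Pool.Agent.EM.EM03

/-!
# EM-04, EM-05: the differential inequality and the comparison of energies on a slice

(uses the statements of EM01, EM02, EM03)

PROOF of `slice_ineq`.  `X = √X2`, `Y = √Y2`, `G = √G2`, `Z = √Z2`, `A = √A2`.
By `identity` and `exact_terms` `∮ (J - w r) = ∮ [-w^2 p1^2/2 + w p1 s p (q-3) + low + high + exact terms - w r]`.
Pointwise: `|w p1 s p (q - 3)| ≤ 202/100 S |w p1||p|`; `high_bound`, `cert_bound`, then `qf` with `w s p` the actual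
values.  All together the integrand is at most
`-w^2 p1^2/2 + 2.02 S |w p1||p| - eta p^2 + es s^2 + Lam w^2 + c1 w^2 + c2 |w||s| + c3 |w||p| + c4 s^2 + c5 |s||p|
  + c6 p^2 + 0.52 |w p^2||p| + w^2 p^4/4 + rho |w|`.
Integrate with `I_cs`: `∮|w||s| ≤ X G`, `∮ |w||p| ≤ X Y`, `∮ |s||p| ≤ G Y`, `∮ |w| ≤ √L X ≤ rL X`,
`∮ |w p^2||p| ≤ A Y`, `∮ |w p1||p| ≤ Z Y`, and `G^2 ≤ X Y` (`G2_le`).
`A^2 ≤ 1.03 (8 S^4 Y^2 + 18 S^2 Z^2)`, so `A ≤ 1.02 (3 S^2 Y + 4.25 S Z)` and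
`0.52 A Y ≤ 1.6 S^2 Y^2 + 2.3 S Z Y`; `A^2/4 ≤ 2.1 S^4 Y^2 + 4.7 S^2 Z^2`; with `S ≤ 1/100`:
`-Z^2/2 + (2.02 + 2.3) S Z Y + 4.7 S^2 Z^2 + 1.6 S^2 Y^2 + 2.1 S^4 Y^2 ≤ 15 S^2 Y^2`
(as `4.32 S Z Y ≤ 0.49 Z^2 + 9.6 S^2 Y^2`).
`G ≤ (z X + Y / z)/2` (from `G^2 ≤ X Y`): `c2 X G ≤ c2 z X^2/2 + c2/(2z) X Y`, `c5 G Y ≤ c5 z/2 X Y + c5/(2z) Y^2`.
The coefficient of `X Y` is `cxy = c3 + c4 + es + c2/(2z) + c5 z/2`, `cxy X Y ≤ th Y^2 + cxy^2/(4 th) X^2`.
Conclude with `n1`, `n2`.  (`c1 .. c6` are nonnegative.)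

PROOF of `energy_cmp`.  `k = K c q + p`, so `E2 - E0 - Y2 = ∮ K^2 c q (c q - 1) + 2 ∮ K c q p`.
`|c q - 1| ≤ s^2 + 1.02 b0 |w|`, `c q ≤ 1.011`: first term at most `1.05 b0^3 rL X + 1.02 b0^2 G^2`.
`∮ K q c p = ∮ K q s_s = - ∮ (K q)_s s`, `(K q)_s = c q^3 K1 + K^2 q^2 s` (use `q = 1 + K w q`), i.e. integrate
`(K q s)' = v [ (c q^3 K1 + K^2 q^2 s) s + K q c p ]`.  Then `∮ c q^3 K1 w_s = - ∮ w (c q^3 K1)_s`,
`(c q^3 K1)_s = - s p q^3 K1 + 3 c q^4 (c q K1 w + K s) K1 + c^2 q^4 K2`.  So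
`2 |∮ K c q p| ≤ 2.2 (b2 rL X + 3.2 b1^2 X^2 + 3.2 b0 b1 X G + b1 S X Y + b0^2 G^2)` with room
(`q^5 ≤ 1.06`), `X G ≤ (b0 X^2 + X Y / b0)/2`, `G^2 ≤ X Y`; the coefficient of `X Y` is at most `4 b1 + 4 b0^2`,
and `m X Y ≤ m^2 X^2 + Y^2/4`.
Check of the constants: `X`: `1.05 b0^3 + 2.2 b2`; `X^2`: `7.1 b1^2 + 3.6 b0^2 b1 + m^2`.
-/

set_option autoImplicit false

open scoped Real
open MeasureTheory
namespace Pool.Agent.EM

section basics

variable {S : SD} (h : S.Ok)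
include h

private lemma ii {f : ℝ → ℝ} (hf : Continuous f) :
    IntervalIntegrable (fun u => f u * S.v u) volume 0 1 :=
  (hf.mul h.cv).intervalIntegrable 0 1

private lemma iadd {f g : ℝ → ℝ} (hf : Continuous f) (hg : Continuous g) :
    (S.I fun u => f u + g u) = S.I f + S.I g := by
  unfold SD.I
  rw [← intervalIntegral.integral_add (ii h hf) (ii h hg)]
  congr 1
  funext u
  ring

omit h in
private lemma imul (a : ℝ) (f : ℝ → ℝ) : (S.I fun u => a * f u) = a * S.I f := by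
  unfold SD.I
  rw [← intervalIntegral.integral_const_mul]
  congr 1
  funext u
  ring

private lemma imono {f g : ℝ → ℝ} (hf : Continuous f) (hg : Continuous g)
    (hfg : ∀ u, f u ≤ g u) : S.I f ≤ S.I g := by
  unfold SD.I
  apply intervalIntegral.integral_mono_on zero_le_one (ii h hf) (ii h hg)
  intro u _
  exact mul_le_mul_of_nonneg_right (hfg u) (h.vpos u).le

private lemma inonneg {f : ℝ → ℝ} (hf : ∀ u, 0 ≤ f u) : 0 ≤ S.I f := by
  unfold SD.I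
  apply intervalIntegral.integral_nonneg zero_le_one
  intro u _
  exact mul_nonneg (hf u) (h.vpos u).le

/-- Cauchy-Schwarz with square roots -/
private lemma ics {f g : ℝ → ℝ} (hf : Continuous f) (hg : Continuous g) {P Q : ℝ} (hP : 0 ≤ P)
    (hQ : 0 ≤ Q) (h1 : (S.I fun u => f u ^ 2) ≤ P ^ 2) (h2 : (S.I fun u => g u ^ 2) ≤ Q ^ 2) :
    (S.I fun u => |f u| * |g u|) ≤ P * Q := by
  have h3 := I_cs S h hf hg
  have h4 : 0 ≤ S.I fun u => g u ^ 2 := inonneg h fun u => sq_nonneg _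
  have h5 : (S.I fun u => |f u| * |g u|) ^ 2 ≤ (P * Q) ^ 2 := by
    rw [mul_pow]
    exact h3.trans (mul_le_mul h1 h2 h4 (sq_nonneg _))
  exact le_of_sq_le_sq h5 (mul_nonneg hP hQ)

private lemma iabs {f g : ℝ → ℝ} (hf : Continuous f) (hg : Continuous g)
    (hfg : ∀ u, |f u| ≤ g u) : |S.I f| ≤ S.I g := by
  rw [abs_le]
  constructor
  · have e1 : -S.I g = S.I fun u => (-1) * g u := by
      rw [imul]
      ring
    rw [e1]
    apply imono h (by fun_prop) hf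
    intro u
    have := (abs_le.1 (hfg u)).1
    linarith
  · exact imono h hf hg fun u => (abs_le.1 (hfg u)).2

end basics

/-- bounds for `q` and `c` -/
private lemma qc {w s c q K b0 W : ℝ} (hc : 0 < c) (hcs : c ^ 2 + s ^ 2 = 1)
    (hq : q * (1 - K * w) = 1) (hK : |K| ≤ b0) (hw : |w| ≤ W) (hb0 : 0 < b0)
    (hbW : b0 * W ≤ 1 / 100) :
    100 / 101 ≤ q ∧ q ≤ 100 / 99 ∧ |q - 1| ≤ 102 / 100 * b0 * |w| ∧ c ≤ 1 ∧ 1 - c ≤ s ^ 2 := by
  have h1 : |K * w| ≤ 1 / 100 := by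
    rw [abs_mul]
    refine le_trans ?_ hbW
    exact mul_le_mul hK hw (abs_nonneg _) hb0.le
  have h2 := abs_le.1 h1
  have h3 : 0 < 1 - K * w := by linarith [h2.2]
  have h4 : q = 1 / (1 - K * w) := by
    rw [eq_div_iff h3.ne']
    exact hq
  have h5 : 100 / 101 ≤ q := by
    rw [h4, le_div_iff₀ h3]
    linarith [h2.1]
  have h6 : q ≤ 100 / 99 := by
    rw [h4, div_le_iff₀ h3]
    linarith [h2.2]
  have h7 : q - 1 = K * w * q := by linear_combination hq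
  have h8 : c ≤ 1 := by nlinarith [sq_nonneg s]
  refine ⟨h5, h6, ?_, h8, ?_⟩
  · rw [h7, abs_mul, abs_mul, abs_of_pos (by linarith : (0 : ℝ) < q)]
    have h9 : |K| * |w| ≤ b0 * |w| := mul_le_mul_of_nonneg_right hK (abs_nonneg _)
    have h10 : 0 ≤ b0 * |w| := by positivity
    calc |K| * |w| * q ≤ b0 * |w| * q := mul_le_mul_of_nonneg_right h9 (by linarith)
      _ ≤ b0 * |w| * (100 / 99) := mul_le_mul_of_nonneg_left h6 h10
      _ ≤ 102 / 100 * b0 * |w| := by linarith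
  · nlinarith [mul_nonneg hc.le (sub_nonneg.2 h8)]

/-- the algebra of the high order terms -/
private lemma alg1 {Z T B Sg : ℝ} (hS0 : 0 < Sg) (hS1 : Sg ≤ 1 / 100)
    (hB : B ^ 2 ≤ 103 / 100 * (8 * T ^ 2 + 18 * Z ^ 2)) :
    -(1 / 2) * Z ^ 2 + 101 / 50 * (Z * T) + 13 / 25 * (B * T) + 1 / 4 * (Sg ^ 2 * B ^ 2) ≤
      15 * T ^ 2 := by
  have h1 : Sg ^ 2 ≤ 1 / 10000 := by nlinarith
  have h2 : Sg ^ 2 * B ^ 2 ≤ 1 / 10000 * B ^ 2 := mul_le_mul_of_nonneg_right h1 (sq_nonneg _)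
  nlinarith [sq_nonneg (B - 14 * T), sq_nonneg (Z - 13 / 2 * T), sq_nonneg T, sq_nonneg Z]

private lemma half {X Y G z : ℝ} (hX : 0 ≤ X) (hY : 0 ≤ Y) (hz : 0 < z)
    (hG : G ^ 2 ≤ X * Y) : G ≤ (z * X + Y / z) / 2 := by
  have h1 : G ^ 2 ≤ ((z * X + Y / z) / 2) ^ 2 := by
    refine hG.trans ?_
    have h2 : X * Y = (z * X) * (Y / z) := by
      field_simp
    rw [h2]
    nlinarith [sq_nonneg (z * X - Y / z)]
  have h3 : 0 ≤ (z * X + Y / z) / 2 := by positivity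
  exact le_of_sq_le_sq h1 h3

private lemma alg2 {X Y G Z A Sg z th c1 c2 c3 c4 c5 c6 es eta rho rL Lam Lr : ℝ}
    (hX : 0 ≤ X) (hY : 0 ≤ Y) (hS0 : 0 < Sg) (hS1 : Sg ≤ 1 / 100)
    (hz : 0 < z) (hth : 0 < th) (h2 : 0 ≤ c2) (h4 : 0 ≤ c4) (h5 : 0 ≤ c5)
    (hes : 0 ≤ es) (hG : G ^ 2 ≤ X * Y)
    (hA : A ^ 2 ≤ 103 / 100 * (8 * Sg ^ 4 * Y ^ 2 + 18 * Sg ^ 2 * Z ^ 2))
    (n1 : c1 + c2 * z / 2 + (c3 + c4 + es + c2 / (2 * z) + c5 * z / 2) ^ 2 / (4 * th) ≤ Lr)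
    (n2 : c6 + c5 / (2 * z) + th + 15 * Sg ^ 2 ≤ eta / 2) :
    -(1 / 2) * Z ^ 2 + 101 / 50 * Sg * (Z * Y) + (-eta + c6) * Y ^ 2 + (es + c4) * G ^ 2 +
      (Lam + c1) * X ^ 2 + c2 * (X * G) + c3 * (X * Y) + c5 * (G * Y) + 13 / 25 * (A * Y) +
      1 / 4 * A ^ 2 + rho * (rL * X) ≤
    (Lam + Lr) * X ^ 2 - eta / 2 * Y ^ 2 + rho * rL * X := by
  have e1 : A = Sg * (A / Sg) := by field_simp
  have e2 : (A / Sg) ^ 2 ≤ 103 / 100 * (8 * (Sg * Y) ^ 2 + 18 * Z ^ 2) := by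
    have : (A / Sg) ^ 2 = A ^ 2 / Sg ^ 2 := by ring
    rw [this, div_le_iff₀ (by positivity)]
    refine hA.trans (le_of_eq ?_)
    ring
  have e3 := alg1 (Z := Z) (T := Sg * Y) hS0 hS1 e2
  have e4 : 13 / 25 * (A / Sg * (Sg * Y)) = 13 / 25 * (A * Y) := by field_simp
  have e5 : 1 / 4 * (Sg ^ 2 * (A / Sg) ^ 2) = 1 / 4 * A ^ 2 := by field_simp
  rw [e4, e5] at e3
  have e6 := half hX hY hz hG
  have e7 : c2 * (X * G) ≤ c2 * (X * ((z * X + Y / z) / 2)) :=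
    mul_le_mul_of_nonneg_left (mul_le_mul_of_nonneg_left e6 hX) h2
  have e8 : c5 * (G * Y) ≤ c5 * (((z * X + Y / z) / 2) * Y) :=
    mul_le_mul_of_nonneg_left (mul_le_mul_of_nonneg_right e6 hY) h5
  have e9 : (es + c4) * G ^ 2 ≤ (es + c4) * (X * Y) :=
    mul_le_mul_of_nonneg_left hG (by linarith)
  obtain ⟨m, hm⟩ : ∃ m, m = c3 + c4 + es + c2 / (2 * z) + c5 * z / 2 := ⟨_, rfl⟩
  rw [← hm] at n1
  have e10 : m * (X * Y) ≤ th * Y ^ 2 + m ^ 2 / (4 * th) * X ^ 2 := by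
    have h6 : 0 ≤ (2 * th * Y - m * X) ^ 2 / (4 * th) := by positivity
    have h7 : (2 * th * Y - m * X) ^ 2 / (4 * th) =
        th * Y ^ 2 + m ^ 2 / (4 * th) * X ^ 2 - m * (X * Y) := by
      field_simp
      ring
    rw [h7] at h6
    linarith
  have e11 : c2 * (X * ((z * X + Y / z) / 2)) + c5 * (((z * X + Y / z) / 2) * Y) +
      (es + c4) * (X * Y) + c3 * (X * Y) =
      m * (X * Y) + c2 * z / 2 * X ^ 2 + c5 / (2 * z) * Y ^ 2 := by
    rw [hm]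
    field_simp
    ring
  have e12 := mul_le_mul_of_nonneg_right n1 (sq_nonneg X)
  have e13 := mul_le_mul_of_nonneg_right n2 (sq_nonneg Y)
  have e14 : 15 * (Sg * Y) ^ 2 = 15 * Sg ^ 2 * Y ^ 2 := by ring
  rw [e14] at e3
  have e15 : 101 / 50 * (Z * (Sg * Y)) = 101 / 50 * Sg * (Z * Y) := by ring
  rw [e15] at e3
  have e16 : (c1 + c2 * z / 2 + m ^ 2 / (4 * th)) * X ^ 2 =
      c1 * X ^ 2 + c2 * z / 2 * X ^ 2 + m ^ 2 / (4 * th) * X ^ 2 := by ring
  have e17 : (c6 + c5 / (2 * z) + th + 15 * Sg ^ 2) * Y ^ 2 =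
      c6 * Y ^ 2 + c5 / (2 * z) * Y ^ 2 + th * Y ^ 2 + 15 * Sg ^ 2 * Y ^ 2 := by ring
  rw [e16] at e12
  rw [e17] at e13
  have e18 : (Lam + Lr) * X ^ 2 - eta / 2 * Y ^ 2 + rho * rL * X =
      Lam * X ^ 2 + Lr * X ^ 2 - eta / 2 * Y ^ 2 + rho * (rL * X) := by ring
  have e19 : (-eta + c6) * Y ^ 2 = -(eta / 2 * Y ^ 2) * 2 + c6 * Y ^ 2 := by ring
  have e20 : (Lam + c1) * X ^ 2 = Lam * X ^ 2 + c1 * X ^ 2 := by ring
  rw [e18, e19, e20]
  linarith only [e3, e7, e8, e9, e10, e11, e12, e13]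

/-- EM-04: the differential inequality on a slice. -/
theorem slice_ineq (S : SD) (h : S.Ok) {A A1 B B1 C C1 r : ℝ → ℝ} {n : SNum ℝ} {Lam : ℝ} (hn : n.Ok)
    (hb : S.Bd A A1 B B1 C C1 r n Lam) :
    S.I (fun u => S.J u - S.w u * r u) ≤
      (Lam + n.Lr) * S.X2 - n.eta / 2 * S.Y2 + n.rho * n.rL * √S.X2 := by
  have cw := em01_cont h.dw
  have cs' := em01_cont h.ds
  have cc := em01_cont h.dc
  have ck := em01_cont h.dk
  have cp := em01_cont h.dp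
  have cK := em01_cont h.dK
  have cK1 := em01_cont h.dK1
  have cq := em01_cont (em01_dq h)
  have cA := em01_cont hb.hA.der
  have cB := em01_cont hb.hB.der
  have cC := em01_cont hb.hC.der
  have cA1 := hb.hA.cont
  have cB1 := hb.hB.cont
  have cC1 := hb.hC.cont
  have cv := h.cv
  have ck2 := h.ck2
  have cK2 := h.cK2
  have cp1 := h.cp1
  have cr := hb.hr
  have hX0 : 0 ≤ S.X2 := inonneg h fun u => sq_nonneg _
  have hY0 : 0 ≤ S.Y2 := inonneg h fun u => sq_nonneg _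
  have hG0 : 0 ≤ S.G2 := inonneg h fun u => sq_nonneg _
  have hZ0 : 0 ≤ S.Z2 := inonneg h fun u => by positivity
  have hA0 : 0 ≤ S.A2 := inonneg h fun u => by positivity
  have hX := Real.sq_sqrt hX0
  have hY := Real.sq_sqrt hY0
  have hG := Real.sq_sqrt hG0
  have hZ := Real.sq_sqrt hZ0
  have hAA := Real.sq_sqrt hA0
  have pX := Real.sqrt_nonneg S.X2
  have pY := Real.sqrt_nonneg S.Y2
  have pG := Real.sqrt_nonneg S.G2
  have pZ := Real.sqrt_nonneg S.Z2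
  have pA := Real.sqrt_nonneg S.A2
  have hb0 := hn.b0
  have hb1 := hn.b1
  have hb2 := hn.b2
  have ha0 := hn.a0
  have ha1 := hn.a1
  have hd0 := hn.d0
  have hd1 := hn.d1
  have hg1 := hn.g1
  have hW := hn.W
  have hS := hn.S
  have hes := hn.es
  have hrho := hn.rho
  -- the whole integrand
  have key1 : S.I (fun u => S.J u - S.w u * r u) =
      S.I (fun u => (-(1 / 2) * S.w u ^ 2 * S.p1 u ^ 2 +
        S.w u * S.p1 u * (S.s u * S.p u) * (S.q u - 3) +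
        low (S.w u) (S.s u) (S.p u) (S.K u) (S.K1 u) (S.K2 u) +
        high (S.w u) (S.s u) (S.c u) (S.p u) (S.q u) (S.K u) (S.K1 u) (S.K2 u)) +
        ((S.c u * S.q u * A1 u * S.s u ^ 2 + 2 * A u * S.s u * (S.c u * S.p u) +
        2 * (S.c u * S.q u * B1 u) * S.w u * S.s u + 2 * B u * S.s u ^ 2 +
        2 * B u * S.w u * (S.c u * S.p u) + S.c u * S.q u * C1 u * S.w u ^ 2 +
        2 * C u * S.w u * S.s u) + (-1) * (S.w u * r u))) := by
    have e1 : S.I (fun u => S.J u - S.w u * r u) = S.I (fun u => S.J u + (-1) * (S.w u * r u)) := by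
      congr 1
      funext u
      ring
    have cF : Continuous fun u => -(1 / 2) * S.w u ^ 2 * S.p1 u ^ 2 +
        S.w u * S.p1 u * (S.s u * S.p u) * (S.q u - 3) +
        low (S.w u) (S.s u) (S.p u) (S.K u) (S.K1 u) (S.K2 u) +
        high (S.w u) (S.s u) (S.c u) (S.p u) (S.q u) (S.K u) (S.K1 u) (S.K2 u) := by
      unfold low high
      fun_prop
    have cT : Continuous fun u => S.c u * S.q u * A1 u * S.s u ^ 2 +
        2 * A u * S.s u * (S.c u * S.p u) +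
        2 * (S.c u * S.q u * B1 u) * S.w u * S.s u + 2 * B u * S.s u ^ 2 +
        2 * B u * S.w u * (S.c u * S.p u) + S.c u * S.q u * C1 u * S.w u ^ 2 +
        2 * C u * S.w u * S.s u := by fun_prop
    have cR : Continuous fun u => (-1) * (S.w u * r u) := by fun_prop
    rw [e1, iadd h (by unfold SD.J; fun_prop) cR, identity S h, iadd h cF (by fun_prop),
      iadd h cT cR, exact_terms S h hb.hA hb.hB hb.hC, zero_add]
  have key2 : S.I (fun u => S.J u - S.w u * r u) ≤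
      S.I (fun u => (-(1 / 2)) * (S.w u ^ 2 * S.p1 u ^ 2) +
        (101 / 50 * n.S * (|S.w u * S.p1 u| * |S.p u|) + ((-n.eta + n.c6) * S.p u ^ 2 +
        ((n.es + n.c4) * S.s u ^ 2 + ((Lam + n.c1) * S.w u ^ 2 + (n.c2 * (|S.w u| * |S.s u|) +
        (n.c3 * (|S.w u| * |S.p u|) + (n.c5 * (|S.s u| * |S.p u|) +
        (13 / 25 * (|S.w u * S.p u ^ 2| * |S.p u|) + (1 / 4 * (S.w u ^ 2 * S.p u ^ 4) +
        n.rho * (|S.w u| * |(1 : ℝ)|))))))))))) := by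
    rw [key1]
    apply imono h (by unfold low high; fun_prop) (by fun_prop)
    intro u
    obtain ⟨q1, q2, q3, c1, c2⟩ := qc (h.cpos u) (h.cs u) (h.hq u) (hb.K_le u) (hb.w_le u) hb0
      hn.bW
    have b1 := high_bound (p := S.p u) (h.cpos u) (h.cs u) (h.hq u) (hb.K_le u) (hb.K1_le u)
      (hb.K2_le u) (hb.w_le u) (hb.s_le u) hb0 hW hS hn.S1 hn.bW
    have b2 := cert_bound (p := S.p u) (C := C u) (h.cpos u) (h.cs u) (h.hq u) (hb.K_le u)
      (hb.w_le u) (hb.s_le u) hb0 hW hS hn.S1 hn.bW (hb.A_le u) (hb.A1_le u) (hb.B_le u)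
      (hb.B1_le u) (hb.C1_le u)
    have b3 := hb.qf u (S.w u) (S.s u) (S.p u)
    have b4 : S.w u * S.p1 u * (S.s u * S.p u) * (S.q u - 3) ≤
        101 / 50 * n.S * (|S.w u * S.p1 u| * |S.p u|) := by
      refine (le_abs_self _).trans ?_
      rw [abs_mul, abs_mul, abs_mul (S.s u)]
      have e1 : |S.q u - 3| ≤ 101 / 50 := by
        rw [abs_le]
        constructor <;> linarith
      have e2 : |S.w u * S.p1 u| * (|S.s u| * |S.p u|) ≤ |S.w u * S.p1 u| * (n.S * |S.p u|) := by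
        gcongr
        exact hb.s_le u
      calc |S.w u * S.p1 u| * (|S.s u| * |S.p u|) * |S.q u - 3|
          ≤ |S.w u * S.p1 u| * (n.S * |S.p u|) * (101 / 50) := by
            apply mul_le_mul e2 e1 (abs_nonneg _) (by positivity)
        _ = 101 / 50 * n.S * (|S.w u * S.p1 u| * |S.p u|) := by ring
    have b5 : (-1) * (S.w u * r u) ≤ n.rho * (|S.w u| * |(1 : ℝ)|) := by
      have e1 : (-1) * (S.w u * r u) ≤ |S.w u * r u| := by
        have := neg_le_abs (S.w u * r u)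
        linarith
      refine e1.trans ?_
      rw [abs_mul, abs_one, mul_one, mul_comm]
      exact mul_le_mul_of_nonneg_right (hb.r_le u) (abs_nonneg _)
    have b6 : |S.w u * S.p u ^ 2| * |S.p u| = |S.w u| * |S.p u| ^ 3 := by
      rw [abs_mul, abs_pow]
      ring
    rw [b6]
    unfold SNum.c1 SNum.c2 SNum.c3 SNum.c4 SNum.c5 SNum.c6 SNum.dq
    linear_combination b1 + b2 + b3 + b4 + b5
  refine key2.trans ?_
  rw [iadd h (by fun_prop) (by fun_prop), iadd h (by fun_prop) (by fun_prop),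
    iadd h (by fun_prop) (by fun_prop), iadd h (by fun_prop) (by fun_prop),
    iadd h (by fun_prop) (by fun_prop), iadd h (by fun_prop) (by fun_prop),
    iadd h (by fun_prop) (by fun_prop), iadd h (by fun_prop) (by fun_prop),
    iadd h (by fun_prop) (by fun_prop), iadd h (by fun_prop) (by fun_prop),
    imul, imul, imul, imul, imul, imul, imul, imul, imul, imul, imul]
  have i1 : (S.I fun u => |S.w u * S.p1 u| * |S.p u|) ≤ √S.Z2 * √S.Y2 := by
    refine ics h (f := fun u => S.w u * S.p1 u) (by fun_prop) cp pZ pY ?_ hY.ge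
    rw [hZ]
    refine le_of_eq ?_
    unfold SD.Z2
    congr 1
    funext u
    ring
  have i2 : (S.I fun u => |S.w u| * |S.s u|) ≤ √S.X2 * √S.G2 := ics h cw cs' pX pG hX.ge hG.ge
  have i3 : (S.I fun u => |S.w u| * |S.p u|) ≤ √S.X2 * √S.Y2 := ics h cw cp pX pY hX.ge hY.ge
  have i4 : (S.I fun u => |S.s u| * |S.p u|) ≤ √S.G2 * √S.Y2 := ics h cs' cp pG pY hG.ge hY.ge
  have i5 : (S.I fun u => |S.w u * S.p u ^ 2| * |S.p u|) ≤ √S.A2 * √S.Y2 := by
    refine ics h (f := fun u => S.w u * S.p u ^ 2) (by fun_prop) cp pA pY ?_ hY.ge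
    rw [hAA]
    refine le_of_eq ?_
    unfold SD.A2
    congr 1
    funext u
    ring
  have i6 : (S.I fun u => |S.w u| * |(1 : ℝ)|) ≤ √S.X2 * n.rL := by
    refine ics h (g := fun _ => (1 : ℝ)) cw (by fun_prop) pX hn.rL.le hX.ge ?_
    have e1 : (S.I fun u => (1 : ℝ) ^ 2) = S.L := by
      simp only [one_pow]
      rfl
    rw [e1]
    exact hb.L_le.trans hn.rL2
  have hc2 : 0 ≤ n.c2 := by unfold SNum.c2 SNum.dq; positivity
  have hc3 : 0 ≤ n.c3 := by unfold SNum.c3; positivity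
  have hc4 : 0 ≤ n.c4 := by unfold SNum.c4 SNum.dq; positivity
  have hc5 : 0 ≤ n.c5 := by unfold SNum.c5; positivity
  have hGG : √S.G2 ^ 2 ≤ √S.X2 * √S.Y2 := by
    rw [hG]
    have e1 := G2_le S h
    have e2 : S.G2 ^ 2 ≤ (√S.X2 * √S.Y2) ^ 2 := by
      rw [mul_pow, hX, hY]
      exact e1
    exact le_of_sq_le_sq e2 (by positivity)
  have hA2 : √S.A2 ^ 2 ≤ 103 / 100 * (8 * n.S ^ 4 * √S.Y2 ^ 2 + 18 * n.S ^ 2 * √S.Z2 ^ 2) := by
    rw [hAA, hY, hZ]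
    exact A2_le S h hn.S1 hb.s_le
  have fin := alg2 (Lam := Lam) (rho := n.rho) (rL := n.rL) (Z := √S.Z2) pX pY hS hn.S1 hn.z
    hn.th hc2 hc4 hc5 hes hGG hA2 hn.n1 hn.n2
  have j1 := mul_le_mul_of_nonneg_left i1 (by positivity : 0 ≤ 101 / 50 * n.S)
  have j2 := mul_le_mul_of_nonneg_left i2 hc2
  have j3 := mul_le_mul_of_nonneg_left i3 hc3
  have j4 := mul_le_mul_of_nonneg_left i4 hc5
  have j5 := mul_le_mul_of_nonneg_left i5 (by norm_num : (0 : ℝ) ≤ 13 / 25)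
  have j6 := mul_le_mul_of_nonneg_left i6 hrho
  have k1 : (S.I fun u => S.w u ^ 2 * S.p1 u ^ 2) = √S.Z2 ^ 2 := hZ.symm
  have k2 : (S.I fun u => S.p u ^ 2) = √S.Y2 ^ 2 := hY.symm
  have k3 : (S.I fun u => S.s u ^ 2) = √S.G2 ^ 2 := hG.symm
  have k4 : (S.I fun u => S.w u ^ 2) = √S.X2 ^ 2 := hX.symm
  have k5 : (S.I fun u => S.w u ^ 2 * S.p u ^ 4) = √S.A2 ^ 2 := hAA.symm
  rw [k1, k2, k3, k4, k5]
  rw [hX, hY] at fin
  rw [hX, hY]
  linear_combination fin + j1 + j2 + j3 + j4 + j5 + j6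

/-- the algebra of the comparison of energies -/
private lemma alg3 {X Y G b0 b1 b2 rL Sg T1 T2 : ℝ} (hX : 0 ≤ X) (hY : 0 ≤ Y)
    (hb0 : 0 < b0) (hb1 : 0 < b1) (hb2 : 0 < b2) (hrL : 0 < rL) (hS1 : Sg ≤ 1 / 100)
    (hG : G ^ 2 ≤ X * Y)
    (hT1 : |T1| ≤ 102 / 100 * b0 ^ 2 * G ^ 2 + 105 / 100 * b0 ^ 3 * (rL * X))
    (hT2 : |T2| ≤ 104 / 100 * b1 * Sg * (X * Y) + 16 / 5 * b1 ^ 2 * X ^ 2 +
      16 / 5 * b0 * b1 * (X * G) + 105 / 100 * b2 * (rL * X) + 103 / 100 * b0 ^ 2 * G ^ 2) :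
    |T1 + 2 * T2| ≤ rL * (11 / 10 * b0 ^ 3 + 23 / 10 * b2) * X +
      (8 * b1 ^ 2 + 4 * b0 ^ 2 * b1 + (4 * b1 + 4 * b0 ^ 2) ^ 2) * X ^ 2 + Y ^ 2 / 4 := by
  have h1 : |T1 + 2 * T2| ≤ |T1| + 2 * |T2| := by
    refine (abs_add_le _ _).trans ?_
    rw [abs_mul, abs_two]
  have h2 := half hX hY hb0 hG
  have h3 : b0 * b1 * (X * G) ≤ b0 * b1 * (X * ((b0 * X + Y / b0) / 2)) := by gcongr
  have h4 : b0 * b1 * (X * ((b0 * X + Y / b0) / 2)) = b0 ^ 2 * b1 / 2 * X ^ 2 + b1 / 2 * (X * Y) := by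
    field_simp
  have h5 : b0 ^ 2 * G ^ 2 ≤ b0 ^ 2 * (X * Y) := mul_le_mul_of_nonneg_left hG (sq_nonneg _)
  have h6 : (4 * b1 + 4 * b0 ^ 2) * (X * Y) ≤ (4 * b1 + 4 * b0 ^ 2) ^ 2 * X ^ 2 + Y ^ 2 / 4 := by
    nlinarith [sq_nonneg ((4 * b1 + 4 * b0 ^ 2) * X - Y / 2)]
  have hXY : 0 ≤ X * Y := mul_nonneg hX hY
  have h7 : b1 * Sg * (X * Y) ≤ b1 * (1 / 100) * (X * Y) := by gcongr
  have h8 : 0 ≤ b1 * (X * Y) := by positivity
  have h9 : 0 ≤ b0 ^ 2 * (X * Y) := by positivity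
  have h10 : 0 ≤ b1 ^ 2 * X ^ 2 := by positivity
  have h11 : 0 ≤ b0 ^ 2 * b1 * X ^ 2 := by positivity
  have h12 : 0 ≤ b0 ^ 3 * (rL * X) := by positivity
  have h13 : 0 ≤ b2 * (rL * X) := by positivity
  nlinarith [h1, h3, h4, h5, h6, h7, h8, h9, h10, h11, h12, h13, hT1, hT2]

/-- EM-05: comparison of energies (`E0` is twice the energy of the explicit curve). -/
theorem energy_cmp (S : SD) (h : S.Ok) {A A1 B B1 C C1 r : ℝ → ℝ} {n : SNum ℝ} {Lam E0 : ℝ} (hn : n.Ok)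
    (hb : S.Bd A A1 B B1 C C1 r n Lam) (hE : E0 = S.I fun u => S.K u ^ 2 * (S.c u * S.q u)) :
    |S.E2 - E0 - S.Y2| ≤ n.cL * √S.X2 + n.cQ * S.X2 + S.Y2 / 4 := by
  have cw := em01_cont h.dw
  have cs' := em01_cont h.ds
  have cc := em01_cont h.dc
  have ck := em01_cont h.dk
  have cp := em01_cont h.dp
  have cK := em01_cont h.dK
  have cK1 := em01_cont h.dK1
  have cq := em01_cont (em01_dq h)
  have cv := h.cv
  have cK2 := h.cK2
  have hX0 : 0 ≤ S.X2 := inonneg h fun u => sq_nonneg _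
  have hY0 : 0 ≤ S.Y2 := inonneg h fun u => sq_nonneg _
  have hG0 : 0 ≤ S.G2 := inonneg h fun u => sq_nonneg _
  have hX := Real.sq_sqrt hX0
  have hY := Real.sq_sqrt hY0
  have hG := Real.sq_sqrt hG0
  have pX := Real.sqrt_nonneg S.X2
  have pY := Real.sqrt_nonneg S.Y2
  have pG := Real.sqrt_nonneg S.G2
  have hb0 := hn.b0
  have hb1 := hn.b1
  have hb2 := hn.b2
  have hW := hn.W
  have hS := hn.S
  have pq : ∀ u, S.q (u + 1) = S.q u := fun u => by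
    have h1 := h.hq (u + 1)
    rw [h.pK, h.pw] at h1
    have h2 := h.hq u
    have h3 : 1 - S.K u * S.w u ≠ 0 := fun h0 => by
      rw [h0, mul_zero] at h2
      exact zero_ne_one h2
    exact mul_right_cancel₀ h3 (h1.trans h2.symm)
  have hGG : √S.G2 ^ 2 ≤ √S.X2 * √S.Y2 := by
    rw [hG]
    have e1 := G2_le S h
    have e2 : S.G2 ^ 2 ≤ (√S.X2 * √S.Y2) ^ 2 := by
      rw [mul_pow, hX, hY]
      exact e1
    exact le_of_sq_le_sq e2 (by positivity)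
  have i2 : (S.I fun u => |S.w u| * |S.s u|) ≤ √S.X2 * √S.G2 := ics h cw cs' pX pG hX.ge hG.ge
  have i3 : (S.I fun u => |S.w u| * |S.p u|) ≤ √S.X2 * √S.Y2 := ics h cw cp pX pY hX.ge hY.ge
  have i6 : (S.I fun u => |S.w u| * |(1 : ℝ)|) ≤ √S.X2 * n.rL := by
    refine ics h (g := fun _ => (1 : ℝ)) cw (by fun_prop) pX hn.rL.le hX.ge ?_
    have e1 : (S.I fun u => (1 : ℝ) ^ 2) = S.L := by
      simp only [one_pow]
      rfl
    rw [e1]
    exact hb.L_le.trans hn.rL2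
  have k3 : (S.I fun u => S.s u ^ 2) = √S.G2 ^ 2 := hG.symm
  have k4 : (S.I fun u => S.w u ^ 2) = √S.X2 ^ 2 := hX.symm
  -- decomposition
  have d1 : S.E2 - E0 - S.Y2 =
      (S.I fun u => S.K u ^ 2 * (S.c u * S.q u) * (S.c u * S.q u - 1)) +
        2 * (S.I fun u => S.K u * S.c u * S.q u * S.p u) := by
    have e1 : S.E2 = S.I fun u => S.K u ^ 2 * (S.c u * S.q u) * (S.c u * S.q u - 1) +
        (S.K u ^ 2 * (S.c u * S.q u) + (2 * (S.K u * S.c u * S.q u * S.p u) + S.p u ^ 2)) := by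
      unfold SD.E2
      congr 1
      funext u
      rw [em01_k h u]
      ring
    have e2 : S.Y2 = S.I fun u => S.p u ^ 2 := rfl
    rw [e1, hE, e2, iadd h (by fun_prop) (by fun_prop), iadd h (by fun_prop) (by fun_prop),
      iadd h (by fun_prop) (by fun_prop), imul]
    ring
  -- the first term
  have t1 : |S.I fun u => S.K u ^ 2 * (S.c u * S.q u) * (S.c u * S.q u - 1)| ≤
      102 / 100 * n.b0 ^ 2 * √S.G2 ^ 2 + 105 / 100 * n.b0 ^ 3 * (n.rL * √S.X2) := by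
    have e1 : |S.I fun u => S.K u ^ 2 * (S.c u * S.q u) * (S.c u * S.q u - 1)| ≤
        S.I fun u => 102 / 100 * n.b0 ^ 2 * S.s u ^ 2 +
          105 / 100 * n.b0 ^ 3 * (|S.w u| * |(1 : ℝ)|) := by
      apply iabs h (by fun_prop) (by fun_prop)
      intro u
      obtain ⟨q1, q2, q3, c1, c2⟩ := qc (h.cpos u) (h.cs u) (h.hq u) (hb.K_le u) (hb.w_le u) hb0
        hn.bW
      have c0 := h.cpos u
      have f1 : |S.c u * S.q u - 1| ≤ S.s u ^ 2 + 102 / 100 * n.b0 * |S.w u| := by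
        have g1 : S.c u * S.q u - 1 = (S.c u - 1) + S.c u * (S.q u - 1) := by ring
        rw [g1]
        refine (abs_add_le _ _).trans ?_
        rw [abs_mul, abs_of_pos c0, abs_of_nonpos (by linarith : S.c u - 1 ≤ 0)]
        have g2 : S.c u * |S.q u - 1| ≤ 1 * |S.q u - 1| :=
          mul_le_mul_of_nonneg_right c1 (abs_nonneg _)
        linarith
      have f2 : |S.K u ^ 2 * (S.c u * S.q u)| ≤ n.b0 ^ 2 * (100 / 99) := by
        rw [abs_mul, abs_pow, abs_mul, abs_of_pos c0, abs_of_pos (by linarith : (0 : ℝ) < S.q u)]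
        have g1 : |S.K u| ^ 2 ≤ n.b0 ^ 2 := pow_le_pow_left₀ (abs_nonneg _) (hb.K_le u) 2
        have g2 : S.c u * S.q u ≤ 1 * (100 / 99) :=
          mul_le_mul c1 q2 (by linarith) zero_le_one
        have g3 : 0 ≤ S.c u * S.q u := mul_nonneg c0.le (by linarith)
        calc |S.K u| ^ 2 * (S.c u * S.q u) ≤ n.b0 ^ 2 * (1 * (100 / 99)) :=
              mul_le_mul g1 g2 g3 (by positivity)
          _ = n.b0 ^ 2 * (100 / 99) := by ring
      rw [abs_mul, abs_one, mul_one]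
      refine (mul_le_mul f2 f1 (abs_nonneg _) (by positivity)).trans ?_
      have g1 : 0 ≤ n.b0 ^ 2 * S.s u ^ 2 := by positivity
      have g2 : 0 ≤ n.b0 ^ 3 * |S.w u| := by positivity
      nlinarith [g1, g2]
    rw [iadd h (by fun_prop) (by fun_prop), imul, imul, k3] at e1
    refine e1.trans ?_
    have e2 := mul_le_mul_of_nonneg_left i6 (by positivity : 0 ≤ 105 / 100 * n.b0 ^ 3)
    linarith
  -- the second term
  have t2 : |S.I fun u => S.K u * S.c u * S.q u * S.p u| ≤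
      104 / 100 * n.b1 * n.S * (√S.X2 * √S.Y2) + 16 / 5 * n.b1 ^ 2 * √S.X2 ^ 2 +
      16 / 5 * n.b0 * n.b1 * (√S.X2 * √S.G2) + 105 / 100 * n.b2 * (n.rL * √S.X2) +
      103 / 100 * n.b0 ^ 2 * √S.G2 ^ 2 := by
    have z1 : (S.I fun u => (S.c u * S.q u ^ 3 * S.K1 u * S.s u + S.K u ^ 2 * S.q u ^ 2 * S.s u ^ 2) +
        S.K u * S.c u * S.q u * S.p u) = 0 := by
      rw [SD.I]
      refine Pool.Agent.helper19.EL.int_der (f := fun u => S.K u * S.q u * S.s u) (fun u => ?_)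
        (by fun_prop) ?_
      · refine (((h.dK u).fun_mul (em01_dq h u)).fun_mul (h.ds u)).congr_deriv ?_
        linear_combination
          (S.v u * (-(S.c u * S.q u ^ 2 * S.K1 u * S.s u))) * h.hq u
      · intro u
        show S.K (u + 1) * S.q (u + 1) * S.s (u + 1) = S.K u * S.q u * S.s u
        rw [h.pK, pq, h.ps]
    have z2 : (S.I fun u => S.c u * S.q u ^ 3 * S.K1 u * S.s u +
        S.w u * (-(S.s u * S.p u * S.q u ^ 3 * S.K1 u) +
          3 * S.c u * S.q u ^ 4 * (S.c u * S.q u * S.K1 u * S.w u + S.K u * S.s u) * S.K1 u +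
          S.c u ^ 2 * S.q u ^ 4 * S.K2 u)) = 0 := by
      rw [SD.I]
      refine Pool.Agent.helper19.EL.int_der (f := fun u => S.w u * (S.c u * S.q u ^ 3 * S.K1 u))
        (fun u => ?_) (by fun_prop) ?_
      · have e1 := ((h.dc u).fun_mul ((em01_dq h u).fun_pow 3)).fun_mul (h.dK1 u)
        refine ((h.dw u).fun_mul e1).congr_deriv ?_
        simp only [Nat.add_one_sub_one, Nat.cast_ofNat, pow_one]
        ring
      · intro u
        show S.w (u + 1) * (S.c (u + 1) * S.q (u + 1) ^ 3 * S.K1 (u + 1)) =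
          S.w u * (S.c u * S.q u ^ 3 * S.K1 u)
        rw [h.pw, h.pc, pq, h.pK1]
    have z3 : (S.I fun u => S.K u * S.c u * S.q u * S.p u) =
        S.I fun u => S.w u * (-(S.s u * S.p u * S.q u ^ 3 * S.K1 u) +
          3 * S.c u * S.q u ^ 4 * (S.c u * S.q u * S.K1 u * S.w u + S.K u * S.s u) * S.K1 u +
          S.c u ^ 2 * S.q u ^ 4 * S.K2 u) + (-1) * (S.K u ^ 2 * S.q u ^ 2 * S.s u ^ 2) := by
      rw [iadd h (by fun_prop) (by fun_prop), iadd h (by fun_prop) (by fun_prop)] at z1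
      rw [iadd h (by fun_prop) (by fun_prop)] at z2
      rw [iadd h (by fun_prop) (by fun_prop), imul]
      linarith
    have e1 : |S.I fun u => S.K u * S.c u * S.q u * S.p u| ≤
        S.I fun u => 104 / 100 * n.b1 * n.S * (|S.w u| * |S.p u|) + (16 / 5 * n.b1 ^ 2 * S.w u ^ 2 +
          (16 / 5 * n.b0 * n.b1 * (|S.w u| * |S.s u|) + (105 / 100 * n.b2 * (|S.w u| * |(1 : ℝ)|) +
          103 / 100 * n.b0 ^ 2 * S.s u ^ 2))) := by
      rw [z3]
      apply iabs h (by fun_prop) (by fun_prop)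
      intro u
      obtain ⟨q1, q2, q3, c1, c2⟩ := qc (h.cpos u) (h.cs u) (h.hq u) (hb.K_le u) (hb.w_le u) hb0
        hn.bW
      have c0 := h.cpos u
      have q0 : 0 < S.q u := by linarith
      have hK := hb.K_le u
      have hK1 := hb.K1_le u
      have hK2 := hb.K2_le u
      have hs := hb.s_le u
      have p2 : S.q u ^ 2 ≤ 103 / 100 := (pow_le_pow_left₀ q0.le q2 2).trans (by norm_num)
      have p3 : S.q u ^ 3 ≤ 104 / 100 := (pow_le_pow_left₀ q0.le q2 3).trans (by norm_num)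
      have p4 : S.q u ^ 4 ≤ 105 / 100 := (pow_le_pow_left₀ q0.le q2 4).trans (by norm_num)
      have p5 : S.q u ^ 5 ≤ 106 / 100 := (pow_le_pow_left₀ q0.le q2 5).trans (by norm_num)
      have g1 : |S.w u * (S.s u * S.p u * S.q u ^ 3 * S.K1 u)| ≤
          104 / 100 * n.b1 * n.S * (|S.w u| * |S.p u|) := by
        rw [abs_mul, abs_mul, abs_mul, abs_mul, abs_of_pos (by positivity : 0 < S.q u ^ 3)]
        calc |S.w u| * (|S.s u| * |S.p u| * S.q u ^ 3 * |S.K1 u|)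
            ≤ |S.w u| * (n.S * |S.p u| * (104 / 100) * n.b1) := by gcongr
          _ = 104 / 100 * n.b1 * n.S * (|S.w u| * |S.p u|) := by ring
      have g2 : |S.w u * (3 * S.c u * S.q u ^ 4 * (S.c u * S.q u * S.K1 u * S.w u) * S.K1 u)| ≤
          16 / 5 * n.b1 ^ 2 * S.w u ^ 2 := by
        have e2 : S.w u * (3 * S.c u * S.q u ^ 4 * (S.c u * S.q u * S.K1 u * S.w u) * S.K1 u) =
            3 * (S.c u ^ 2) * S.q u ^ 5 * S.K1 u ^ 2 * S.w u ^ 2 := by ring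
        rw [e2, abs_of_nonneg (by positivity)]
        have e3 : S.c u ^ 2 ≤ 1 := by nlinarith [h.cs u, sq_nonneg (S.s u)]
        have e4 : S.K1 u ^ 2 ≤ n.b1 ^ 2 := by
          rw [← sq_abs]
          exact pow_le_pow_left₀ (abs_nonneg _) hK1 2
        calc 3 * (S.c u ^ 2) * S.q u ^ 5 * S.K1 u ^ 2 * S.w u ^ 2
            ≤ 3 * 1 * (106 / 100) * n.b1 ^ 2 * S.w u ^ 2 := by gcongr
          _ ≤ 16 / 5 * n.b1 ^ 2 * S.w u ^ 2 := by
            have : 0 ≤ n.b1 ^ 2 * S.w u ^ 2 := by positivity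
            linarith
      have g3 : |S.w u * (3 * S.c u * S.q u ^ 4 * (S.K u * S.s u) * S.K1 u)| ≤
          16 / 5 * n.b0 * n.b1 * (|S.w u| * |S.s u|) := by
        rw [abs_mul, abs_mul, abs_mul, abs_mul, abs_mul 3, abs_mul (S.K u),
          abs_of_pos (by positivity : 0 < S.q u ^ 4),
          abs_of_pos c0, abs_of_pos (by norm_num : (0 : ℝ) < 3)]
        calc |S.w u| * (3 * S.c u * S.q u ^ 4 * (|S.K u| * |S.s u|) * |S.K1 u|)
            ≤ |S.w u| * (3 * 1 * (105 / 100) * (n.b0 * |S.s u|) * n.b1) := by gcongr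
          _ ≤ 16 / 5 * n.b0 * n.b1 * (|S.w u| * |S.s u|) := by
            have : 0 ≤ n.b0 * n.b1 * (|S.w u| * |S.s u|) := by positivity
            linarith
      have g4 : |S.w u * (S.c u ^ 2 * S.q u ^ 4 * S.K2 u)| ≤ 105 / 100 * n.b2 * (|S.w u| * 1) := by
        rw [abs_mul, abs_mul, abs_mul, abs_of_pos (by positivity : 0 < S.q u ^ 4),
          abs_of_nonneg (by positivity : 0 ≤ S.c u ^ 2)]
        have e3 : S.c u ^ 2 ≤ 1 := by nlinarith [h.cs u, sq_nonneg (S.s u)]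
        calc |S.w u| * (S.c u ^ 2 * S.q u ^ 4 * |S.K2 u|)
            ≤ |S.w u| * (1 * (105 / 100) * n.b2) := by gcongr
          _ = 105 / 100 * n.b2 * (|S.w u| * 1) := by ring
      have g5 : |S.K u ^ 2 * S.q u ^ 2 * S.s u ^ 2| ≤ 103 / 100 * n.b0 ^ 2 * S.s u ^ 2 := by
        rw [abs_of_nonneg (by positivity)]
        have e4 : S.K u ^ 2 ≤ n.b0 ^ 2 := by
          rw [← sq_abs]
          exact pow_le_pow_left₀ (abs_nonneg _) hK 2
        calc S.K u ^ 2 * S.q u ^ 2 * S.s u ^ 2 ≤ n.b0 ^ 2 * (103 / 100) * S.s u ^ 2 := by gcongr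
          _ = 103 / 100 * n.b0 ^ 2 * S.s u ^ 2 := by ring
      have e5 : S.w u * (-(S.s u * S.p u * S.q u ^ 3 * S.K1 u) +
          3 * S.c u * S.q u ^ 4 * (S.c u * S.q u * S.K1 u * S.w u + S.K u * S.s u) * S.K1 u +
          S.c u ^ 2 * S.q u ^ 4 * S.K2 u) + (-1) * (S.K u ^ 2 * S.q u ^ 2 * S.s u ^ 2) =
          -(S.w u * (S.s u * S.p u * S.q u ^ 3 * S.K1 u)) +
          S.w u * (3 * S.c u * S.q u ^ 4 * (S.c u * S.q u * S.K1 u * S.w u) * S.K1 u) +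
          S.w u * (3 * S.c u * S.q u ^ 4 * (S.K u * S.s u) * S.K1 u) +
          S.w u * (S.c u ^ 2 * S.q u ^ 4 * S.K2 u) + -(S.K u ^ 2 * S.q u ^ 2 * S.s u ^ 2) := by
        ring
      rw [e5, abs_one]
      refine (abs_add_le _ _).trans ?_
      rw [abs_neg]
      have m1 := abs_add_le (-(S.w u * (S.s u * S.p u * S.q u ^ 3 * S.K1 u)) +
          S.w u * (3 * S.c u * S.q u ^ 4 * (S.c u * S.q u * S.K1 u * S.w u) * S.K1 u) +
          S.w u * (3 * S.c u * S.q u ^ 4 * (S.K u * S.s u) * S.K1 u))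
          (S.w u * (S.c u ^ 2 * S.q u ^ 4 * S.K2 u))
      have m2 := abs_add_le (-(S.w u * (S.s u * S.p u * S.q u ^ 3 * S.K1 u)) +
          S.w u * (3 * S.c u * S.q u ^ 4 * (S.c u * S.q u * S.K1 u * S.w u) * S.K1 u))
          (S.w u * (3 * S.c u * S.q u ^ 4 * (S.K u * S.s u) * S.K1 u))
      have m3 := abs_add_le (-(S.w u * (S.s u * S.p u * S.q u ^ 3 * S.K1 u)))
          (S.w u * (3 * S.c u * S.q u ^ 4 * (S.c u * S.q u * S.K1 u * S.w u) * S.K1 u))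
      rw [abs_neg] at m3
      linear_combination m1 + m2 + m3 + g1 + g2 + g3 + g4 + g5
    rw [iadd h (by fun_prop) (by fun_prop), iadd h (by fun_prop) (by fun_prop),
      iadd h (by fun_prop) (by fun_prop), iadd h (by fun_prop) (by fun_prop),
      imul, imul, imul, imul, imul, k3, k4] at e1
    refine e1.trans ?_
    have j1 := mul_le_mul_of_nonneg_left i3 (by positivity : 0 ≤ 104 / 100 * n.b1 * n.S)
    have j2 := mul_le_mul_of_nonneg_left i2 (by positivity : 0 ≤ 16 / 5 * n.b0 * n.b1)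
    have j3 := mul_le_mul_of_nonneg_left i6 (by positivity : 0 ≤ 105 / 100 * n.b2)
    linear_combination j1 + j2 + j3
  have fin := alg3 pX pY hb0 hb1 hb2 hn.rL hn.S1 hGG t1 t2
  rw [d1]
  rw [hX, hY] at fin
  unfold SNum.cL SNum.cQ
  exact fin

end Pool.Agent.EM
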