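import Pool.Agent.EM.EM06A

/-!
# EM-06: geometry of a slice (fixed time)

`f θ` is the explicit curve (period `2π`), `g u` the other curve (period `1`), `α` a continuous label.
Write `T̂ = tang f`, `N̂ = nor f = I T̂`, `v̂ = speed f`, `κ = curv f`, all smooth functions of `θ`
(`f' = v̂ T̂`, `T̂' = κ v̂ N̂`, `N̂' = -κ v̂ T̂`; compare `EL/Curve.lean`: `deriv_c`, `deriv_tang`).

PROOF of `Slice.der`.  `Φ(θ, u) = ⟪g u - f θ, T̂ θ⟫` is smooth, `Φ(α u, u) = 0`, and
`∂_θ Φ = - v̂ + κ v̂ ⟪g u - f θ, N̂ θ⟫ = - v̂ (1 - κ w)` at `θ = α u`, not `0` since `|κ w| ≤ 1/100`;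
`∂_u Φ = v ⟪T, T̂⟫ = v c`.  Lemma (one parameter): if `Φ` has a total derivative `(a, b)` at `(α u0, u0)` with
`a ≠ 0`, `α` is continuous at `u0` and `Φ(α u, u) = 0` near `u0`, then `α' = -b/a`.  (Proof: from
`Φ = a (α - α0) + b (u - u0) + o(|α - α0| + |u - u0|)` first `α - α0 = O(u - u0)`, then the claim;
`Asymptotics.IsLittleO`.)  Please state that lemma for general `HasFDerivAt` on `ℝ × ℝ`, EM-07 uses it again in the
variable `t` (name: `implicit_deriv`).

PROOF of `Slice.ok`.  With `α' = v c q / v̂`:  `g - f∘α = w N̂∘α` (foot condition; `T̂, N̂` is an orthonormal basis of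
`ℂ` over `ℝ`), `T = c T̂ + s N̂`.
`w' = ⟪v T - α' v̂ T̂, N̂⟫ + ⟪w N̂, -κ v̂ α' T̂⟫ = v s`;
`s' = ⟪v k N, N̂⟫ + ⟪T, -κ v̂ α' T̂⟫ = v (k c - κ c^2 q) = v c p` (`⟪N, N̂⟫ = c`);
`c' = ⟪v k N, T̂⟫ + ⟪T, κ v̂ α' N̂⟫ = -v k s + v κ c q s = - v s p` (`⟪N, T̂⟫ = -s`);
`k' = v k1`, `k1' = v k2`, `K' = v̂ K1 α' = v c q K1`, `K1' = v c q K2`; `p' = v p1` by definition of `dsR` and
differentiability.  Continuity and periodicity: everything is continuous in `u`; `α (u+1) = α u + 2π`.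
`c^2 + s^2 = 1`: Parseval for the basis `T̂, N̂`.

PROOF of `Slice.lift`: chain rule.  PROOF of `Slice.cov`: `c q v = v̂(α u) α' u`, substitution
(`intervalIntegral.integral_comp_mul_deriv`), then periodicity of `F * speed f`
(`Function.Periodic.intervalIntegral_add_eq`).
-/

set_option autoImplicit false

open scoped Real ContDiff InnerProductSpace
open MeasureTheory
namespace Pool.Agent.EM
open Pool.Agent.helper19.EL

section slice

variable {g f : ℝ → ℂ} {α : ℝ → ℝ}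

private lemma e6_ne (h : Slice g f α) (u : ℝ) :
    1 - curv f (α u) * ⟪g u - f (α u), nor f (α u)⟫_ℝ ≠ 0 := by
  have := (abs_le.1 (h.small u)).2
  intro h1
  linarith

/-- EM-06: the derivative of the label. -/
theorem Slice.der {g f : ℝ → ℂ} {α : ℝ → ℝ} (h : Slice g f α) (u : ℝ) :
    HasDerivAt α ((mkSD g f α).v u * ((mkSD g f α).c u * (mkSD g f α).q u) / speed f (α u)) u := by
  have smΦ : ContDiff ℝ ∞ fun p : ℝ × ℝ => ⟪g p.2 - f p.1, tang f p.1⟫_ℝ :=
    ((h.smg.comp contDiff_snd).sub (h.smf.comp contDiff_fst)).inner ℝ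
      ((e6_sm_tang h.smf h.immf).comp contDiff_fst)
  have hΦ := (smΦ.differentiable (by simp) (α u, u)).hasFDerivAt
  have hv := speed_pos (h.immf (α u))
  have hne := e6_ne h u
  have p1 : fderiv ℝ (fun p : ℝ × ℝ => ⟪g p.2 - f p.1, tang f p.1⟫_ℝ) (α u, u) (1, 0) =
      -(speed f (α u) * (1 - curv f (α u) * ⟪g u - f (α u), nor f (α u)⟫_ℝ)) := by
    have d1 : HasDerivAt (fun r : ℝ => ((r, u) : ℝ × ℝ)) (1, 0) (α u) :=
      (hasDerivAt_id _).prodMk (hasDerivAt_const _ _)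
    have d2 := HasFDerivAt.comp_hasDerivAt (α u) hΦ d1
    have d3 : HasDerivAt (fun r : ℝ => ⟪g u - f r, tang f r⟫_ℝ) _ (α u) :=
      ((e6_dc h.smf h.immf (α u)).const_sub (g u)).inner ℝ (e6_dT h.smf h.immf (α u))
    have d4 := d2.unique d3
    rw [d4, e6_inn_r, inner_neg_left, e6_inn_l, e6_TT h.immf]
    ring
  have p2 : fderiv ℝ (fun p : ℝ × ℝ => ⟪g p.2 - f p.1, tang f p.1⟫_ℝ) (α u, u) (0, 1) =
      speed g u * ⟪tang g u, tang f (α u)⟫_ℝ := by
    have d1 : HasDerivAt (fun r : ℝ => ((α u, r) : ℝ × ℝ)) (0, 1) u :=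
      (hasDerivAt_const _ _).prodMk (hasDerivAt_id _)
    have d2 := HasFDerivAt.comp_hasDerivAt u hΦ d1
    have d3 : HasDerivAt (fun r : ℝ => ⟪g r - f (α u), tang f (α u)⟫_ℝ) _ u :=
      ((e6_dc h.smg h.immg u).sub_const (f (α u))).inner ℝ (hasDerivAt_const u (tang f (α u)))
    have d4 := d2.unique d3
    rw [d4, inner_zero_right, e6_inn_l, zero_add]
  have hd := implicit_deriv hΦ p1 p2 (neg_ne_zero.2 (mul_ne_zero hv.ne' hne)) h.cont.continuousAt
    (Filter.Eventually.of_forall h.foot)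
  refine hd.congr_deriv ?_
  show _ = speed g u * (⟪tang g u, tang f (α u)⟫_ℝ *
    (1 - curv f (α u) * ⟪g u - f (α u), nor f (α u)⟫_ℝ)⁻¹) / speed f (α u)
  have hv' := hv.ne'
  field_simp

private lemma e6_der' (h : Slice g f α) (u : ℝ) : ∃ α' : ℝ, HasDerivAt α α' u ∧
    α' * speed f (α u) = speed g u * (⟪tang g u, tang f (α u)⟫_ℝ *
      (1 - curv f (α u) * ⟪g u - f (α u), nor f (α u)⟫_ℝ)⁻¹) := by
  refine ⟨_, h.der u, ?_⟩
  exact div_mul_cancel₀ _ (speed_pos (h.immf (α u))).ne'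

private lemma e6_dw (h : Slice g f α) (u : ℝ) :
    HasDerivAt (fun u => ⟪g u - f (α u), nor f (α u)⟫_ℝ)
      (speed g u * ⟪tang g u, nor f (α u)⟫_ℝ) u := by
  obtain ⟨α', hα, -⟩ := e6_der' h u
  have d1 := (e6_dc h.smg h.immg u).sub ((e6_dc h.smf h.immf (α u)).scomp u hα)
  have d2 := (e6_dN h.smf h.immf (α u)).scomp u hα
  have d3 := d1.inner ℝ d2
  refine d3.congr_deriv ?_
  simp only [Function.comp, Pi.sub_apply]
  rw [Complex.real_smul, Complex.real_smul, e6_inn_r, e6_inn_r, h.foot u, inner_sub_left,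
    e6_inn_l, e6_inn_l, e6_inn_l, e6_TN]
  ring

private lemma e6_ds (h : Slice g f α) (u : ℝ) :
    HasDerivAt (fun u => ⟪tang g u, nor f (α u)⟫_ℝ)
      (speed g u * (⟪tang g u, tang f (α u)⟫_ℝ * (curv g u - curv f (α u) *
        ⟪tang g u, tang f (α u)⟫_ℝ *
          (1 - curv f (α u) * ⟪g u - f (α u), nor f (α u)⟫_ℝ)⁻¹))) u := by
  obtain ⟨α', hα, he⟩ := e6_der' h u
  have d1 := e6_dT h.smg h.immg u
  have d2 := (e6_dN h.smf h.immf (α u)).scomp u hα
  have d3 := d1.inner ℝ d2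
  refine d3.congr_deriv ?_
  simp only [Function.comp]
  rw [Complex.real_smul, e6_inn_r, e6_inn_r, e6_inn_l]
  have e1 : ⟪nor g u, nor f (α u)⟫_ℝ = ⟪tang g u, tang f (α u)⟫_ℝ := e6_NN _ _
  rw [e1]
  linear_combination (-curv f (α u) * ⟪tang g u, tang f (α u)⟫_ℝ) * he

private lemma e6_dcc (h : Slice g f α) (u : ℝ) :
    HasDerivAt (fun u => ⟪tang g u, tang f (α u)⟫_ℝ)
      (-(speed g u * (⟪tang g u, nor f (α u)⟫_ℝ * (curv g u - curv f (α u) *
        ⟪tang g u, tang f (α u)⟫_ℝ *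
          (1 - curv f (α u) * ⟪g u - f (α u), nor f (α u)⟫_ℝ)⁻¹)))) u := by
  obtain ⟨α', hα, he⟩ := e6_der' h u
  have d1 := e6_dT h.smg h.immg u
  have d2 := (e6_dT h.smf h.immf (α u)).scomp u hα
  have d3 := d1.inner ℝ d2
  refine d3.congr_deriv ?_
  simp only [Function.comp]
  rw [Complex.real_smul, e6_inn_r, e6_inn_r, e6_inn_l]
  have e1 : ⟪nor g u, tang f (α u)⟫_ℝ = -⟪tang g u, nor f (α u)⟫_ℝ := e6_NT _ _
  rw [e1]
  linear_combination (curv f (α u) * ⟪tang g u, nor f (α u)⟫_ℝ) * he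

private lemma e6_cc (h : Slice g f α) : Continuous fun u => ⟪tang g u, tang f (α u)⟫_ℝ :=
  continuous_iff_continuousAt.2 fun u => (e6_dcc h u).continuousAt

private lemma e6_cs (h : Slice g f α) : Continuous fun u => ⟪tang g u, nor f (α u)⟫_ℝ :=
  continuous_iff_continuousAt.2 fun u => (e6_ds h u).continuousAt

private lemma e6_cw (h : Slice g f α) : Continuous fun u => ⟪g u - f (α u), nor f (α u)⟫_ℝ :=
  continuous_iff_continuousAt.2 fun u => (e6_dw h u).continuousAt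

private lemma e6_cF (h : Slice g f α) {F : ℝ → ℝ} (hF : Continuous F) :
    Continuous fun u => F (α u) := hF.comp h.cont

private lemma e6_cK (h : Slice g f α) : Continuous fun u => curv f (α u) :=
  e6_cF h (e6_sm_curv h.smf h.immf).continuous

private lemma e6_cq (h : Slice g f α) : Continuous fun u =>
    (1 - curv f (α u) * ⟪g u - f (α u), nor f (α u)⟫_ℝ)⁻¹ :=
  (continuous_const.sub ((e6_cK h).mul (e6_cw h))).inv₀ fun u => e6_ne h u

/-- functions on the explicit curve -/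
private lemma e6_dF (h : Slice g f α) {F F' : ℝ → ℝ} (hF : ∀ θ, HasDerivAt F (F' θ) θ) (u : ℝ) :
    HasDerivAt (fun u => F (α u)) (speed g u * (⟪tang g u, tang f (α u)⟫_ℝ *
      (1 - curv f (α u) * ⟪g u - f (α u), nor f (α u)⟫_ℝ)⁻¹ * (F' (α u) / speed f (α u)))) u := by
  obtain ⟨α', hα, he⟩ := e6_der' h u
  have d1 := (hF (α u)).comp u hα
  refine d1.congr_deriv ?_
  have hv := (speed_pos (h.immf (α u))).ne'
  have e2 : F' (α u) * α' = α' * speed f (α u) * (F' (α u) / speed f (α u)) := by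
    field_simp
  rw [e2, he]
  ring

private lemma e6_dG (h : Slice g f α) {F : ℝ → ℝ} (hF : ContDiff ℝ ∞ F) (u : ℝ) :
    HasDerivAt (fun u => F (α u)) (speed g u * (⟪tang g u, tang f (α u)⟫_ℝ *
      (1 - curv f (α u) * ⟪g u - f (α u), nor f (α u)⟫_ℝ)⁻¹ * dsR f F (α u))) u :=
  e6_dF h (F' := deriv F) (fun θ => (hF.differentiable (by simp) θ).hasDerivAt) u

/-- the derivative of `p`, with a continuous value -/
private lemma e6_dp (h : Slice g f α) : ∃ P : ℝ → ℝ, Continuous P ∧ ∀ u,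
    HasDerivAt (fun u => curv g u - curv f (α u) * ⟪tang g u, tang f (α u)⟫_ℝ *
      (1 - curv f (α u) * ⟪g u - f (α u), nor f (α u)⟫_ℝ)⁻¹) (P u) u := by
  obtain ⟨dK, hdK, cdK⟩ : ∃ dK : ℝ → ℝ, (∀ u, HasDerivAt (fun u => curv f (α u)) (dK u) u) ∧
      Continuous dK := by
    refine ⟨_, fun u => e6_dG h (e6_sm_curv h.smf h.immf) u, ?_⟩
    exact (e6_sm_speed h.smg h.immg).continuous.mul (((e6_cc h).mul (e6_cq h)).mul
      (e6_cF h (e6_sm_dsR h.smf h.immf (e6_sm_curv h.smf h.immf)).continuous))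
  obtain ⟨dw, hdw, cdw⟩ : ∃ dw : ℝ → ℝ, (∀ u, HasDerivAt
      (fun u => ⟪g u - f (α u), nor f (α u)⟫_ℝ) (dw u) u) ∧ Continuous dw :=
    ⟨_, e6_dw h, (e6_sm_speed h.smg h.immg).continuous.mul (e6_cs h)⟩
  obtain ⟨dc, hdc, cdc⟩ : ∃ dc : ℝ → ℝ, (∀ u, HasDerivAt
      (fun u => ⟪tang g u, tang f (α u)⟫_ℝ) (dc u) u) ∧ Continuous dc := by
    refine ⟨_, e6_dcc h, ?_⟩
    exact ((e6_sm_speed h.smg h.immg).continuous.mul ((e6_cs h).mul
      ((e6_sm_curv h.smg h.immg).continuous.sub (((e6_cK h).mul (e6_cc h)).mul (e6_cq h))))).neg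
  obtain ⟨dk, hdk, cdk⟩ : ∃ dk : ℝ → ℝ, (∀ u, HasDerivAt (curv g) (dk u) u) ∧ Continuous dk :=
    ⟨deriv (curv g), fun u => ((e6_sm_curv h.smg h.immg).differentiable (by simp) u).hasDerivAt,
      (e6_smdR (e6_sm_curv h.smg h.immg)).continuous⟩
  refine ⟨_, ?_, fun u => (hdk u).sub (((hdK u).mul (hdc u)).mul
    (HasDerivAt.inv (((hdK u).mul (hdw u)).const_sub 1) (e6_ne h u)))⟩
  have c1 := e6_cK h
  have c2 := e6_cw h
  have c3 := e6_cc h
  have c4 := e6_cq h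
  have c5 : ∀ u, (1 - curv f (α u) * ⟪g u - f (α u), nor f (α u)⟫_ℝ) ^ 2 ≠ 0 := fun u =>
    pow_ne_zero 2 (e6_ne h u)
  refine cdk.sub ((((cdK.mul c3).add (c1.mul cdc)).mul c4).add ((c1.mul c3).mul ?_))
  exact (((cdK.mul c2).add (c1.mul cdw)).neg.neg).div
    ((continuous_const.sub (c1.mul c2)).pow 2) c5

end slice

theorem Slice.ok {g f : ℝ → ℂ} {α : ℝ → ℝ} (h : Slice g f α) : (mkSD g f α).Ok := by
  obtain ⟨P, cP, hP⟩ := e6_dp h
  have pk := e6_per_curv h.perg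
  have pk1 := e6_per_dsR h.perg pk
  have pK := e6_per_curv h.perf
  have pK1 := e6_per_dsR h.perf pK
  have smk := e6_sm_curv h.smg h.immg
  have smk1 := e6_sm_dsR h.smg h.immg smk
  have smk2 := e6_sm_dsR h.smg h.immg smk1
  have smK := e6_sm_curv h.smf h.immf
  have smK1 := e6_sm_dsR h.smf h.immf smK
  have smK2 := e6_sm_dsR h.smf h.immf smK1
  have hz : ∀ u, g (u + 1) - f (α (u + 1)) = g u - f (α u) := fun u => by
    rw [h.perg, h.per, h.perf]
  refine ⟨?_, ?_, ?_, ?_, ?_, ?_, ?_, ?_, ?_, ?_, ?_, ?_, ?_, ?_, ?_, ?_, ?_, ?_, ?_, ?_, ?_, ?_, ?_,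
    ?_, ?_⟩
  · exact e6_per_speed h.perg
  · intro u
    show ⟪g (u + 1) - f (α (u + 1)), nor f (α (u + 1))⟫_ℝ = ⟪g u - f (α u), nor f (α u)⟫_ℝ
    rw [hz, h.per, e6_per_nor h.perf]
  · intro u
    show ⟪tang g (u + 1), nor f (α (u + 1))⟫_ℝ = ⟪tang g u, nor f (α u)⟫_ℝ
    rw [e6_per_tang h.perg, h.per, e6_per_nor h.perf]
  · intro u
    show ⟪tang g (u + 1), tang f (α (u + 1))⟫_ℝ = ⟪tang g u, tang f (α u)⟫_ℝ
    rw [e6_per_tang h.perg, h.per, e6_per_tang h.perf]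
  · exact pk
  · exact pk1
  · intro u
    show curv f (α (u + 1)) = curv f (α u)
    rw [h.per, pK]
  · intro u
    show dsR f (curv f) (α (u + 1)) = dsR f (curv f) (α u)
    rw [h.per, pK1]
  · exact (e6_sm_speed h.smg h.immg).continuous
  · exact smk2.continuous
  · exact e6_cF h smK2.continuous
  · show Continuous (dsR g fun u => curv g u - curv f (α u) * ⟪tang g u, tang f (α u)⟫_ℝ *
      (1 - curv f (α u) * ⟪g u - f (α u), nor f (α u)⟫_ℝ)⁻¹)
    have e : (dsR g fun u => curv g u - curv f (α u) * ⟪tang g u, tang f (α u)⟫_ℝ *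
        (1 - curv f (α u) * ⟪g u - f (α u), nor f (α u)⟫_ℝ)⁻¹) = fun u => P u / speed g u := by
      funext u
      unfold dsR
      rw [(hP u).deriv]
    rw [e]
    exact cP.div (e6_sm_speed h.smg h.immg).continuous fun u => (speed_pos (h.immg u)).ne'
  · exact fun u => speed_pos (h.immg u)
  · exact h.cpos
  · intro u
    exact e6_pars (norm_tang (h.immg u)) (norm_tang (h.immf (α u)))
  · intro u
    exact inv_mul_cancel₀ (e6_ne h u)
  · intro u
    rfl
  · exact e6_dw h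
  · exact e6_ds h
  · exact e6_dcc h
  · exact e6_dR h.smg h.immg smk
  · exact e6_dR h.smg h.immg smk1
  · intro u
    show HasDerivAt (fun u => curv g u - curv f (α u) * ⟪tang g u, tang f (α u)⟫_ℝ *
      (1 - curv f (α u) * ⟪g u - f (α u), nor f (α u)⟫_ℝ)⁻¹) (speed g u * dsR g (fun u => curv g u -
      curv f (α u) * ⟪tang g u, tang f (α u)⟫_ℝ *
      (1 - curv f (α u) * ⟪g u - f (α u), nor f (α u)⟫_ℝ)⁻¹) u) u
    have e : speed g u * dsR g (fun u => curv g u -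
        curv f (α u) * ⟪tang g u, tang f (α u)⟫_ℝ *
        (1 - curv f (α u) * ⟪g u - f (α u), nor f (α u)⟫_ℝ)⁻¹) u = P u := by
      unfold dsR
      rw [(hP u).deriv]
      field_simp [(speed_pos (h.immg u)).ne']
    rw [e]
    exact hP u
  · exact fun u => e6_dG h smK u
  · exact fun u => e6_dG h smK1 u

/-- a function on the explicit curve -/
theorem Slice.lift {g f : ℝ → ℂ} {α : ℝ → ℝ} (h : Slice g f α) {F F' : ℝ → ℝ}
    (hF : ∀ θ, HasDerivAt F (F' θ) θ) (hF' : Continuous F') (hper : ∀ θ, F (θ + 2 * π) = F θ) :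
    (mkSD g f α).Lift (fun u => F (α u)) (fun u => F' (α u) / speed f (α u)) where
  per u := by
    show F (α (u + 1)) = F (α u)
    rw [h.per, hper]
  cont := (e6_cF h hF').div (e6_cF h (e6_sm_speed h.smf h.immf).continuous)
    fun u => (speed_pos (h.immf (α u))).ne'
  der u := e6_dF h hF u

/-- change of variables -/
theorem Slice.cov {g f : ℝ → ℂ} {α : ℝ → ℝ} (h : Slice g f α) {F : ℝ → ℝ} (hF : Continuous F)
    (hper : ∀ θ, F (θ + 2 * π) = F θ) :
    ((mkSD g f α).I fun u => F (α u) * ((mkSD g f α).c u * (mkSD g f α).q u)) =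
      ∫ θ in (0 : ℝ)..(2 * π), F θ * speed f θ := by
  have csf := (e6_sm_speed h.smf h.immf).continuous
  have hg : Continuous fun θ => F θ * speed f θ := hF.mul csf
  obtain ⟨D, hD, cD, eD⟩ : ∃ D : ℝ → ℝ, (∀ u, HasDerivAt α (D u) u) ∧ Continuous D ∧
      ∀ u, speed f (α u) * D u = (mkSD g f α).v u * ((mkSD g f α).c u * (mkSD g f α).q u) := by
    refine ⟨_, h.der, ?_, fun u => ?_⟩
    · exact ((e6_sm_speed h.smg h.immg).continuous.mul ((e6_cc h).mul (e6_cq h))).div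
        (e6_cF h csf) fun u => (speed_pos (h.immf (α u))).ne'
    · exact mul_div_cancel₀ _ (speed_pos (h.immf (α u))).ne'
  have h1 := intervalIntegral.integral_comp_mul_deriv (a := 0) (b := 1) (f := α) (f' := D)
    (g := fun θ => F θ * speed f θ) (fun u _ => hD u) cD.continuousOn hg
  have h2 : ((mkSD g f α).I fun u => F (α u) * ((mkSD g f α).c u * (mkSD g f α).q u)) =
      ∫ u in (0 : ℝ)..1, ((fun θ => F θ * speed f θ) ∘ α) u * D u := by
    unfold SD.I
    refine intervalIntegral.integral_congr fun u _ => ?_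
    show F (α u) * ((mkSD g f α).c u * (mkSD g f α).q u) * (mkSD g f α).v u =
      F (α u) * speed f (α u) * D u
    rw [mul_assoc (F (α u)), mul_assoc (F (α u)), eD]
    ring
  rw [h2, h1]
  have h3 : α 1 = α 0 + 2 * π := by
    have := h.per 0
    rwa [zero_add] at this
  rw [h3]
  have hp : Function.Periodic (fun θ => F θ * speed f θ) (2 * π) := by
    intro θ
    show F (θ + 2 * π) * speed f (θ + 2 * π) = F θ * speed f θ
    rw [hper, e6_per_speed h.perf]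
  have h4 := hp.intervalIntegral_add_eq (α 0) 0
  rw [zero_add] at h4
  exact h4

end Pool.Agent.EM
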