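import Pool.Agent.EM.Defs2

/-!
# EM-06, part A: the one-parameter implicit function lemma and the Frenet formulas of a smooth curve

`implicit_deriv` and the auxiliary facts (smoothness, periodicity and derivatives of `speed`, `tang`, `nor`,
`curv`, `dsR` of a smooth immersed curve; inner products of the frame) used in `EM06.lean`.
-/

set_option autoImplicit false

open scoped Real ContDiff InnerProductSpace
open MeasureTheory
namespace Pool.Agent.EM
open Pool.Agent.helper19.EL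

/-- **One-parameter implicit function**: if `Φ (α u, u) = 0` near `u0`, `α` is continuous at `u0` and `Φ` has a
total derivative at `(α u0, u0)` with `∂_θ Φ ≠ 0`, then `α` is differentiable at `u0`. -/
theorem implicit_deriv {Φ : ℝ × ℝ → ℝ} {α : ℝ → ℝ} {u0 a b : ℝ} {L : ℝ × ℝ →L[ℝ] ℝ}
    (h : HasFDerivAt Φ L (α u0, u0)) (ha : L (1, 0) = a) (hb : L (0, 1) = b) (hne : a ≠ 0)
    (hα : ContinuousAt α u0) (h0 : ∀ᶠ u in nhds u0, Φ (α u, u) = 0) :
    HasDerivAt α (-b / a) u0 := by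
  have hL : ∀ x y : ℝ, L (x, y) = x * a + y * b := by
    intro x y
    have e : ((x, y) : ℝ × ℝ) = x • ((1, 0) : ℝ × ℝ) + y • ((0, 1) : ℝ × ℝ) := by
      ext <;> simp
    rw [e, map_add, map_smul, map_smul, ha, hb]
    rfl
  have h1 := hasFDerivAt_iff_isLittleO.1 h
  have ht : Filter.Tendsto (fun u => ((α u, u) : ℝ × ℝ)) (nhds u0) (nhds (α u0, u0)) :=
    (hα.prodMk continuousAt_id)
  have h2 := h1.comp_tendsto ht
  have h3 : (fun u => (α u - α u0) * a + (u - u0) * b) =o[nhds u0]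
      (fun u => ((α u - α u0, u - u0) : ℝ × ℝ)) := by
    have h4 : (fun u => -((α u - α u0) * a + (u - u0) * b)) =o[nhds u0]
        (fun u => ((α u - α u0, u - u0) : ℝ × ℝ)) := by
      refine h2.congr' ?_ ?_
      · filter_upwards [h0] with u hu
        show Φ (α u, u) - Φ (α u0, u0) - L ((α u, u) - (α u0, u0)) = _
        rw [hu, h0.self_of_nhds, Prod.mk_sub_mk, hL]
        ring
      · exact Filter.Eventually.of_forall fun u => rfl
    have h5 := h4.neg_left
    simpa using h5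
  have hbig : (fun u => α u - α u0) =O[nhds u0] fun u => u - u0 := by
    have hpos : 0 < |a| / 2 := by positivity
    have h6 := h3.def hpos
    refine Asymptotics.IsBigO.of_bound ((|b| + |a| / 2) / (|a| / 2)) ?_
    filter_upwards [h6] with u hu
    have h7 : ‖((α u - α u0, u - u0) : ℝ × ℝ)‖ ≤ |α u - α u0| + |u - u0| := by
      rw [Prod.norm_def]
      exact max_le_add_of_nonneg (abs_nonneg _) (abs_nonneg _)
    have h8 : |(α u - α u0) * a| ≤ |(α u - α u0) * a + (u - u0) * b| + |(u - u0) * b| := by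
      have := abs_sub ((α u - α u0) * a + (u - u0) * b) ((u - u0) * b)
      simpa using this
    rw [Real.norm_eq_abs] at hu
    rw [abs_mul, abs_mul (u - u0)] at h8
    have h9 : |a| / 2 * ‖((α u - α u0, u - u0) : ℝ × ℝ)‖ ≤
        |a| / 2 * (|α u - α u0| + |u - u0|) := mul_le_mul_of_nonneg_left h7 hpos.le
    rw [Real.norm_eq_abs, Real.norm_eq_abs, div_mul_eq_mul_div, le_div_iff₀ hpos]
    nlinarith
  have hO : (fun u => ((α u - α u0, u - u0) : ℝ × ℝ)) =O[nhds u0] fun u => u - u0 :=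
    hbig.prod_left (Asymptotics.isBigO_refl _ _)
  have h10 := h3.trans_isBigO hO
  rw [hasDerivAt_iff_isLittleO]
  have h11 := h10.const_mul_left a⁻¹
  refine h11.congr_left fun u => ?_
  rw [smul_eq_mul]
  field_simp
  ring

section aux

variable {c : ℝ → ℂ}

theorem e6_smd (h : ContDiff ℝ ∞ c) : ContDiff ℝ ∞ (deriv c) :=
  (contDiff_infty_iff_deriv.1 h).2

theorem e6_smdR {F : ℝ → ℝ} (h : ContDiff ℝ ∞ F) : ContDiff ℝ ∞ (deriv F) :=
  (contDiff_infty_iff_deriv.1 h).2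

theorem e6_sm_speed (h : ContDiff ℝ ∞ c) (hi : ∀ u, deriv c u ≠ 0) :
    ContDiff ℝ ∞ (speed c) := (e6_smd h).norm ℝ hi

theorem e6_sm_div (h : ContDiff ℝ ∞ c) (hi : ∀ u, deriv c u ≠ 0) {F : ℝ → ℂ}
    (hF : ContDiff ℝ ∞ F) : ContDiff ℝ ∞ fun u => F u / (speed c u : ℂ) := by
  have h1 : ContDiff ℝ ∞ fun u => (speed c u)⁻¹ • F u :=
    ((e6_sm_speed h hi).inv fun u => (speed_pos (hi u)).ne').smul hF
  have h2 : (fun u => F u / (speed c u : ℂ)) = fun u => (speed c u)⁻¹ • F u := by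
    funext u
    rw [Complex.real_smul, Complex.ofReal_inv, div_eq_inv_mul]
  rw [h2]
  exact h1

theorem e6_sm_tang (h : ContDiff ℝ ∞ c) (hi : ∀ u, deriv c u ≠ 0) :
    ContDiff ℝ ∞ (tang c) := e6_sm_div h hi (e6_smd h)

theorem e6_sm_nor (h : ContDiff ℝ ∞ c) (hi : ∀ u, deriv c u ≠ 0) :
    ContDiff ℝ ∞ (nor c) := contDiff_const.mul (e6_sm_tang h hi)

theorem e6_sm_curv (h : ContDiff ℝ ∞ c) (hi : ∀ u, deriv c u ≠ 0) :
    ContDiff ℝ ∞ (curv c) := by
  have h2 : ContDiff ℝ ∞ (dsC c (tang c)) := e6_sm_div h hi (e6_smd (e6_sm_tang h hi))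
  exact h2.inner ℝ (e6_sm_nor h hi)

theorem e6_sm_dsR (h : ContDiff ℝ ∞ c) (hi : ∀ u, deriv c u ≠ 0) {F : ℝ → ℝ}
    (hF : ContDiff ℝ ∞ F) : ContDiff ℝ ∞ (dsR c F) :=
  (e6_smdR hF).div (e6_sm_speed h hi) fun u => (speed_pos (hi u)).ne'

theorem e6_dc (h : ContDiff ℝ ∞ c) (hi : ∀ u, deriv c u ≠ 0) (u : ℝ) :
    HasDerivAt c ((speed c u : ℂ) * tang c u) u := by
  rw [← deriv_c (hi u)]
  exact (h.differentiable (by simp) u).hasDerivAt

theorem e6_dT (h : ContDiff ℝ ∞ c) (hi : ∀ u, deriv c u ≠ 0) (u : ℝ) :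
    HasDerivAt (tang c) (((curv c u * speed c u : ℝ) : ℂ) * nor c u) u := by
  have hd := (e6_sm_tang h hi).differentiable (by simp) u
  rw [← deriv_tang (Filter.Eventually.of_forall hi) hd]
  exact hd.hasDerivAt

theorem e6_dN (h : ContDiff ℝ ∞ c) (hi : ∀ u, deriv c u ≠ 0) (u : ℝ) :
    HasDerivAt (nor c) (((-(curv c u * speed c u) : ℝ) : ℂ) * tang c u) u := by
  have h1 := (e6_dT h hi u).const_mul Complex.I
  refine h1.congr_deriv ?_
  unfold nor
  push_cast
  linear_combination ((curv c u : ℂ) * speed c u * tang c u) * Complex.I_sq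

theorem e6_dR (_h : ContDiff ℝ ∞ c) (hi : ∀ u, deriv c u ≠ 0) {F : ℝ → ℝ}
    (hF : ContDiff ℝ ∞ F) (u : ℝ) : HasDerivAt F (speed c u * dsR c F u) u := by
  have h1 : speed c u * dsR c F u = deriv F u := by
    unfold dsR
    field_simp [(speed_pos (hi u)).ne']
  rw [h1]
  exact (hF.differentiable (by simp) u).hasDerivAt

theorem e6_perd {E : Type} [NormedAddCommGroup E] [NormedSpace ℝ E] {c : ℝ → E} {P : ℝ}
    (h : ∀ u, c (u + P) = c u) (u : ℝ) : deriv c (u + P) = deriv c u := by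
  have h1 : (fun x => c (x + P)) = c := funext h
  rw [← deriv_comp_add_const, h1]

theorem e6_per_speed {P : ℝ} (h : ∀ u, c (u + P) = c u) (u : ℝ) :
    speed c (u + P) = speed c u := by
  unfold speed
  rw [e6_perd h]

theorem e6_per_tang {P : ℝ} (h : ∀ u, c (u + P) = c u) (u : ℝ) :
    tang c (u + P) = tang c u := by
  unfold tang dsC
  rw [e6_perd h, e6_per_speed h]

theorem e6_per_nor {P : ℝ} (h : ∀ u, c (u + P) = c u) (u : ℝ) :
    nor c (u + P) = nor c u := by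
  unfold nor
  rw [e6_per_tang h]

theorem e6_per_curv {P : ℝ} (h : ∀ u, c (u + P) = c u) (u : ℝ) :
    curv c (u + P) = curv c u := by
  unfold curv dsC
  rw [e6_perd (e6_per_tang h), e6_per_speed h, e6_per_nor h]

theorem e6_per_dsR {P : ℝ} (h : ∀ u, c (u + P) = c u) {F : ℝ → ℝ}
    (hF : ∀ u, F (u + P) = F u) (u : ℝ) : dsR c F (u + P) = dsR c F u := by
  unfold dsR
  rw [e6_perd hF, e6_per_speed h]

/-- inner products of real multiples -/
theorem e6_inn_l (r : ℝ) (z w : ℂ) : ⟪(r : ℂ) * z, w⟫_ℝ = r * ⟪z, w⟫_ℝ := by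
  rw [← Complex.real_smul, real_inner_smul_left]

theorem e6_inn_r (r : ℝ) (z w : ℂ) : ⟪z, (r : ℂ) * w⟫_ℝ = r * ⟪z, w⟫_ℝ := by
  rw [← Complex.real_smul, real_inner_smul_right]

theorem e6_TT (hi : ∀ u, deriv c u ≠ 0) (u : ℝ) : ⟪tang c u, tang c u⟫_ℝ = 1 := by
  rw [real_inner_self_eq_norm_sq, norm_tang (hi u), one_pow]

theorem e6_TN (c : ℝ → ℂ) (u : ℝ) : ⟪tang c u, nor c u⟫_ℝ = 0 := by
  unfold nor
  rw [Complex.inner]
  simp only [Complex.mul_re, Complex.mul_im, Complex.conj_re, Complex.conj_im, Complex.I_re,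
    Complex.I_im]
  ring

theorem e6_NN (z w : ℂ) : ⟪Complex.I * z, Complex.I * w⟫_ℝ = ⟪z, w⟫_ℝ := by
  rw [Complex.inner, Complex.inner]
  simp only [Complex.mul_re, Complex.mul_im, Complex.conj_re, Complex.conj_im, Complex.I_re,
    Complex.I_im]
  ring

theorem e6_NT (z w : ℂ) : ⟪Complex.I * z, w⟫_ℝ = -⟪z, Complex.I * w⟫_ℝ := by
  rw [Complex.inner, Complex.inner]
  simp only [Complex.mul_re, Complex.mul_im, Complex.conj_re, Complex.conj_im, Complex.I_re,
    Complex.I_im]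
  ring

theorem e6_pars {z w : ℂ} (hz : ‖z‖ = 1) (hw : ‖w‖ = 1) :
    ⟪z, w⟫_ℝ ^ 2 + ⟪z, Complex.I * w⟫_ℝ ^ 2 = 1 := by
  have h1 : Complex.normSq z = 1 := by rw [Complex.normSq_eq_norm_sq, hz, one_pow]
  have h2 : Complex.normSq w = 1 := by rw [Complex.normSq_eq_norm_sq, hw, one_pow]
  rw [Complex.normSq_apply] at h1 h2
  rw [Complex.inner, Complex.inner]
  simp only [Complex.mul_re, Complex.mul_im, Complex.conj_re, Complex.conj_im, Complex.I_re,
    Complex.I_im]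
  linear_combination (w.re * w.re + w.im * w.im) * h1 + h2

end aux

end Pool.Agent.EM
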