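import Pool.Agent.EM.EM06
import Pool.Agent.helper19.EM.Resc
import Pool.Agent.helper19.EM.LiftT

/-!
# EM-07: the time derivative of the distance

The explicit family is rescaled to the period `1` (`resc`), so that the smoothness facts of
`Pool/Agent/helper19/EM/Ref.lean` apply.
-/

set_option autoImplicit false

open scoped Real ContDiff InnerProductSpace
open MeasureTheory
namespace Pool.Agent.EM
open Pool.Agent.helper19.EL Pool.Agent.helper19.EM

theorem em7_inner (z w : ℂ) : ⟪z, w⟫_ℝ = (z * (starRingEnd ℂ) w).re := by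
  rw [Complex.inner]
  simp only [Complex.mul_re, Complex.conj_re, Complex.conj_im]
  ring

theorem em7_innerI (z w : ℂ) : ⟪z, Complex.I * w⟫_ℝ = (z * (starRingEnd ℂ) w).im := by
  rw [Complex.inner]
  simp only [Complex.mul_re, Complex.conj_re, Complex.conj_im, Complex.mul_im, Complex.I_re,
    Complex.I_im]
  ring

theorem em7_x (θ : ℝ) : 2 * π * (θ / (2 * π)) = θ := by field_simp

variable {γ e : ℝ → ℝ → ℂ} {α : ℝ → ℝ → ℝ} {T a b W S K0 : ℝ}

theorem Cmp.slice (h : Cmp γ e α T a b W S K0) {t : ℝ} (ht : t ∈ Set.Icc a b) :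
    Slice (sl γ t) (sl e t) (fun u => α u t) := by
  have ht0 : t ∈ Set.Ico 0 T := ⟨h.ha.trans ht.1, ht.2.trans_lt h.hbT⟩
  refine ⟨?_, fun u => h.flow.closed t ht0 u, fun u => h.flow.immersed t ht0 u, ?_,
    fun θ => h.fam.per θ t, fun θ => h.fam.imm t ht θ, ?_, fun u => h.lab.per t ht u,
    fun u => h.lab.foot t ht u, fun u => ?_, fun u => h.lab.c_pos t ht u⟩
  · have h1 : ContDiff ℝ ∞ fun u : ℝ => ((u, t) : ℝ × ℝ) := contDiff_id.prodMk contDiff_const
    exact h.flow.smooth.comp_contDiff h1 fun u => ⟨Set.mem_univ _, ht0⟩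
  · have h1 : ContDiff ℝ ∞ fun u : ℝ => ((u, t) : ℝ × ℝ) := contDiff_id.prodMk contDiff_const
    exact h.fam.smooth.comp h1
  · have h1 : Continuous fun u : ℝ => ((u, t) : ℝ × ℝ) := continuous_id.prodMk continuous_const
    exact h.lab.cont.comp_continuous h1 fun u => ⟨Set.mem_univ _, ht⟩
  · rw [abs_mul]
    exact (mul_le_mul (h.hK0 t ht _) (h.lab.w_le t ht u) (abs_nonneg _) h.K0pos.le).trans h.KW

theorem Cmp.ref (h : Cmp γ e α T a b W S K0) : Ref (resc e) a b :=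
  ref_resc h.fam.smooth h.fam.per h.fam.imm

theorem Cmp.sub (h : Cmp γ e α T a b W S K0) : Set.Icc a b ⊆ Set.Ico 0 T :=
  fun _ ht => ⟨h.ha.trans ht.1, ht.2.trans_lt h.hbT⟩

/-- functions of the foot point are continuous -/
theorem Cmp.cont_foot {E : Type} [NormedAddCommGroup E] [NormedSpace ℝ E] {f : ℝ → ℝ → E}
    (h : Cmp γ e α T a b W S K0) (hf : ∀ t ∈ Set.Icc a b, ∀ y, SA f y t) :
    ContinuousOn (fun p : ℝ × ℝ => f (α p.1 p.2 / (2 * π)) p.2) (Set.univ ×ˢ Set.Icc a b) := by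
  intro p hp
  have h1 : ContinuousWithinAt (fun p : ℝ × ℝ => ((α p.1 p.2 / (2 * π), p.2) : ℝ × ℝ))
      (Set.univ ×ˢ Set.Icc a b) p :=
    ((h.lab.cont p hp).div_const _).prodMk continuous_snd.continuousWithinAt
  exact (hf p.2 hp.2 _).continuousAt.comp_continuousWithinAt
    (f := fun p : ℝ × ℝ => ((α p.1 p.2 / (2 * π), p.2) : ℝ × ℝ)) h1

/-! the slice data in terms of the rescaled family -/

theorem sd_w (u t : ℝ) : (sd γ e α t).w u = ((γ u t - resc e (α u t / (2 * π)) t) *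
    (starRingEnd ℂ) (fT (resc e) (α u t / (2 * π)) t)).im := by
  rw [← em7_innerI, fT_resc]
  unfold resc
  rw [em7_x]
  rfl

theorem sd_foot (u t : ℝ) : ⟪γ u t - e (α u t) t, tang (sl e t) (α u t)⟫_ℝ =
    ((γ u t - resc e (α u t / (2 * π)) t) *
    (starRingEnd ℂ) (fT (resc e) (α u t / (2 * π)) t)).re := by
  rw [← em7_inner, fT_resc]
  unfold resc
  rw [em7_x]

theorem sd_c (u t : ℝ) : (sd γ e α t).c u = CC γ (resc e) u (α u t / (2 * π)) t := by
  unfold CC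
  rw [← em7_inner, fT_resc, em7_x]
  rfl

theorem sd_K (u t : ℝ) : (sd γ e α t).K u = fk (resc e) (α u t / (2 * π)) t := by
  rw [fk_resc, em7_x]
  rfl

theorem sd_nu (u t : ℝ) : nuE e (α u t) t = rν (resc e) (α u t / (2 * π)) t := by
  rw [rν_resc, em7_x]
  rfl

theorem Cmp.cont_γ (h : Cmp γ e α T a b W S K0) :
    ContinuousOn (fun p : ℝ × ℝ => γ p.1 p.2) (Set.univ ×ˢ Set.Icc a b) :=
  h.flow.smooth.continuousOn.mono (Set.prod_mono subset_rfl h.sub)

theorem Cmp.cont_sm (h : Cmp γ e α T a b W S K0) {E : Type} [NormedAddCommGroup E]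
    [NormedSpace ℝ E] {f : ℝ → ℝ → E} (hf : Sm T f) :
    ContinuousOn (fun p : ℝ × ℝ => f p.1 p.2) (Set.univ ×ˢ Set.Icc a b) :=
  hf.continuousOn.mono (Set.prod_mono subset_rfl h.sub)

theorem Cmp.cont_w (h : Cmp γ e α T a b W S K0) :
    ContinuousOn (fun p : ℝ × ℝ => (sd γ e α p.2).w p.1) (Set.univ ×ˢ Set.Icc a b) := by
  have h1 := (h.cont_γ.sub (h.cont_foot fun t _ y => h.ref.sa y t)).mul
    (Complex.continuous_conj.comp_continuousOn (h.cont_foot fun _ ht y => h.ref.sa_T ht y))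
  exact (Complex.continuous_im.comp_continuousOn h1).congr fun p _ => sd_w p.1 p.2

theorem Cmp.cont_c (h : Cmp γ e α T a b W S K0) :
    ContinuousOn (fun p : ℝ × ℝ => (sd γ e α p.2).c p.1) (Set.univ ×ˢ Set.Icc a b) := by
  have h1 := (h.cont_sm h.flow.sm_T).mul
    (Complex.continuous_conj.comp_continuousOn (h.cont_foot fun _ ht y => h.ref.sa_T ht y))
  exact (Complex.continuous_re.comp_continuousOn h1).congr fun p _ => sd_c p.1 p.2

theorem Cmp.cont_K (h : Cmp γ e α T a b W S K0) :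
    ContinuousOn (fun p : ℝ × ℝ => (sd γ e α p.2).K p.1) (Set.univ ×ˢ Set.Icc a b) :=
  (h.cont_foot fun _ ht y => h.ref.sa_k ht y).congr fun p _ => sd_K p.1 p.2

theorem Cmp.m_pos (h : Cmp γ e α T a b W S K0) {t : ℝ} (ht : t ∈ Set.Icc a b) (u : ℝ) :
    0 < 1 - (sd γ e α t).K u * (sd γ e α t).w u := by
  have h1 := (abs_le.1 ((h.slice ht).small u)).2
  have h2 : (sd γ e α t).K u * (sd γ e α t).w u =
    curv (sl e t) (α u t) * ⟪sl γ t u - sl e t (α u t), nor (sl e t) (α u t)⟫_ℝ := rfl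
  rw [h2]
  linarith

theorem Cmp.cont_p (h : Cmp γ e α T a b W S K0) :
    ContinuousOn (fun p : ℝ × ℝ => (sd γ e α p.2).p p.1) (Set.univ ×ˢ Set.Icc a b) := by
  have h1 := (h.cont_sm h.flow.sm_k).sub ((h.cont_K.mul h.cont_c).mul
    ((continuousOn_const.sub (h.cont_K.mul h.cont_w)).inv₀
      fun p hp => (h.m_pos hp.2 p.1).ne'))
  exact h1.congr fun p _ => rfl

/-- the label is differentiable in time -/
theorem Cmp.diff_lab (h : Cmp γ e α T a b W S K0) {t : ℝ} (ht : t ∈ Set.Ioo a b) (u : ℝ) :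
    ∃ X' : ℝ, HasDerivAt (fun t' => α u t' / (2 * π)) X' t := by
  have htb : t ∈ Set.Icc a b := ⟨ht.1.le, ht.2.le⟩
  have ht0 : t ∈ Set.Ioo 0 T := ⟨h.ha.trans_lt ht.1, (h.sub htb).2⟩
  have hc := h.ref
  obtain ⟨x0, hx0⟩ : ∃ x0 : ℝ, x0 = α u t / (2 * π) := ⟨_, rfl⟩
  -- the function of the foot condition
  have dγ : HasFDerivAt (fun p : ℝ × ℝ => γ u p.2) _ (x0, t) :=
    HasFDerivAt.comp (g := fun s : ℝ => γ u s) (x0, t)
      (h.flow.sm.hasDerivAt_t ht0 u).hasFDerivAt hasFDerivAt_snd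
  have dc := (hc.sa x0 t).hasFDerivAt
  have dT := (hc.sa_T htb x0).hasFDerivAt
  have dΦ := (dγ.sub dc).inner ℝ dT
  have hd : HasDerivAt (fun t' => α u t' / (2 * π)) _ t :=
    implicit_deriv (Φ := fun p : ℝ × ℝ => ⟪γ u p.2 - resc e p.1 p.2, fT (resc e) p.1 p.2⟫_ℝ)
      (α := fun t' => α u t' / (2 * π)) (u0 := t) (by rw [← hx0]; exact dΦ) rfl rfl ?_ ?_ ?_
  · exact ⟨_, hd⟩
  · have hv := hc.v_pos htb x0
    have e1 : fderiv ℝ (fun p : ℝ × ℝ => resc e p.1 p.2) (x0, t) (1, 0) =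
        (fv (resc e) x0 t : ℂ) * fT (resc e) x0 t := by
      rw [(hc.sa x0 t).fderiv_apply, zero_smul, add_zero, one_smul, hc.pu_c htb]
    have e2 : fderiv ℝ (fun p : ℝ × ℝ => fT (resc e) p.1 p.2) (x0, t) (1, 0) =
        ((fk (resc e) x0 t * fv (resc e) x0 t : ℝ) : ℂ) * (Complex.I * fT (resc e) x0 t) := by
      rw [(hc.sa_T htb x0).fderiv_apply, zero_smul, add_zero, one_smul, hc.pu_T htb]
    have hTT := hc.TT htb x0
    have hm := h.m_pos htb u
    rw [sd_K, sd_w, ← hx0, ← em7_innerI] at hm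
    simp only [ContinuousLinearMap.comp_apply, ContinuousLinearMap.prod_apply,
      fderivInnerCLM_apply, ContinuousLinearMap.sub_apply, e1, e2]
    rw [show (ContinuousLinearMap.snd ℝ ℝ ℝ) ((1, 0) : ℝ × ℝ) = 0 from rfl, map_zero, zero_sub,
      inner_neg_left, e6_inn_l, e6_inn_r, real_inner_self_eq_norm_sq, norm_one_of hTT]
    show fk (resc e) x0 t * fv (resc e) x0 t *
      ⟪γ u t - resc e x0 t, Complex.I * fT (resc e) x0 t⟫_ℝ + -(fv (resc e) x0 t * 1 ^ 2) ≠ 0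
    have h1 : fk (resc e) x0 t * fv (resc e) x0 t *
        ⟪γ u t - resc e x0 t, Complex.I * fT (resc e) x0 t⟫_ℝ + -(fv (resc e) x0 t * 1 ^ 2) =
        -(fv (resc e) x0 t * (1 - fk (resc e) x0 t *
          ⟪γ u t - resc e x0 t, Complex.I * fT (resc e) x0 t⟫_ℝ)) := by ring
    rw [h1]
    exact neg_ne_zero.2 (mul_pos hv hm).ne'
  · have h1 : ContinuousWithinAt (fun t' : ℝ => ((u, t') : ℝ × ℝ)) (Set.Icc a b) t :=
      (continuous_const.prodMk continuous_id).continuousWithinAt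
    have h2 := ((h.lab.cont (u, t) ⟨Set.mem_univ _, htb⟩).comp h1
      fun t' ht' => ⟨Set.mem_univ _, ht'⟩).div_const (2 * π)
    exact h2.continuousAt (Icc_mem_nhds ht.1 ht.2)
  · filter_upwards [Icc_mem_nhds ht.1 ht.2] with t' ht'
    have h1 := h.lab.foot t' ht' u
    rw [sd_foot, ← em7_inner] at h1
    exact h1

/-- EM-07: the time derivative of the distance. -/
theorem Cmp.w_t (h : Cmp γ e α T a b W S K0) {t : ℝ} (ht : t ∈ Set.Ioo a b) (u : ℝ) :
    HasDerivAt (fun t' => (sd γ e α t').w u)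
      (-(fF γ u t) * (sd γ e α t).c u - nuE e (α u t) t) t := by
  have htb : t ∈ Set.Icc a b := ⟨ht.1.le, ht.2.le⟩
  have ht0 : t ∈ Set.Ioo 0 T := ⟨h.ha.trans_lt ht.1, (h.sub htb).2⟩
  have hc := h.ref
  obtain ⟨X', hX'⟩ := h.diff_lab ht u
  have dγ := h.flow.sm.hasDerivAt_t ht0 u
  have dc := ((hc.sa (α u t / (2 * π)) t).path (X := fun t' => α u t' / (2 * π))
    hX'.hasDerivWithinAt (s := Set.univ)).hasDerivAt Filter.univ_mem
  have dT := ((hc.sa_T htb (α u t / (2 * π))).path (X := fun t' => α u t' / (2 * π))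
    hX'.hasDerivWithinAt (s := Set.univ)).hasDerivAt Filter.univ_mem
  have dcT := Complex.conjCLE.toContinuousLinearMap.hasFDerivAt.comp_hasDerivAt t dT
  have dz := (dγ.sub dc).mul dcT
  have dim := Complex.imCLM.hasFDerivAt.comp_hasDerivAt t dz
  have hfun : (fun t' => (sd γ e α t').w u) = fun t' => ((γ u t' - resc e (α u t' / (2 * π)) t') *
      (starRingEnd ℂ) (fT (resc e) (α u t' / (2 * π)) t')).im := funext fun t' => sd_w u t'
  rw [hfun]
  refine HasDerivAt.congr_deriv dim ?_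
  obtain ⟨x0, hx0⟩ : ∃ x0 : ℝ, x0 = α u t / (2 * π) := ⟨_, rfl⟩
  have hTT := hc.TT htb x0
  have hfoot := h.lab.foot t htb u
  rw [sd_foot, ← hx0] at hfoot
  rw [sd_c, sd_nu, ← hx0]
  show ((pt γ u t - (X' • pu (resc e) x0 t + pt (resc e) x0 t)) *
    (starRingEnd ℂ) (fT (resc e) (α u t / (2 * π)) t) +
    (γ u t - resc e (α u t / (2 * π)) t) *
    (starRingEnd ℂ) (X' • pu (fT (resc e)) x0 t + pt (fT (resc e)) x0 t)).im = _
  rw [← hx0]
  have hz := decomp hTT (by rw [em7_inner]; exact hfoot)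
  obtain ⟨w, hw⟩ : ∃ w : ℝ, w = ⟪γ u t - resc e x0 t, Complex.I * fT (resc e) x0 t⟫_ℝ := ⟨_, rfl⟩
  rw [← hw] at hz
  have hpT : pt (fT (resc e)) x0 t = -(rω (resc e) x0 t : ℂ) * (Complex.I * fT (resc e) x0 t) := by
    have h1 := hc.I_pt_T htb x0
    linear_combination (-Complex.I) * h1 + pt (fT (resc e)) x0 t * Complex.I_sq
  rw [hz, h.flow.pt_γ ht0, hc.pu_c htb, hc.pt_c htb, hc.pu_T htb, hpT, Complex.real_smul,
    Complex.real_smul]
  simp only [map_add, map_mul, map_neg, Complex.conj_ofReal, Complex.conj_I]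
  have key : (-(fF γ u t : ℂ) * (Complex.I * fT γ u t) - ((X' : ℂ) * ((fv (resc e) x0 t : ℂ) *
      fT (resc e) x0 t) + ((rμ (resc e) x0 t : ℂ) + rν (resc e) x0 t * Complex.I) *
      fT (resc e) x0 t)) * (starRingEnd ℂ) (fT (resc e) x0 t) +
      (w : ℂ) * (Complex.I * fT (resc e) x0 t) *
      ((X' : ℂ) * (((fk (resc e) x0 t * fv (resc e) x0 t : ℝ) : ℂ) *
        (-Complex.I * (starRingEnd ℂ) (fT (resc e) x0 t))) +
        -(rω (resc e) x0 t : ℂ) * (-Complex.I * (starRingEnd ℂ) (fT (resc e) x0 t))) =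
      -(fF γ u t : ℂ) * (Complex.I * (fT γ u t * (starRingEnd ℂ) (fT (resc e) x0 t))) -
        ((X' * fv (resc e) x0 t + rμ (resc e) x0 t : ℝ) : ℂ) - rν (resc e) x0 t * Complex.I +
        ((w * (X' * (fk (resc e) x0 t * fv (resc e) x0 t) - rω (resc e) x0 t) : ℝ) : ℂ) := by
    push_cast
    linear_combination (-(X' * fv (resc e) x0 t + rμ (resc e) x0 t + rν (resc e) x0 t * Complex.I) -
      w * (X' * (fk (resc e) x0 t * fv (resc e) x0 t) - rω (resc e) x0 t) * Complex.I ^ 2) * hTT -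
      w * (X' * (fk (resc e) x0 t * fv (resc e) x0 t) - rω (resc e) x0 t) * Complex.I_sq
  rw [key]
  simp only [Complex.add_im, Complex.sub_im, Complex.ofReal_im, Complex.mul_im, Complex.I_im,
    Complex.I_re, Complex.neg_re, Complex.neg_im, Complex.ofReal_re]
  unfold CC
  ring

theorem Cmp.cX2 (h : Cmp γ e α T a b W S K0) :
    ContinuousOn (fun t => (sd γ e α t).X2) (Set.Icc a b) :=
  cont_int (f := fun u t => (sd γ e α t).w u ^ 2 * (sd γ e α t).v u) h.hab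
    ((h.cont_w.pow 2).mul (h.cont_sm h.flow.sm_v))

theorem Cmp.cY2 (h : Cmp γ e α T a b W S K0) :
    ContinuousOn (fun t => (sd γ e α t).Y2) (Set.Icc a b) :=
  cont_int (f := fun u t => (sd γ e α t).p u ^ 2 * (sd γ e α t).v u) h.hab
    ((h.cont_p.pow 2).mul (h.cont_sm h.flow.sm_v))

theorem Cmp.X2' (h : Cmp γ e α T a b W S K0) {t : ℝ} (ht : t ∈ Set.Ioo a b) :
    HasDerivAt (fun t' => (sd γ e α t').X2 / 2)
      ((sd γ e α t).I fun u => (sd γ e α t).J u - (sd γ e α t).w u * resE e (α u t) t) t := by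
  have hc := h.ref
  have cv := h.cont_sm h.flow.sm_v
  have cF := h.cont_sm h.flow.sm_F
  have ck := h.cont_sm h.flow.sm_k
  have cν : ContinuousOn (fun p : ℝ × ℝ => nuE e (α p.1 p.2) p.2) (Set.univ ×ˢ Set.Icc a b) :=
    (h.cont_foot fun _ ht y => hc.sa_ν ht y).congr fun p _ => sd_nu p.1 p.2
  have h1 := deriv_int (f := fun u t => (sd γ e α t).w u ^ 2 * fv γ u t)
    (f' := fun u t => (2 * (sd γ e α t).w u * (-(fF γ u t) * (sd γ e α t).c u -
      nuE e (α u t) t) + (sd γ e α t).w u ^ 2 * (fF γ u t * fk γ u t)) * fv γ u t) ht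
    ((h.cont_w.pow 2).mul cv)
    ((((continuousOn_const.mul h.cont_w).mul ((cF.neg.mul h.cont_c).sub cν)).add
      ((h.cont_w.pow 2).mul (cF.mul ck))).mul cv) ?_
  · refine (h1.div_const 2).congr_deriv ?_
    unfold SD.I
    rw [← intervalIntegral.integral_div]
    congr 1
    funext u
    have e1 : fF γ u t = (sd γ e α t).k2 u + (sd γ e α t).k u ^ 3 / 2 := rfl
    have e2 : fk γ u t = (sd γ e α t).k u := rfl
    have e3 : fv γ u t = (sd γ e α t).v u := rfl
    have e4 : resE e (α u t) t = nuE e (α u t) t + (sd γ e α t).K2 u +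
      (sd γ e α t).K u ^ 3 / 2 := rfl
    beta_reduce
    rw [e1, e2, e3, e4]
    unfold SD.J
    ring
  · intro u s hs
    have hs0 : s ∈ Set.Ioo 0 T := ⟨h.ha.trans_lt hs.1, (h.sub ⟨hs.1.le, hs.2.le⟩).2⟩
    have d1 := h.w_t hs u
    have d2 := h.flow.sm_v.hasDerivAt_t hs0 u
    rw [h.flow.pt_v hs0] at d2
    refine ((d1.pow 2).mul d2).congr_deriv ?_
    simp only [Pi.pow_apply]
    ring

end Pool.Agent.EM
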