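import Pool.Agent.EM.EM08a

/-!
# EM-08: extension of a label

PROOF.  Let `v̂, T̂, N̂, κ` be the speed, tangent, normal, curvature of `e · t` (continuous in `(θ,t)` on
`ℝ × [a,b]`, periodic in `θ`, so uniformly continuous there, `v̂ ≥ v0 > 0`, `v̂ ≤ v1`).
Choose `ρ > 0` so small that `K0 (W + v1 ρ) ≤ 1/2`.
(U) For `t` in `[a,b]`, `z : ℂ` and `θ0` with `⟪z - e θ0 t, T̂ θ0⟫ = 0`, `|⟪z - e θ0 t, N̂ θ0⟫| ≤ W`: the function
`h(θ) = ⟪z - e θ t, T̂ θ⟫` has `h' = -v̂ + κ v̂ ⟪z - e θ t, N̂ θ⟫` and `|z - e θ t| ≤ W + v1 ρ` for `|θ - θ0| ≤ ρ`, so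
`h' ≤ -v0/2` there: `h(θ0 - ρ) ≥ v0 ρ/2`, `h(θ0 + ρ) ≤ -v0 ρ/2`.
(E) By uniform continuity (`γ` on `[0,1] × [a,b]` and periodic; `e, T̂`) there is `τ > 0` such that for
`|t' - t| ≤ τ` the function `h'(θ) = ⟪γ u t' - e θ t', T̂(θ,t')⟫` differs from the one at time `t` by less than `v0 ρ/4`,
for all `u` and `θ`, and is strictly decreasing on `[θ0 - ρ, θ0 + ρ]` with derivative `≤ -v0/4` (the same estimate of
the derivative).  So it has exactly one zero there.  For `t1` and `α` as given define, for `t` in `[t1, min (t1+τ) b]`,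
`α' u t` = the zero in `[α u t1 - ρ, α u t1 + ρ]` (and `α' = α` for `t ≤ t1`; at `t1` both agree).
Continuity of `α'` on `ℝ × [t1, ..]`: unique zero in a compact interval of a function which depends continuously on
`(u,t)`, strictly decreasing in `θ`; the bound of the derivative gives `|θ - θ'| ≤ 4/v0 * |difference of the functions|`.
(The interval moves continuously with `u`; near its zero the zero is interior, as the values at the end points are
at least `v0 ρ/4` in absolute value.)  Periodicity: `α' (u+1) t - 2π` is a zero in the interval of `u`.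
Bounds: with a smaller `ρ` (then `τ`) `w` and `s` change by less than `W/2` and `S/2` in passing from `(α u t1, t1)` to
`(α' u t, t)` (uniform continuity of `(θ,u,t) ↦ ⟪γ u t - e θ t, N̂(θ,t)⟫` and `⟪T(u,t), N̂(θ,t)⟫`).
`c > 0`: `c^2 = 1 - s^2 ≥ 9999/10000` at `t1`, so `c ≥ 1/2` there, and `c` changes by less than `1/4`.
All moduli are uniform in `t1` and `α`, hence one `τ` for all.
-/

set_option autoImplicit false

open scoped Real ContDiff InnerProductSpace ComplexConjugate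
open MeasureTheory
namespace Pool.Agent.EM
open Pool.Agent.helper19.EL

/-! ### the functions -/

section

variable {γ e : ℝ → ℝ → ℂ} {T a b : ℝ}

theorem EM08_slice_smooth (he : Fam e a b) (t : ℝ) : ContDiff ℝ ∞ (sl e t) := by
  have h1 : ContDiff ℝ ∞ (fun θ : ℝ => ((θ, t) : ℝ × ℝ)) := by fun_prop
  exact he.smooth.comp h1

theorem EM08_smE (he : Fam e a b) (T : ℝ) : Sm T e := he.smooth.contDiffOn

theorem EM08_pu_per {B : ℝ → ℝ → ℂ} {t c : ℝ} (h : ∀ θ, B (θ + c) t = B θ t) (θ : ℝ) :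
    pu B (θ + c) t = pu B θ t := by
  unfold pu
  rw [← deriv_comp_add_const (fun u' => B u' t) c θ]
  congr 1
  funext x
  exact h x

theorem EM08_tang_per {c : ℝ → ℂ} {p : ℝ} (h : ∀ θ, c (θ + p) = c θ) (θ : ℝ) :
    tang c (θ + p) = tang c θ := by
  have h1 : deriv c (θ + p) = deriv c θ := by
    rw [← deriv_comp_add_const c p θ]
    congr 1
    funext x
    exact h x
  unfold tang dsC speed
  rw [h1]

theorem EM08_pc_p (he : Fam e a b) (ha : 0 ≤ a) (hbT : b < T) :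
    EM08_PC (fun θ _ t => pu e θ t) a b :=
  EM08_PC.of_e ((EM08_smE he T).pu.continuousOn.mono
    (Set.prod_mono_right fun _ ht => ⟨ha.trans ht.1, lt_of_le_of_lt ht.2 hbT⟩))
    (fun t _ θ => EM08_pu_per (fun θ => he.per θ t) θ)

theorem EM08_pc_pp (he : Fam e a b) (ha : 0 ≤ a) (hbT : b < T) :
    EM08_PC (fun θ _ t => pu (pu e) θ t) a b :=
  EM08_PC.of_e ((EM08_smE he T).pu.pu.continuousOn.mono
    (Set.prod_mono_right fun _ ht => ⟨ha.trans ht.1, lt_of_le_of_lt ht.2 hbT⟩))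
    (fun t _ θ => EM08_pu_per (fun θ => EM08_pu_per (fun θ => he.per θ t) θ) θ)

theorem EM08_pc_e (he : Fam e a b) : EM08_PC (fun θ _ t => e θ t) a b :=
  EM08_PC.of_e he.smooth.continuous.continuousOn (fun t _ θ => he.per θ t)

theorem EM08_pc_γ (hγ : IsFlow γ T) (ha : 0 ≤ a) (hbT : b < T) :
    EM08_PC (fun _ u t => γ u t) a b :=
  EM08_PC.of_γ (hγ.sm.continuousOn.mono
    (Set.prod_mono_right fun _ ht => ⟨ha.trans ht.1, lt_of_le_of_lt ht.2 hbT⟩))
    (fun t ht u => hγ.closed t ⟨ha.trans ht.1, lt_of_le_of_lt ht.2 hbT⟩ u)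

theorem EM08_pc_Tγ (hγ : IsFlow γ T) (ha : 0 ≤ a) (hbT : b < T) :
    EM08_PC (fun _ u t => tang (sl γ t) u) a b :=
  EM08_PC.of_γ (hγ.sm_T.continuousOn.mono
    (Set.prod_mono_right fun _ ht => ⟨ha.trans ht.1, lt_of_le_of_lt ht.2 hbT⟩))
    (fun t ht u => EM08_tang_per
      (fun u => hγ.closed t ⟨ha.trans ht.1, lt_of_le_of_lt ht.2 hbT⟩ u) u)

theorem EM08_pc_T (he : Fam e a b) (ha : 0 ≤ a) (hbT : b < T) :
    EM08_PC (fun θ _ t => tang (sl e t) θ) a b := by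
  refine EM08_PC.of_e ?_ (fun t _ θ => EM08_tang_per (fun θ => he.per θ t) θ)
  have h1 : ContinuousOn (fun p : ℝ × ℝ => pu e p.1 p.2) (Set.univ ×ˢ Set.Icc a b) :=
    (EM08_smE he T).pu.continuousOn.mono
      (Set.prod_mono_right fun _ ht => ⟨ha.trans ht.1, lt_of_le_of_lt ht.2 hbT⟩)
  exact h1.div (Complex.continuous_ofReal.comp_continuousOn h1.norm)
    (fun p hp => Complex.ofReal_ne_zero.2 (speed_pos (he.imm p.2 hp.2 p.1)).ne')

theorem EM08_pc_N (he : Fam e a b) (ha : 0 ≤ a) (hbT : b < T) :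
    EM08_PC (fun θ _ t => nor (sl e t) θ) a b := by
  have h := EM08_pc_T he ha hbT
  refine ⟨continuousOn_const.mul h.cont, fun t ht u θ => ?_, fun t ht θ u => ?_⟩
  · exact congrArg (fun z => Complex.I * z) (h.perθ t ht u θ)
  · exact congrArg (fun z => Complex.I * z) (h.peru t ht θ u)

/-- the function whose zeros are the foot points -/
noncomputable def EM08_F (γ e : ℝ → ℝ → ℂ) (θ u t : ℝ) : ℝ := ⟪γ u t - e θ t, pu e θ t⟫_ℝ

/-- its derivative -/
noncomputable def EM08_G (γ e : ℝ → ℝ → ℂ) (θ u t : ℝ) : ℝ :=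
  ⟪γ u t - e θ t, pu (pu e) θ t⟫_ℝ + ⟪-pu e θ t, pu e θ t⟫_ℝ

theorem EM08_hasDeriv (he : Fam e a b) (u t θ : ℝ) :
    HasDerivAt (fun θ => EM08_F γ e θ u t) (EM08_G γ e θ u t) θ := by
  have hs := EM08_slice_smooth he t
  have h1 : HasDerivAt (fun θ => e θ t) (pu e θ t) θ :=
    (hs.differentiable (by simp) θ).hasDerivAt
  have h2 : HasDerivAt (fun θ => pu e θ t) (pu (pu e) θ t) θ :=
    (((contDiff_infty_iff_deriv.1 hs).2).differentiable (by simp) θ).hasDerivAt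
  have h3 : HasDerivAt (fun θ => γ u t - e θ t) (-pu e θ t) θ := h1.const_sub (γ u t)
  exact HasDerivAt.inner ℝ h3 h2

theorem EM08_F_eq (he : Fam e a b) {t : ℝ} (ht : t ∈ Set.Icc a b) (θ u : ℝ) :
    EM08_F γ e θ u t = speed (sl e t) θ * ⟪γ u t - e θ t, tang (sl e t) θ⟫_ℝ :=
  EM08_inner_deriv (he.imm t ht θ) _

theorem EM08_foot (he : Fam e a b) {t : ℝ} (ht : t ∈ Set.Icc a b) (θ u : ℝ) :
    EM08_F γ e θ u t = 0 ↔ ⟪γ u t - e θ t, tang (sl e t) θ⟫_ℝ = 0 := by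
  rw [EM08_F_eq he ht]
  have h1 := (speed_pos (he.imm t ht θ)).ne'
  have h2 : speed (sl e t) θ ≠ 0 := h1
  rw [mul_eq_zero]
  exact ⟨fun h => h.resolve_left h2, Or.inr⟩

/-- the derivative at a foot point -/
theorem EM08_G_le (he : Fam e a b) {t W K0 : ℝ} (ht : t ∈ Set.Icc a b)
    (hK : ∀ θ, |curv (sl e t) θ| ≤ K0) (hKW : K0 * W ≤ 1 / 100) (hW : 0 < W) {θ u : ℝ}
    (h0 : ⟪γ u t - e θ t, tang (sl e t) θ⟫_ℝ = 0)
    (hw : |⟪γ u t - e θ t, nor (sl e t) θ⟫_ℝ| ≤ W / 2) :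
    EM08_G γ e θ u t ≤ -(199 / 200 * ‖pu e θ t‖ ^ 2) := by
  have hne : deriv (sl e t) θ ≠ 0 := he.imm t ht θ
  have h1 := EM08_basis (norm_tang hne) _ h0
  have h2 : ⟪γ u t - e θ t, pu (pu e) θ t⟫_ℝ =
      ⟪γ u t - e θ t, nor (sl e t) θ⟫_ℝ * (curv (sl e t) θ * ‖pu e θ t‖ ^ 2) := by
    have h3 : ⟪nor (sl e t) θ, pu (pu e) θ t⟫_ℝ = curv (sl e t) θ * ‖pu e θ t‖ ^ 2 :=
      EM08_second (EM08_slice_smooth he t) hne
    rw [← h3]
    conv_lhs => rw [h1]
    rw [← Complex.real_smul, real_inner_smul_left]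
    rfl
  have h4 : ⟪-pu e θ t, pu e θ t⟫_ℝ = -‖pu e θ t‖ ^ 2 := by
    rw [inner_neg_left, real_inner_self_eq_norm_sq]
  unfold EM08_G
  rw [h2, h4]
  have h5 : |⟪γ u t - e θ t, nor (sl e t) θ⟫_ℝ * curv (sl e t) θ| ≤ 1 / 200 := by
    rw [abs_mul]
    have h6 := mul_le_mul hw (hK θ) (abs_nonneg _) (by positivity)
    linarith
  have h7 := (abs_le.1 h5).2
  have h8 : 0 ≤ ‖pu e θ t‖ ^ 2 := by positivity
  nlinarith

end

/-- EM-08: a label can be extended by a uniform amount of time. -/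
theorem extend {γ e : ℝ → ℝ → ℂ} {T a b W S K0 : ℝ} (hγ : IsFlow γ T) (he : Fam e a b) (ha : 0 ≤ a)
    (hab : a < b) (hbT : b < T) (hW : 0 < W) (hS : 0 < S) (hS1 : S ≤ 1 / 100) (hK0 : 0 < K0)
    (hK : ∀ t ∈ Set.Icc a b, ∀ θ, |curv (sl e t) θ| ≤ K0) (hKW : K0 * W ≤ 1 / 100) :
    ∃ τ : ℝ, 0 < τ ∧ ∀ t1 ∈ Set.Icc a b, ∀ α : ℝ → ℝ → ℝ, Lab γ e α a t1 (W / 2) (S / 2) →
      ∃ α' : ℝ → ℝ → ℝ, Lab γ e α' a (min (t1 + τ) b) W S ∧
        ∀ t ∈ Set.Icc a t1, ∀ u, α' u t = α u t := by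
  have _ := hK0
  -- the functions
  have pp := EM08_pc_p he ha hbT
  have pT := EM08_pc_T he ha hbT
  have pN := EM08_pc_N he ha hbT
  have pz := (EM08_pc_γ hγ ha hbT).sub (EM08_pc_e he)
  have pTγ := EM08_pc_Tγ hγ ha hbT
  have pF : EM08_PC (EM08_F γ e) a b := pz.inner pp
  have pG : EM08_PC (EM08_G γ e) a b := (pz.inner (EM08_pc_pp he ha hbT)).add (pp.neg.inner pp)
  have pw := pz.inner pN
  have ps := pTγ.inner pN
  have pc := pTγ.inner pT
  -- the lower bound of the speed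
  obtain ⟨v, hv, hvle⟩ := (pp.inner pp).lb hab.le (fun t ht θ u => by
    rw [real_inner_self_eq_norm_sq]
    have h1 : pu e θ t ≠ 0 := he.imm t ht θ
    positivity)
  have hvle' : ∀ t ∈ Set.Icc a b, ∀ θ, v ≤ ‖pu e θ t‖ ^ 2 := by
    intro t ht θ
    have h1 := hvle t ht θ 0
    rwa [real_inner_self_eq_norm_sq] at h1
  -- moduli
  obtain ⟨δ1, hδ1, hu1⟩ := EM08_uc pG (show 0 < v / 4 by positivity)
  obtain ⟨δ2, hδ2, hu2⟩ := EM08_uc pw (show 0 < W / 2 by positivity)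
  obtain ⟨δ3, hδ3, hu3⟩ := EM08_uc ps (show 0 < S / 2 by positivity)
  obtain ⟨δ4, hδ4, hu4⟩ := EM08_uc pc (show (0 : ℝ) < 1 / 4 by norm_num)
  set ρ := min (min δ1 δ2) (min δ3 δ4) with hρdef
  have hρ : 0 < ρ := by positivity
  have hρ1 : ρ ≤ δ1 := (min_le_left _ _).trans (min_le_left _ _)
  have hρ2 : ρ ≤ δ2 := (min_le_left _ _).trans (min_le_right _ _)
  have hρ3 : ρ ≤ δ3 := (min_le_right _ _).trans (min_le_left _ _)
  have hρ4 : ρ ≤ δ4 := (min_le_right _ _).trans (min_le_right _ _)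
  obtain ⟨δ5, hδ5, hu5⟩ := EM08_uc pF (show 0 < v / 2 * ρ by positivity)
  refine ⟨min δ5 ρ, by positivity, fun t1 ht1 α hα => ?_⟩
  set t2 := min (t1 + min δ5 ρ) b with ht2def
  have ht12 : t1 ≤ t2 := le_min (by linarith [(by positivity : 0 < min δ5 ρ)]) ht1.2
  have ht2b : t2 ≤ b := min_le_right _ _
  have hmem : ∀ t ∈ Set.Icc t1 t2, t ∈ Set.Icc a b := fun t ht =>
    ⟨ht1.1.trans ht.1, ht.2.trans ht2b⟩
  have hdist : ∀ t ∈ Set.Icc t1 t2, |t - t1| ≤ δ5 ∧ |t - t1| ≤ ρ := by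
    intro t ht
    have h1 : t ≤ t1 + min δ5 ρ := ht.2.trans (min_le_left _ _)
    rw [abs_of_nonneg (by linarith [ht.1])]
    exact ⟨by linarith [min_le_left δ5 ρ], by linarith [min_le_right δ5 ρ]⟩
  have ht1' : t1 ∈ Set.Icc a t1 := ⟨ht1.1, le_refl _⟩
  -- the label at the time `t1`
  have hf1 := hα.foot t1 ht1'
  have hw1 := hα.w_le t1 ht1'
  have hs1 := hα.s_le t1 ht1'
  have hc1 := hα.c_pos t1 ht1'
  have hcα : Continuous fun u => α u t1 := by
    have h1 : Continuous fun u : ℝ => ((u, t1) : ℝ × ℝ) := by fun_prop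
    exact hα.cont.comp_continuous h1 (fun u => ⟨trivial, ht1'⟩)
  have hF1 : ∀ u, EM08_F γ e (α u t1) u t1 = 0 := fun u =>
    (EM08_foot he ht1 _ u).2 (hf1 u)
  have hG1 : ∀ u, EM08_G γ e (α u t1) u t1 ≤ -(199 / 200 * v) := by
    intro u
    have h1 := EM08_G_le he ht1 (hK t1 ht1) hKW hW (hf1 u) (hw1 u)
    have h2 := hvle' t1 ht1 (α u t1)
    linarith
  obtain ⟨β, hβc, hβ, hβu⟩ := EM08_zero (F := EM08_F γ e) (G := EM08_G γ e) (t1 := t1) (t2 := t2)
    (m := v / 2) (ρ := ρ) (α0 := fun u => α u t1) (by positivity) hρ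
    (pF.cont.mono fun p hp => ⟨trivial, trivial, hmem _ hp.2.2⟩)
    (fun t _ u θ => EM08_hasDeriv he u t θ) hcα
    (fun t ht u θ hθ => by
      have h1 : |θ - α u t1| ≤ ρ := by
        rw [abs_le]
        exact ⟨by linarith [hθ.1], by linarith [hθ.2]⟩
      have h2 := hu1 (α u t1) θ u t1 ht1 t (hmem t ht) (h1.trans hρ1)
        ((hdist t ht).2.trans hρ1)
      have h3 := (abs_lt.1 h2).2
      have h4 := hG1 u
      linarith)
    (fun t ht u => by
      have h2 := hu5 (α u t1) (α u t1) u t1 ht1 t (hmem t ht) (by simp [hδ5.le])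
        (hdist t ht).1
      rw [hF1 u, sub_zero] at h2
      exact h2)
  have hβ1 : ∀ u, β u t1 = α u t1 := fun u =>
    (hβu t1 ⟨le_refl _, ht12⟩ u (α u t1) (by simp [hρ.le]) (hF1 u)).symm
  -- estimates on the new part
  have hnew : ∀ t ∈ Set.Icc t1 t2, ∀ u,
      ⟪γ u t - e (β u t) t, tang (sl e t) (β u t)⟫_ℝ = 0 ∧
      |⟪γ u t - e (β u t) t, nor (sl e t) (β u t)⟫_ℝ| ≤ W ∧
      |⟪tang (sl γ t) u, nor (sl e t) (β u t)⟫_ℝ| ≤ S ∧
      0 < ⟪tang (sl γ t) u, tang (sl e t) (β u t)⟫_ℝ := by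
    intro t ht u
    obtain ⟨h1, h2⟩ := hβ t ht u
    have hd := (hdist t ht).2
    have k2 := hu2 (α u t1) (β u t) u t1 ht1 t (hmem t ht) (h1.trans hρ2) (hd.trans hρ2)
    have k3 := hu3 (α u t1) (β u t) u t1 ht1 t (hmem t ht) (h1.trans hρ3) (hd.trans hρ3)
    have k4 := hu4 (α u t1) (β u t) u t1 ht1 t (hmem t ht) (h1.trans hρ4) (hd.trans hρ4)
    refine ⟨(EM08_foot he (hmem t ht) _ u).1 h2, ?_, ?_, ?_⟩
    · have h3 := abs_lt.1 k2
      have h4 := abs_le.1 (hw1 u)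
      rw [abs_le]
      exact ⟨by linarith [h3.1, h4.1], by linarith [h3.2, h4.2]⟩
    · have h3 := abs_lt.1 k3
      have h4 := abs_le.1 (hs1 u)
      rw [abs_le]
      exact ⟨by linarith [h3.1, h4.1], by linarith [h3.2, h4.2]⟩
    · have h3 := (abs_lt.1 k4).1
      have h5 : ⟪tang (sl γ t1) u, tang (sl e t1) (α u t1)⟫_ℝ ^ 2 +
          ⟪tang (sl γ t1) u, nor (sl e t1) (α u t1)⟫_ℝ ^ 2 = 1 :=
        EM08_parseval (norm_tang (he.imm t1 ht1 _))
          (norm_tang (hγ.ne ⟨ha.trans ht1.1, lt_of_le_of_lt ht1.2 hbT⟩ u))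
      have h6 := hc1 u
      have h7 := abs_le.1 (hs1 u)
      have h8 : 1 / 2 ≤ ⟪tang (sl γ t1) u, tang (sl e t1) (α u t1)⟫_ℝ := by
        by_contra hcon
        push Not at hcon
        have h9 : ⟪tang (sl γ t1) u, nor (sl e t1) (α u t1)⟫_ℝ ^ 2 ≤ (1 / 200) ^ 2 := by
          apply sq_le_sq'
          · linarith [h7.1]
          · linarith [h7.2]
        nlinarith
      linarith
  -- the new label
  have hsub : ∀ t ∈ Set.Icc a t2, ¬ t ≤ t1 → t ∈ Set.Icc t1 t2 := fun t ht h =>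
    ⟨(not_le.1 h).le, ht.2⟩
  refine ⟨fun u t => if t ≤ t1 then α u t else β u t, ⟨?_, ?_, ?_, ?_, ?_, ?_⟩,
    fun t ht u => if_pos ht.2⟩
  · have e1 : (Set.univ : Set ℝ) ×ˢ Set.Icc a t2 =
        Set.univ ×ˢ Set.Icc a t1 ∪ Set.univ ×ˢ Set.Icc t1 t2 := by
      rw [← Set.prod_union, Set.Icc_union_Icc_eq_Icc ht1.1 ht12]
    rw [e1]
    refine ContinuousOn.union_of_isClosed ?_ ?_ (isClosed_univ.prod isClosed_Icc)
      (isClosed_univ.prod isClosed_Icc)
    · exact hα.cont.congr fun p hp => if_pos hp.2.2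
    · refine hβc.congr fun p hp => ?_
      by_cases h : p.2 ≤ t1
      · have h1 : p.2 = t1 := le_antisymm h hp.2.1
        simp only [h, if_true]
        rw [h1]
        exact (hβ1 p.1).symm
      · exact if_neg h
  · intro t ht u
    by_cases h : t ≤ t1
    · simp only [h, if_true]
      exact hα.per t ⟨ht.1, h⟩ u
    · simp only [h, if_false]
      have h1 := hsub t ht h
      have h2 := hβ t h1 u
      have h3 : α (u + 1) t1 = α u t1 + 2 * π := hα.per t1 ht1' u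
      symm
      refine hβu t h1 (u + 1) (β u t + 2 * π) ?_ ?_
      · have h4 : β u t + 2 * π - α (u + 1) t1 = β u t - α u t1 := by rw [h3]; ring
        rw [h4]
        exact h2.1
      · have h5 := pF.perθ t (hmem t h1) (u + 1) (β u t)
        have h6 := pF.peru t (hmem t h1) (β u t) u
        simp only at h5 h6
        rw [h5, h6]
        exact h2.2
  · intro t ht u
    by_cases h : t ≤ t1
    · simp only [h, if_true]
      exact hα.foot t ⟨ht.1, h⟩ u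
    · simp only [h, if_false]
      exact (hnew t (hsub t ht h) u).1
  · intro t ht u
    by_cases h : t ≤ t1
    · simp only [h, if_true]
      exact (hα.w_le t ⟨ht.1, h⟩ u).trans (by linarith)
    · simp only [h, if_false]
      exact (hnew t (hsub t ht h) u).2.1
  · intro t ht u
    by_cases h : t ≤ t1
    · simp only [h, if_true]
      exact (hα.s_le t ⟨ht.1, h⟩ u).trans (by linarith)
    · simp only [h, if_false]
      exact (hnew t (hsub t ht h) u).2.2.1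
  · intro t ht u
    by_cases h : t ≤ t1
    · simp only [h, if_true]
      exact hα.c_pos t ⟨ht.1, h⟩ u
    · simp only [h, if_false]
      exact (hnew t (hsub t ht h) u).2.2.2

end Pool.Agent.EM
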