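import Pool.Agent.EM.Defs2

/-!
# EM-08, first file: zeros of a function with parameters, uniform continuity, frames
-/

set_option autoImplicit false

open scoped Real ContDiff InnerProductSpace ComplexConjugate
open MeasureTheory
namespace Pool.Agent.EM
open Pool.Agent.helper19.EL

/-! ### one real variable -/

theorem EM08_decr {f g : ℝ → ℝ} {x y m : ℝ} (hd : ∀ θ, HasDerivAt f (g θ) θ)
    (hg : ∀ θ ∈ Set.Icc x y, g θ ≤ -m) (hxy : x ≤ y) : f y ≤ f x - m * (y - x) := by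
  have h := (convex_Icc x y).image_sub_le_mul_sub_of_deriv_le (f := f) (C := -m)
    (fun θ _ => (hd θ).continuousAt.continuousWithinAt)
    (fun θ _ => (hd θ).differentiableAt.differentiableWithinAt)
    (fun θ hθ => by
      rw [(hd θ).deriv]
      exact hg θ (interior_subset hθ))
    x (Set.left_mem_Icc.2 hxy) y (Set.right_mem_Icc.2 hxy) hxy
  linarith

theorem EM08_inj {f g : ℝ → ℝ} {lo hi m : ℝ} (hm : 0 < m) (hd : ∀ θ, HasDerivAt f (g θ) θ)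
    (hg : ∀ θ ∈ Set.Icc lo hi, g θ ≤ -m) {x y : ℝ} (hx : x ∈ Set.Icc lo hi)
    (hy : y ∈ Set.Icc lo hi) : m * |x - y| ≤ |f x - f y| := by
  rcases le_total x y with h | h
  · have h1 := EM08_decr hd (fun θ hθ => hg θ ⟨hx.1.trans hθ.1, hθ.2.trans hy.2⟩) h
    rw [abs_of_nonpos (by linarith : x - y ≤ 0)]
    have h2 : 0 ≤ m * (y - x) := mul_nonneg hm.le (by linarith)
    rw [abs_of_nonneg (by linarith : 0 ≤ f x - f y)]
    linarith
  · have h1 := EM08_decr hd (fun θ hθ => hg θ ⟨hy.1.trans hθ.1, hθ.2.trans hx.2⟩) h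
    rw [abs_of_nonneg (by linarith : 0 ≤ x - y)]
    have h2 : 0 ≤ m * (x - y) := mul_nonneg hm.le (by linarith)
    rw [abs_of_nonpos (by linarith : f x - f y ≤ 0)]
    linarith

/-- the zero of a function which depends on parameters -/
theorem EM08_zero {F G : ℝ → ℝ → ℝ → ℝ} {t1 t2 m ρ : ℝ} {α0 : ℝ → ℝ} (hm : 0 < m) (hρ : 0 < ρ)
    (hF : ContinuousOn (fun p : ℝ × ℝ × ℝ => F p.1 p.2.1 p.2.2)
      (Set.univ ×ˢ Set.univ ×ˢ Set.Icc t1 t2))
    (hd : ∀ t ∈ Set.Icc t1 t2, ∀ u θ, HasDerivAt (fun θ => F θ u t) (G θ u t) θ)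
    (hα : Continuous α0)
    (hG : ∀ t ∈ Set.Icc t1 t2, ∀ u, ∀ θ ∈ Set.Icc (α0 u - ρ) (α0 u + ρ), G θ u t ≤ -m)
    (h0 : ∀ t ∈ Set.Icc t1 t2, ∀ u, |F (α0 u) u t| < m * ρ) :
    ∃ β : ℝ → ℝ → ℝ, ContinuousOn (fun p : ℝ × ℝ => β p.1 p.2) (Set.univ ×ˢ Set.Icc t1 t2) ∧
      (∀ t ∈ Set.Icc t1 t2, ∀ u, |β u t - α0 u| ≤ ρ ∧ F (β u t) u t = 0) ∧
      ∀ t ∈ Set.Icc t1 t2, ∀ u, ∀ θ, |θ - α0 u| ≤ ρ → F θ u t = 0 → θ = β u t := by
  have hmem : ∀ u θ, |θ - α0 u| ≤ ρ → θ ∈ Set.Icc (α0 u - ρ) (α0 u + ρ) := by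
    intro u θ h
    rw [abs_le] at h
    exact ⟨by linarith [h.1], by linarith [h.2]⟩
  have hex : ∀ u t, t ∈ Set.Icc t1 t2 → ∃ θ, |θ - α0 u| < ρ ∧ F θ u t = 0 := by
    intro u t ht
    have e1 := EM08_decr (hd t ht u) (x := α0 u) (y := α0 u + ρ) (m := m)
      (fun θ hθ => hG t ht u θ ⟨by linarith [hθ.1], hθ.2⟩) (by linarith)
    have e2 := EM08_decr (hd t ht u) (x := α0 u - ρ) (y := α0 u) (m := m)
      (fun θ hθ => hG t ht u θ ⟨hθ.1, by linarith [hθ.2]⟩) (by linarith)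
    have e3 := abs_lt.1 (h0 t ht u)
    have e4 : m * (α0 u + ρ - α0 u) = m * ρ := by ring
    have e5 : m * (α0 u - (α0 u - ρ)) = m * ρ := by ring
    rw [e4] at e1
    rw [e5] at e2
    have hc : ContinuousOn (fun θ => F θ u t) (Set.Icc (α0 u - ρ) (α0 u + ρ)) :=
      fun θ _ => (hd t ht u θ).continuousAt.continuousWithinAt
    obtain ⟨θ, hθ, hθ0⟩ := intermediate_value_Icc' (by linarith : α0 u - ρ ≤ α0 u + ρ) hc
      (show (0 : ℝ) ∈ Set.Icc (F (α0 u + ρ) u t) (F (α0 u - ρ) u t) from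
        ⟨by linarith [e3.2], by linarith [e3.1]⟩)
    refine ⟨θ, ?_, hθ0⟩
    have hθ0' : F θ u t = 0 := hθ0
    rw [abs_lt]
    constructor
    · rcases lt_or_eq_of_le hθ.1 with h | h
      · linarith
      · exfalso
        rw [← h] at hθ0'
        linarith [e3.1]
    · rcases lt_or_eq_of_le hθ.2 with h | h
      · linarith
      · exfalso
        rw [h] at hθ0'
        linarith [e3.2]
  choose! β hβ using hex
  refine ⟨β, ?_, fun t ht u => ⟨(hβ u t ht).1.le, (hβ u t ht).2⟩, fun t ht u θ hθ hθ0 => ?_⟩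
  · rintro ⟨u, t⟩ hp
    have ht : t ∈ Set.Icc t1 t2 := hp.2
    have hb := hβ u t ht
    have c1 : ContinuousWithinAt (fun p : ℝ × ℝ => F (β u t) p.1 p.2)
        (Set.univ ×ˢ Set.Icc t1 t2) (u, t) := by
      have h1 := hF (β u t, u, t) ⟨trivial, trivial, ht⟩
      have h2 : ContinuousWithinAt (fun p : ℝ × ℝ => ((β u t, p.1, p.2) : ℝ × ℝ × ℝ))
          (Set.univ ×ˢ Set.Icc t1 t2) (u, t) := by
        apply Continuous.continuousWithinAt
        fun_prop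
      exact ContinuousWithinAt.comp (g := fun p : ℝ × ℝ × ℝ => F p.1 p.2.1 p.2.2)
        (f := fun p : ℝ × ℝ => ((β u t, p.1, p.2) : ℝ × ℝ × ℝ)) h1 h2
        (fun p hp => ⟨trivial, trivial, hp.2⟩)
    have c2 : ∀ᶠ p : ℝ × ℝ in nhdsWithin (u, t) (Set.univ ×ˢ Set.Icc t1 t2),
        |β u t - α0 p.1| < ρ := by
      have h1 : ContinuousAt (fun p : ℝ × ℝ => |β u t - α0 p.1|) (u, t) := by fun_prop
      exact (h1.tendsto.eventually_lt_const hb.1).filter_mono nhdsWithin_le_nhds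
    have c3 : Filter.Tendsto (fun p : ℝ × ℝ => |F (β u t) p.1 p.2| / m)
        (nhdsWithin (u, t) (Set.univ ×ˢ Set.Icc t1 t2)) (nhds 0) := by
      have h1 : Filter.Tendsto (fun p : ℝ × ℝ => |F (β u t) p.1 p.2| / m)
          (nhdsWithin (u, t) (Set.univ ×ˢ Set.Icc t1 t2)) (nhds (|F (β u t) u t| / m)) :=
        (Filter.Tendsto.abs c1).div_const m
      rwa [hb.2, abs_zero, zero_div] at h1
    rw [ContinuousWithinAt, tendsto_iff_norm_sub_tendsto_zero]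
    refine squeeze_zero' (Filter.Eventually.of_forall fun _ => norm_nonneg _) ?_ c3
    filter_upwards [c2, self_mem_nhdsWithin] with p hp1 hp2
    have hp3 : p.2 ∈ Set.Icc t1 t2 := hp2.2
    have h1 := EM08_inj hm (hd p.2 hp3 p.1) (hG p.2 hp3 p.1)
      (hmem p.1 (β p.1 p.2) (hβ p.1 p.2 hp3).1.le) (hmem p.1 (β u t) hp1.le)
    have h2 := (hβ p.1 p.2 hp3).2
    simp only [h2, zero_sub, abs_neg] at h1
    rw [Real.norm_eq_abs, le_div_iff₀ hm]
    linarith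
  · have h1 := EM08_inj hm (hd t ht u) (hG t ht u) (hmem u θ hθ) (hmem u _ (hβ u t ht).1.le)
    have h2 := (hβ u t ht).2
    simp only [h2, hθ0, sub_zero, abs_zero] at h1
    have h3 : |θ - β u t| ≤ 0 := by
      by_contra hcon
      have := mul_pos hm (not_le.1 hcon)
      linarith
    have h4 := abs_nonpos_iff.1 h3
    linarith

/-! ### uniform continuity of periodic functions -/

/-- continuous and periodic -/
structure EM08_PC {E : Type} [NormedAddCommGroup E] (f : ℝ → ℝ → ℝ → E) (a b : ℝ) : Prop where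
  cont : ContinuousOn (fun p : ℝ × ℝ × ℝ => f p.1 p.2.1 p.2.2)
    (Set.univ ×ˢ Set.univ ×ˢ Set.Icc a b)
  perθ : ∀ t ∈ Set.Icc a b, ∀ u, Function.Periodic (fun θ => f θ u t) (2 * π)
  peru : ∀ t ∈ Set.Icc a b, ∀ θ, Function.Periodic (fun u => f θ u t) 1

theorem EM08_uc {f : ℝ → ℝ → ℝ → ℝ} {a b : ℝ} (h : EM08_PC f a b) {ε : ℝ} (hε : 0 < ε) :
    ∃ δ : ℝ, 0 < δ ∧ ∀ θ θ' u : ℝ, ∀ t ∈ Set.Icc a b, ∀ t' ∈ Set.Icc a b, |θ' - θ| ≤ δ →
      |t' - t| ≤ δ → |f θ' u t' - f θ u t| < ε := by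
  have hK : IsCompact (Set.Icc (-1 : ℝ) (2 * π + 1) ×ˢ Set.Icc (0 : ℝ) 1 ×ˢ Set.Icc a b) :=
    isCompact_Icc.prod (isCompact_Icc.prod isCompact_Icc)
  have hc := hK.uniformContinuousOn_of_continuous
    (h.cont.mono (fun p hp => ⟨trivial, trivial, hp.2.2⟩))
  rw [Metric.uniformContinuousOn_iff] at hc
  obtain ⟨δ, hδ, hd⟩ := hc ε hε
  refine ⟨min (δ / 2) 1, by positivity, fun θ θ' u t ht t' ht' h1 h2 => ?_⟩
  have hpi := Real.pi_pos
  have e1 : ∀ θ t, t ∈ Set.Icc a b →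
      f (θ - ⌊θ' / (2 * π)⌋ * (2 * π)) (u - ⌊u⌋) t = f θ u t := by
    intro θ t ht
    have h3 := (h.perθ t ht (u - ⌊u⌋)).sub_int_mul_eq (x := θ) ⌊θ' / (2 * π)⌋
    have h4 := (h.peru t ht θ).sub_int_mul_eq (x := u) ⌊u⌋
    simp only [mul_one] at h3 h4
    rw [h3, h4]
  rw [← e1 θ' t' ht', ← e1 θ t ht]
  set y := θ' - ⌊θ' / (2 * π)⌋ * (2 * π) with hy
  have hy0 : 0 ≤ y := by
    have := Int.floor_le (θ' / (2 * π))
    rw [le_div_iff₀ (by positivity)] at this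
    linarith
  have hy1 : y ≤ 2 * π := by
    have := (Int.lt_floor_add_one (θ' / (2 * π))).le
    rw [div_le_iff₀ (by positivity)] at this
    linarith
  have hu0 : 0 ≤ u - ⌊u⌋ := by linarith [Int.floor_le u]
  have hu1 : u - ⌊u⌋ ≤ 1 := by linarith [(Int.lt_floor_add_one u).le]
  have h5 := abs_le.1 (h1.trans (min_le_right _ _))
  have h6 := hd (y, u - ⌊u⌋, t') ⟨⟨by linarith, by linarith⟩, ⟨hu0, hu1⟩, ht'⟩
    (θ - ⌊θ' / (2 * π)⌋ * (2 * π), u - ⌊u⌋, t)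
    ⟨⟨by linarith [h5.1, h5.2], by linarith [h5.1, h5.2]⟩, ⟨hu0, hu1⟩, ht⟩ ?_
  · rw [Real.dist_eq] at h6
    exact h6
  · have h7 := h1.trans (min_le_left _ _)
    have h8 := h2.trans (min_le_left _ _)
    rw [Prod.dist_eq, Prod.dist_eq, Real.dist_eq, Real.dist_eq, Real.dist_eq]
    have h9 : y - (θ - ⌊θ' / (2 * π)⌋ * (2 * π)) = θ' - θ := by rw [hy]; ring
    rw [h9, sub_self, abs_zero]
    refine max_lt (by linarith) (max_lt hδ (by linarith))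


namespace EM08_PC

variable {E : Type} [NormedAddCommGroup E] {a b : ℝ}

theorem of_e {B : ℝ → ℝ → E}
    (hB : ContinuousOn (fun p : ℝ × ℝ => B p.1 p.2) (Set.univ ×ˢ Set.Icc a b))
    (hper : ∀ t ∈ Set.Icc a b, ∀ θ, B (θ + 2 * π) t = B θ t) :
    EM08_PC (fun θ _ t => B θ t) a b where
  cont := hB.comp (f := fun p : ℝ × ℝ × ℝ => ((p.1, p.2.2) : ℝ × ℝ)) (by fun_prop)
    (fun p hp => ⟨trivial, hp.2.2⟩)
  perθ t ht _ θ := hper t ht θ
  peru _ _ _ _ := rfl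

theorem of_γ {A : ℝ → ℝ → E}
    (hA : ContinuousOn (fun p : ℝ × ℝ => A p.1 p.2) (Set.univ ×ˢ Set.Icc a b))
    (hper : ∀ t ∈ Set.Icc a b, ∀ u, A (u + 1) t = A u t) :
    EM08_PC (fun _ u t => A u t) a b where
  cont := hA.comp (f := fun p : ℝ × ℝ × ℝ => ((p.2.1, p.2.2) : ℝ × ℝ)) (by fun_prop)
    (fun p hp => ⟨trivial, hp.2.2⟩)
  perθ _ _ _ _ := rfl
  peru t ht _ u := hper t ht u

theorem sub {f g : ℝ → ℝ → ℝ → E} (hf : EM08_PC f a b) (hg : EM08_PC g a b) :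
    EM08_PC (fun θ u t => f θ u t - g θ u t) a b where
  cont := hf.cont.sub hg.cont
  perθ t ht u := (hf.perθ t ht u).sub (hg.perθ t ht u)
  peru t ht θ := (hf.peru t ht θ).sub (hg.peru t ht θ)

theorem add {f g : ℝ → ℝ → ℝ → E} (hf : EM08_PC f a b) (hg : EM08_PC g a b) :
    EM08_PC (fun θ u t => f θ u t + g θ u t) a b where
  cont := hf.cont.add hg.cont
  perθ t ht u := (hf.perθ t ht u).add (hg.perθ t ht u)
  peru t ht θ := (hf.peru t ht θ).add (hg.peru t ht θ)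

theorem neg {f : ℝ → ℝ → ℝ → E} (hf : EM08_PC f a b) :
    EM08_PC (fun θ u t => -f θ u t) a b where
  cont := hf.cont.neg
  perθ t ht u θ := congrArg Neg.neg (hf.perθ t ht u θ)
  peru t ht θ u := congrArg Neg.neg (hf.peru t ht θ u)

theorem inner {f g : ℝ → ℝ → ℝ → ℂ} (hf : EM08_PC f a b) (hg : EM08_PC g a b) :
    EM08_PC (fun θ u t => ⟪f θ u t, g θ u t⟫_ℝ) a b where
  cont := ContinuousOn.inner (𝕜 := ℝ) hf.cont hg.cont
  perθ t ht u θ := by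
    have h1 := hf.perθ t ht u θ
    have h2 := hg.perθ t ht u θ
    simp only at h1 h2 ⊢
    rw [h1, h2]
  peru t ht θ u := by
    have h1 := hf.peru t ht θ u
    have h2 := hg.peru t ht θ u
    simp only at h1 h2 ⊢
    rw [h1, h2]

/-- a positive function is bounded below by a positive number -/
theorem lb {f : ℝ → ℝ → ℝ → ℝ} (hf : EM08_PC f a b) (hab : a ≤ b)
    (hpos : ∀ t ∈ Set.Icc a b, ∀ θ u, 0 < f θ u t) :
    ∃ v : ℝ, 0 < v ∧ ∀ t ∈ Set.Icc a b, ∀ θ u, v ≤ f θ u t := by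
  have hpi := Real.pi_pos
  have hK : IsCompact (Set.Icc (0 : ℝ) (2 * π) ×ˢ Set.Icc (0 : ℝ) 1 ×ˢ Set.Icc a b) :=
    isCompact_Icc.prod (isCompact_Icc.prod isCompact_Icc)
  obtain ⟨p, hp, hmin⟩ := hK.exists_isMinOn
    ⟨(0, 0, a), ⟨le_refl _, by positivity⟩, ⟨le_refl _, zero_le_one⟩, ⟨le_refl _, hab⟩⟩
    (hf.cont.mono (fun p hp => ⟨trivial, trivial, hp.2.2⟩))
  refine ⟨f p.1 p.2.1 p.2.2, hpos _ hp.2.2 _ _, fun t ht θ u => ?_⟩
  have h3 := (hf.perθ t ht (u - ⌊u⌋)).sub_int_mul_eq (x := θ) ⌊θ / (2 * π)⌋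
  have h4 := (hf.peru t ht θ).sub_int_mul_eq (x := u) ⌊u⌋
  simp only [mul_one] at h3 h4
  rw [← h4, ← h3]
  have hy0 : 0 ≤ θ - ⌊θ / (2 * π)⌋ * (2 * π) := by
    have := Int.floor_le (θ / (2 * π))
    rw [le_div_iff₀ (by positivity)] at this
    linarith
  have hy1 : θ - ⌊θ / (2 * π)⌋ * (2 * π) ≤ 2 * π := by
    have := (Int.lt_floor_add_one (θ / (2 * π))).le
    rw [div_le_iff₀ (by positivity)] at this
    linarith
  have hu0 : 0 ≤ u - ⌊u⌋ := by linarith [Int.floor_le u]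
  have hu1 : u - ⌊u⌋ ≤ 1 := by linarith [(Int.lt_floor_add_one u).le]
  exact hmin (a := (θ - ⌊θ / (2 * π)⌋ * (2 * π), u - ⌊u⌋, t)) ⟨⟨hy0, hy1⟩, ⟨hu0, hu1⟩, ht⟩

end EM08_PC

/-! ### the frame of a curve -/

theorem EM08_inner (z w : ℂ) : ⟪z, w⟫_ℝ = z.re * w.re + z.im * w.im := by
  rw [Complex.inner]
  simp only [Complex.mul_re, Complex.conj_re, Complex.conj_im]
  ring

theorem EM08_unit {τ : ℂ} (h : ‖τ‖ = 1) : τ.re ^ 2 + τ.im ^ 2 = 1 := by
  have h1 := Complex.sq_norm τ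
  rw [h, Complex.normSq_apply] at h1
  linarith

theorem EM08_basis {τ : ℂ} (h : ‖τ‖ = 1) (z : ℂ) (hz : ⟪z, τ⟫_ℝ = 0) :
    z = (⟪z, Complex.I * τ⟫_ℝ : ℂ) * (Complex.I * τ) := by
  have h1 := EM08_unit h
  rw [EM08_inner] at hz
  rw [EM08_inner]
  apply Complex.ext
  · simp
    linear_combination τ.re * hz - z.re * h1
  · simp
    linear_combination τ.im * hz - z.im * h1

theorem EM08_parseval {τ : ℂ} (h : ‖τ‖ = 1) {z : ℂ} (hz : ‖z‖ = 1) :
    ⟪z, τ⟫_ℝ ^ 2 + ⟪z, Complex.I * τ⟫_ℝ ^ 2 = 1 := by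
  have h1 := EM08_unit h
  have h2 := EM08_unit hz
  rw [EM08_inner, EM08_inner]
  simp
  linear_combination (z.re ^ 2 + z.im ^ 2) * h1 + h2

theorem EM08_inner_deriv {c : ℝ → ℂ} {θ : ℝ} (h : deriv c θ ≠ 0) (z : ℂ) :
    ⟪z, deriv c θ⟫_ℝ = speed c θ * ⟪z, tang c θ⟫_ℝ := by
  conv_lhs => rw [deriv_c h]
  rw [← Complex.real_smul, real_inner_smul_right]

/-- the normal component of the second derivative -/
theorem EM08_second {c : ℝ → ℂ} (hc : ContDiff ℝ ∞ c) {θ : ℝ} (h : deriv c θ ≠ 0) :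
    ⟪nor c θ, deriv (deriv c) θ⟫_ℝ = curv c θ * speed c θ ^ 2 := by
  have hv := speed_pos h
  have d1 : Differentiable ℝ (deriv c) :=
    ((contDiff_infty_iff_deriv.1 hc).2).differentiable (by simp)
  have d2 : DifferentiableAt ℝ (fun y => (speed c y)⁻¹) θ :=
    (DifferentiableAt.norm ℝ (d1 θ) h).inv hv.ne'
  have h1 : tang c = fun y => (speed c y)⁻¹ • deriv c y := by
    funext y
    unfold tang dsC
    rw [Complex.real_smul, Complex.ofReal_inv, div_eq_inv_mul]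
  have h2 : deriv (tang c) θ = (speed c θ)⁻¹ • deriv (deriv c) θ +
      deriv (fun y => (speed c y)⁻¹) θ • deriv c θ := by
    rw [h1]
    exact (d2.hasDerivAt.smul (d1 θ).hasDerivAt).deriv
  have h3 : ⟪nor c θ, deriv c θ⟫_ℝ = 0 := by
    rw [EM08_inner_deriv h, EM08_inner]
    unfold nor
    simp
    right
    ring
  have h4 : curv c θ = (speed c θ)⁻¹ * ((speed c θ)⁻¹ * ⟪nor c θ, deriv (deriv c) θ⟫_ℝ) := by
    unfold curv dsC
    rw [div_eq_inv_mul, ← Complex.ofReal_inv, ← Complex.real_smul, real_inner_smul_left,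
      real_inner_comm, h2, inner_add_right, real_inner_smul_right, real_inner_smul_right, h3,
      mul_zero, add_zero]
  rw [h4]
  field_simp

end Pool.Agent.EM
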