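import Mathlib

/-!
# EM-09, EM-10: real analysis

PROOF of `barrier`.  Compare `X2/2` with `N(t)^2/2`, `N = (n0 + R(t-a)) gr(y)`.
`gr' (y) = 1 + y + 3/4 y^2 ≥ gr y` for `0 ≤ y ≤ 1`, so `N' = R gr(y) + (n0 + R(t-a)) gr'(y) y' ≥ R + y' N > R + Lam N`
as `N ≥ n0 > 0` (if `Lam < 0` still fine: `y' > Lam`, `y' ≥ 0`).  Use
`image_le_of_deriv_right_lt_deriv_boundary'` (or the version for `Set.Icc a b`) on `[a', b]`, `a' ↓ a` with
constants slightly enlarged as in `V_le` of `Pool/Agent/helper19/EL/Main.lean` (the derivative is only known on the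
open interval; a cleaner way: apply the theorem on `[a', t]` with `n0 + ε` in place of `n0` for `a'` close to `a`, then let
`ε → 0`).  At a time where `X2 = N^2`: `d ≤ Lam N^2 + R N < N N'`.
PROOF of `dissip`: `X2/2 (t2) - X2/2 (t1) ≤ ∫ (Lb N^2 + R N) - eta/2 ∫ Y2` (e.g. the function
`X2/2 + eta/2 ∫_{t1}^t Y2 - (t - t1)(Lb N^2 + R N)` is antitone on `[t1,t2]`), and `X2 ≥ 0`.
(If `Lam t < 0` use `Lam t * X2 ≤ Lb * N^2` anyway, since `Lam ≤ Lb`, `0 ≤ Lb`, `0 ≤ X2 ≤ N^2`.)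
PROOF of `window`.  Let `t` in `[a,b]`.  First claim `E t ≤ E0 t + e1`.
If `t ≤ a + dl`: `E t ≤ E a ≤ E0 a + e0 ≤ E0 t + Lp (t - a) + e0`.
If `t > a + dl`: `dl * E t ≤ ∫_{t-dl}^t E ≤ ∫ (E0 + 5/4 Y2 + cL N + cQ N^2) ≤ dl (E0 t + Lp dl + cL N + cQ N^2) + 5/4 D`.
Then `3/4 Y2 ≤ E - E0 + cL N + cQ N^2` from `hcmp` gives the second claim.
(`E0` is continuous, by the Lipschitz bound.)
-/

set_option autoImplicit false

open scoped Real
open MeasureTheory
namespace Pool.Agent.EM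

/-- the growth polynomial -/
noncomputable def gr (y : ℝ) : ℝ := 1 + y + y ^ 2 / 2 + y ^ 3 / 4

lemma EM09_one_le_gr {y : ℝ} (h0 : 0 ≤ y) : 1 ≤ gr y := by
  have h2 : 0 ≤ y ^ 2 := by positivity
  have h3 : 0 ≤ y ^ 3 := by positivity
  rw [gr]; linarith

lemma EM09_hasDerivAt_gr (y : ℝ) : HasDerivAt gr (1 + y + 3 / 4 * y ^ 2) y := by
  have h1 : HasDerivAt (fun y : ℝ => 1 + y + y ^ 2 / 2 + y ^ 3 / 4)
      (0 + 1 + (2 * y ^ 1 * 1) / 2 + (3 * y ^ 2 * 1) / 4) y :=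
    (((hasDerivAt_const y (1 : ℝ)).add (hasDerivAt_id y)).add
      (((hasDerivAt_id y).pow 2).div_const 2)).add (((hasDerivAt_id y).pow 3).div_const 4)
  have h2 : (0 + 1 + (2 * y ^ 1 * 1) / 2 + (3 * y ^ 2 * 1) / 4 : ℝ) = 1 + y + 3 / 4 * y ^ 2 := by
    ring
  rw [← h2]
  exact h1

lemma EM09_gr_le {y : ℝ} (h0 : 0 ≤ y) (h1 : y ≤ 1) : gr y ≤ 1 + y + 3 / 4 * y ^ 2 := by
  rw [gr]
  nlinarith [mul_nonneg (mul_nonneg h0 h0) (sub_nonneg.2 h1)]

/-- EM-09: the barrier. -/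
theorem barrier {X2 Y2 d Lam y y' : ℝ → ℝ} {a b eta R n0 : ℝ} (hab : a ≤ b)
    (hX : ContinuousOn X2 (Set.Icc a b)) (hX0 : ∀ t ∈ Set.Icc a b, 0 ≤ X2 t)
    (hY0 : ∀ t ∈ Set.Icc a b, 0 ≤ Y2 t) (heta : 0 < eta) (hR : 0 ≤ R) (hn0 : 0 < n0)
    (hd : ∀ t ∈ Set.Ioo a b, HasDerivAt (fun t => X2 t / 2) (d t) t)
    (hle : ∀ t ∈ Set.Ioo a b, d t ≤ Lam t * X2 t - eta / 2 * Y2 t + R * √(X2 t))
    (hy : ∀ t ∈ Set.Icc a b, HasDerivAt y (y' t) t) (hy' : ∀ t ∈ Set.Icc a b, Lam t < y' t)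
    (hya : y a = 0) (hy0 : ∀ t ∈ Set.Icc a b, 0 ≤ y t) (hy1 : ∀ t ∈ Set.Icc a b, y t ≤ 1)
    (hy'0 : ∀ t ∈ Set.Icc a b, 0 ≤ y' t)
    (ha : X2 a ≤ n0 ^ 2) :
    ∀ t ∈ Set.Icc a b, X2 t ≤ ((n0 + R * (t - a)) * gr (y t)) ^ 2 := by
  have hgrc : Continuous gr := by unfold gr; fun_prop
  have hyc : ContinuousOn y (Set.Icc a b) := fun t ht => (hy t ht).continuousAt.continuousWithinAt
  -- the comparison for slightly larger data
  have key : ∀ ε > 0, ∀ t ∈ Set.Ioc a b, X2 t ≤ ((n0 + ε + R * (t - a)) * gr (y t)) ^ 2 := by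
    intro ε hε t ht
    set N : ℝ → ℝ := fun s => (n0 + ε + R * (s - a)) * gr (y s) with hN
    have hNc : ContinuousOn N (Set.Icc a b) := by
      refine ContinuousOn.mul (by fun_prop) ?_
      exact hgrc.comp_continuousOn hyc
    have hBc : ContinuousOn (fun s => N s ^ 2 / 2) (Set.Icc a b) := (hNc.pow 2).div_const 2
    have hfc : ContinuousOn (fun s => X2 s / 2) (Set.Icc a b) := hX.div_const 2
    -- start a bit later than `a`
    have hstart : ∃ a' ∈ Set.Ioo a t, X2 a' / 2 ≤ N a' ^ 2 / 2 := by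
      have h1 : X2 a / 2 < N a ^ 2 / 2 := by
        have : N a = n0 + ε := by
          rw [hN]
          change (n0 + ε + R * (a - a)) * gr (y a) = _
          rw [hya, gr]; ring
        rw [this]
        nlinarith
      have haI : a ∈ Set.Icc a b := ⟨le_rfl, hab⟩
      have h2 : ∀ᶠ s in nhdsWithin a (Set.Icc a b), X2 s / 2 < N s ^ 2 / 2 :=
        (hfc a haI).eventually_lt (hBc a haI) h1
      have h3 : nhdsWithin a (Set.Ioo a t) ≤ nhdsWithin a (Set.Icc a b) :=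
        nhdsWithin_mono a fun s hs => ⟨hs.1.le, hs.2.le.trans ht.2⟩
      have h4 : ∀ᶠ s in nhdsWithin a (Set.Ioo a t), X2 s / 2 < N s ^ 2 / 2 := h3 h2
      have : (nhdsWithin a (Set.Ioo a t)).NeBot := left_nhdsWithin_Ioo_neBot ht.1
      obtain ⟨s, hs, hs'⟩ := (h4.and self_mem_nhdsWithin).exists
      exact ⟨s, hs', hs.le⟩
    obtain ⟨a', ha', hst⟩ := hstart
    have hsub : Set.Icc a' b ⊆ Set.Icc a b := Set.Icc_subset_Icc_left ha'.1.le
    have hIoo : ∀ s ∈ Set.Ico a' b, s ∈ Set.Ioo a b := fun s hs => ⟨ha'.1.trans_le hs.1, hs.2⟩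
    have hNd : ∀ s ∈ Set.Ico a' b, HasDerivAt N (R * gr (y s) +
        (n0 + ε + R * (s - a)) * ((1 + y s + 3 / 4 * (y s) ^ 2) * y' s)) s := by
      intro s hs
      have hsI : s ∈ Set.Icc a b := ⟨(hIoo s hs).1.le, hs.2.le⟩
      have e1 : HasDerivAt (fun s => n0 + ε + R * (s - a)) R s := by
        have := (((hasDerivAt_id s).sub_const a).const_mul R).const_add (n0 + ε)
        rw [mul_one] at this
        exact this
      have e2 : HasDerivAt (fun s => gr (y s)) ((1 + y s + 3 / 4 * (y s) ^ 2) * y' s) s :=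
        (EM09_hasDerivAt_gr (y s)).comp s (hy s hsI)
      exact e1.mul e2
    have hmain := image_le_of_deriv_right_lt_deriv_boundary' (f := fun s => X2 s / 2) (f' := d)
      (a := a') (b := b) (hfc.mono hsub)
      (fun s hs => (hd s (hIoo s hs)).hasDerivWithinAt)
      (B := fun s => N s ^ 2 / 2)
      (B' := fun s => N s * (R * gr (y s) +
        (n0 + ε + R * (s - a)) * ((1 + y s + 3 / 4 * (y s) ^ 2) * y' s))) hst (hBc.mono hsub)
      (fun s hs => by
        have h1 := ((hNd s hs).mul (hNd s hs)).div_const 2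
        have h2 : HasDerivAt (fun s => N s ^ 2 / 2) (((R * gr (y s) +
            (n0 + ε + R * (s - a)) * ((1 + y s + 3 / 4 * (y s) ^ 2) * y' s)) * N s +
            N s * (R * gr (y s) +
            (n0 + ε + R * (s - a)) * ((1 + y s + 3 / 4 * (y s) ^ 2) * y' s))) / 2) s := by
          have h3 : (fun s => N s ^ 2 / 2) = fun s => N s * N s / 2 := by
            funext s
            rw [pow_two]
          rw [h3]
          exact h1
        have h4 : ((R * gr (y s) +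
            (n0 + ε + R * (s - a)) * ((1 + y s + 3 / 4 * (y s) ^ 2) * y' s)) * N s +
            N s * (R * gr (y s) +
            (n0 + ε + R * (s - a)) * ((1 + y s + 3 / 4 * (y s) ^ 2) * y' s))) / 2 =
            N s * (R * gr (y s) +
            (n0 + ε + R * (s - a)) * ((1 + y s + 3 / 4 * (y s) ^ 2) * y' s)) := by
          ring
        rw [h4] at h2
        exact h2.hasDerivWithinAt) ?_
    · have htI : t ∈ Set.Icc a' b := ⟨ha'.2.le, ht.2⟩
      have := hmain htI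
      have h2 : X2 t / 2 ≤ N t ^ 2 / 2 := this
      linarith
    · intro s hs heq
      have hsI : s ∈ Set.Icc a b := ⟨(hIoo s hs).1.le, hs.2.le⟩
      have heq' : X2 s = N s ^ 2 := by
        have h1 : X2 s / 2 = N s ^ 2 / 2 := heq
        linarith
      have hc0 : 0 < n0 + ε + R * (s - a) := by
        have : 0 ≤ R * (s - a) := mul_nonneg hR (sub_nonneg.2 hsI.1)
        linarith
      have hg1 : 1 ≤ gr (y s) := EM09_one_le_gr (hy0 s hsI)
      have hg2 := EM09_gr_le (hy0 s hsI) (hy1 s hsI)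
      have hNpos : 0 < N s := mul_pos hc0 (by linarith)
      have h1 := hle s (hIoo s hs)
      rw [heq', Real.sqrt_sq hNpos.le] at h1
      have h2 : 0 ≤ eta / 2 * Y2 s := mul_nonneg (by linarith) (hY0 s hsI)
      have h3 : N s * (R * 1) ≤ N s * (R * gr (y s)) := by gcongr
      have h4 : N s * (N s * y' s) ≤ N s * ((n0 + ε + R * (s - a)) *
          ((1 + y s + 3 / 4 * (y s) ^ 2) * y' s)) := by
        refine mul_le_mul_of_nonneg_left ?_ hNpos.le
        have : N s * y' s = (n0 + ε + R * (s - a)) * (gr (y s) * y' s) := by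
          rw [hN]; ring
        rw [this]
        refine mul_le_mul_of_nonneg_left ?_ hc0.le
        exact mul_le_mul_of_nonneg_right hg2 (hy'0 s hsI)
      have h5 : Lam s * N s ^ 2 < N s * (N s * y' s) := by
        have := mul_lt_mul_of_pos_right (hy' s hsI) (pow_pos hNpos 2)
        nlinarith
      calc d s ≤ Lam s * N s ^ 2 - eta / 2 * Y2 s + R * N s := h1
        _ ≤ Lam s * N s ^ 2 + N s * (R * 1) := by linarith
        _ < N s * (N s * y' s) + N s * (R * gr (y s)) := by linarith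
        _ ≤ _ := by rw [mul_add]; linarith
  intro t ht
  rcases eq_or_lt_of_le ht.1 with h | h
  · rw [← h, hya, gr]
    have : ((n0 + R * (a - a)) * (1 + 0 + 0 ^ 2 / 2 + 0 ^ 3 / 4)) ^ 2 = n0 ^ 2 := by ring
    rw [this]
    exact ha
  · have hlim : Filter.Tendsto (fun ε : ℝ => ((n0 + ε + R * (t - a)) * gr (y t)) ^ 2)
        (nhdsWithin 0 (Set.Ioi 0)) (nhds (((n0 + 0 + R * (t - a)) * gr (y t)) ^ 2)) := by
      have : Continuous (fun ε : ℝ => ((n0 + ε + R * (t - a)) * gr (y t)) ^ 2) := by fun_prop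
      exact (this.tendsto 0).mono_left nhdsWithin_le_nhds
    rw [add_zero] at hlim
    refine ge_of_tendsto hlim ?_
    filter_upwards [self_mem_nhdsWithin] with ε hε
    exact key ε hε t ⟨h, ht.2⟩

/-- EM-09b: the dissipation. -/
theorem dissip {X2 Y2 d Lam : ℝ → ℝ} {a b eta R N Lb : ℝ}
    (hX : ContinuousOn X2 (Set.Icc a b)) (hX0 : ∀ t ∈ Set.Icc a b, 0 ≤ X2 t)
    (hY : ContinuousOn Y2 (Set.Icc a b)) (hY0 : ∀ t ∈ Set.Icc a b, 0 ≤ Y2 t)
    (heta : 0 < eta) (hR : 0 ≤ R) (hN : 0 ≤ N) (hLb : 0 ≤ Lb)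
    (hd : ∀ t ∈ Set.Ioo a b, HasDerivAt (fun t => X2 t / 2) (d t) t)
    (hle : ∀ t ∈ Set.Ioo a b, d t ≤ Lam t * X2 t - eta / 2 * Y2 t + R * √(X2 t))
    (hLam : ∀ t ∈ Set.Icc a b, Lam t ≤ Lb) (hXN : ∀ t ∈ Set.Icc a b, X2 t ≤ N ^ 2) :
    ∀ t1 ∈ Set.Icc a b, ∀ t2 ∈ Set.Icc a b, t1 ≤ t2 →
      eta / 2 * ∫ t in t1..t2, Y2 t ≤ N ^ 2 / 2 + (t2 - t1) * (Lb * N ^ 2 + R * N) := by
  intro t1 ht1 t2 ht2 h12
  have hsub : Set.Icc t1 t2 ⊆ Set.Icc a b := Set.Icc_subset_Icc ht1.1 ht2.2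
  have hYi : ∀ s ∈ Set.Icc t1 t2, IntervalIntegrable Y2 volume t1 s := by
    intro s hs
    refine ContinuousOn.intervalIntegrable (hY.mono ?_)
    rw [Set.uIcc_of_le hs.1]
    exact (Set.Icc_subset_Icc_right hs.2).trans hsub
  set h : ℝ → ℝ := fun s => X2 s / 2 + eta / 2 * (∫ t in t1..s, Y2 t) -
    (s - t1) * (Lb * N ^ 2 + R * N) with hh
  have hcont : ContinuousOn h (Set.Icc t1 t2) := by
    refine ContinuousOn.sub (ContinuousOn.add ((hX.mono hsub).div_const 2) ?_) (by fun_prop)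
    refine ContinuousOn.mul continuousOn_const ?_
    have := intervalIntegral.continuousOn_primitive_interval (μ := volume) (f := Y2) (a := t1)
      (b := t2) (by
        rw [Set.uIcc_of_le h12]
        exact (hY.mono hsub).integrableOn_Icc)
    rwa [Set.uIcc_of_le h12] at this
  have hder : ∀ s ∈ Set.Ioo t1 t2, HasDerivAt h (d s + eta / 2 * Y2 s - 1 * (Lb * N ^ 2 + R * N)) s := by
    intro s hs
    have hsab : s ∈ Set.Ioo a b := ⟨ht1.1.trans_lt hs.1, hs.2.trans_le ht2.2⟩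
    have e1 := hd s hsab
    have e2 : HasDerivAt (fun u => ∫ t in t1..u, Y2 t) (Y2 s) s := by
      refine intervalIntegral.integral_hasDerivAt_right (hYi s ⟨hs.1.le, hs.2.le⟩) ?_ ?_
      · exact (hY.mono Set.Ioo_subset_Icc_self).stronglyMeasurableAtFilter isOpen_Ioo s hsab
      · exact hY.continuousAt (Icc_mem_nhds hsab.1 hsab.2)
    have e3 : HasDerivAt (fun u => (u - t1) * (Lb * N ^ 2 + R * N)) (1 * (Lb * N ^ 2 + R * N)) s :=
      ((hasDerivAt_id s).sub_const t1).mul_const _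
    exact (e1.add (e2.const_mul (eta / 2))).sub e3
  have hanti : AntitoneOn h (Set.Icc t1 t2) := by
    refine antitoneOn_of_deriv_nonpos (convex_Icc t1 t2) hcont ?_ ?_
    · rw [interior_Icc]
      exact fun s hs => (hder s hs).differentiableAt.differentiableWithinAt
    · rw [interior_Icc]
      intro s hs
      rw [(hder s hs).deriv]
      have hsab : s ∈ Set.Ioo a b := ⟨ht1.1.trans_lt hs.1, hs.2.trans_le ht2.2⟩
      have hsI : s ∈ Set.Icc a b := ⟨hsab.1.le, hsab.2.le⟩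
      have h1 := hle s hsab
      have h2 : Lam s * X2 s ≤ Lb * N ^ 2 :=
        (mul_le_mul_of_nonneg_right (hLam s hsI) (hX0 s hsI)).trans
          (mul_le_mul_of_nonneg_left (hXN s hsI) hLb)
      have h3 : √(X2 s) ≤ N := Real.sqrt_le_left hN |>.2 (hXN s hsI)
      have h4 : R * √(X2 s) ≤ R * N := mul_le_mul_of_nonneg_left h3 hR
      linarith
  have hfin := hanti (Set.left_mem_Icc.2 h12) (Set.right_mem_Icc.2 h12) h12
  rw [hh] at hfin
  simp only [intervalIntegral.integral_same, sub_self, zero_mul, mul_zero, add_zero, sub_zero]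
    at hfin
  have h5 := hX0 t2 ht2
  have h6 := hXN t1 ht1
  linarith

/-- EM-10: the energy argument.  `E` twice the energy of the flow, `E0` twice the energy of the explicit curve. -/
theorem window {E E0 X2 Y2 : ℝ → ℝ} {a b N cL cQ Lp dl D e0 e1 : ℝ} (hab : a ≤ b)
    (hE : AntitoneOn E (Set.Icc a b)) (hEc : ContinuousOn E (Set.Icc a b))
    (hY : ContinuousOn Y2 (Set.Icc a b)) (hY0 : ∀ t ∈ Set.Icc a b, 0 ≤ Y2 t)
    (hX0 : ∀ t ∈ Set.Icc a b, 0 ≤ X2 t) (hXN : ∀ t ∈ Set.Icc a b, X2 t ≤ N ^ 2) (hN : 0 ≤ N)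
    (hcL : 0 ≤ cL) (hcQ : 0 ≤ cQ)
    (hcmp : ∀ t ∈ Set.Icc a b, |E t - E0 t - Y2 t| ≤ cL * √(X2 t) + cQ * X2 t + Y2 t / 4)
    (hLp : ∀ t ∈ Set.Icc a b, ∀ t' ∈ Set.Icc a b, |E0 t - E0 t'| ≤ Lp * |t - t'|) (hLp0 : 0 ≤ Lp)
    (hdl : 0 < dl) (hD : ∀ t1 ∈ Set.Icc a b, ∀ t2 ∈ Set.Icc a b, t1 ≤ t2 → t2 ≤ t1 + dl →
      ∫ t in t1..t2, Y2 t ≤ D)
    (h0 : E a ≤ E0 a + e0)
    (h1 : e0 + dl * Lp ≤ e1) (h2 : dl * Lp + cL * N + cQ * N ^ 2 + 5 / 4 * D / dl ≤ e1) :
    ∀ t ∈ Set.Icc a b, E t ≤ E0 t + e1 ∧ Y2 t ≤ 4 / 3 * (e1 + cL * N + cQ * N ^ 2) := by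
  have hsq : ∀ s ∈ Set.Icc a b, cL * √(X2 s) + cQ * X2 s ≤ cL * N + cQ * N ^ 2 := by
    intro s hs
    have h3 : √(X2 s) ≤ N := Real.sqrt_le_left hN |>.2 (hXN s hs)
    have h4 := mul_le_mul_of_nonneg_left h3 hcL
    have h5 := mul_le_mul_of_nonneg_left (hXN s hs) hcQ
    linarith
  have haI : a ∈ Set.Icc a b := ⟨le_rfl, hab⟩
  have claim : ∀ t ∈ Set.Icc a b, E t ≤ E0 t + e1 := by
    intro t ht
    rcases le_or_gt t (a + dl) with htd | htd
    · have h3 := hE haI ht ht.1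
      have h4 := (abs_le.1 (hLp a haI t ht)).2
      have h5 : Lp * |a - t| ≤ dl * Lp := by
        rw [abs_sub_comm, abs_of_nonneg (sub_nonneg.2 ht.1), mul_comm]
        exact mul_le_mul_of_nonneg_right (by linarith) hLp0
      linarith
    · have hl : t - dl ∈ Set.Icc a b := ⟨by linarith, by linarith [ht.2]⟩
      have hsub : Set.Icc (t - dl) t ⊆ Set.Icc a b := Set.Icc_subset_Icc hl.1 ht.2
      have hle' : t - dl ≤ t := by linarith
      set c : ℝ := E0 t + Lp * dl + cL * N + cQ * N ^ 2 with hc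
      have hpt : ∀ s ∈ Set.Icc (t - dl) t, E t ≤ c + 5 / 4 * Y2 s := by
        intro s hs
        have hsI := hsub hs
        have h3 := hE hsI ht hs.2
        have h4 := (abs_le.1 (hcmp s hsI)).2
        have h5 := (abs_le.1 (hLp s hsI t ht)).2
        have h6 : Lp * |s - t| ≤ Lp * dl := by
          rw [abs_sub_comm, abs_of_nonneg (sub_nonneg.2 hs.2)]
          exact mul_le_mul_of_nonneg_left (by linarith [hs.1]) hLp0
        have h7 := hsq s hsI
        rw [hc]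
        linarith
      have hYi : IntervalIntegrable Y2 volume (t - dl) t := by
        refine ContinuousOn.intervalIntegrable (hY.mono ?_)
        rw [Set.uIcc_of_le hle']
        exact hsub
      have hint : ∫ _ in (t - dl)..t, E t ≤ ∫ s in (t - dl)..t, (c + 5 / 4 * Y2 s) := by
        refine intervalIntegral.integral_mono_on hle' intervalIntegrable_const ?_ hpt
        exact intervalIntegrable_const.add (hYi.const_mul _)
      rw [intervalIntegral.integral_const, intervalIntegral.integral_add intervalIntegrable_const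
        (hYi.const_mul _), intervalIntegral.integral_const, intervalIntegral.integral_const_mul,
        smul_eq_mul, smul_eq_mul] at hint
      have h8 := hD (t - dl) hl t ht hle' (by linarith)
      have h9 : t - (t - dl) = dl := by ring
      rw [h9] at hint
      have h10 : dl * E t ≤ dl * (c + 5 / 4 * D / dl) := by
        have : dl * (c + 5 / 4 * D / dl) = dl * c + 5 / 4 * D := by field_simp
        rw [this]
        linarith
      have h11 := le_of_mul_le_mul_left h10 hdl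
      rw [hc] at h11
      linarith
  intro t ht
  refine ⟨claim t ht, ?_⟩
  have h3 := claim t ht
  have h4 := (abs_le.1 (hcmp t ht)).1
  have h5 := hsq t ht
  linarith

end Pool.Agent.EM
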