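import Pool.Agent.EM.Piece
import Pool.Agent.EM.EM04
import Pool.Agent.EM.EM07
import Pool.Agent.EM.EM08
import Pool.Agent.EM.EM09
import Pool.Agent.helper19.EM.Resc

/-!
# EM-11: one time interval

PROOF of `apriori`.  `h : Cmp ..` gives for every `t` in `[a,b]` the slice (`Cmp.slice`), so `Slice.ok`.
(1) `SD.Bd` at every `t` in `[a,b]` with `A u := A (α u t) t`, `A1 u := A' (α u t) t / speed (sl e t) (α u t)`, etc.
    (`Slice.lift`), `r u := resE e (α u t) t` (continuous in `u`; `nuE` is continuous in `θ`).  Lengths: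
    `Slice.cov` with `F = 1`: `∮ c q ds = Len2`, and `98/100 ≤ c q ≤ 102/100` (from `S ≤ 1/100`, `|K w| ≤ 1/100`;
    more precisely `c ≥ 9999/10000`, `100/101 ≤ q ≤ 100/99`), so `Llo ≤ L ≤ Lhi`.
(2) `slice_ineq` gives the hypothesis `hle` of `barrier`/`dissip` with `d` from `Cmp.X2'`,
    `Lam := fun t => Lam t + n.Lr`, `R := n.rho * n.rL`.
(3) `barrier`: `X2 t ≤ N^2` (`gr` is increasing, `y ≤ Y`).  (4) `dissip` and `INum.Ok.hD`: `∫ Y2 ≤ D` over windows of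
    length at most `dl`.
(5) `energy_cmp` with `E0 = En2 (sl e t)` (`Slice.cov` with `F = curv^2`), `S.E2 = iW γ t` (definitions), `window` with
    `E := iW γ` (antitone: derivative `-2 ∫ F^2 v`-like, see `W'` in `EL/IntEvo.lean`: the derivative of `iW` is
    `-2 ∮ F² ds`; check the exact form there).  Gives `iW γ t ≤ En2 + e1`, `Y2 ≤ Phi^2`.
(6) `G2_le`: `G2 ≤ N Phi ≤ G^2`; `sup_le` for `w` (`f1 = s`) and for `s` (`f1 = c p`, `|c p| ≤ |p|`):
    `|w| ≤ Wo`, `|s| ≤ So`.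
PROOF of `one_interval`.  `extend` gives `τ`.  By induction on `m : ℕ`: there is `α` with
`Lab γ e α a (min (a + m τ) b) (W/2) (S/2)` which agrees with `α₀` at `t = a`.  `m = 0`: the given label at `a`
(`Wi ≤ W/2`, `Si ≤ S/2`).  Step: `extend`, then `apriori` on `[a, min ..]` improves `W, S` to `Wo, So` (the initial
values at `a` are those of `α₀`).  For large `m` the interval is `[a,b]`; the final state is `apriori` at `t = b`.
(If the interval is degenerate, i.e. `min (a + m τ) b = a`, there is nothing to do.)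
-/

set_option autoImplicit false

open scoped Real ContDiff InnerProductSpace
open MeasureTheory

namespace Pool.Agent.EM

open Pool.Agent.helper19.EL Pool.Agent.helper19.EM


/-! ## generalities on slices -/

theorem cont_of_der {f f' : ℝ → ℝ} (h : ∀ u, HasDerivAt f (f' u) u) : Continuous f :=
  continuous_iff_continuousAt.2 fun u => (h u).continuousAt

theorem SD.Ok.cont_q {S : SD} (h : S.Ok) : Continuous S.q := by
  have c1 := cont_of_der h.dK
  have c2 := cont_of_der h.dw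
  have h0 : ∀ u, 1 - S.K u * S.w u ≠ 0 := fun u h0 => by
    have := h.hq u
    rw [h0, mul_zero] at this
    exact zero_ne_one this
  have e : S.q = fun u => (1 - S.K u * S.w u)⁻¹ := by
    funext u
    exact eq_inv_of_mul_eq_one_left (h.hq u)
  rw [e]
  exact (continuous_const.sub (c1.mul c2)).inv₀ h0

theorem I_nonneg {S : SD} (h : S.Ok) {f : ℝ → ℝ} (hf : ∀ u, 0 ≤ f u) : 0 ≤ S.I f :=
  intervalIntegral.integral_nonneg zero_le_one fun u _ => mul_nonneg (hf u) (h.vpos u).le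

theorem I_mono {S : SD} (h : S.Ok) {f g : ℝ → ℝ} (hf : Continuous f) (hg : Continuous g)
    (hfg : ∀ u, f u ≤ g u) : S.I f ≤ S.I g :=
  intervalIntegral.integral_mono_on zero_le_one ((hf.mul h.cv).intervalIntegrable 0 1)
    ((hg.mul h.cv).intervalIntegrable 0 1)
    fun u _ => mul_le_mul_of_nonneg_right (hfg u) (h.vpos u).le

theorem I_const_mul {S : SD} (r : ℝ) (f : ℝ → ℝ) : (S.I fun u => r * f u) = r * S.I f := by
  unfold SD.I
  rw [← intervalIntegral.integral_const_mul]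
  congr 1
  funext u
  ring

theorem X2_nonneg {S : SD} (h : S.Ok) : 0 ≤ S.X2 := I_nonneg h fun _ => sq_nonneg _
theorem Y2_nonneg {S : SD} (h : S.Ok) : 0 ≤ S.Y2 := I_nonneg h fun _ => sq_nonneg _
theorem G2_nonneg {S : SD} (h : S.Ok) : 0 ≤ S.G2 := I_nonneg h fun _ => sq_nonneg _

/-- bounds of `c q` -/
theorem cq_bounds {S : SD} (h : S.Ok) {b0 W Sg : ℝ} (hb0 : 0 < b0) (hS1 : Sg ≤ 1 / 100)
    (hbW : b0 * W ≤ 1 / 100) (hK : ∀ u, |S.K u| ≤ b0) (hw : ∀ u, |S.w u| ≤ W)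
    (hs : ∀ u, |S.s u| ≤ Sg) (u : ℝ) :
    100 / 103 ≤ S.c u * S.q u ∧ S.c u * S.q u ≤ 103 / 100 ∧ S.c u ≤ 1 := by
  have h1 : |S.K u * S.w u| ≤ 1 / 100 := by
    rw [abs_mul]
    exact (mul_le_mul (hK u) (hw u) (abs_nonneg _) hb0.le).trans hbW
  obtain ⟨h2, h3⟩ := abs_le.1 h1
  have hq := h.hq u
  have c0 := h.cpos u
  have hs1 := (hs u).trans hS1
  have hcs := h.cs u
  have hs2 : S.s u ^ 2 ≤ (1 / 100) ^ 2 := by
    rw [← sq_abs]
    exact pow_le_pow_left₀ (abs_nonneg _) hs1 2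
  have c1 : S.c u ≤ 1 := by nlinarith
  have c2 : 9999 / 10000 ≤ S.c u := by nlinarith
  have q0 : 0 < S.q u := by
    by_contra hcon
    push Not at hcon
    nlinarith
  have q1 : S.q u ≤ 100 / 99 := by nlinarith
  have q2 : 100 / 101 ≤ S.q u := by nlinarith
  refine ⟨?_, ?_, c1⟩
  · nlinarith
  · nlinarith

/-- continuity of the residual -/
theorem cont_resE {e : ℝ → ℝ → ℂ} {a b : ℝ} (he : Fam e a b) {t : ℝ} (ht : t ∈ Set.Icc a b) :
    Continuous fun θ => resE e θ t := by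
  have hc : Ref (resc e) a b := ref_resc he.smooth he.per he.imm
  apply cont_resc
  have h1 := cont_x fun x => hc.sa_ν ht x
  have h2 := cont_x fun x => hc.sa_k2 ht x
  have h3 := cont_x fun x => hc.sa_k ht x
  refine ((h1.add h2).add ((h3.pow 3).div_const 2)).congr fun x => ?_
  show rν (resc e) x t + fk2 (resc e) x t + fk (resc e) x t ^ 3 / 2 = _
  rw [rν_resc, fk2_resc, fk_resc]
  rfl

theorem cont_curv {e : ℝ → ℝ → ℂ} {a b : ℝ} (he : Fam e a b) {t : ℝ} (ht : t ∈ Set.Icc a b) :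
    Continuous fun θ => curv (sl e t) θ := by
  have hc : Ref (resc e) a b := ref_resc he.smooth he.per he.imm
  apply cont_resc
  exact (cont_x fun x => hc.sa_k ht x).congr fun x => fk_resc x t

theorem per_curv {e : ℝ → ℝ → ℂ} {a b : ℝ} (he : Fam e a b) (t θ : ℝ) :
    curv (sl e t) (θ + 2 * π) = curv (sl e t) θ := by
  have hc : Ref (resc e) a b := ref_resc he.smooth he.per he.imm
  have h1 := hc.p_k t (θ / (2 * π))
  rw [fk_resc, fk_resc] at h1
  have h2 : 2 * π * (θ / (2 * π)) = θ := by field_simp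
  have h3 : 2 * π * (θ / (2 * π) + 1) = θ + 2 * π := by field_simp
  rwa [h2, h3] at h1

/-- the hypotheses on a slice -/
theorem Cmp.bd {γ e : ℝ → ℝ → ℂ} {α : ℝ → ℝ → ℝ} {T a b b' Lp : ℝ} {n : SNum ℝ}
    {A A' B B' C C' : ℝ → ℝ → ℝ} {Lam : ℝ → ℝ} (hn : n.Ok)
    (hp : Piece e a b n A A' B B' C C' Lam Lp)
    (h : Cmp γ e α T a b' n.W n.S n.b0) (hb' : b' ≤ b) {t : ℝ} (ht : t ∈ Set.Icc a b') :
    (sd γ e α t).Bd (fun u => A (α u t) t) (fun u => A' (α u t) t / speed (sl e t) (α u t))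
      (fun u => B (α u t) t) (fun u => B' (α u t) t / speed (sl e t) (α u t))
      (fun u => C (α u t) t) (fun u => C' (α u t) t / speed (sl e t) (α u t))
      (fun u => resE e (α u t) t) n (Lam t) := by
  have hsl : Slice (sl γ t) (sl e t) (fun u => α u t) := h.slice ht
  have ok : (sd γ e α t).Ok := hsl.ok
  have htb : t ∈ Set.Icc a b := ⟨ht.1, ht.2.trans hb'⟩
  have hw : ∀ u, |(sd γ e α t).w u| ≤ n.W := fun u => h.lab.w_le t ht u
  have hs : ∀ u, |(sd γ e α t).s u| ≤ n.S := fun u => h.lab.s_le t ht u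
  have hK : ∀ u, |(sd γ e α t).K u| ≤ n.b0 := fun u => hp.K_le t htb (α u t)
  have hcq := cq_bounds ok hn.b0 hn.S1 hn.bW hK hw hs
  have cc := cont_of_der ok.dc
  have cq := ok.cont_q
  have hcov : ((sd γ e α t).I fun u => 1 * ((sd γ e α t).c u * (sd γ e α t).q u)) =
      Len2 (sl e t) := by
    have := hsl.cov (F := fun _ => 1) continuous_const fun _ => rfl
    refine Eq.trans this ?_
    unfold Len2
    congr 1
    funext θ
    exact one_mul _
  refine ⟨?_, ?_, ?_, ?_, hK, fun u => hp.K1_le t htb (α u t), fun u => hp.K2_le t htb (α u t),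
    fun u => hp.A_le t htb (α u t), fun u => hp.A1_le t htb (α u t),
    fun u => hp.B_le t htb (α u t), fun u => hp.B1_le t htb (α u t),
    fun u => hp.C1_le t htb (α u t), fun u => hp.res_le t htb (α u t), hw, hs, ?_, ?_, ?_⟩
  · exact hsl.lift (F := fun θ => A θ t) (F' := fun θ => A' θ t) (hp.dA t htb) (hp.cA t htb)
      (hp.pA t htb)
  · exact hsl.lift (F := fun θ => B θ t) (F' := fun θ => B' θ t) (hp.dB t htb) (hp.cB t htb)
      (hp.pB t htb)
  · exact hsl.lift (F := fun θ => C θ t) (F' := fun θ => C' θ t) (hp.dC t htb) (hp.cC t htb)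
      (hp.pC t htb)
  · exact (cont_resE hp.fam htb).comp hsl.cont
  · -- the length is bounded above
    have h1 : (sd γ e α t).L ≤ (sd γ e α t).I fun u =>
        103 / 100 * (1 * ((sd γ e α t).c u * (sd γ e α t).q u)) :=
      I_mono ok continuous_const (continuous_const.mul (continuous_const.mul (cc.mul cq)))
        fun u => by
          have := (hcq u).1
          linarith
    rw [I_const_mul (103 / 100), hcov] at h1
    exact h1.trans (hp.len_le t htb)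
  · -- the length is bounded below
    have h1 : ((sd γ e α t).I fun u => 1 * ((sd γ e α t).c u * (sd γ e α t).q u)) ≤
        (sd γ e α t).I fun _ => 103 / 100 * 1 :=
      I_mono ok (continuous_const.mul (cc.mul cq)) continuous_const fun u => by
        have := (hcq u).2.1
        linarith
    rw [hcov, I_const_mul (103 / 100)] at h1
    have h2 := hp.le_len t htb
    have h3 : 103 / 100 * n.Llo ≤ 103 / 100 * (sd γ e α t).L := h2.trans h1
    linarith
  · intro u w s p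
    exact hp.qf t htb (α u t) w s p

/-- `y` is between `0` and `Y` -/
theorem y_bounds {y y' : ℝ → ℝ} {a b Y : ℝ} (hy : ∀ t ∈ Set.Icc a b, HasDerivAt y (y' t) t)
    (hy0 : y a = 0) (hy'0 : ∀ t ∈ Set.Icc a b, 0 ≤ y' t) (hyb : y b ≤ Y) :
    ∀ t ∈ Set.Icc a b, 0 ≤ y t ∧ y t ≤ Y := by
  have hm : MonotoneOn y (Set.Icc a b) := by
    refine monotoneOn_of_deriv_nonneg (convex_Icc a b)
      (fun t ht => (hy t ht).continuousAt.continuousWithinAt)
      (fun t ht => (hy t (interior_subset ht)).differentiableAt.differentiableWithinAt)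
      fun t ht => ?_
    rw [(hy t (interior_subset ht)).deriv]
    exact hy'0 t (interior_subset ht)
  intro t ht
  have hab : a ≤ b := ht.1.trans ht.2
  constructor
  · rw [← hy0]
    exact hm ⟨le_rfl, hab⟩ ht ht.1
  · exact (hm ht ⟨hab, le_rfl⟩ ht.2).trans hyb

/-- the energy of a flow decreases -/
theorem iW_antitone {γ : ℝ → ℝ → ℂ} {T a b : ℝ} (hγ : IsFlow γ T) (ha : 0 ≤ a) (hb : b < T) :
    AntitoneOn (iW γ) (Set.Icc a b) := by
  have hsub : Set.Icc a b ⊆ Set.Ico 0 T := fun t ht => ⟨ha.trans ht.1, ht.2.trans_lt hb⟩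
  have hin : ∀ t ∈ interior (Set.Icc a b), t ∈ Set.Ioo 0 T := by
    intro t ht
    rw [interior_Icc] at ht
    exact ⟨ha.trans_lt ht.1, ht.2.trans hb⟩
  refine antitoneOn_of_deriv_nonpos (convex_Icc a b) (hγ.cW.mono hsub)
    (fun t ht => (hγ.W' (hin t ht)).differentiableAt.differentiableWithinAt) fun t ht => ?_
  rw [(hγ.W' (hin t ht)).deriv]
  have h1 : 0 ≤ ∫ u in (0 : ℝ)..1, fF γ u t ^ 2 * fv γ u t :=
    intervalIntegral.integral_nonneg zero_le_one fun u _ =>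
      mul_nonneg (sq_nonneg _) (hγ.v_pos ⟨(hin t ht).1.le, (hin t ht).2⟩ u).le
  linarith

theorem gr_mono {x y : ℝ} (hx : 0 ≤ x) (hxy : x ≤ y) : gr x ≤ gr y := by
  unfold gr
  have h2 := pow_le_pow_left₀ hx hxy 2
  have h3 := pow_le_pow_left₀ hx hxy 3
  linarith

/-- the a priori estimate on `[a, b']`, `b' ≤ b` -/
theorem apriori {γ e : ℝ → ℝ → ℂ} {α : ℝ → ℝ → ℝ} {T a b b' : ℝ} {n : SNum ℝ} {m : INum ℝ}
    {A A' B B' C C' : ℝ → ℝ → ℝ} {Lam y y' : ℝ → ℝ} (hn : n.Ok) (hm : m.Ok n)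
    (hp : Piece e a b n A A' B B' C C' Lam m.Lp)
    (h : Cmp γ e α T a b' n.W n.S n.b0) (hb' : b' ≤ b) (hlen : b - a ≤ m.len)
    (hy : ∀ t ∈ Set.Icc a b, HasDerivAt y (y' t) t) (hy' : ∀ t ∈ Set.Icc a b, Lam t + n.Lr < y' t)
    (hy0 : y a = 0) (hy'0 : ∀ t ∈ Set.Icc a b, 0 ≤ y' t) (hyb : y b ≤ m.Y)
    (hLb : ∀ t ∈ Set.Icc a b, Lam t + n.Lr ≤ m.Lb)
    (hX : (sd γ e α a).X2 ≤ m.n0 ^ 2) (hE : iW γ a ≤ En2 (sl e a) + m.e0) :
    ∀ t ∈ Set.Icc a b', (sd γ e α t).X2 ≤ m.N ^ 2 ∧ iW γ t ≤ En2 (sl e t) + m.e1 ∧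
      (∀ u, |(sd γ e α t).w u| ≤ m.Wo) ∧ (∀ u, |(sd γ e α t).s u| ≤ m.So) := by

  have hab' := h.hab
  have hsub : Set.Icc a b' ⊆ Set.Icc a b := Set.Icc_subset_Icc_right hb'
  have sub : ∀ t ∈ Set.Ioo a b', t ∈ Set.Icc a b' := fun t ht => ⟨ht.1.le, ht.2.le⟩
  have hbd : ∀ t ∈ Set.Icc a b', (sd γ e α t).Bd _ _ _ _ _ _ _ n (Lam t) := fun t ht =>
    h.bd hn hp hb' ht
  have ok : ∀ t ∈ Set.Icc a b', (sd γ e α t).Ok := fun t ht => (h.slice ht).ok
  have hX0 : ∀ t ∈ Set.Icc a b', 0 ≤ (sd γ e α t).X2 := fun t ht => X2_nonneg (ok t ht)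
  have hY0 : ∀ t ∈ Set.Icc a b', 0 ≤ (sd γ e α t).Y2 := fun t ht => Y2_nonneg (ok t ht)
  have hle : ∀ t ∈ Set.Ioo a b', ((sd γ e α t).I fun u => (sd γ e α t).J u -
      (sd γ e α t).w u * resE e (α u t) t) ≤ (Lam t + n.Lr) * (sd γ e α t).X2 -
      n.eta / 2 * (sd γ e α t).Y2 + n.rho * n.rL * √(sd γ e α t).X2 := fun t ht =>
    slice_ineq _ (ok t (sub t ht)) hn (hbd t (sub t ht))
  have hR : 0 ≤ n.rho * n.rL := mul_nonneg hn.rho hn.rL.le
  have hyb2 := y_bounds hy hy0 hy'0 hyb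
  have hbar := barrier (Y2 := fun t => (sd γ e α t).Y2) hab' h.cX2 hX0 hY0 hn.eta hR hm.n0
    (fun t ht => h.X2' ht) hle (fun t ht => hy t (hsub ht)) (fun t ht => hy' t (hsub ht)) hy0
    (fun t ht => (hyb2 t (hsub ht)).1) (fun t ht => (hyb2 t (hsub ht)).2.trans hm.Y1)
    (fun t ht => hy'0 t (hsub ht)) hX
  have hN0 : 0 < m.N := by
    refine lt_of_lt_of_le ?_ hm.hN
    have h1 : 0 ≤ n.rho * n.rL * m.len := mul_nonneg hR hm.len.le
    have h2 := hm.n0
    have h3 : 0 ≤ m.Y ^ 2 := sq_nonneg _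
    have h4 : 0 ≤ m.Y ^ 3 := pow_nonneg hm.Y0 3
    have h5 := hm.Y0
    refine mul_pos (by linarith) (by linarith)
  have hXN : ∀ t ∈ Set.Icc a b', (sd γ e α t).X2 ≤ m.N ^ 2 := by
    intro t ht
    refine (hbar t ht).trans ?_
    have h0 : 0 ≤ t - a := sub_nonneg.2 ht.1
    have hyt := hyb2 t (hsub ht)
    have g0 : 0 ≤ gr (y t) := zero_le_one.trans (EM09_one_le_gr hyt.1)
    have n0 := hm.n0
    have h1 : 0 ≤ n.rho * n.rL * (t - a) := mul_nonneg hR h0
    have h2 : n.rho * n.rL * (t - a) ≤ n.rho * n.rL * m.len :=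
      mul_le_mul_of_nonneg_left (by linarith [ht.2]) hR
    refine pow_le_pow_left₀ (mul_nonneg (by linarith) g0) (le_trans ?_ hm.hN) 2
    exact mul_le_mul (by linarith) (gr_mono hyt.1 hyt.2) g0 (by linarith)
  have hdis := dissip (Lam := fun t => Lam t + n.Lr) h.cX2 hX0 h.cY2 hY0 hn.eta hR hN0.le hm.Lb
    (fun t ht => h.X2' ht) hle (fun t ht => hLb t (hsub ht)) hXN
  have hD : ∀ t1 ∈ Set.Icc a b', ∀ t2 ∈ Set.Icc a b', t1 ≤ t2 → t2 ≤ t1 + m.dl →
      ∫ t in t1..t2, (sd γ e α t).Y2 ≤ m.D := by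
    intro t1 ht1 t2 ht2 h12 hdl
    have h1 := hdis t1 ht1 t2 ht2 h12
    have eta := hn.eta
    have h2 : (t2 - t1) * (m.Lb * m.N ^ 2 + n.rho * n.rL * m.N) ≤
        m.dl * (m.Lb * m.N ^ 2 + n.rho * n.rL * m.N) := by
      refine mul_le_mul_of_nonneg_right (by linarith) ?_
      have := hm.Lb
      positivity
    refine le_trans ?_ hm.hD
    rw [div_mul_eq_mul_div, le_div_iff₀ eta]
    linarith
  have hcL : 0 ≤ n.cL := by
    have := hn.rL; have := hn.b0; have := hn.b2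
    unfold SNum.cL
    positivity
  have hcQ : 0 ≤ n.cQ := by
    have := hn.b1
    unfold SNum.cQ
    positivity
  have hcmp : ∀ t ∈ Set.Icc a b', |iW γ t - En2 (sl e t) - (sd γ e α t).Y2| ≤
      n.cL * √((sd γ e α t).X2) + n.cQ * (sd γ e α t).X2 + (sd γ e α t).Y2 / 4 := by
    intro t ht
    have htb := hsub ht
    refine energy_cmp _ (ok t ht) hn (hbd t ht) ?_
    exact ((h.slice ht).cov (F := fun θ => curv (sl e t) θ ^ 2) ((cont_curv hp.fam htb).pow 2)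
      fun θ => by rw [per_curv hp.fam]).symm
  have hwin := window hab' (iW_antitone h.flow h.ha h.hbT)
    (h.flow.cW.mono fun t ht => ⟨h.ha.trans ht.1, ht.2.trans_lt h.hbT⟩) h.cY2 hY0 hX0 hXN hN0.le
    hcL hcQ hcmp (fun t ht t' ht' => hp.lip t (hsub ht) t' (hsub ht')) hm.Lp hm.dl hD hE hm.h1
    hm.h2
  intro t ht
  obtain ⟨hE1, hY1⟩ := hwin t ht
  have okt := ok t ht
  have hYP : (sd γ e α t).Y2 ≤ m.Phi ^ 2 := hY1.trans hm.hPhi
  have hGG : (sd γ e α t).G2 ≤ m.G ^ 2 := by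
    refine le_trans ?_ hm.hG
    have h1 := G2_le _ okt
    have h2 : (sd γ e α t).X2 * (sd γ e α t).Y2 ≤ m.N ^ 2 * m.Phi ^ 2 :=
      mul_le_mul (hXN t ht) hYP (hY0 t ht) (sq_nonneg _)
    rw [← mul_pow] at h2
    exact (le_abs_self _).trans (abs_le_of_sq_le_sq (h1.trans h2) (mul_nonneg hN0.le hm.Phi.le))
  have hcq := cq_bounds okt hn.b0 hn.S1 hn.bW (hbd t ht).K_le (hbd t ht).w_le (hbd t ht).s_le
  refine ⟨hXN t ht, hE1, fun u => ?_, fun u => ?_⟩
  · have h1 := sup_le _ okt okt.pw (cont_of_der okt.ds) okt.dw hn.Llo (hbd t ht).le_L hN0.le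
      hm.G.le (hXN t ht) hGG u
    exact abs_le_of_sq_le_sq (h1.trans hm.hWo) hm.Wo.le
  · have cc := cont_of_der okt.dc
    have cp := cont_of_der okt.dp
    have h1 := sup_le _ okt okt.ps (cc.mul cp) okt.ds hn.Llo (hbd t ht).le_L hm.G.le
      hm.Phi.le hGG (by
        refine le_trans ?_ hYP
        refine I_mono okt ((cc.mul cp).pow 2) (cp.pow 2) fun u => ?_
        have h2 := (hcq u).2.2
        have h3 := okt.cpos u
        show ((sd γ e α t).c u * (sd γ e α t).p u) ^ 2 ≤ (sd γ e α t).p u ^ 2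
        rw [mul_pow]
        have h4 : (sd γ e α t).c u ^ 2 ≤ 1 := by nlinarith
        nlinarith [sq_nonneg ((sd γ e α t).p u)]) u
    exact abs_le_of_sq_le_sq (h1.trans hm.hSo) hm.So.le

/-- weaker bounds, smaller interval -/
theorem lab_mono {γ e : ℝ → ℝ → ℂ} {α : ℝ → ℝ → ℝ} {a b a' b' W S W' S' : ℝ} (h : Lab γ e α a b W S)
    (ha : a ≤ a') (hb : b' ≤ b) (hW : ∀ t ∈ Set.Icc a' b', ∀ u, |(sd γ e α t).w u| ≤ W')
    (hS : ∀ t ∈ Set.Icc a' b', ∀ u, |(sd γ e α t).s u| ≤ S') : Lab γ e α a' b' W' S' := by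
  have hsub : ∀ t ∈ Set.Icc a' b', t ∈ Set.Icc a b := fun t ht => ⟨ha.trans ht.1, ht.2.trans hb⟩
  exact ⟨h.cont.mono (Set.prod_mono subset_rfl hsub), fun t ht => h.per t (hsub t ht),
    fun t ht => h.foot t (hsub t ht), hW, hS, fun t ht => h.c_pos t (hsub t ht)⟩

/-- EM-11: one time interval -/
theorem one_interval {γ e : ℝ → ℝ → ℂ} {T a b Wi Si : ℝ} {n : SNum ℝ} {m : INum ℝ}
    {A A' B B' C C' : ℝ → ℝ → ℝ} {Lam y y' : ℝ → ℝ} (hγ : IsFlow γ T) (ha : 0 ≤ a) (hab : a < b)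
    (hbT : b < T) (hn : n.Ok) (hm : m.Ok n) (hp : Piece e a b n A A' B B' C C' Lam m.Lp)
    (hlen : b - a ≤ m.len)
    (hy : ∀ t ∈ Set.Icc a b, HasDerivAt y (y' t) t) (hy' : ∀ t ∈ Set.Icc a b, Lam t + n.Lr < y' t)
    (hy0 : y a = 0) (hy'0 : ∀ t ∈ Set.Icc a b, 0 ≤ y' t) (hyb : y b ≤ m.Y)
    (hLb : ∀ t ∈ Set.Icc a b, Lam t + n.Lr ≤ m.Lb) (hWi : Wi ≤ n.W / 2) (hSi : Si ≤ n.S / 2)
    (hs : State γ e a Wi Si m.n0 m.e0) :
    State γ e b m.Wo m.So m.N m.e1 := by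

  obtain ⟨⟨α0, hα0, hX0⟩, hE0⟩ := hs
  have hcmp : ∀ {α : ℝ → ℝ → ℝ} {b' : ℝ}, a ≤ b' → b' ≤ b → Lab γ e α a b' n.W n.S →
      Cmp γ e α T a b' n.W n.S n.b0 := fun h1 h2 h3 =>
    ⟨hγ, ⟨hp.fam.smooth, hp.fam.per, fun t ht => hp.fam.imm t ⟨ht.1, ht.2.trans h2⟩⟩, h3, ha, h1,
      h2.trans_lt hbT, hn.b0, fun t ht => hp.K_le t ⟨ht.1, ht.2.trans h2⟩, hn.W.le, hn.bW, hn.S1⟩
  have hX : ∀ {α : ℝ → ℝ → ℝ}, (∀ u, α u a = α0 u a) → (sd γ e α a).X2 ≤ m.n0 ^ 2 := by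
    intro α h
    have h1 : (fun u => α u a) = fun u => α0 u a := funext h
    have h2 : sd γ e α a = sd γ e α0 a := by
      unfold sd
      rw [h1]
    rw [h2]
    exact hX0
  have hap : ∀ {α : ℝ → ℝ → ℝ} {b' : ℝ}, a ≤ b' → b' ≤ b → Lab γ e α a b' n.W n.S →
      (∀ u, α u a = α0 u a) → ∀ t ∈ Set.Icc a b', (sd γ e α t).X2 ≤ m.N ^ 2 ∧
      iW γ t ≤ En2 (sl e t) + m.e1 ∧ (∀ u, |(sd γ e α t).w u| ≤ m.Wo) ∧
      (∀ u, |(sd γ e α t).s u| ≤ m.So) := fun h1 h2 h3 h4 =>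
    apriori hn hm hp (hcmp h1 h2 h3) h2 hlen hy hy' hy0 hy'0 hyb hLb (hX h4) hE0
  obtain ⟨τ, hτ, hext⟩ := extend hγ hp.fam ha hab hbT hn.W hn.S hn.S1 hn.b0 hp.K_le hn.bW
  have hind : ∀ k : ℕ, ∃ α : ℝ → ℝ → ℝ,
      Lab γ e α a (min (a + k * τ) b) (n.W / 2) (n.S / 2) ∧ ∀ u, α u a = α0 u a := by
    intro k
    induction k with
    | zero =>
      refine ⟨α0, ?_, fun u => rfl⟩
      have h1 : min (a + ((0 : ℕ) : ℝ) * τ) b = a := by
        rw [Nat.cast_zero, zero_mul, add_zero]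
        exact min_eq_left hab.le
      rw [h1]
      exact lab_mono hα0 le_rfl le_rfl (fun t ht u => (hα0.w_le t ht u).trans hWi)
        fun t ht u => (hα0.s_le t ht u).trans hSi
    | succ k ih =>
      obtain ⟨α, hα, hα1⟩ := ih
      have hk : 0 ≤ (k : ℝ) * τ := mul_nonneg (Nat.cast_nonneg k) hτ.le
      have ht1 : min (a + k * τ) b ∈ Set.Icc a b := ⟨le_min (by linarith) hab.le, min_le_right _ _⟩
      obtain ⟨α', hα', hag⟩ := hext _ ht1 α hα
      have e1 : min (min (a + k * τ) b + τ) b = min (a + ((k + 1 : ℕ) : ℝ) * τ) b := by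
        have e2 : a + ((k + 1 : ℕ) : ℝ) * τ = a + k * τ + τ := by
          push_cast
          ring
        rw [e2]
        rcases le_total (a + k * τ) b with h | h
        · rw [min_eq_left h]
        · rw [min_eq_right h, min_eq_right (by linarith), min_eq_right (by linarith)]
      rw [e1] at hα'
      have hk1 : 0 ≤ ((k + 1 : ℕ) : ℝ) * τ := mul_nonneg (Nat.cast_nonneg _) hτ.le
      have h1 : a ≤ min (a + ((k + 1 : ℕ) : ℝ) * τ) b := le_min (by linarith) hab.le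
      have hα2 : ∀ u, α' u a = α0 u a := fun u => (hag a ⟨le_rfl, ht1.1⟩ u).trans (hα1 u)
      have h2 := hap h1 (min_le_right _ _) hα' hα2
      exact ⟨α', lab_mono hα' le_rfl le_rfl (fun t ht u => ((h2 t ht).2.2.1 u).trans hm.hW)
        fun t ht u => ((h2 t ht).2.2.2 u).trans hm.hS, hα2⟩
  obtain ⟨k, hk⟩ := exists_nat_ge ((b - a) / τ)
  obtain ⟨α, hα, hα1⟩ := hind k
  have e1 : min (a + (k : ℝ) * τ) b = b := by
    rw [div_le_iff₀ hτ] at hk
    exact min_eq_right (by linarith)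
  rw [e1] at hα
  have hα3 : Lab γ e α a b n.W n.S :=
    lab_mono hα le_rfl le_rfl
      (fun t ht u => (hα.w_le t ht u).trans (by linarith [hn.W]))
      fun t ht u => (hα.s_le t ht u).trans (by linarith [hn.S])
  have hfin := hap hab.le le_rfl hα3 hα1 b ⟨hab.le, le_rfl⟩
  refine ⟨⟨α, lab_mono hα3 hab.le le_rfl ?_ ?_, hfin.1⟩, hfin.2.1⟩
  · intro t ht u
    have : t = b := le_antisymm ht.2 ht.1
    rw [this]
    exact hfin.2.2.1 u
  · intro t ht u
    have : t = b := le_antisymm ht.2 ht.1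
    rw [this]
    exact hfin.2.2.2 u

/-- the state at time `0` -/
theorem state_zero {γ e : ℝ → ℝ → ℂ} {T b W S N e1 : ℝ} (hγ : IsFlow γ T) (hT : 0 < T) (he : Fam e 0 b)
    (hb : 0 ≤ b) (h0 : ∀ u, γ u 0 = e (2 * π * u) 0) (hW : 0 ≤ W) (hS : 0 ≤ S) (he1 : 0 ≤ e1) :
    State γ e 0 W S N e1 := by

  have hc : Ref (resc e) 0 b := ref_resc he.smooth he.per he.imm
  have h00 : (0 : ℝ) ∈ Set.Icc 0 b := ⟨le_rfl, hb⟩
  have hsl : sl γ 0 = sl (resc e) 0 := funext fun u => h0 u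
  have hT1 : ∀ u, tang (sl γ 0) u = tang (sl e 0) (2 * π * u) := fun u => by
    rw [hsl]
    exact fT_resc u 0
  have hTT : ∀ u, tang (sl e 0) (2 * π * u) * (starRingEnd ℂ) (tang (sl e 0) (2 * π * u)) = 1 := by
    intro u
    have h1 := hc.TT h00 u
    rwa [fT_resc] at h1
  have t0 : ∀ t ∈ Set.Icc (0 : ℝ) 0, t = 0 := fun t ht => le_antisymm ht.2 ht.1
  have hw0 : ∀ u, γ u 0 - e (2 * π * u) 0 = 0 := fun u => sub_eq_zero.2 (h0 u)
  have hin : ∀ u, ⟪tang (sl e 0) (2 * π * u), tang (sl e 0) (2 * π * u)⟫_ℝ = 1 := by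
    intro u
    rw [real_inner_self_eq_norm_sq, norm_one_of (hTT u), one_pow]
  have hin2 : ∀ z : ℂ, ⟪z, Complex.I * z⟫_ℝ = 0 := by
    intro z
    rw [Complex.inner]
    simp only [Complex.mul_re, Complex.conj_re, Complex.conj_im, Complex.mul_im, Complex.I_re,
      Complex.I_im]
    ring
  refine ⟨⟨fun u _ => 2 * π * u, ⟨?_, ?_, ?_, ?_, ?_, ?_⟩, ?_⟩, ?_⟩
  · fun_prop
  · intro t _ u
    ring
  · intro t ht u
    rw [t0 t ht, hw0, inner_zero_left]
  · intro t ht u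
    rw [t0 t ht, hw0, inner_zero_left, abs_zero]
    exact hW
  · intro t ht u
    rw [t0 t ht, hT1]
    show |⟪_, Complex.I * _⟫_ℝ| ≤ S
    rw [hin2, abs_zero]
    exact hS
  · intro t ht u
    rw [t0 t ht, hT1, hin]
    exact one_pos
  · have h1 : (sd γ e (fun u _ => 2 * π * u) 0).X2 = 0 := by
      have e1 : ∀ u, (sd γ e (fun u _ => 2 * π * u) 0).w u = 0 := by
        intro u
        show ⟪γ u 0 - e (2 * π * u) 0, _⟫_ℝ = _
        rw [hw0, inner_zero_left]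
      unfold SD.X2 SD.I
      simp only [e1]
      simp
    rw [h1]
    exact sq_nonneg _
  · have h1 : iW γ 0 = En2 (sl e 0) := by
      unfold iW En2
      have e1 : ∀ u, fk γ u 0 ^ 2 * fv γ u 0 =
          2 * π * (curv (sl e 0) (2 * π * u) ^ 2 * speed (sl e 0) (2 * π * u)) := by
        intro u
        have e2 : fk γ u 0 = fk (resc e) u 0 := by
          show curv (sl γ 0) u = _
          rw [hsl]
          rfl
        have e3 : fv γ u 0 = fv (resc e) u 0 := by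
          show speed (sl γ 0) u = _
          rw [hsl]
          rfl
        rw [e2, e3, fk_resc, fv_resc]
        ring
      simp only [e1]
      rw [intervalIntegral.integral_const_mul]
      have h2 := intervalIntegral.mul_integral_comp_mul_left
        (f := fun θ => curv (sl e 0) θ ^ 2 * speed (sl e 0) θ) (a := 0) (b := 1) (2 * π)
      rw [mul_zero, mul_one] at h2
      exact h2
    rw [h1]
    linarith

/-- the state passes to the next explicit piece if both are equal at the time `t` -/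
theorem State.next {γ e e' : ℝ → ℝ → ℂ} {t W S N e1 : ℝ} (h : State γ e t W S N e1)
    (he : ∀ θ, e θ t = e' θ t) : State γ e' t W S N e1 := by

  have hsl : sl e t = sl e' t := funext he
  obtain ⟨⟨α, hα, hX⟩, hE⟩ := h
  have hsd : sd γ e α t = sd γ e' α t := by
    unfold sd
    rw [hsl]
  have tt : ∀ t' ∈ Set.Icc t t, t' = t := fun t' ht' => le_antisymm ht'.2 ht'.1
  have h0 : t ∈ Set.Icc t t := ⟨le_rfl, le_rfl⟩
  refine ⟨⟨α, ⟨hα.cont, hα.per, ?_, ?_, ?_, ?_⟩, hsd ▸ hX⟩, hsl ▸ hE⟩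
  · intro t' ht' u
    rw [tt t' ht', ← hsl, ← he]
    exact hα.foot t h0 u
  · intro t' ht' u
    rw [tt t' ht', ← hsl, ← he]
    exact hα.w_le t h0 u
  · intro t' ht' u
    rw [tt t' ht', ← hsl]
    exact hα.s_le t h0 u
  · intro t' ht' u
    rw [tt t' ht', ← hsl]
    exact hα.c_pos t h0 u

/-- conclusion from the state: the curve is near the explicit curve -/
theorem State.near {γ e : ℝ → ℝ → ℂ} {T t W S N e1 : ℝ} (hγ : IsFlow γ T) (ht : t ∈ Set.Ico 0 T)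
    (he : Fam e t t) (h : State γ e t W S N e1) : ∀ u, ∃ θ, ‖γ u t - e θ t‖ ≤ W := by

  obtain ⟨⟨α, hα, hX⟩, hE⟩ := h
  have h0 : t ∈ Set.Icc t t := ⟨le_rfl, le_rfl⟩
  intro u
  have hTT : tang (sl e t) (α u t) * (starRingEnd ℂ) (tang (sl e t) (α u t)) = 1 :=
    tang_mul_conj (he.imm t h0 (α u t))
  refine ⟨α u t, ?_⟩
  rw [decomp hTT (hα.foot t h0 u), norm_mul, norm_mul, Complex.norm_I, one_mul, norm_one_of hTT,
    mul_one, Complex.norm_real, Real.norm_eq_abs]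
  exact hα.w_le t h0 u

end Pool.Agent.EM
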