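import Pool.Agent.EM.XFacts

/-!
# EM-12: curvature of an almost unit speed curve (fixed time)

`f θ = l C θ`.  With `B = |C'|^2`, `β = √B`, `A = Im (conj C' C'')`:
`speed f = l β`, `curv f = A β^(-3) / l` (for `f' = l C'`, `f'' = l C''`: `curv = Im (conj f' f'') / |f'|^3`; see
`EL/Curve.lean`, `curv_eq`, or compute `curv` from the definition), `dsR f g = g' / (l β)`.
`|β - 1| ≤ 0.51 eB` (as `|B - 1| ≤ eB ≤ 1/1000`), `β' = B'/(2β)`, `β'' = B''/(2β) - B'^2/(4β^3)`, so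
`|β'|, |β''| ≤ 0.52 eB`.
`l κ = A β^(-3)`; `l^2 κ1 = β^(-1) (A β^(-3))' = A' β^(-4) - 3 A β^(-5) β'`;
`l^3 κ2 = β^(-1)(..)' = A'' β^(-5) - 7 A' β^(-6) β' - 3 A β^(-6) β'' + 15 A β^(-7) β'^2`.
Hence the errors are at most `2 eA0 + 2 eB0 k0`, `2 eA1 + 3 eB0 k1 + 2 eB1 k0`,
`2 eA2 + 3 eB0 k2 + 4 eB1 k1 + eB1 k0 + 2 eB2 k0` (products of errors are absorbed).
Work with `HasDerivAt` of `β = √B` (`B > 0`), and of `β⁻¹`.
-/

set_option autoImplicit false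

open scoped Real ContDiff InnerProductSpace ComplexConjugate
open MeasureTheory

namespace Pool.Agent.EM

open Pool.Agent.helper19.EL

private theorem EM12_prod {x y a b : ℝ} (hx : |x| ≤ a) (hy : |y| ≤ b) : |x * y| ≤ a * b := by
  rw [abs_mul]
  exact mul_le_mul hx hy (abs_nonneg _) ((abs_nonneg _).trans hx)

/-- powers of `r = B ^ (-1/2)` -/
private theorem EM12_pow {B r eB : ℝ} (hr : 0 < r) (hrB : r ^ 2 * B = 1) (heB : 0 ≤ eB)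
    (heB1 : eB ≤ 1 / 1000) (hB : |B - 1| ≤ eB) :
    |r - 1| ≤ 51 / 100 * eB ∧ r ≤ 1001 / 1000 := by
  have h := abs_le.mp hB
  have hr2 : 0 < r ^ 2 := by positivity
  have h1 : r ^ 2 ≤ 1000 / 999 := by nlinarith
  have h2 : 1000 / 1001 ≤ r ^ 2 := by nlinarith
  have h3 : r ≤ 1001 / 1000 := by nlinarith
  have h4 : 999 / 1000 ≤ r := by nlinarith
  refine ⟨?_, h3⟩
  have h5 : (r - 1) * (r + 1) = (1 - B) * r ^ 2 := by linear_combination hrB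
  have h6 : |r - 1| * (r + 1) ≤ eB * (1000 / 999) := by
    have h7 : |(r - 1) * (r + 1)| ≤ eB * (1000 / 999) := by
      rw [h5]
      refine EM12_prod ?_ ?_
      · rw [abs_sub_comm]; exact hB
      · rw [abs_of_pos hr2]; exact h1
    rw [abs_mul, abs_of_pos (by linarith : (0 : ℝ) < r + 1)] at h7
    exact h7
  have h8 : |r - 1| * (1999 / 1000) ≤ |r - 1| * (r + 1) :=
    mul_le_mul_of_nonneg_left (by linarith) (abs_nonneg _)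
  nlinarith [abs_nonneg (r - 1)]

private theorem EM12_pows {r eB : ℝ} (hr : 0 < r) (heB : 0 ≤ eB)
    (h1 : |r - 1| ≤ 51 / 100 * eB) (h2 : r ≤ 1001 / 1000) :
    |r ^ 3 - 1| ≤ 16 / 10 * eB ∧ |r ^ 4 - 1| ≤ 21 / 10 * eB ∧ |r ^ 5 - 1| ≤ 26 / 10 * eB ∧
      |r ^ 3| ≤ 101 / 100 ∧ |r ^ 4| ≤ 101 / 100 ∧ |r ^ 5| ≤ 101 / 100 ∧ |r ^ 6| ≤ 101 / 100 ∧
      |r ^ 7| ≤ 101 / 100 ∧ |r ^ 9| ≤ 101 / 100 := by
  have hp : ∀ n : ℕ, n ≤ 9 → r ^ n ≤ 101 / 100 := by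
    intro n hn
    have a1 : r ^ n ≤ (1001 / 1000 : ℝ) ^ n := pow_le_pow_left₀ hr.le h2 n
    have a2 : (1001 / 1000 : ℝ) ^ n ≤ (1001 / 1000 : ℝ) ^ 9 :=
      pow_le_pow_right₀ (by norm_num) hn
    have a3 : (1001 / 1000 : ℝ) ^ 9 ≤ 101 / 100 := by norm_num
    linarith
  have hq : ∀ n : ℕ, n ≤ 9 → |r ^ n| ≤ 101 / 100 := by
    intro n hn
    rw [abs_of_pos (pow_pos hr n)]
    exact hp n hn
  refine ⟨?_, ?_, ?_, hq 3 (by norm_num), hq 4 (by norm_num), hq 5 (by norm_num),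
    hq 6 (by norm_num), hq 7 (by norm_num), hq 9 (by norm_num)⟩
  · have e : r ^ 3 - 1 = (r - 1) * (r ^ 2 + r + 1) := by ring
    rw [e]
    refine (EM12_prod (b := 302 / 100) h1 ?_).trans (by linarith)
    rw [abs_of_pos (by positivity)]
    linarith [hp 2 (by norm_num)]
  · have e : r ^ 4 - 1 = (r - 1) * (r ^ 3 + r ^ 2 + r + 1) := by ring
    rw [e]
    refine (EM12_prod (b := 403 / 100) h1 ?_).trans (by linarith)
    rw [abs_of_pos (by positivity)]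
    linarith [hp 2 (by norm_num), hp 3 (by norm_num)]
  · have e : r ^ 5 - 1 = (r - 1) * (r ^ 4 + r ^ 3 + r ^ 2 + r + 1) := by ring
    rw [e]
    refine (EM12_prod (b := 504 / 100) h1 ?_).trans (by linarith)
    rw [abs_of_pos (by positivity)]
    linarith [hp 2 (by norm_num), hp 3 (by norm_num), hp 4 (by norm_num)]

private theorem EM12_err {r eB0 eB1 eB2 eA0 eA1 eA2 k0 k1 k2 A A' A'' B' B'' K K' K'' : ℝ}
    (hr : 0 < r) (heB : 0 ≤ eB0) (heB01 : eB0 ≤ eB1) (heB12 : eB1 ≤ eB2) (heB2 : eB2 ≤ 1 / 1000)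
    (heA : 0 ≤ eA0) (heA01 : eA0 ≤ eA1) (heA12 : eA1 ≤ eA2) (hk0 : 1 ≤ k0)
    (h1 : |r - 1| ≤ 51 / 100 * eB0) (h2 : r ≤ 1001 / 1000)
    (hA0 : |A - K| ≤ eA0) (hA1 : |A' - K'| ≤ eA1) (hA2 : |A'' - K''| ≤ eA2)
    (hB1 : |B'| ≤ eB1) (hB2 : |B''| ≤ eB2) (hK : |K| ≤ k0) (hK1 : |K'| ≤ k1) (hK2 : |K''| ≤ k2) :
    |A * r ^ 3 - K| ≤ 2 * eA0 + 2 * eB0 * k0 ∧
    |A' * r ^ 4 - 3 / 2 * A * B' * r ^ 6 - K'| ≤ 2 * eA1 + 3 * eB0 * k1 + 2 * eB1 * k0 ∧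
    |A'' * r ^ 5 - 7 / 2 * A' * B' * r ^ 7 - 3 / 2 * A * B'' * r ^ 7 + 9 / 2 * A * B' ^ 2 * r ^ 9 - K''| ≤
      2 * eA2 + 3 * eB0 * k2 + 4 * eB1 * k1 + eB1 * k0 + 2 * eB2 * k0 := by
  obtain ⟨p3, p4, p5, q3, q4, q5, q6, q7, q9⟩ := EM12_pows hr heB h1 h2
  have heB1 : 0 ≤ eB1 := heB.trans heB01
  have heB2' : 0 ≤ eB2 := heB1.trans heB12
  have heA1 : 0 ≤ eA1 := heA.trans heA01
  have hk1 : 0 ≤ k1 := (abs_nonneg _).trans hK1
  have hk2 : 0 ≤ k2 := (abs_nonneg _).trans hK2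
  have hAa : |A| ≤ k0 + eA0 := by
    have : A = K + (A - K) := by ring
    rw [this]
    exact (abs_add_le _ _).trans (add_le_add hK hA0)
  have hAb : |A'| ≤ k1 + eA1 := by
    have : A' = K' + (A' - K') := by ring
    rw [this]
    exact (abs_add_le _ _).trans (add_le_add hK1 hA1)
  have m0 : 0 ≤ eB0 * k0 := by positivity
  have m1 : 0 ≤ eB0 * k1 := by positivity
  have m2 : 0 ≤ eB0 * k2 := by positivity
  have m3 : 0 ≤ eB1 * k0 := by positivity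
  have m4 : 0 ≤ eB1 * k1 := by positivity
  have m5 : 0 ≤ eB2 * k0 := by positivity
  have n1 : eB1 * eA0 ≤ 1 / 1000 * eA0 := mul_le_mul_of_nonneg_right (heB12.trans heB2) heA
  have n2 : eB1 * eA1 ≤ 1 / 1000 * eA1 := mul_le_mul_of_nonneg_right (heB12.trans heB2) heA1
  have n3 : eB2 * eA0 ≤ 1 / 1000 * eA0 := mul_le_mul_of_nonneg_right heB2 heA
  refine ⟨?_, ?_, ?_⟩
  · have e : A * r ^ 3 - K = (A - K) * r ^ 3 + K * (r ^ 3 - 1) := by ring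
    rw [e]
    have b1 := EM12_prod hA0 q3
    have b2 := EM12_prod hK p3
    have b3 := abs_add_le ((A - K) * r ^ 3) (K * (r ^ 3 - 1))
    linarith
  · have e : A' * r ^ 4 - 3 / 2 * A * B' * r ^ 6 - K' =
        (A' - K') * r ^ 4 + K' * (r ^ 4 - 1) + -(3 / 2 * (A * B' * r ^ 6)) := by ring
    rw [e]
    have b1 := EM12_prod hA1 q4
    have b2 := EM12_prod hK1 p4
    have b3 := EM12_prod (EM12_prod hAa hB1) q6
    have c1 := abs_add_le ((A' - K') * r ^ 4 + K' * (r ^ 4 - 1)) (-(3 / 2 * (A * B' * r ^ 6)))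
    have c2 := abs_add_le ((A' - K') * r ^ 4) (K' * (r ^ 4 - 1))
    rw [abs_neg, abs_mul, abs_of_pos (by norm_num : (0 : ℝ) < 3 / 2)] at c1
    linarith
  · have e : A'' * r ^ 5 - 7 / 2 * A' * B' * r ^ 7 - 3 / 2 * A * B'' * r ^ 7 +
        9 / 2 * A * B' ^ 2 * r ^ 9 - K'' =
        ((A'' - K'') * r ^ 5 + K'' * (r ^ 5 - 1)) + (-(7 / 2 * (A' * B' * r ^ 7)) +
        (-(3 / 2 * (A * B'' * r ^ 7)) + 9 / 2 * (A * (B' * B') * r ^ 9))) := by ring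
    rw [e]
    have b1 := EM12_prod hA2 q5
    have b2 := EM12_prod hK2 p5
    have b3 := EM12_prod (EM12_prod hAb hB1) q7
    have b4 := EM12_prod (EM12_prod hAa hB2) q7
    have b5 := EM12_prod (EM12_prod hAa (EM12_prod hB1 hB1)) q9
    have c1 := abs_add_le ((A'' - K'') * r ^ 5 + K'' * (r ^ 5 - 1)) (-(7 / 2 * (A' * B' * r ^ 7)) +
        (-(3 / 2 * (A * B'' * r ^ 7)) + 9 / 2 * (A * (B' * B') * r ^ 9)))
    have c2 := abs_add_le ((A'' - K'') * r ^ 5) (K'' * (r ^ 5 - 1))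
    have c3 := abs_add_le (-(7 / 2 * (A' * B' * r ^ 7)))
        (-(3 / 2 * (A * B'' * r ^ 7)) + 9 / 2 * (A * (B' * B') * r ^ 9))
    have c4 := abs_add_le (-(3 / 2 * (A * B'' * r ^ 7))) (9 / 2 * (A * (B' * B') * r ^ 9))
    rw [abs_neg, abs_mul, abs_of_pos (by norm_num : (0 : ℝ) < 7 / 2)] at c3
    have c5 : |-(3 / 2 * (A * B'' * r ^ 7))| = 3 / 2 * |A * B'' * r ^ 7| := by
      rw [abs_neg, abs_mul, abs_of_pos (by norm_num : (0 : ℝ) < 3 / 2)]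
    have c6 : |9 / 2 * (A * (B' * B') * r ^ 9)| = 9 / 2 * |A * (B' * B') * r ^ 9| := by
      rw [abs_mul, abs_of_pos (by norm_num : (0 : ℝ) < 9 / 2)]
    rw [c5, c6] at c4
    have d1 : (k0 + eA0) * (eB1 * eB1) ≤ 1 / 1000 * (eB1 * k0 + eB1 * eA0) := by
      have : (k0 + eA0) * (eB1 * eB1) = eB1 * (eB1 * k0 + eB1 * eA0) := by ring
      rw [this]
      exact mul_le_mul_of_nonneg_right (heB12.trans heB2) (by positivity)
    linarith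

/-- derivative of `B ^ (-1/2)` -/
private theorem EM12_r {B : ℝ → ℝ} {B' θ : ℝ} (hB : HasDerivAt B B' θ) (hpos : 0 < B θ) :
    HasDerivAt (fun θ => (Real.sqrt (B θ))⁻¹) (-(1 / 2) * B' * ((Real.sqrt (B θ))⁻¹) ^ 3) θ := by
  have h1 := (hB.sqrt hpos.ne').inv (Real.sqrt_pos.mpr hpos).ne'
  have hs := (Real.sqrt_pos.mpr hpos).ne'
  refine h1.congr_deriv ?_
  field_simp

theorem geo {C : ℝ → ℂ} {K : ℝ → ℝ} {l eB0 eB1 eB2 eA0 eA1 eA2 k0 k1 k2 : ℝ} (hC : ContDiff ℝ ∞ C)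
    (hK : ContDiff ℝ ∞ K) (hl : 0 < l) (heB : 0 ≤ eB0) (heB01 : eB0 ≤ eB1) (heB12 : eB1 ≤ eB2)
    (heB2 : eB2 ≤ 1 / 1000) (heA : 0 ≤ eA0) (heA01 : eA0 ≤ eA1) (heA12 : eA1 ≤ eA2) (heA2 : eA2 ≤ 1 / 1000)
    (hk0 : 1 ≤ k0)
    (B0 : ∀ θ, |‖deriv C θ‖ ^ 2 - 1| ≤ eB0)
    (B1 : ∀ θ, |deriv (fun θ => ‖deriv C θ‖ ^ 2) θ| ≤ eB1)
    (B2 : ∀ θ, |deriv (deriv fun θ => ‖deriv C θ‖ ^ 2) θ| ≤ eB2)
    (A0 : ∀ θ, |(conj (deriv C θ) * deriv (deriv C) θ).im - K θ| ≤ eA0)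
    (A1 : ∀ θ, |deriv (fun θ => (conj (deriv C θ) * deriv (deriv C) θ).im) θ - deriv K θ| ≤ eA1)
    (A2 : ∀ θ, |deriv (deriv fun θ => (conj (deriv C θ) * deriv (deriv C) θ).im) θ - deriv (deriv K) θ| ≤ eA2)
    (hk : ∀ θ, |K θ| ≤ k0) (hk1 : ∀ θ, |deriv K θ| ≤ k1) (hk2 : ∀ θ, |deriv (deriv K) θ| ≤ k2) :
    (∀ θ, deriv (fun θ => (l : ℂ) * C θ) θ ≠ 0) ∧
    (∀ θ, speed (fun θ => (l : ℂ) * C θ) θ = l * ‖deriv C θ‖) ∧
    (∀ θ, curv (fun θ => (l : ℂ) * C θ) θ =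
      (conj (deriv C θ) * deriv (deriv C) θ).im / ‖deriv C θ‖ ^ 3 / l) ∧
    (∀ θ, |l * curv (fun θ => (l : ℂ) * C θ) θ - K θ| ≤ 2 * eA0 + 2 * eB0 * k0) ∧
    (∀ θ, |l ^ 2 * dsR (fun θ => (l : ℂ) * C θ) (curv (fun θ => (l : ℂ) * C θ)) θ - deriv K θ| ≤
      2 * eA1 + 3 * eB0 * k1 + 2 * eB1 * k0) ∧
    (∀ θ, |l ^ 3 * dsR (fun θ => (l : ℂ) * C θ) (dsR (fun θ => (l : ℂ) * C θ)
      (curv (fun θ => (l : ℂ) * C θ))) θ - deriv (deriv K) θ| ≤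
      2 * eA2 + 3 * eB0 * k2 + 4 * eB1 * k1 + eB1 * k0 + 2 * eB2 * k0) := by
  have _ := hK
  have _ := heA2
  -- smoothness
  have sC1 : ContDiff ℝ ∞ (deriv C) := (contDiff_infty_iff_deriv.mp hC).2
  have sC2 : ContDiff ℝ ∞ (deriv (deriv C)) := (contDiff_infty_iff_deriv.mp sC1).2
  set B : ℝ → ℝ := fun θ => ‖deriv C θ‖ ^ 2 with hBdef
  set A : ℝ → ℝ := fun θ => (conj (deriv C θ) * deriv (deriv C) θ).im with hAdef
  have sB : ContDiff ℝ ∞ B := sC1.norm_sq ℝ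
  have sA : ContDiff ℝ ∞ A := by
    have h1 : ContDiff ℝ ∞ (fun θ => conj (deriv C θ)) := Complex.conjCLE.contDiff.comp sC1
    exact Complex.imCLM.contDiff.comp (h1.mul sC2)
  have sB1 : ContDiff ℝ ∞ (deriv B) := (contDiff_infty_iff_deriv.mp sB).2
  have sA1 : ContDiff ℝ ∞ (deriv A) := (contDiff_infty_iff_deriv.mp sA).2
  have dC : ∀ θ, HasDerivAt C (deriv C θ) θ := fun θ =>
    ((contDiff_infty_iff_deriv.mp hC).1 θ).hasDerivAt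
  have dC1 : ∀ θ, HasDerivAt (deriv C) (deriv (deriv C) θ) θ := fun θ =>
    ((contDiff_infty_iff_deriv.mp sC1).1 θ).hasDerivAt
  have dB : ∀ θ, HasDerivAt B (deriv B θ) θ := fun θ =>
    ((contDiff_infty_iff_deriv.mp sB).1 θ).hasDerivAt
  have dB1 : ∀ θ, HasDerivAt (deriv B) (deriv (deriv B) θ) θ := fun θ =>
    ((contDiff_infty_iff_deriv.mp sB1).1 θ).hasDerivAt
  have dA : ∀ θ, HasDerivAt A (deriv A θ) θ := fun θ =>
    ((contDiff_infty_iff_deriv.mp sA).1 θ).hasDerivAt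
  have dA1 : ∀ θ, HasDerivAt (deriv A) (deriv (deriv A) θ) θ := fun θ =>
    ((contDiff_infty_iff_deriv.mp sA1).1 θ).hasDerivAt
  have Bpos : ∀ θ, 0 < B θ := by
    intro θ
    have := abs_le.mp (B0 θ)
    have hB1' : eB0 ≤ 1 / 1000 := heB01.trans (heB12.trans heB2)
    change 0 < ‖deriv C θ‖ ^ 2
    linarith
  have hβ : ∀ θ, ‖deriv C θ‖ = Real.sqrt (B θ) := fun θ =>
    (Real.sqrt_sq (norm_nonneg (deriv C θ))).symm
  have βpos : ∀ θ, 0 < ‖deriv C θ‖ := fun θ => by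
    rw [hβ]; exact Real.sqrt_pos.mpr (Bpos θ)
  set r : ℝ → ℝ := fun θ => (‖deriv C θ‖)⁻¹ with hrdef
  have rpos : ∀ θ, 0 < r θ := fun θ => inv_pos.mpr (βpos θ)
  have rB : ∀ θ, r θ ^ 2 * B θ = 1 := by
    intro θ
    have := (βpos θ).ne'
    change (‖deriv C θ‖)⁻¹ ^ 2 * ‖deriv C θ‖ ^ 2 = 1
    field_simp
  have hr' : r = fun θ => (Real.sqrt (B θ))⁻¹ := by
    funext θ
    change (‖deriv C θ‖)⁻¹ = _
    rw [hβ]
  have dr : ∀ θ, HasDerivAt r (-(1 / 2) * deriv B θ * (r θ) ^ 3) θ := by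
    intro θ
    rw [hr']
    exact EM12_r (dB θ) (Bpos θ)
  -- the curve
  have hlC : (l : ℂ) ≠ 0 := by exact_mod_cast hl.ne'
  have df : ∀ θ, deriv (fun θ => (l : ℂ) * C θ) θ = (l : ℂ) * deriv C θ := fun θ =>
    ((dC θ).const_mul (l : ℂ)).deriv
  have hne : ∀ θ, deriv C θ ≠ 0 := fun θ => norm_pos_iff.mp (βpos θ)
  have hsp : ∀ θ, speed (fun θ => (l : ℂ) * C θ) θ = l * ‖deriv C θ‖ := by
    intro θ
    unfold speed
    rw [df, norm_mul, Complex.norm_real, Real.norm_of_nonneg hl.le]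
  have htang : tang (fun θ => (l : ℂ) * C θ) = fun θ => (r θ : ℂ) * deriv C θ := by
    funext θ
    unfold tang dsC
    rw [df, hsp]
    have h1 : (‖deriv C θ‖ : ℂ) ≠ 0 := by exact_mod_cast (βpos θ).ne'
    simp only [hrdef]
    push_cast
    field_simp
  have dtang : ∀ θ, HasDerivAt (tang (fun θ => (l : ℂ) * C θ))
      (((-(1 / 2) * deriv B θ * (r θ) ^ 3 : ℝ) : ℂ) * deriv C θ + (r θ : ℂ) * deriv (deriv C) θ) θ := by
    intro θ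
    rw [htang]
    exact (dr θ).ofReal_comp.mul (dC1 θ)
  have hcurv : ∀ θ, curv (fun θ => (l : ℂ) * C θ) θ = A θ * r θ ^ 3 / l := by
    intro θ
    rw [curv_eq, (dtang θ).deriv, htang, hsp]
    have h1 : ((((-(1 / 2) * deriv B θ * (r θ) ^ 3 : ℝ) : ℂ) * deriv C θ +
        (r θ : ℂ) * deriv (deriv C) θ) * conj ((r θ : ℂ) * deriv C θ)).im = r θ ^ 2 * A θ := by
      rw [map_mul, Complex.conj_ofReal]
      simp only [hAdef, Complex.add_re, Complex.add_im, Complex.mul_re, Complex.mul_im,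
        Complex.ofReal_re, Complex.ofReal_im, Complex.conj_re, Complex.conj_im]
      ring
    rw [h1]
    have h2 : ‖deriv C θ‖ = (r θ)⁻¹ := by simp [hrdef]
    rw [h2]
    have := (rpos θ).ne'
    field_simp
  have hcurvf : curv (fun θ => (l : ℂ) * C θ) = fun θ => A θ * r θ ^ 3 / l := funext hcurv
  have hds : ∀ (g : ℝ → ℝ) (θ : ℝ), dsR (fun θ => (l : ℂ) * C θ) g θ = deriv g θ * r θ / l := by
    intro g θ
    unfold dsR
    rw [hsp]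
    have h2 : ‖deriv C θ‖ = (r θ)⁻¹ := by simp [hrdef]
    rw [h2]
    have := (rpos θ).ne'
    field_simp
  have h1 : ∀ θ, dsR (fun θ => (l : ℂ) * C θ) (curv (fun θ => (l : ℂ) * C θ)) θ =
      (deriv A θ * r θ ^ 4 - 3 / 2 * A θ * deriv B θ * r θ ^ 6) / l ^ 2 := by
    intro θ
    rw [hds, hcurvf]
    have h := (((dA θ).mul ((dr θ).pow 3)).div_const l).deriv
    have e : deriv (fun θ => A θ * r θ ^ 3 / l) θ = _ := h
    rw [e]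
    simp only [Pi.pow_apply]
    field_simp
    push_cast
    ring
  have h1f : dsR (fun θ => (l : ℂ) * C θ) (curv (fun θ => (l : ℂ) * C θ)) =
      fun θ => (deriv A θ * r θ ^ 4 - 3 / 2 * A θ * deriv B θ * r θ ^ 6) / l ^ 2 := funext h1
  have h2 : ∀ θ, dsR (fun θ => (l : ℂ) * C θ) (dsR (fun θ => (l : ℂ) * C θ)
      (curv (fun θ => (l : ℂ) * C θ))) θ =
      (deriv (deriv A) θ * r θ ^ 5 - 7 / 2 * deriv A θ * deriv B θ * r θ ^ 7 -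
        3 / 2 * A θ * deriv (deriv B) θ * r θ ^ 7 + 9 / 2 * A θ * deriv B θ ^ 2 * r θ ^ 9) / l ^ 3 := by
    intro θ
    rw [hds, h1f]
    have h := ((((dA1 θ).mul ((dr θ).pow 4)).sub
      ((((dA θ).const_mul (3 / 2)).mul (dB1 θ)).mul ((dr θ).pow 6))).div_const (l ^ 2)).deriv
    have e : deriv (fun θ => (deriv A θ * r θ ^ 4 - 3 / 2 * A θ * deriv B θ * r θ ^ 6) / l ^ 2) θ = _ := h
    rw [e]
    simp only [Pi.pow_apply, Pi.mul_apply]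
    field_simp
    push_cast
    ring
  have heB1' : eB0 ≤ 1 / 1000 := heB01.trans (heB12.trans heB2)
  have main : ∀ θ, |A θ * r θ ^ 3 - K θ| ≤ 2 * eA0 + 2 * eB0 * k0 ∧
      |deriv A θ * r θ ^ 4 - 3 / 2 * A θ * deriv B θ * r θ ^ 6 - deriv K θ| ≤
        2 * eA1 + 3 * eB0 * k1 + 2 * eB1 * k0 ∧
      |deriv (deriv A) θ * r θ ^ 5 - 7 / 2 * deriv A θ * deriv B θ * r θ ^ 7 -
        3 / 2 * A θ * deriv (deriv B) θ * r θ ^ 7 + 9 / 2 * A θ * deriv B θ ^ 2 * r θ ^ 9 -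
        deriv (deriv K) θ| ≤ 2 * eA2 + 3 * eB0 * k2 + 4 * eB1 * k1 + eB1 * k0 + 2 * eB2 * k0 := by
    intro θ
    obtain ⟨c1, c2⟩ := EM12_pow (rpos θ) (rB θ) heB heB1' (B0 θ)
    exact EM12_err (rpos θ) heB heB01 heB12 heB2 heA heA01 heA12 hk0 c1 c2 (A0 θ) (A1 θ) (A2 θ)
      (B1 θ) (B2 θ) (hk θ) (hk1 θ) (hk2 θ)
  refine ⟨?_, hsp, ?_, ?_, ?_, ?_⟩
  · intro θ
    rw [df]
    exact mul_ne_zero hlC (hne θ)
  · intro θ
    rw [hcurv]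
    have h2 : ‖deriv C θ‖ = (r θ)⁻¹ := by simp [hrdef]
    rw [h2]
    have := (rpos θ).ne'
    change _ = A θ / (r θ)⁻¹ ^ 3 / l
    field_simp
  · intro θ
    rw [hcurv]
    have e : l * (A θ * r θ ^ 3 / l) = A θ * r θ ^ 3 := by field_simp
    rw [e]
    exact (main θ).1
  · intro θ
    rw [h1]
    have e : l ^ 2 * ((deriv A θ * r θ ^ 4 - 3 / 2 * A θ * deriv B θ * r θ ^ 6) / l ^ 2) =
      deriv A θ * r θ ^ 4 - 3 / 2 * A θ * deriv B θ * r θ ^ 6 := by field_simp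
    rw [e]
    exact (main θ).2.1
  · intro θ
    rw [h2]
    rw [mul_div_cancel₀ _ (pow_ne_zero 3 hl.ne')]
    exact (main θ).2.2

end Pool.Agent.EM
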