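import Pool.Agent.EM.XFacts

/-!
# EM-13: the quadratic form inequality at a point (pure algebra)

`κ, κ1, κ2` true curvature and arc length derivatives, `k, k1, k2` the values of `Kc` and its `θ`-derivatives,
`l > 0`, `be` the speed divided by `l`.  With `t = 1 - eta'`:
`Ah = -t a`, `Ah' = -t a1`, `Bh = -t b + 3/4 k²`, `Bh' = -t b' + 3/2 k k1`, `Ch = -t a b + t b' + k k1/2`,
`Ch' = -t (a1 b + a b') + t b'' + (k1² + k k2)/2` (`b, b', b''` = `cb, cb1, cb2`).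
Substitute `w = l w'`, `p = p'/l`; the left-hand side is `l^(-2)` times
`Q(w', s, p')` = `low w' s p' (l κ) (l²κ1) (l³κ2) + Ah'/be s² + 2 Ah s p' + 2 Bh'/be w' s + 2 Bh s² + 2 Bh w' p'
 + Ch'/be w'² + 2 Ch w' s`.
With `be = 1` and `(lκ, l²κ1, l³κ2)` replaced by `(k, k1, k2)` it equals
`- eta' p'² - t (p' + a s + b w')² + cR w'²` EXACTLY (check: coefficient of `s²`:
`k² - t a1 - 2 t b + 3/2 k² = - t a²` by the definition of `b`; `w' s`: `-4 k k1 + 2 Bh' + 2 Ch = -2 t a b`; `w'²`: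
`-(4 k k2 + 7/2 k1² + 5/4 k⁴) + Ch' = - t b² + cR`; `w' p'`: `-3/2 k² + 2 Bh = -2 t b`; `s p'`: `2 Ah = -2 t a`).
Errors: `|lκ - k| ≤ ek0`, `|l²κ1 - k1| ≤ ek1`, `|l³κ2 - k2| ≤ ek2`, `|1/be - 1| ≤ eB0`; they are bounded by `Ewp |w' p'| + Ess s² +
Ews |w' s| + Eww w'²`.  `Ewp |w'p'| ≤ (eta' - eta) p'² + Ewp²/(4 (eta' - eta)) w'²`, `|w' s| ≤ (w'² + s²)/2`.
-/

set_option autoImplicit false

open scoped Real

namespace Pool.Agent.EM

/-- the exact identity -/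
private lemma qf_id {t : ℝ} (ht : t ≠ 0) (k k1 k2 a a1 a2 a3 w s p : ℝ) :
    low w s p k k1 k2 + (-t * a1) * s ^ 2 + 2 * (-t * a) * s * p +
      2 * (-t * cb1 t k k1 a a1 a2 + 3 / 2 * (k * k1)) * w * s +
      2 * (-t * cb t k a a1 + 3 / 4 * k ^ 2) * s ^ 2 +
      2 * (-t * cb t k a a1 + 3 / 4 * k ^ 2) * w * p +
      (-t * (a1 * cb t k a a1 + a * cb1 t k k1 a a1 a2) + t * cb2 t k k1 k2 a a1 a2 a3 +
          (k1 ^ 2 + k * k2) / 2) * w ^ 2 +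
      2 * (-t * a * cb t k a a1 + t * cb1 t k k1 a a1 a2 + k * k1 / 2) * w * s =
    -(1 - t) * p ^ 2 - t * (p + a * s + cb t k a a1 * w) ^ 2 +
      cR t k k1 k2 a a1 a2 a3 * w ^ 2 := by
  have hb : 2 * (t * cb t k a a1) = t * (a ^ 2 - a1) + 5 / 2 * k ^ 2 := by
    rw [cb]
    field_simp
    ring
  rw [cR, low]
  generalize cb t k a a1 = b at *
  generalize cb1 t k k1 a a1 a2 = b1 at *
  generalize cb2 t k k1 k2 a a1 a2 a3 = b2 at *
  linear_combination (-(s ^ 2)) * hb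

private lemma qf_mul {x X y : ℝ} (h : |x| ≤ X) : x * y ≤ X * |y| := by
  calc x * y ≤ |x * y| := le_abs_self _
    _ = |x| * |y| := abs_mul _ _
    _ ≤ X * |y| := mul_le_mul_of_nonneg_right h (abs_nonneg _)

private lemma qf_prod {x y X Y : ℝ} (hx : |x| ≤ X) (hy : |y| ≤ Y) : |x * y| ≤ X * Y := by
  rw [abs_mul]
  exact mul_le_mul hx hy (abs_nonneg _) ((abs_nonneg _).trans hx)

/-- `|X Y - x y| ≤ e d + c f + e f` -/
private lemma qf_diff {X Y x y e f c d : ℝ} (hX : |X - x| ≤ e) (hY : |Y - y| ≤ f) (hx : |x| ≤ c)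
    (hy : |y| ≤ d) : |X * Y - x * y| ≤ e * d + c * f + e * f := by
  have h1 : X * Y - x * y = (X - x) * (Y - y) + (X - x) * y + x * (Y - y) := by ring
  have h2 := qf_prod hX hY
  have h3 := qf_prod hX hy
  have h4 := qf_prod hx hY
  rw [h1]
  have h5 := abs_add_le ((X - x) * (Y - y) + (X - x) * y) (x * (Y - y))
  have h6 := abs_add_le ((X - x) * (Y - y)) ((X - x) * y)
  linarith

private lemma qf_four {X x e c : ℝ} (hX : |X - x| ≤ e) (hx : |x| ≤ c) :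
    |X ^ 4 - x ^ 4| ≤ 4 * ((c + e) ^ 3 * e) := by
  have he : 0 ≤ e := (abs_nonneg _).trans hX
  have hc : 0 ≤ c := (abs_nonneg _).trans hx
  have hX' : |X| ≤ c + e := by
    have h := abs_add_le x (X - x)
    rw [add_sub_cancel] at h
    linarith
  have hx' : |x| ≤ c + e := by linarith
  have h1 : X ^ 4 - x ^ 4 = (X - x) * ((X + x) * (X * X + x * x)) := by ring
  have h2 : |X + x| ≤ 2 * (c + e) := by
    have h := abs_add_le X x
    linarith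
  have h3 : |X * X + x * x| ≤ 2 * ((c + e) * (c + e)) := by
    have h := abs_add_le (X * X) (x * x)
    have h4 := qf_prod hX' hX'
    have h5 := qf_prod hx' hx'
    linarith
  rw [h1]
  refine (qf_prod hX (qf_prod h2 h3)).trans (le_of_eq ?_)
  ring

/-- the final estimate for numbers without dimension -/
private lemma qf_fin {Q0 eta eta' t cr E1 E2 E3 E4 w s p q R : ℝ} (hd : 0 < eta' - eta)
    (h0 : Q0 = -eta' * p ^ 2 - t * q ^ 2 + cr * w ^ 2) (ht : 0 ≤ t) (hE3 : 0 ≤ E3)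
    (hR : R ≤ E1 * |w * p| + E2 * s ^ 2 + E3 * |w * s| + E4 * w ^ 2) :
    Q0 + R ≤ -eta * p ^ 2 + (E2 + E3 / 2) * s ^ 2 +
      (cr + (E1 ^ 2 / (4 * (eta' - eta)) + E3 / 2 + E4)) * w ^ 2 := by
  have h1 : |w * s| ≤ (w ^ 2 + s ^ 2) / 2 := by
    rw [abs_le]
    constructor <;> nlinarith [sq_nonneg (w - s), sq_nonneg (w + s)]
  have h2 : E1 * |w * p| ≤ (eta' - eta) * p ^ 2 + E1 ^ 2 / (4 * (eta' - eta)) * w ^ 2 := by
    have h3 : (eta' - eta) * p ^ 2 + E1 ^ 2 / (4 * (eta' - eta)) * w ^ 2 - E1 * |w * p| =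
        (2 * (eta' - eta) * |p| - E1 * |w|) ^ 2 / (4 * (eta' - eta)) := by
      rw [abs_mul]
      have e1 : |p| ^ 2 = p ^ 2 := sq_abs p
      have e2 : |w| ^ 2 = w ^ 2 := sq_abs w
      rw [← e1, ← e2]
      have hd' : eta' - eta ≠ 0 := hd.ne'
      field_simp
      ring
    have h4 : 0 ≤ (2 * (eta' - eta) * |p| - E1 * |w|) ^ 2 / (4 * (eta' - eta)) := by
      have : 0 ≤ 4 * (eta' - eta) := by linarith
      positivity
    linarith
  have h5 : E3 * |w * s| ≤ E3 * ((w ^ 2 + s ^ 2) / 2) := mul_le_mul_of_nonneg_left h1 hE3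
  have h6 : 0 ≤ t * q ^ 2 := mul_nonneg ht (sq_nonneg q)
  rw [h0]
  nlinarith [h2, h5, h6, hR]

theorem qf_point {m : XNum ℝ} {eta es Lam l κ κ1 κ2 k k1 k2 a a1 a2 a3 be : ℝ} (hl : 0 < l)
    (hl0 : m.l0 ≤ l) (hl00 : 0 < m.l0)
    (hek0 : 0 ≤ m.ek0) (hek1 : 0 ≤ m.ek1) (_ : 0 ≤ m.ek2) (heB : 0 ≤ m.eB0) (heta' : m.eta' < 1) (heta : eta < m.eta')
    (hbe : |1 / be - 1| ≤ m.eB0)
    (h0 : |l * κ - k| ≤ m.ek0) (h1 : |l ^ 2 * κ1 - k1| ≤ m.ek1) (h2 : |l ^ 3 * κ2 - k2| ≤ m.ek2)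
    (hk : |k| ≤ m.kc0) (hk1 : |k1| ≤ m.kc1) (hk2 : |k2| ≤ m.kc2)
    (ha : |a| ≤ m.A0) (ha1 : |a1| ≤ m.A1) (ha2 : |a2| ≤ m.A2) (ha3 : |a3| ≤ m.A3)
    (hes : (m.Ess + m.Ews / 2) / m.l0 ^ 2 ≤ es)
    (hLam : (cR m.t k k1 k2 a a1 a2 a3 + (m.Ewp ^ 2 / (4 * (m.eta' - eta)) + m.Ews / 2 + m.Eww)) ≤
      Lam * l ^ 4) (w s p : ℝ) :
    low w s p κ κ1 κ2 +
      (-m.t * a1 / l / (l * be) * s ^ 2 + 2 * (-m.t * a / l) * s * p +
        2 * ((-m.t * cb1 m.t k k1 a a1 a2 + 3 / 2 * (k * k1)) / l ^ 2 / (l * be)) * w * s +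
        2 * ((-m.t * cb m.t k a a1 + 3 / 4 * k ^ 2) / l ^ 2) * s ^ 2 +
        2 * ((-m.t * cb m.t k a a1 + 3 / 4 * k ^ 2) / l ^ 2) * w * p +
        (-m.t * (a1 * cb m.t k a a1 + a * cb1 m.t k k1 a a1 a2) + m.t * cb2 m.t k k1 k2 a a1 a2 a3 +
          (k1 ^ 2 + k * k2) / 2) / l ^ 3 / (l * be) * w ^ 2 +
        2 * ((-m.t * a * cb m.t k a a1 + m.t * cb1 m.t k k1 a a1 a2 + k * k1 / 2) / l ^ 3) * w * s) ≤
      -eta * p ^ 2 + es * s ^ 2 + Lam * w ^ 2 := by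
  have ht : 0 < m.t := by
    rw [XNum.t]
    linarith
  have hkc0 : 0 ≤ m.kc0 := (abs_nonneg _).trans hk
  have hkc1 : 0 ≤ m.kc1 := (abs_nonneg _).trans hk1
  have hkc2 : 0 ≤ m.kc2 := (abs_nonneg _).trans hk2
  have hA0 : 0 ≤ m.A0 := (abs_nonneg _).trans ha
  have hA1 : 0 ≤ m.A1 := (abs_nonneg _).trans ha1
  have hA2 : 0 ≤ m.A2 := (abs_nonneg _).trans ha2
  have hA3 : 0 ≤ m.A3 := (abs_nonneg _).trans ha3
  have ht' : |m.t| ≤ m.t := (abs_of_pos ht).le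
  have hc54 : |5 / (4 * m.t)| ≤ 5 / (4 * m.t) := (abs_of_pos (by positivity)).le
  have hc52 : |5 / (2 * m.t)| ≤ 5 / (2 * m.t) := (abs_of_pos (by positivity)).le
  have hk0sq : |k ^ 2| ≤ m.kc0 ^ 2 := by
    rw [pow_two, pow_two]
    exact qf_prod hk hk
  have hk1sq : |k1 ^ 2| ≤ m.kc1 ^ 2 := by
    rw [pow_two, pow_two]
    exact qf_prod hk1 hk1
  have ha0sq : |a ^ 2| ≤ m.A0 ^ 2 := by
    rw [pow_two, pow_two]
    exact qf_prod ha ha
  have ha1sq : |a1 ^ 2| ≤ m.A1 ^ 2 := by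
    rw [pow_two, pow_two]
    exact qf_prod ha1 ha1
  -- bounds of the certificate functions
  have hb : |cb m.t k a a1| ≤ m.b := by
    rw [cb, XNum.b]
    have h1 := abs_add_le ((a ^ 2 - a1) / 2) (5 / (4 * m.t) * k ^ 2)
    have h2 := qf_prod hc54 hk0sq
    have h3 : |(a ^ 2 - a1) / 2| ≤ (m.A0 ^ 2 + m.A1) / 2 := by
      rw [abs_div, abs_two]
      have h4 := abs_sub (a ^ 2) a1
      linarith
    linarith
  have hb1 : |cb1 m.t k k1 a a1 a2| ≤ m.b1 := by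
    rw [cb1, XNum.b1]
    have h1 := abs_add_le (a * a1 - a2 / 2) (5 / (2 * m.t) * (k * k1))
    have h2 := qf_prod hc52 (qf_prod hk hk1)
    have h3 := abs_sub (a * a1) (a2 / 2)
    have h4 := qf_prod ha ha1
    have h5 : |a2 / 2| ≤ m.A2 / 2 := by
      rw [abs_div, abs_two]
      linarith
    linarith
  have hb2 : |cb2 m.t k k1 k2 a a1 a2 a3| ≤ m.b2 := by
    rw [cb2, XNum.b2]
    have h1 := abs_add_le (a1 ^ 2 + a * a2 - a3 / 2) (5 / (2 * m.t) * (k1 ^ 2 + k * k2))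
    have h2 : |k1 ^ 2 + k * k2| ≤ m.kc1 ^ 2 + m.kc0 * m.kc2 := by
      have h := abs_add_le (k1 ^ 2) (k * k2)
      have h' := qf_prod hk hk2
      linarith
    have h2' := qf_prod hc52 h2
    have h3 := abs_sub (a1 ^ 2 + a * a2) (a3 / 2)
    have h4 := qf_prod ha ha2
    have h5 : |a3 / 2| ≤ m.A3 / 2 := by
      rw [abs_div, abs_two]
      linarith
    have h6 := abs_add_le (a1 ^ 2) (a * a2)
    linarith
  have hbn : 0 ≤ m.b := (abs_nonneg _).trans hb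
  have hb1n : 0 ≤ m.b1 := (abs_nonneg _).trans hb1
  have hb2n : 0 ≤ m.b2 := (abs_nonneg _).trans hb2
  have hid := qf_id ht.ne' k k1 k2 a a1 a2 a3
  -- the three functions which are divided by `be`
  have hhB1 : |-m.t * cb1 m.t k k1 a a1 a2 + 3 / 2 * (k * k1)| ≤ m.hB1 := by
    rw [XNum.hB1]
    have h1 := abs_add_le (-m.t * cb1 m.t k k1 a a1 a2) (3 / 2 * (k * k1))
    have h2 : |-m.t * cb1 m.t k k1 a a1 a2| ≤ m.t * m.b1 := by
      rw [neg_mul, abs_neg]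
      exact qf_prod ht' hb1
    have h3 : |3 / 2 * (k * k1)| ≤ 3 / 2 * (m.kc0 * m.kc1) :=
      qf_prod (abs_of_pos (by norm_num)).le (qf_prod hk hk1)
    linarith
  have hhC1 : |-m.t * (a1 * cb m.t k a a1 + a * cb1 m.t k k1 a a1 a2) +
      m.t * cb2 m.t k k1 k2 a a1 a2 a3 + (k1 ^ 2 + k * k2) / 2| ≤ m.hC1 := by
    rw [XNum.hC1]
    have h1 := abs_add_le (-m.t * (a1 * cb m.t k a a1 + a * cb1 m.t k k1 a a1 a2) +
      m.t * cb2 m.t k k1 k2 a a1 a2 a3) ((k1 ^ 2 + k * k2) / 2)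
    have h2 := abs_add_le (-m.t * (a1 * cb m.t k a a1 + a * cb1 m.t k k1 a a1 a2))
      (m.t * cb2 m.t k k1 k2 a a1 a2 a3)
    have h3 : |-m.t * (a1 * cb m.t k a a1 + a * cb1 m.t k k1 a a1 a2)| ≤
        m.t * (m.A1 * m.b + m.A0 * m.b1) := by
      rw [neg_mul, abs_neg]
      refine qf_prod ht' ?_
      have h := abs_add_le (a1 * cb m.t k a a1) (a * cb1 m.t k k1 a a1 a2)
      have h' := qf_prod ha1 hb
      have h'' := qf_prod ha hb1
      linarith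
    have h4 := qf_prod ht' hb2
    have h5 : |(k1 ^ 2 + k * k2) / 2| ≤ (m.kc1 ^ 2 + m.kc0 * m.kc2) / 2 := by
      rw [abs_div, abs_two]
      have h := abs_add_le (k1 ^ 2) (k * k2)
      have h' := qf_prod hk hk2
      linarith
    linarith
  have hB1n : 0 ≤ m.hB1 := (abs_nonneg _).trans hhB1
  have hta1 : |m.t * a1| ≤ m.t * m.A1 := qf_prod ht' ha1
  generalize cb m.t k a a1 = b at *
  generalize cb1 m.t k k1 a a1 a2 = b1 at *
  generalize cb2 m.t k k1 k2 a a1 a2 a3 = b2 at *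
  generalize cR m.t k k1 k2 a a1 a2 a3 = cr at *
  have hdiv : ∀ x : ℝ, x / (l * be) = x / l * (1 / be) := by
    intro x
    rw [div_mul_div_comm, mul_one]
  simp only [hdiv]
  generalize 1 / be = i at *
  have hl' : l ≠ 0 := hl.ne'
  obtain ⟨w', rfl⟩ : ∃ w', w = l * w' := ⟨w / l, by field_simp⟩
  obtain ⟨p', rfl⟩ : ∃ p', p = p' / l := ⟨p * l, by field_simp⟩
  obtain ⟨K0, rfl⟩ : ∃ K0, κ = K0 / l := ⟨κ * l, by field_simp⟩
  obtain ⟨K1, rfl⟩ : ∃ K1, κ1 = K1 / l ^ 2 := ⟨κ1 * l ^ 2, by field_simp⟩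
  obtain ⟨K2, rfl⟩ : ∃ K2, κ2 = K2 / l ^ 3 := ⟨κ2 * l ^ 3, by field_simp⟩
  rw [mul_div_cancel₀ _ hl'] at h0
  rw [mul_div_cancel₀ _ (pow_ne_zero 2 hl')] at h1
  rw [mul_div_cancel₀ _ (pow_ne_zero 3 hl')] at h2
  -- the errors
  have x1 : |K0 ^ 2 - k ^ 2| ≤ (2 * m.kc0 + m.ek0) * m.ek0 := by
    have h := qf_diff h0 h0 hk hk
    rw [← pow_two, ← pow_two] at h
    linarith
  have x2 := qf_diff h0 h1 hk hk1
  have x3 := qf_diff h0 h2 hk hk2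
  have x4 : |K1 ^ 2 - k1 ^ 2| ≤ m.ek1 * (2 * m.kc1 + m.ek1) := by
    have h := qf_diff h1 h1 hk1 hk1
    rw [← pow_two, ← pow_two] at h
    linarith
  have x5 := qf_four h0 hk
  have y1 := qf_prod hbe hta1
  have y2 := qf_prod hbe hhB1
  have y3 := qf_prod hbe hhC1
  have hE2 : 0 ≤ m.Ess := by
    rw [XNum.Ess]
    have := ht.le
    positivity
  have hE3 : 0 ≤ m.Ews := by
    rw [XNum.Ews]
    positivity
  set B1 := -m.t * b1 + 3 / 2 * (k * k1) with hB1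
  set C1 := -m.t * (a1 * b + a * b1) + m.t * b2 + (k1 ^ 2 + k * k2) / 2 with hC1
  have hR : (low w' s p' K0 K1 K2 - low w' s p' k k1 k2) - (i - 1) * (m.t * a1) * s ^ 2 +
      2 * ((i - 1) * B1) * (w' * s) + (i - 1) * C1 * w' ^ 2 ≤
      m.Ewp * |w' * p'| + m.Ess * s ^ 2 + m.Ews * |w' * s| + m.Eww * w' ^ 2 := by
    have z1 : -(3 / 2 * (K0 ^ 2 - k ^ 2)) * (w' * p') ≤ m.Ewp * |w' * p'| := by
      refine qf_mul ?_
      rw [abs_neg, abs_mul, abs_of_pos (by norm_num : (0 : ℝ) < 3 / 2), XNum.Ewp]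
      linarith
    have z2 : (K0 ^ 2 - k ^ 2 - (i - 1) * (m.t * a1)) * s ^ 2 ≤ m.Ess * s ^ 2 := by
      refine mul_le_mul_of_nonneg_right ?_ (sq_nonneg s)
      rw [XNum.Ess]
      have e1 := (abs_le.mp x1).2
      have e2 := (abs_le.mp y1).1
      linarith
    have z3 : (-4 * (K0 * K1 - k * k1) + 2 * ((i - 1) * B1)) * (w' * s) ≤
        m.Ews * |w' * s| := by
      refine qf_mul ?_
      rw [XNum.Ews]
      have e1 := abs_add_le (-4 * (K0 * K1 - k * k1)) (2 * ((i - 1) * B1))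
      rw [abs_mul (-4), abs_mul 2, abs_neg, abs_of_pos (by norm_num : (0 : ℝ) < 4), abs_two] at e1
      linarith
    have z4 : (-(4 * (K0 * K2 - k * k2) + 7 / 2 * (K1 ^ 2 - k1 ^ 2) + 5 / 4 * (K0 ^ 4 - k ^ 4)) +
        (i - 1) * C1) * w' ^ 2 ≤ m.Eww * w' ^ 2 := by
      refine mul_le_mul_of_nonneg_right ?_ (sq_nonneg w')
      rw [XNum.Eww]
      have e1 := (abs_le.mp x3).1
      have e2 := (abs_le.mp x4).1
      have e3 := (abs_le.mp x5).1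
      have e4 := (abs_le.mp y3).2
      linarith
    have z5 : (low w' s p' K0 K1 K2 - low w' s p' k k1 k2) - (i - 1) * (m.t * a1) * s ^ 2 +
        2 * ((i - 1) * B1) * (w' * s) + (i - 1) * C1 * w' ^ 2 =
        -(3 / 2 * (K0 ^ 2 - k ^ 2)) * (w' * p') +
        (K0 ^ 2 - k ^ 2 - (i - 1) * (m.t * a1)) * s ^ 2 +
        (-4 * (K0 * K1 - k * k1) + 2 * ((i - 1) * B1)) * (w' * s) +
        (-(4 * (K0 * K2 - k * k2) + 7 / 2 * (K1 ^ 2 - k1 ^ 2) + 5 / 4 * (K0 ^ 4 - k ^ 4)) +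
          (i - 1) * C1) * w' ^ 2 := by
      rw [low, low]
      ring
    rw [z5]
    linarith
  have hd : 0 < m.eta' - eta := by linarith
  have hid' := hid w' s p'
  have h1t : 1 - m.t = m.eta' := by
    rw [XNum.t]
    ring
  rw [h1t] at hid'
  have hfin := qf_fin hd hid' ht.le hE3 hR
  -- the right hand side
  have hes2 : (m.Ess + m.Ews / 2) * s ^ 2 ≤ es * l ^ 2 * s ^ 2 := by
    refine mul_le_mul_of_nonneg_right ?_ (sq_nonneg s)
    have e1 : 0 ≤ m.Ess + m.Ews / 2 := by linarith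
    have e2 : m.l0 ^ 2 ≤ l ^ 2 := pow_le_pow_left₀ hl00.le hl0 2
    have e3 : 0 < m.l0 ^ 2 := by positivity
    have e4 : m.Ess + m.Ews / 2 = (m.Ess + m.Ews / 2) / m.l0 ^ 2 * m.l0 ^ 2 := by
      field_simp
    have e5 : 0 ≤ (m.Ess + m.Ews / 2) / m.l0 ^ 2 := by positivity
    calc m.Ess + m.Ews / 2 = (m.Ess + m.Ews / 2) / m.l0 ^ 2 * m.l0 ^ 2 := e4
      _ ≤ (m.Ess + m.Ews / 2) / m.l0 ^ 2 * l ^ 2 := mul_le_mul_of_nonneg_left e2 e5
      _ ≤ es * l ^ 2 := mul_le_mul_of_nonneg_right hes (sq_nonneg l)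
  have hLam2 : (cr + (m.Ewp ^ 2 / (4 * (m.eta' - eta)) + m.Ews / 2 + m.Eww)) * w' ^ 2 ≤
      Lam * l ^ 4 * w' ^ 2 := mul_le_mul_of_nonneg_right hLam (sq_nonneg w')
  have hkey := hfin.trans (add_le_add (add_le_add_right hes2 (-eta * p' ^ 2)) hLam2)
  have hl2 : 0 < l ^ 2 := by positivity
  have hfinal := div_le_div_of_nonneg_right hkey hl2.le
  refine le_trans (le_of_eq ?_) (hfinal.trans (le_of_eq ?_))
  · rw [low, low, low]
    field_simp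
    ring
  · field_simp

end Pool.Agent.EM
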