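import Pool.Agent.EM.EM14c

/-!
# EM-14: from the facts about the explicit functions to `Piece`

`x = (t - tc)/h`, `a = tc - h`, `b = tc + h`, `t` in `[a,b]` iff `x` in `[-1,1]`.
(0) `P` is positive near `[-1,1]`; take a smooth bump function `χ` (`ContDiffBump` or
    `exists_contDiff_...`), `χ = 1` on a neighbourhood of `[-1,1]`, `0 ≤ χ ≤ 1`, support inside `{P > 0}`;
    `P' = P χ + (1 - χ)` is smooth and positive on `ℝ`, equal to `P` near `[-1,1]`; `l(x) = P'(x)^(1/4)` (`Real.rpow` or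
    `√√`) is smooth; `l^4 = P`, `l' = P'/(4 l^3)` on `[-1,1]`; `l0 ≤ l ≤ l1` there.
    `e θ t = l(x) C θ x` is globally smooth, periodic.
(1) For fixed `t` use `geo` (EM12) with `C · x`, `K · x`, `l(x)` (`pu C θ x = deriv (fun θ' => C θ' x) θ`, etc.).
    It gives immersion, `|curv| ≤ (k0 + E)/l ≤ b0`, ... (`sl e t = fun θ => l * C θ x`).
(2) residual.  `nuE e θ t = ⟪e_t, I T⟫ = Im (e_t conj T)`, `e_t = (l' C + l C_x)/h`, `T = C_θ/β`:
    `h l³ nuE = ((P'/4) Im(C conj C_θ) + P Im(C_x conj C_θ))/β`, so with `Q = K'' + K³/2`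
    `l³ resE = (1/β)(xR/h - Q) + l³ κ2 + (l κ)³/2`, hence
    `|l³ resE| ≤ 1.01 eR/h + eB (k2 + k0³) + E + 2 (k0 + E)² E`.
(3) `Len2 = l ∫ β`, `1 - eB ≤ β ≤ 1 + eB`, `6.28 < 2π < 6.2832`.
(4) `En2 = (1/l) ∫_0^{2π} A² β^(-5) dθ`, `A = xA C`; mean value inequality in `x` for the integrand:
    `∂_x (A² β^(-5) / l) = 2 A A_x β^(-5)/l - 5 A² β^(-6) β_x / l - A² β^(-5) l'/l²`, `|β_x| ≤ 0.51 eB`,
    `|l'/l| = |P'|/(4P)`; `2π · 1.01 ≤ 6.4`.
(5) certificate functions: `A θ t = -m.t a / l`, `B = (-m.t cb + 3/4 Kc²)/l²`,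
    `C = (-m.t a cb + m.t cb1 + Kc Kc'/2)/l³` (all at `(θ, x)`), `θ`-derivatives as in `qf_point`; `qf` is `qf_point` with
    `be = β`, `k = Kc θ x`, ... and `XFacts.cert`, `l^4 = P`.
-/

set_option autoImplicit false

open scoped Real ContDiff InnerProductSpace ComplexConjugate
open MeasureTheory

namespace Pool.Agent.EM

open Pool.Agent.helper19.EL

/-- EM-14 -/
theorem mk_piece {C : ℝ → ℝ → ℂ} {K Kc a : ℝ → ℝ → ℝ} {P : ℝ → ℝ} {m : XNum ℝ} {n : SNum ℝ} {Lp tc : ℝ}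
    (hx : XFacts C K Kc a P m) (hm : m.Ok n Lp) :
    ∃ (e : ℝ → ℝ → ℂ) (A A' B B' D D' : ℝ → ℝ → ℝ),
      (∀ x ∈ Set.Icc (-1 : ℝ) 1, ∀ θ, e θ (tc + m.h * x) = ((P x ^ (1 / 4 : ℝ) : ℝ) : ℂ) * C θ x) ∧
      Piece e (tc - m.h) (tc + m.h) n A A' B B' D D'
        (fun t => m.lam0 + m.lam1 * ((t - tc) / m.h) + m.lam2 * ((t - tc) / m.h) ^ 2) Lp := by
  obtain ⟨l, hls, hl, hlP, hl4, hld⟩ := e14_root hx.sP hm.Plo hx.le_P
  have hh := hm.h
  have hX : ∀ t ∈ Set.Icc (tc - m.h) (tc + m.h), (t - tc) / m.h ∈ Set.Icc (-1 : ℝ) 1 := by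
    intro t ht
    rw [Set.mem_Icc, le_div_iff₀ hh, div_le_iff₀ hh]
    exact ⟨by linarith [ht.1], by linarith [ht.2]⟩
  refine ⟨fun θ t => (l ((t - tc) / m.h) : ℂ) * C θ ((t - tc) / m.h),
    fun θ t => hA m a θ ((t - tc) / m.h) / l ((t - tc) / m.h),
    fun θ t => hA' m a θ ((t - tc) / m.h) / l ((t - tc) / m.h),
    fun θ t => hB m Kc a θ ((t - tc) / m.h) / l ((t - tc) / m.h) ^ 2,
    fun θ t => hB' m Kc a θ ((t - tc) / m.h) / l ((t - tc) / m.h) ^ 2,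
    fun θ t => hD m Kc a θ ((t - tc) / m.h) / l ((t - tc) / m.h) ^ 3,
    fun θ t => hD' m Kc a θ ((t - tc) / m.h) / l ((t - tc) / m.h) ^ 3, ?_, ?_⟩
  · intro x hxI θ
    have h1 : (tc + m.h * x - tc) / m.h = x := by
      field_simp
      ring
    show (l ((tc + m.h * x - tc) / m.h) : ℂ) * C θ ((tc + m.h * x - tc) / m.h) = _
    rw [h1, hlP x hxI]
  have hsp : ∀ t ∈ Set.Icc (tc - m.h) (tc + m.h), ∀ θ,
      speed (sl (fun θ t => (l ((t - tc) / m.h) : ℂ) * C θ ((t - tc) / m.h)) t) θ =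
        l ((t - tc) / m.h) * ‖pu C θ ((t - tc) / m.h)‖ :=
    fun t ht θ => (e14_geo hx hm (hX t ht) (hl _)).2.1 θ
  refine
    { fam := ⟨?_, ?_, ?_⟩
      K_le := fun t ht θ => e14_K0 hx hm (hX t ht) (hl _) (hl4 _ (hX t ht)) θ
      K1_le := fun t ht θ => e14_K1 hx hm (hX t ht) (hl _) (hl4 _ (hX t ht)) θ
      K2_le := fun t ht θ => e14_K2 hx hm (hX t ht) (hl _) (hl4 _ (hX t ht)) θ
      dA := fun t ht θ => (e14_dA hx θ _).div_const _
      dB := fun t ht θ => (e14_dB hx θ _).div_const _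
      dC := fun t ht θ => (e14_dD hx θ _).div_const _
      cA := fun t ht => (e14_cA' hx _).div_const _
      cB := fun t ht => (e14_cB' hx _).div_const _
      cC := fun t ht => (e14_cD' hx _).div_const _
      pA := fun t ht θ => by simp only [e14_pA hx]
      pB := fun t ht θ => by simp only [e14_pB hx]
      pC := fun t ht θ => by simp only [e14_pD hx]
      A_le := ?_
      A1_le := ?_
      B_le := ?_
      B1_le := ?_
      C1_le := ?_
      res_le := fun t ht θ =>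
        e14_res hx hm hl (hX t ht) (hl4 _ (hX t ht)) (hld _ (hX t ht)) θ
      len_le := fun t ht => e14_len_le hx hm (hX t ht) (hl _) (hl4 _ (hX t ht))
      le_len := fun t ht => e14_le_len hx hm (hX t ht) (hl _) (hl4 _ (hX t ht))
      qf := ?_
      lip := ?_ }
  · -- smoothness
    have h1 : ContDiff ℝ ∞ (fun p : ℝ × ℝ => (p.2 - tc) / m.h) :=
      (contDiff_snd.sub contDiff_const).div_const _
    have h2 : ContDiff ℝ ∞ (fun p : ℝ × ℝ => ((l ((p.2 - tc) / m.h) : ℝ) : ℂ)) :=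
      Complex.ofRealCLM.contDiff.comp (hls.comp h1)
    have h3 : ContDiff ℝ ∞ (fun p : ℝ × ℝ => C p.1 ((p.2 - tc) / m.h)) :=
      ContDiff.comp (g := fun p : ℝ × ℝ => C p.1 p.2)
        (f := fun p : ℝ × ℝ => (p.1, (p.2 - tc) / m.h)) hx.sC (contDiff_fst.prodMk h1)
    exact h2.mul h3
  · intro θ t
    show (l ((t - tc) / m.h) : ℂ) * C (θ + 2 * π) ((t - tc) / m.h) = _
    rw [hx.pC]
  · intro t ht θ
    exact (e14_geo hx hm (hX t ht) (hl _)).1 θ
  · intro t ht θ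
    have h1 := e14_div_abs (k := 1) hm.l0 (e14_l hx hm (hX t ht) (hl _) (hl4 _ (hX t ht))).1
      (e14_hA_le hx hm (hX t ht) θ) (N := n.a0) (by rw [pow_one]; exact hm.a0)
    rwa [pow_one] at h1
  · intro t ht θ
    obtain ⟨hβ, -, -, -, hβ2, -, -⟩ := e14_b hx hm (hX t ht) θ
    have h0 := e14_hA'_le hx hm (hX t ht) θ
    have h1 := e14_div_speed (k := 1) hm.l0 (e14_l hx hm (hX t ht) (hl _) (hl4 _ (hX t ht))).1
      hβ hβ2 ((abs_nonneg _).trans h0) h0 (N := n.a1) hm.a1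
    rw [pow_one] at h1
    rw [hsp t ht θ]
    exact h1
  · intro t ht θ
    exact e14_div_abs (k := 2) hm.l0 (e14_l hx hm (hX t ht) (hl _) (hl4 _ (hX t ht))).1
      (e14_hB_le hx hm (hX t ht) θ) (N := n.d0) hm.d0
  · intro t ht θ
    obtain ⟨hβ, -, -, -, hβ2, -, -⟩ := e14_b hx hm (hX t ht) θ
    have h0 := e14_hB'_le hx hm (hX t ht) θ
    have h1 := e14_div_speed (k := 2) hm.l0 (e14_l hx hm (hX t ht) (hl _) (hl4 _ (hX t ht))).1
      hβ hβ2 ((abs_nonneg _).trans h0) h0 (N := n.d1) hm.d1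
    rw [hsp t ht θ]
    exact h1
  · intro t ht θ
    obtain ⟨hβ, -, -, -, hβ2, -, -⟩ := e14_b hx hm (hX t ht) θ
    have h0 := e14_hD'_le hx hm (hX t ht) θ
    have h1 := e14_div_speed (k := 3) hm.l0 (e14_l hx hm (hX t ht) (hl _) (hl4 _ (hX t ht))).1
      hβ hβ2 ((abs_nonneg _).trans h0) h0 (N := n.g1) hm.g1
    rw [hsp t ht θ]
    exact h1
  · intro t ht θ w s p
    rw [hsp t ht θ]
    exact e14_qf hx hm (hX t ht) (hl _) (hl4 _ (hX t ht)) θ w s p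
  · intro t ht t' ht'
    have h1 := e14_lip hx hm hl hl4 hld (hX t ht) (hX t' ht')
    refine h1.trans ?_
    have h2 : (t - tc) / m.h - (t' - tc) / m.h = (t - t') / m.h := by ring
    rw [h2, abs_div, abs_of_pos hh]
    have h3 : 64 / 10 / m.l0 * e14M m * (|t - t'| / m.h) =
        64 / 10 / (m.h * m.l0) * e14M m * |t - t'| := by
      field_simp
    rw [h3]
    exact mul_le_mul_of_nonneg_right hm.Lp (abs_nonneg _)

end Pool.Agent.EM
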