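import Pool.Agent.EM.XFacts

/-!
# EM-14, part a: smooth functions of two variables, the fourth root of `P`, elementary estimates
-/

set_option autoImplicit false

open scoped Real ContDiff InnerProductSpace ComplexConjugate
open MeasureTheory

namespace Pool.Agent.EM

open Pool.Agent.helper19.EL

section gs

variable {E : Type} [NormedAddCommGroup E] [NormedSpace ℝ E] {f : ℝ → ℝ → E}

theorem e14_cu (hf : ContDiff ℝ ∞ (fun p : ℝ × ℝ => f p.1 p.2)) (x : ℝ) :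
    ContDiff ℝ ∞ (fun θ => f θ x) :=
  ContDiff.comp (g := fun p : ℝ × ℝ => f p.1 p.2) (f := fun θ : ℝ => (θ, x)) hf
    (contDiff_id.prodMk contDiff_const)

theorem e14_ct (hf : ContDiff ℝ ∞ (fun p : ℝ × ℝ => f p.1 p.2)) (θ : ℝ) :
    ContDiff ℝ ∞ (fun x => f θ x) :=
  ContDiff.comp (g := fun p : ℝ × ℝ => f p.1 p.2) (f := fun x : ℝ => (θ, x)) hf
    (contDiff_const.prodMk contDiff_id)

theorem e14_u (hf : ContDiff ℝ ∞ (fun p : ℝ × ℝ => f p.1 p.2)) (θ x : ℝ) :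
    HasDerivAt (fun θ' => f θ' x) (pu f θ x) θ :=
  ((e14_cu hf x).differentiable (by simp) θ).hasDerivAt

theorem e14_t (hf : ContDiff ℝ ∞ (fun p : ℝ × ℝ => f p.1 p.2)) (θ x : ℝ) :
    HasDerivAt (fun x' => f θ x') (pt f θ x) x :=
  ((e14_ct hf θ).differentiable (by simp) x).hasDerivAt

theorem e14_pu (hf : ContDiff ℝ ∞ (fun p : ℝ × ℝ => f p.1 p.2)) :
    ContDiff ℝ ∞ (fun p : ℝ × ℝ => pu f p.1 p.2) := by
  have h1 : ContDiff ℝ ∞ (fderiv ℝ (fun p : ℝ × ℝ => f p.1 p.2)) := hf.fderiv_right (by simp)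
  have h2 : ContDiff ℝ ∞ (fun p => fderiv ℝ (fun p : ℝ × ℝ => f p.1 p.2) p (1, 0)) :=
    h1.clm_apply contDiff_const
  have h3 : (fun p : ℝ × ℝ => pu f p.1 p.2) =
      fun p => fderiv ℝ (fun p : ℝ × ℝ => f p.1 p.2) p (1, 0) := by
    funext p
    have h4 : HasFDerivAt (fun p : ℝ × ℝ => f p.1 p.2)
        (fderiv ℝ (fun p : ℝ × ℝ => f p.1 p.2) p) ((p.1, p.2) : ℝ × ℝ) :=
      (hf.differentiable (by simp) p).hasFDerivAt
    have h5 : HasDerivAt (fun u' : ℝ => ((u', p.2) : ℝ × ℝ)) (1, 0) p.1 :=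
      (hasDerivAt_id p.1).prodMk (hasDerivAt_const p.1 p.2)
    exact (HasFDerivAt.comp_hasDerivAt p.1 h4 h5).deriv
  rw [h3]
  exact h2

theorem e14_per {P x : ℝ} (h : ∀ θ x, f (θ + P) x = f θ x) (θ : ℝ) : pu f (θ + P) x = pu f θ x := by
  have h1 : (fun θ' => f (θ' + P) x) = fun θ' => f θ' x := by
    funext θ'
    exact h θ' x
  have h2 : deriv (fun θ' => f (θ' + P) x) θ = deriv (fun θ' => f θ' x) (θ + P) :=
    deriv_comp_add_const (fun θ' => f θ' x) P θ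
  rw [h1] at h2
  exact h2.symm

end gs

/-- the fourth root of a function which is positive on `[-1, 1]` -/
theorem e14_root {P : ℝ → ℝ} {P0 : ℝ} (hP : ContDiff ℝ ∞ P) (h0 : 0 < P0)
    (h1 : ∀ x ∈ Set.Icc (-1 : ℝ) 1, P0 ≤ P x) :
    ∃ l : ℝ → ℝ, ContDiff ℝ ∞ l ∧ (∀ x, 0 < l x) ∧
      (∀ x ∈ Set.Icc (-1 : ℝ) 1, l x = P x ^ (1 / 4 : ℝ)) ∧
      (∀ x ∈ Set.Icc (-1 : ℝ) 1, l x ^ 4 = P x) ∧
      (∀ x ∈ Set.Icc (-1 : ℝ) 1, HasDerivAt l (deriv P x / (4 * l x ^ 3)) x) := by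
  have hU : IsOpen {x | 0 < P x} := isOpen_lt continuous_const hP.continuous
  have hs : Metric.closedBall (0 : ℝ) 1 ⊆ {x | 0 < P x} := by
    intro x hx
    rw [Real.closedBall_eq_Icc] at hx
    exact lt_of_lt_of_le h0 (h1 x (by simpa using hx))
  obtain ⟨δ, hδ, hδs⟩ := (isCompact_closedBall (0 : ℝ) 1).exists_thickening_subset_open hU hs
  rw [thickening_closedBall hδ zero_le_one] at hδs
  let f : ContDiffBump (0 : ℝ) := ⟨1 + δ / 3, 1 + δ / 2, by positivity, by linarith⟩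
  let Q : ℝ → ℝ := fun x => P x * f x + (1 - f x)
  have hQ : ContDiff ℝ ∞ Q := (hP.mul f.contDiff).add (contDiff_const.sub f.contDiff)
  have hQpos : ∀ x, 0 < Q x := by
    intro x
    by_cases hx : dist x 0 < 1 + δ / 2
    · have h2 : 0 < P x := hδs (by
        rw [Metric.mem_ball]
        linarith)
      rcases (f.nonneg (x := x)).eq_or_lt with h3 | h3
      · show 0 < P x * f x + (1 - f x)
        rw [← h3]
        norm_num
      · have h4 : f x ≤ 1 := f.le_one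
        have h5 : 0 < P x * f x := mul_pos h2 h3
        show 0 < P x * f x + (1 - f x)
        linarith
    · have h3 : f x = 0 := f.zero_of_le_dist (not_lt.1 hx)
      show 0 < P x * f x + (1 - f x)
      rw [h3]
      norm_num
  have hPQ : ∀ x ∈ Metric.ball (0 : ℝ) (1 + δ / 3), Q x = P x := by
    intro x hx
    have h3 : f x = 1 := f.one_of_mem_closedBall (Metric.ball_subset_closedBall hx)
    show P x * f x + (1 - f x) = P x
    rw [h3]
    ring
  have hI : ∀ x ∈ Set.Icc (-1 : ℝ) 1, x ∈ Metric.ball (0 : ℝ) (1 + δ / 3) := by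
    intro x hx
    rw [Metric.mem_ball, Real.dist_eq, sub_zero]
    have : |x| ≤ 1 := abs_le.2 hx
    linarith
  let l : ℝ → ℝ := fun x => Q x ^ (1 / 4 : ℝ)
  have hl : ContDiff ℝ ∞ l := hQ.rpow_const_of_ne fun x => (hQpos x).ne'
  have hlpos : ∀ x, 0 < l x := fun x => Real.rpow_pos_of_pos (hQpos x) _
  have hl4 : ∀ x, l x ^ 4 = Q x := by
    intro x
    show (Q x ^ (1 / 4 : ℝ)) ^ 4 = Q x
    rw [← Real.rpow_natCast, ← Real.rpow_mul (hQpos x).le]
    norm_num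
  refine ⟨l, hl, hlpos, ?_, ?_, ?_⟩
  · intro x hx
    show Q x ^ (1 / 4 : ℝ) = _
    rw [hPQ x (hI x hx)]
  · intro x hx
    rw [hl4, hPQ x (hI x hx)]
  · intro x hx
    have h2 : HasDerivAt l (deriv l x) x := (hl.differentiable (by simp) x).hasDerivAt
    have h3 : HasDerivAt (fun y => l y ^ 4) (4 * l x ^ 3 * deriv l x) x := by
      have h7 := h2.pow 4
      have h8 : (↑(4 : ℕ) * l x ^ (4 - 1) * deriv l x : ℝ) = 4 * l x ^ 3 * deriv l x := by norm_num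
      rw [← h8]
      exact h7
    have h4 : (fun y => l y ^ 4) =ᶠ[nhds x] P := by
      filter_upwards [Metric.isOpen_ball.mem_nhds (hI x hx)] with y hy
      rw [hl4, hPQ y hy]
    have h5 : deriv P x = 4 * l x ^ 3 * deriv l x := by
      rw [← h4.deriv_eq]
      exact h3.deriv
    have h6 : deriv P x / (4 * l x ^ 3) = deriv l x := by
      rw [h5, mul_div_cancel_left₀]
      have := hlpos x
      positivity
    rw [h6]
    exact h2

/-- the speed is near `1` -/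
theorem e14_beta {β eB : ℝ} (hβ : 0 ≤ β) (h : |β ^ 2 - 1| ≤ eB) (h1 : eB ≤ 1 / 1000) :
    0 < β ∧ 1 - eB ≤ β ∧ β ≤ 1 + eB ∧ |1 / β - 1| ≤ eB ∧ 1 / β ≤ 101 / 100 ∧
      1 / β ^ 5 ≤ 101 / 100 ∧ 1 / β ^ 7 ≤ 101 / 100 := by
  have h2 := abs_le.1 h
  have heB : 0 ≤ eB := (abs_nonneg _).trans h
  have h3 : 1 - eB ≤ β := by
    by_contra h4
    push Not at h4
    nlinarith
  have h4 : β ≤ 1 + eB := by
    by_contra h4
    push Not at h4
    nlinarith
  have h5 : 999 / 1000 ≤ β := by linarith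
  have h6 : 0 < β := by linarith
  have h7 : 1 / β ≤ 101 / 100 := by
    rw [div_le_div_iff₀ h6 (by norm_num)]
    linarith
  refine ⟨h6, h3, h4, ?_, h7, ?_, ?_⟩
  · have h8 : 1 / β - 1 = (1 - β ^ 2) / (β * (1 + β)) := by
      field_simp
      ring
    rw [h8, abs_div, abs_of_pos (show 0 < β * (1 + β) by positivity), abs_sub_comm,
      div_le_iff₀ (by positivity)]
    have h9 : 1 ≤ β * (1 + β) := by nlinarith
    calc |β ^ 2 - 1| ≤ eB := h
      _ = eB * 1 := (mul_one _).symm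
      _ ≤ eB * (β * (1 + β)) := by gcongr
  · rw [div_le_div_iff₀ (by positivity) (by norm_num)]
    have h8 : (999 / 1000 : ℝ) ^ 5 ≤ β ^ 5 := by gcongr
    norm_num at h8 ⊢
    linarith
  · rw [div_le_div_iff₀ (by positivity) (by norm_num)]
    have h8 : (999 / 1000 : ℝ) ^ 7 ≤ β ^ 7 := by gcongr
    norm_num at h8 ⊢
    linarith

theorem e14_abs_div {x l l0 M N : ℝ} (hl0 : 0 < l0) (hl : l0 ≤ l) {k : ℕ} (hx : |l ^ k * x| ≤ M)
    (hM : M / l0 ^ k ≤ N) : |x| ≤ N := by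
  have hlpos : 0 < l := lt_of_lt_of_le hl0 hl
  have h1 : |l ^ k * x| = l ^ k * |x| := by rw [abs_mul, abs_of_pos (by positivity)]
  rw [h1] at hx
  refine le_trans ?_ hM
  rw [le_div_iff₀ (by positivity)]
  calc |x| * l0 ^ k ≤ |x| * l ^ k := by gcongr
    _ = l ^ k * |x| := mul_comm _ _
    _ ≤ M := hx

theorem e14_div_abs {x l l0 M N : ℝ} (hl0 : 0 < l0) (hl : l0 ≤ l) {k : ℕ} (hx : |x| ≤ M)
    (hM : M / l0 ^ k ≤ N) : |x / l ^ k| ≤ N := by
  have hlpos : 0 < l := lt_of_lt_of_le hl0 hl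
  refine e14_abs_div (k := k) hl0 hl ?_ hM
  rw [mul_div_cancel₀ _ (by positivity)]
  exact hx

/-- the bound of a `θ`-derivative divided by the speed -/
theorem e14_div_speed {x l l0 β M N : ℝ} (hl0 : 0 < l0) (hl : l0 ≤ l) (hβ : 0 < β)
    (hβ1 : 1 / β ≤ 101 / 100) {k : ℕ} (hM0 : 0 ≤ M) (hx : |x| ≤ M)
    (hM : 101 / 100 * M / l0 ^ (k + 1) ≤ N) : |x / l ^ k / (l * β)| ≤ N := by
  have hlpos : 0 < l := lt_of_lt_of_le hl0 hl
  have h1 : x / l ^ k / (l * β) = (x * (1 / β)) / l ^ (k + 1) := by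
    rw [pow_succ]
    field_simp
  rw [h1]
  refine e14_div_abs hl0 hl ?_ hM
  rw [abs_mul, abs_of_pos (show 0 < 1 / β by positivity), mul_comm (101 / 100)]
  gcongr

end Pool.Agent.EM
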