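import Pool.Agent.EM.EM12
import Pool.Agent.EM.EM14a

/-!
# EM-14, part b: one slice of the explicit family

`X : XFacts ...`, `x ∈ [-1,1]`, `l > 0` with `l^4 = P x`.
-/

set_option autoImplicit false

open scoped Real ContDiff InnerProductSpace ComplexConjugate
open MeasureTheory

namespace Pool.Agent.EM

open Pool.Agent.helper19.EL

variable {C : ℝ → ℝ → ℂ} {K Kc a : ℝ → ℝ → ℝ} {P : ℝ → ℝ} {m : XNum ℝ} {n : SNum ℝ} {Lp : ℝ}

section fixed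

variable (hx : XFacts C K Kc a P m) (hm : m.Ok n Lp) {x l : ℝ} (hI : x ∈ Set.Icc (-1 : ℝ) 1)
  (hl : 0 < l) (hl4 : l ^ 4 = P x)

include hx hm hI hl in
theorem e14_geo :
    (∀ θ, deriv (fun θ => (l : ℂ) * C θ x) θ ≠ 0) ∧
    (∀ θ, speed (fun θ => (l : ℂ) * C θ x) θ = l * ‖pu C θ x‖) ∧
    (∀ θ, curv (fun θ => (l : ℂ) * C θ x) θ = xA C θ x / ‖pu C θ x‖ ^ 3 / l) ∧
    (∀ θ, |l * curv (fun θ => (l : ℂ) * C θ x) θ - K θ x| ≤ m.E0) ∧
    (∀ θ, |l ^ 2 * dsR (fun θ => (l : ℂ) * C θ x) (curv (fun θ => (l : ℂ) * C θ x)) θ -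
      pu K θ x| ≤ m.E1) ∧
    (∀ θ, |l ^ 3 * dsR (fun θ => (l : ℂ) * C θ x) (dsR (fun θ => (l : ℂ) * C θ x)
      (curv (fun θ => (l : ℂ) * C θ x))) θ - pu (pu K) θ x| ≤ m.E2) :=
  geo (C := fun θ => C θ x) (K := fun θ => K θ x) (e14_cu hx.sC x) (e14_cu hx.sK x) hl
    hm.eB0 hm.eB01 hm.eB12 hm.eB2 hm.eA0 hm.eA01 hm.eA12 hm.eA2 hm.k0
    (hx.B0 x hI) (hx.B1 x hI) (hx.B2 x hI) (hx.A0 x hI)
    (hx.A1 x hI) (hx.A2 x hI) (hx.K0 x hI) (hx.K1 x hI) (hx.K2 x hI)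

include hm in
theorem e14_eB : m.eB0 ≤ 1 / 1000 := hm.eB01.trans (hm.eB12.trans hm.eB2)

include hx hm hI in
theorem e14_b (θ : ℝ) : 0 < ‖pu C θ x‖ ∧ 1 - m.eB0 ≤ ‖pu C θ x‖ ∧ ‖pu C θ x‖ ≤ 1 + m.eB0 ∧
    |1 / ‖pu C θ x‖ - 1| ≤ m.eB0 ∧ 1 / ‖pu C θ x‖ ≤ 101 / 100 ∧
      1 / ‖pu C θ x‖ ^ 5 ≤ 101 / 100 ∧ 1 / ‖pu C θ x‖ ^ 7 ≤ 101 / 100 :=
  e14_beta (norm_nonneg _) (hx.B0 x hI θ) (e14_eB hm)

include hx hm hI in
theorem e14_E : 0 ≤ m.E0 ∧ 0 ≤ m.E1 ∧ 0 ≤ m.E2 :=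
  ⟨(abs_nonneg _).trans ((e14_geo hx hm hI one_pos).2.2.2.1 0),
    (abs_nonneg _).trans ((e14_geo hx hm hI one_pos).2.2.2.2.1 0),
    (abs_nonneg _).trans ((e14_geo hx hm hI one_pos).2.2.2.2.2 0)⟩

include hx hm hI hl hl4 in
theorem e14_l : m.l0 ≤ l ∧ l ≤ m.l1 := by
  constructor
  · by_contra h
    push Not at h
    have h1 : l ^ 4 < m.l0 ^ 4 := by gcongr
    have h2 := hx.le_P x hI
    have h3 := hm.hl0
    linarith
  · by_contra h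
    push Not at h
    have h0 := hm.l1
    have h1 : m.l1 ^ 4 < l ^ 4 := by gcongr
    have h2 := hx.P_le x hI
    have h3 := hm.hl1
    linarith

include hx hm hI hl hl4 in
theorem e14_K0 (θ : ℝ) : |curv (fun θ => (l : ℂ) * C θ x) θ| ≤ n.b0 := by
  have h1 := (e14_geo hx hm hI hl).2.2.2.1 θ
  have h2 := hx.K0 x hI θ
  refine e14_abs_div (k := 1) hm.l0 (e14_l hx hm hI hl hl4).1 (M := m.k0 + m.E0) ?_ ?_
  · rw [pow_one]
    calc |l * curv (fun θ => (l : ℂ) * C θ x) θ|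
        = |K θ x + (l * curv (fun θ => (l : ℂ) * C θ x) θ - K θ x)| := by rw [add_sub_cancel]
      _ ≤ |K θ x| + |l * curv (fun θ => (l : ℂ) * C θ x) θ - K θ x| := abs_add_le _ _
      _ ≤ m.k0 + m.E0 := add_le_add h2 h1
  · rw [pow_one]
    exact hm.b0

include hx hm hI hl hl4 in
theorem e14_K1 (θ : ℝ) : |dsR (fun θ => (l : ℂ) * C θ x) (curv (fun θ => (l : ℂ) * C θ x)) θ| ≤
    n.b1 := by
  have h1 := (e14_geo hx hm hI hl).2.2.2.2.1 θ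
  have h2 := hx.K1 x hI θ
  refine e14_abs_div (k := 2) hm.l0 (e14_l hx hm hI hl hl4).1 (M := m.k1 + m.E1) ?_ hm.b1
  calc |l ^ 2 * dsR (fun θ => (l : ℂ) * C θ x) (curv (fun θ => (l : ℂ) * C θ x)) θ|
      = |pu K θ x + (l ^ 2 * dsR (fun θ => (l : ℂ) * C θ x)
          (curv (fun θ => (l : ℂ) * C θ x)) θ - pu K θ x)| := by rw [add_sub_cancel]
    _ ≤ |pu K θ x| + |l ^ 2 * dsR (fun θ => (l : ℂ) * C θ x)
          (curv (fun θ => (l : ℂ) * C θ x)) θ - pu K θ x| := abs_add_le _ _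
    _ ≤ m.k1 + m.E1 := add_le_add h2 h1

include hx hm hI hl hl4 in
theorem e14_K2 (θ : ℝ) : |dsR (fun θ => (l : ℂ) * C θ x) (dsR (fun θ => (l : ℂ) * C θ x)
      (curv (fun θ => (l : ℂ) * C θ x))) θ| ≤ n.b2 := by
  have h1 := (e14_geo hx hm hI hl).2.2.2.2.2 θ
  have h2 := hx.K2 x hI θ
  refine e14_abs_div (k := 3) hm.l0 (e14_l hx hm hI hl hl4).1 (M := m.k2 + m.E2) ?_ hm.b2
  calc |l ^ 3 * dsR (fun θ => (l : ℂ) * C θ x) (dsR (fun θ => (l : ℂ) * C θ x)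
          (curv (fun θ => (l : ℂ) * C θ x))) θ|
      = |pu (pu K) θ x + (l ^ 3 * dsR (fun θ => (l : ℂ) * C θ x) (dsR (fun θ => (l : ℂ) * C θ x)
          (curv (fun θ => (l : ℂ) * C θ x))) θ - pu (pu K) θ x)| := by rw [add_sub_cancel]
    _ ≤ |pu (pu K) θ x| + |l ^ 3 * dsR (fun θ => (l : ℂ) * C θ x)
          (dsR (fun θ => (l : ℂ) * C θ x)
          (curv (fun θ => (l : ℂ) * C θ x))) θ - pu (pu K) θ x| := abs_add_le _ _
    _ ≤ m.k2 + m.E2 := add_le_add h2 h1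

/-! ### the length -/

include hx in
theorem e14_cβ (x : ℝ) : Continuous fun θ => ‖pu C θ x‖ :=
  (e14_cu (e14_pu hx.sC) x).continuous.norm

include hx hm hI hl in
theorem e14_Len2 : Len2 (fun θ => (l : ℂ) * C θ x) = ∫ θ in (0 : ℝ)..(2 * π), l * ‖pu C θ x‖ := by
  unfold Len2
  refine intervalIntegral.integral_congr fun θ _ => ?_
  exact (e14_geo hx hm hI hl).2.1 θ

include hx hm hI hl hl4 in
theorem e14_len_le : 103 / 100 * Len2 (fun θ => (l : ℂ) * C θ x) ≤ n.Lhi := by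
  rw [e14_Len2 hx hm hI hl]
  have h1 : ∫ θ in (0 : ℝ)..(2 * π), l * ‖pu C θ x‖ ≤
      ∫ _ in (0 : ℝ)..(2 * π), m.l1 * (1 + m.eB0) := by
    refine intervalIntegral.integral_mono_on (by positivity)
      ((continuous_const.mul (e14_cβ hx x)).intervalIntegrable _ _)
      (continuous_const.intervalIntegrable _ _) fun θ _ => ?_
    have h2 := (e14_b hx hm hI θ).2.2.1
    have h3 := (e14_l hx hm hI hl hl4).2
    have h4 := hm.l1
    have h5 := (e14_b hx hm hI θ).1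
    gcongr
  rw [intervalIntegral.integral_const, smul_eq_mul, sub_zero] at h1
  have h2 : 2 * π * (m.l1 * (1 + m.eB0)) ≤ 62832 / 10000 * m.l1 * (1 + m.eB0) := by
    have h3 := Real.pi_lt_d4
    have h4 : 0 ≤ m.l1 * (1 + m.eB0) := mul_nonneg hm.l1.le (by linarith [hm.eB0])
    nlinarith
  have h3 := hm.Lhi
  linarith

include hx hm hI hl hl4 in
theorem e14_le_len : 103 / 100 * n.Llo ≤ Len2 (fun θ => (l : ℂ) * C θ x) := by
  rw [e14_Len2 hx hm hI hl]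
  have h0 : 0 ≤ 1 - m.eB0 := by linarith [e14_eB hm]
  have h1 : ∫ _ in (0 : ℝ)..(2 * π), m.l0 * (1 - m.eB0) ≤
      ∫ θ in (0 : ℝ)..(2 * π), l * ‖pu C θ x‖ := by
    refine intervalIntegral.integral_mono_on (by positivity)
      (continuous_const.intervalIntegrable _ _)
      ((continuous_const.mul (e14_cβ hx x)).intervalIntegrable _ _) fun θ _ => ?_
    have h2 := (e14_b hx hm hI θ).2.1
    have h3 := (e14_l hx hm hI hl hl4).1
    have h4 := hm.l0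
    gcongr
  rw [intervalIntegral.integral_const, smul_eq_mul, sub_zero] at h1
  have h2 : 628 / 100 * m.l0 * (1 - m.eB0) ≤ 2 * π * (m.l0 * (1 - m.eB0)) := by
    have h3 := Real.pi_gt_d2
    have h4 : 0 ≤ m.l0 * (1 - m.eB0) := mul_nonneg hm.l0.le h0
    nlinarith
  have h3 := hm.Llo
  linarith

end fixed

/-! ### the energy -/

/-- `K² ds` on the slice -/
noncomputable def e14G (C : ℝ → ℝ → ℂ) (l : ℝ → ℝ) (θ x : ℝ) : ℝ :=
  xA C θ x ^ 2 / ‖pu C θ x‖ ^ 5 / l x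

theorem e14_sxB (hC : ContDiff ℝ ∞ (fun p : ℝ × ℝ => C p.1 p.2)) :
    ContDiff ℝ ∞ (fun p : ℝ × ℝ => xB C p.1 p.2) :=
  (e14_pu hC).norm_sq ℝ

theorem e14_sxA (hC : ContDiff ℝ ∞ (fun p : ℝ × ℝ => C p.1 p.2)) :
    ContDiff ℝ ∞ (fun p : ℝ × ℝ => xA C p.1 p.2) := by
  have h1 : ContDiff ℝ ∞ (fun p : ℝ × ℝ => conj (pu C p.1 p.2)) :=
    Complex.conjCLE.contDiff.comp (e14_pu hC)
  exact Complex.imCLM.contDiff.comp (h1.mul (e14_pu (e14_pu hC)))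

theorem e14_En2 (hx : XFacts C K Kc a P m) (hm : m.Ok n Lp) {x : ℝ} (hI : x ∈ Set.Icc (-1 : ℝ) 1)
    {l : ℝ → ℝ} (hl : 0 < l x) :
    En2 (fun θ => (l x : ℂ) * C θ x) = ∫ θ in (0 : ℝ)..(2 * π), e14G C l θ x := by
  unfold En2
  refine intervalIntegral.integral_congr fun θ _ => ?_
  have hg := e14_geo hx hm hI hl
  have h1 := (e14_b hx hm hI θ).1
  show curv (fun θ => (l x : ℂ) * C θ x) θ ^ 2 * speed (fun θ => (l x : ℂ) * C θ x) θ =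
    e14G C l θ x
  rw [hg.2.1 θ, hg.2.2.1 θ, e14G]
  field_simp

theorem e14_cG (hx : XFacts C K Kc a P m) (hm : m.Ok n Lp) {x : ℝ} (hI : x ∈ Set.Icc (-1 : ℝ) 1)
    {l : ℝ → ℝ} : Continuous fun θ => e14G C l θ x := by
  have h1 : Continuous fun θ => xA C θ x := (e14_cu (e14_sxA hx.sC) x).continuous
  refine ((h1.pow 2).div ((e14_cβ hx x).pow 5) fun θ => ?_).div_const _
  exact pow_ne_zero 5 (e14_b hx hm hI θ).1.ne'

/-- the numerical factor of the Lipschitz constant -/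
noncomputable def e14M (m : XNum ℝ) : ℝ :=
  2 * (m.k0 + m.eA0) * (m.kx + m.eAx) + 3 * m.eBx * (m.k0 + m.eA0) ^ 2 +
    (m.k0 + m.eA0) ^ 2 * m.dP / (4 * m.Plo)

theorem e14_dG (hx : XFacts C K Kc a P m) (hm : m.Ok n Lp) {x : ℝ} (hI : x ∈ Set.Icc (-1 : ℝ) 1)
    {l : ℝ → ℝ} (hl : 0 < l x) (hl4 : l x ^ 4 = P x)
    (hld : HasDerivAt l (deriv P x / (4 * l x ^ 3)) x) (θ : ℝ) :
    ∃ d : ℝ, HasDerivAt (fun x => e14G C l θ x) d x ∧ |d| ≤ 101 / 100 / m.l0 * e14M m := by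
  obtain ⟨hβ, -, -, -, -, h5, h7⟩ := e14_b hx hm hI θ
  have hA := e14_t (e14_sxA hx.sC) θ x
  have hB := e14_t (e14_sxB hx.sC) θ x
  have hl0 := (e14_l hx hm hI hl hl4).1
  have hl0p := hm.l0
  have hPl := hm.Plo
  have hPx : m.Plo ≤ P x := hx.le_P x hI
  have hPp : 0 < P x := by linarith
  -- the speed
  have hb : HasDerivAt (fun x => ‖pu C θ x‖) (pt (xB C) θ x / (2 * ‖pu C θ x‖)) x := by
    have h1 := hB.sqrt (show xB C θ x ≠ 0 by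
      rw [xB]
      positivity)
    have h2 : (fun y => √(xB C θ y)) = fun y => ‖pu C θ y‖ := by
      funext y
      rw [xB, Real.sqrt_sq (norm_nonneg _)]
    rw [h2, xB, Real.sqrt_sq (norm_nonneg _)] at h1
    exact h1
  have hd := ((hA.pow 2).div (hb.pow 5) (show ‖pu C θ x‖ ^ 5 ≠ 0 by positivity)).div hld hl.ne'
  refine ⟨_, hd, ?_⟩
  have hAb : |xA C θ x| ≤ m.k0 + m.eA0 := by
    have h1 := hx.A0 x hI θ
    have h2 := hx.K0 x hI θ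
    calc |xA C θ x| = |K θ x + (xA C θ x - K θ x)| := by rw [add_sub_cancel]
      _ ≤ |K θ x| + |xA C θ x - K θ x| := abs_add_le _ _
      _ ≤ _ := add_le_add h2 h1
  have hAx : |pt (xA C) θ x| ≤ m.kx + m.eAx := by
    have h1 := hx.Ax x hI θ
    have h2 := hx.Kx x hI θ
    calc |pt (xA C) θ x| = |pt K θ x + (pt (xA C) θ x - pt K θ x)| := by rw [add_sub_cancel]
      _ ≤ |pt K θ x| + |pt (xA C) θ x - pt K θ x| := abs_add_le _ _
      _ ≤ _ := add_le_add h2 h1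
  have hBx := hx.Bx x hI θ
  have hdP := hx.dP x hI
  have hu : ∀ (A Ax b Bx L P' Q : ℝ), 0 < b → 0 < L → L ^ 4 = Q →
      ((↑(2 : ℕ) * A ^ (2 - 1) * Ax) * b ^ 5 - A ^ 2 * (↑(5 : ℕ) * b ^ (5 - 1) * (Bx / (2 * b)))) /
        (b ^ 5) ^ 2 * L - A ^ 2 / b ^ 5 * (P' / (4 * L ^ 3)) =
      L * (2 * (A * Ax) * (1 / b ^ 5) - 5 / 2 * (Bx * A ^ 2) * (1 / b ^ 7) -
        A ^ 2 * (P' / (4 * Q)) * (1 / b ^ 5)) := by
    intro A Ax b Bx L P' Q hb hL hQ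
    rw [← hQ]
    norm_num
    field_simp
  have hv := hu (xA C θ x) (pt (xA C) θ x) ‖pu C θ x‖ (pt (xB C) θ x) (l x) (deriv P x) (P x) hβ hl hl4
  simp only [Pi.pow_apply, Pi.div_apply] at hv ⊢
  rw [hv]
  have h10 : ∀ z : ℝ, l x * z / l x ^ 2 = 1 / l x * z := by
    intro z
    field_simp
  rw [h10, abs_mul, abs_of_pos (show 0 < 1 / l x by positivity)]
  have h11 : 1 / l x ≤ 1 / m.l0 := one_div_le_one_div_of_le hl0p hl0
  have h12 : |2 * (xA C θ x * pt (xA C) θ x) * (1 / ‖pu C θ x‖ ^ 5) -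
      5 / 2 * (pt (xB C) θ x * xA C θ x ^ 2) * (1 / ‖pu C θ x‖ ^ 7) -
      xA C θ x ^ 2 * (deriv P x / (4 * P x)) * (1 / ‖pu C θ x‖ ^ 5)| ≤ 101 / 100 * e14M m := by
    have t1 : |2 * (xA C θ x * pt (xA C) θ x) * (1 / ‖pu C θ x‖ ^ 5)| ≤
        2 * ((m.k0 + m.eA0) * (m.kx + m.eAx)) * (101 / 100) := by
      rw [abs_mul, abs_mul, abs_mul, abs_of_pos (show 0 < 1 / ‖pu C θ x‖ ^ 5 by positivity),
        abs_of_pos (show (0 : ℝ) < 2 by norm_num)]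
      have := hm.k0
      have := hm.eA0
      have := (abs_nonneg _).trans hAx
      gcongr
    have t2 : |5 / 2 * (pt (xB C) θ x * xA C θ x ^ 2) * (1 / ‖pu C θ x‖ ^ 7)| ≤
        5 / 2 * (m.eBx * (m.k0 + m.eA0) ^ 2) * (101 / 100) := by
      rw [abs_mul, abs_mul, abs_mul, abs_of_pos (show 0 < 1 / ‖pu C θ x‖ ^ 7 by positivity),
        abs_of_pos (show (0 : ℝ) < 5 / 2 by norm_num), abs_pow]
      have := hm.k0
      have := hm.eA0
      have := hm.eBx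
      gcongr
    have t3 : |xA C θ x ^ 2 * (deriv P x / (4 * P x)) * (1 / ‖pu C θ x‖ ^ 5)| ≤
        (m.k0 + m.eA0) ^ 2 * (m.dP / (4 * m.Plo)) * (101 / 100) := by
      rw [abs_mul, abs_mul, abs_of_pos (show 0 < 1 / ‖pu C θ x‖ ^ 5 by positivity), abs_pow,
        abs_div, abs_of_pos (show 0 < 4 * P x by positivity)]
      have := hm.k0
      have := hm.eA0
      have hdP0 : 0 ≤ m.dP := (abs_nonneg _).trans hdP
      gcongr
    have heB := hm.eBx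
    have hsq : 0 ≤ m.eBx * (m.k0 + m.eA0) ^ 2 := by positivity
    calc _ ≤ |2 * (xA C θ x * pt (xA C) θ x) * (1 / ‖pu C θ x‖ ^ 5) -
          5 / 2 * (pt (xB C) θ x * xA C θ x ^ 2) * (1 / ‖pu C θ x‖ ^ 7)| +
          |xA C θ x ^ 2 * (deriv P x / (4 * P x)) * (1 / ‖pu C θ x‖ ^ 5)| := abs_sub _ _
      _ ≤ |2 * (xA C θ x * pt (xA C) θ x) * (1 / ‖pu C θ x‖ ^ 5)| +
          |5 / 2 * (pt (xB C) θ x * xA C θ x ^ 2) * (1 / ‖pu C θ x‖ ^ 7)| +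
          |xA C θ x ^ 2 * (deriv P x / (4 * P x)) * (1 / ‖pu C θ x‖ ^ 5)| := by
            gcongr
            exact abs_sub _ _
      _ ≤ 2 * ((m.k0 + m.eA0) * (m.kx + m.eAx)) * (101 / 100) +
          5 / 2 * (m.eBx * (m.k0 + m.eA0) ^ 2) * (101 / 100) +
          (m.k0 + m.eA0) ^ 2 * (m.dP / (4 * m.Plo)) * (101 / 100) := by
            gcongr
      _ ≤ 101 / 100 * e14M m := by
            rw [e14M]
            have : (m.k0 + m.eA0) ^ 2 * (m.dP / (4 * m.Plo)) =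
              (m.k0 + m.eA0) ^ 2 * m.dP / (4 * m.Plo) := by ring
            rw [this]
            nlinarith
  have h13 : 0 ≤ 101 / 100 * e14M m := (abs_nonneg _).trans h12
  calc _ ≤ 1 / m.l0 * (101 / 100 * e14M m) := by gcongr
    _ = 101 / 100 / m.l0 * e14M m := by ring

theorem e14_lip (hx : XFacts C K Kc a P m) (hm : m.Ok n Lp) {l : ℝ → ℝ} (hl : ∀ x, 0 < l x)
    (hl4 : ∀ x ∈ Set.Icc (-1 : ℝ) 1, l x ^ 4 = P x)
    (hld : ∀ x ∈ Set.Icc (-1 : ℝ) 1, HasDerivAt l (deriv P x / (4 * l x ^ 3)) x)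
    {x y : ℝ} (hxI : x ∈ Set.Icc (-1 : ℝ) 1) (hyI : y ∈ Set.Icc (-1 : ℝ) 1) :
    |En2 (fun θ => (l x : ℂ) * C θ x) - En2 (fun θ => (l y : ℂ) * C θ y)| ≤
      64 / 10 / m.l0 * e14M m * |x - y| := by
  rw [e14_En2 hx hm hxI (hl x), e14_En2 hx hm hyI (hl y),
    ← intervalIntegral.integral_sub ((e14_cG hx hm hxI).intervalIntegrable _ _)
      ((e14_cG hx hm hyI).intervalIntegrable _ _)]
  have h1 : ∀ θ, ‖e14G C l θ x - e14G C l θ y‖ ≤ 101 / 100 / m.l0 * e14M m * ‖x - y‖ := by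
    intro θ
    choose! d hd1 hd2 using fun (z : ℝ) (hz : z ∈ Set.Icc (-1 : ℝ) 1) =>
      e14_dG hx hm hz (hl z) (hl4 z hz) (hld z hz) θ
    exact (convex_Icc (-1 : ℝ) 1).norm_image_sub_le_of_norm_hasDerivWithin_le
      (f := fun x => e14G C l θ x) (f' := d) (fun z hz => (hd1 z hz).hasDerivWithinAt)
      (fun z hz => hd2 z hz) hyI hxI
  have h2 := intervalIntegral.norm_integral_le_of_norm_le_const (a := 0) (b := 2 * π)
    (f := fun θ => e14G C l θ x - e14G C l θ y) (C := 101 / 100 / m.l0 * e14M m * ‖x - y‖)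
    (fun θ _ => h1 θ)
  have h3 : 0 ≤ 101 / 100 / m.l0 * e14M m * ‖x - y‖ := (norm_nonneg _).trans (h1 0)
  rw [sub_zero, abs_of_pos Real.two_pi_pos] at h2
  rw [← Real.norm_eq_abs, ← Real.norm_eq_abs]
  refine h2.trans ?_
  have h4 := Real.pi_lt_d4
  have h5 : 101 / 100 / m.l0 * e14M m * ‖x - y‖ * (2 * π) ≤
      101 / 100 / m.l0 * e14M m * ‖x - y‖ * (62832 / 10000) := by
    gcongr
    linarith
  refine h5.trans ?_
  have h6 : 64 / 10 / m.l0 * e14M m * ‖x - y‖ =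
      101 / 100 / m.l0 * e14M m * ‖x - y‖ * (640 / 101) := by ring
  rw [h6]
  exact mul_le_mul_of_nonneg_left (by norm_num) h3

end Pool.Agent.EM
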