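import Pool.Agent.EM.EM13
import Pool.Agent.EM.EM14b

/-!
# EM-14, part c: the functions of the certificate and the residual
-/

set_option autoImplicit false

open scoped Real ContDiff InnerProductSpace ComplexConjugate
open MeasureTheory

namespace Pool.Agent.EM

open Pool.Agent.helper19.EL

variable {C : ℝ → ℝ → ℂ} {K Kc a : ℝ → ℝ → ℝ} {P : ℝ → ℝ} {m : XNum ℝ} {n : SNum ℝ} {Lp : ℝ}

/-! ### the functions of the certificate (numerators) -/

noncomputable def hA (m : XNum ℝ) (a : ℝ → ℝ → ℝ) (θ x : ℝ) : ℝ := -m.t * a θ x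
noncomputable def hA' (m : XNum ℝ) (a : ℝ → ℝ → ℝ) (θ x : ℝ) : ℝ := -m.t * pu a θ x
noncomputable def hB (m : XNum ℝ) (Kc a : ℝ → ℝ → ℝ) (θ x : ℝ) : ℝ :=
  -m.t * cb m.t (Kc θ x) (a θ x) (pu a θ x) + 3 / 4 * Kc θ x ^ 2
noncomputable def hB' (m : XNum ℝ) (Kc a : ℝ → ℝ → ℝ) (θ x : ℝ) : ℝ :=
  -m.t * cb1 m.t (Kc θ x) (pu Kc θ x) (a θ x) (pu a θ x) (pu (pu a) θ x) +
    3 / 2 * (Kc θ x * pu Kc θ x)
noncomputable def hD (m : XNum ℝ) (Kc a : ℝ → ℝ → ℝ) (θ x : ℝ) : ℝ :=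
  -m.t * a θ x * cb m.t (Kc θ x) (a θ x) (pu a θ x) +
    m.t * cb1 m.t (Kc θ x) (pu Kc θ x) (a θ x) (pu a θ x) (pu (pu a) θ x) +
    Kc θ x * pu Kc θ x / 2
noncomputable def hD' (m : XNum ℝ) (Kc a : ℝ → ℝ → ℝ) (θ x : ℝ) : ℝ :=
  -m.t * (pu a θ x * cb m.t (Kc θ x) (a θ x) (pu a θ x) +
      a θ x * cb1 m.t (Kc θ x) (pu Kc θ x) (a θ x) (pu a θ x) (pu (pu a) θ x)) +
    m.t * cb2 m.t (Kc θ x) (pu Kc θ x) (pu (pu Kc) θ x) (a θ x) (pu a θ x) (pu (pu a) θ x)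
      (pu (pu (pu a)) θ x) +
    (pu Kc θ x ^ 2 + Kc θ x * pu (pu Kc) θ x) / 2

section fixed

variable (hx : XFacts C K Kc a P m) (hm : m.Ok n Lp)

include hm in
theorem e14_tpos : 0 < m.t := by
  have := hm.eta'
  rw [XNum.t]
  linarith

include hx in
theorem e14_dA (θ x : ℝ) : HasDerivAt (fun θ' => hA m a θ' x) (hA' m a θ x) θ :=
  (e14_u hx.sa θ x).const_mul _

include hx in
theorem e14_dcb (θ x : ℝ) : HasDerivAt (fun θ' => cb m.t (Kc θ' x) (a θ' x) (pu a θ' x))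
    (cb1 m.t (Kc θ x) (pu Kc θ x) (a θ x) (pu a θ x) (pu (pu a) θ x)) θ := by
  have h1 := e14_u hx.sa θ x
  have h2 := e14_u (e14_pu hx.sa) θ x
  have h3 := e14_u hx.sKc θ x
  have h4 := (((h1.pow 2).sub h2).div_const 2).add ((h3.pow 2).const_mul (5 / (4 * m.t)))
  refine h4.congr_deriv ?_
  rw [cb1]
  norm_num
  ring

include hx in
theorem e14_dcb1 (θ x : ℝ) :
    HasDerivAt (fun θ' => cb1 m.t (Kc θ' x) (pu Kc θ' x) (a θ' x) (pu a θ' x) (pu (pu a) θ' x))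
    (cb2 m.t (Kc θ x) (pu Kc θ x) (pu (pu Kc) θ x) (a θ x) (pu a θ x) (pu (pu a) θ x)
      (pu (pu (pu a)) θ x)) θ := by
  have h1 := e14_u hx.sa θ x
  have h2 := e14_u (e14_pu hx.sa) θ x
  have h3 := e14_u (e14_pu (e14_pu hx.sa)) θ x
  have h4 := e14_u hx.sKc θ x
  have h5 := e14_u (e14_pu hx.sKc) θ x
  have h6 := ((h1.mul h2).sub (h3.div_const 2)).add ((h4.mul h5).const_mul (5 / (2 * m.t)))
  refine h6.congr_deriv ?_
  rw [cb2]
  ring

include hx in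
theorem e14_dB (θ x : ℝ) : HasDerivAt (fun θ' => hB m Kc a θ' x) (hB' m Kc a θ x) θ := by
  have h1 := ((e14_dcb hx θ x).const_mul (-m.t)).add (((e14_u hx.sKc θ x).pow 2).const_mul (3 / 4))
  refine h1.congr_deriv ?_
  rw [hB']
  norm_num
  ring

include hx in
theorem e14_dD (θ x : ℝ) : HasDerivAt (fun θ' => hD m Kc a θ' x) (hD' m Kc a θ x) θ := by
  have h1 := ((((e14_u hx.sa θ x).const_mul (-m.t)).mul (e14_dcb hx θ x)).add
    ((e14_dcb1 hx θ x).const_mul m.t)).add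
      (((e14_u hx.sKc θ x).mul (e14_u (e14_pu hx.sKc) θ x)).div_const 2)
  refine h1.congr_deriv ?_
  rw [hD']
  ring

include hx in
theorem e14_cA' (x : ℝ) : Continuous fun θ => hA' m a θ x :=
  continuous_const.mul (e14_cu (e14_pu hx.sa) x).continuous

include hx in
theorem e14_cB' (x : ℝ) : Continuous fun θ => hB' m Kc a θ x := by
  have h0 := (e14_cu hx.sa x).continuous
  have h1 := (e14_cu (e14_pu hx.sa) x).continuous
  have h2 := (e14_cu (e14_pu (e14_pu hx.sa)) x).continuous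
  have h4 := (e14_cu hx.sKc x).continuous
  have h5 := (e14_cu (e14_pu hx.sKc) x).continuous
  unfold hB' cb1
  fun_prop

include hx in
theorem e14_cD' (x : ℝ) : Continuous fun θ => hD' m Kc a θ x := by
  have h0 := (e14_cu hx.sa x).continuous
  have h1 := (e14_cu (e14_pu hx.sa) x).continuous
  have h2 := (e14_cu (e14_pu (e14_pu hx.sa)) x).continuous
  have h3 := (e14_cu (e14_pu (e14_pu (e14_pu hx.sa))) x).continuous
  have h4 := (e14_cu hx.sKc x).continuous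
  have h5 := (e14_cu (e14_pu hx.sKc) x).continuous
  have h6 := (e14_cu (e14_pu (e14_pu hx.sKc)) x).continuous
  unfold hD' cb cb1 cb2
  fun_prop

include hx in
theorem e14_pA (θ x : ℝ) : hA m a (θ + 2 * π) x = hA m a θ x := by
  rw [hA, hA, hx.pa]

include hx in
theorem e14_pB (θ x : ℝ) : hB m Kc a (θ + 2 * π) x = hB m Kc a θ x := by
  rw [hB, hB, hx.pa, hx.pKc, e14_per hx.pa]

include hx in
theorem e14_pD (θ x : ℝ) : hD m Kc a (θ + 2 * π) x = hD m Kc a θ x := by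
  have h1 : ∀ θ x, pu a (θ + 2 * π) x = pu a θ x := fun θ x => e14_per hx.pa θ
  rw [hD, hD, hx.pa, hx.pKc, e14_per hx.pa, e14_per hx.pKc, e14_per h1]

variable {x : ℝ} (hI : x ∈ Set.Icc (-1 : ℝ) 1)

include hx hm hI in
theorem e14_cb_le (θ : ℝ) : |cb m.t (Kc θ x) (a θ x) (pu a θ x)| ≤ m.b := by
  have ht := e14_tpos hm
  have h0 := hx.a0 x hI θ
  have h1 := hx.a1 x hI θ
  have h2 := hx.kc0 x hI θ
  rw [cb, XNum.b]
  calc _ ≤ |(a θ x ^ 2 - pu a θ x) / 2| + |5 / (4 * m.t) * Kc θ x ^ 2| := abs_add_le _ _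
    _ ≤ _ := by
      refine add_le_add ?_ ?_
      · rw [abs_div, abs_of_pos (show (0 : ℝ) < 2 by norm_num)]
        have h3 : |a θ x ^ 2 - pu a θ x| ≤ m.A0 ^ 2 + m.A1 := by
          refine (abs_sub _ _).trans ?_
          rw [abs_pow]
          gcongr
        gcongr
      · rw [abs_mul, abs_of_pos (show 0 < 5 / (4 * m.t) by positivity), abs_pow]
        gcongr

include hx hm hI in
theorem e14_cb1_le (θ : ℝ) :
    |cb1 m.t (Kc θ x) (pu Kc θ x) (a θ x) (pu a θ x) (pu (pu a) θ x)| ≤ m.b1 := by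
  have ht := e14_tpos hm
  have h0 := hx.a0 x hI θ
  have h1 := hx.a1 x hI θ
  have h2 := hx.a2 x hI θ
  have h3 := hx.kc0 x hI θ
  have h4 := hx.kc1 x hI θ
  have p0 := (abs_nonneg _).trans h0
  have p3 := (abs_nonneg _).trans h3
  rw [cb1, XNum.b1]
  calc _ ≤ |a θ x * pu a θ x - pu (pu a) θ x / 2| + |5 / (2 * m.t) * (Kc θ x * pu Kc θ x)| :=
        abs_add_le _ _
    _ ≤ (|a θ x * pu a θ x| + |pu (pu a) θ x / 2|) + |5 / (2 * m.t) * (Kc θ x * pu Kc θ x)| := by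
        gcongr
        exact abs_sub _ _
    _ ≤ _ := by
      rw [abs_mul, abs_div, abs_of_pos (show (0 : ℝ) < 2 by norm_num), abs_mul,
        abs_of_pos (show 0 < 5 / (2 * m.t) by positivity), abs_mul]
      gcongr

include hx hm hI in
theorem e14_cb2_le (θ : ℝ) :
    |cb2 m.t (Kc θ x) (pu Kc θ x) (pu (pu Kc) θ x) (a θ x) (pu a θ x) (pu (pu a) θ x)
      (pu (pu (pu a)) θ x)| ≤ m.b2 := by
  have ht := e14_tpos hm
  have h0 := hx.a0 x hI θ
  have h1 := hx.a1 x hI θ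
  have h2 := hx.a2 x hI θ
  have h3 := hx.a3 x hI θ
  have h4 := hx.kc0 x hI θ
  have h5 := hx.kc1 x hI θ
  have h6 := hx.kc2 x hI θ
  have p0 := (abs_nonneg _).trans h0
  have p4 := (abs_nonneg _).trans h4
  have p5 := (abs_nonneg _).trans h5
  rw [cb2, XNum.b2]
  calc _ ≤ |pu a θ x ^ 2 + a θ x * pu (pu a) θ x - pu (pu (pu a)) θ x / 2| +
        |5 / (2 * m.t) * (pu Kc θ x ^ 2 + Kc θ x * pu (pu Kc) θ x)| := abs_add_le _ _
    _ ≤ (|pu a θ x ^ 2 + a θ x * pu (pu a) θ x| + |pu (pu (pu a)) θ x / 2|) +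
        |5 / (2 * m.t) * (pu Kc θ x ^ 2 + Kc θ x * pu (pu Kc) θ x)| := by
        gcongr
        exact abs_sub _ _
    _ ≤ ((|pu a θ x ^ 2| + |a θ x * pu (pu a) θ x|) + |pu (pu (pu a)) θ x / 2|) +
        5 / (2 * m.t) * (|pu Kc θ x ^ 2| + |Kc θ x * pu (pu Kc) θ x|) := by
        rw [abs_mul (5 / (2 * m.t)), abs_of_pos (show 0 < 5 / (2 * m.t) by positivity)]
        gcongr
        · exact abs_add_le _ _
        · exact abs_add_le _ _
    _ ≤ _ := by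
      rw [abs_mul, abs_div, abs_of_pos (show (0 : ℝ) < 2 by norm_num), abs_mul, abs_pow, abs_pow]
      gcongr

include hx hm hI in
theorem e14_hA_le (θ : ℝ) : |hA m a θ x| ≤ m.t * m.A0 := by
  have ht := e14_tpos hm
  rw [hA, abs_mul, abs_neg, abs_of_pos ht]
  exact mul_le_mul_of_nonneg_left (hx.a0 x hI θ) ht.le

include hx hm hI in
theorem e14_hA'_le (θ : ℝ) : |hA' m a θ x| ≤ m.t * m.A1 := by
  have ht := e14_tpos hm
  rw [hA', abs_mul, abs_neg, abs_of_pos ht]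
  exact mul_le_mul_of_nonneg_left (hx.a1 x hI θ) ht.le

include hx hm hI in
theorem e14_hB_le (θ : ℝ) : |hB m Kc a θ x| ≤ m.hB := by
  have ht := e14_tpos hm
  have h1 := e14_cb_le hx hm hI θ
  have h2 := hx.kc0 x hI θ
  rw [hB, XNum.hB]
  refine (abs_add_le _ _).trans ?_
  rw [abs_mul, abs_neg, abs_of_pos ht, abs_mul, abs_pow, abs_of_pos (show (0 : ℝ) < 3 / 4 by norm_num)]
  gcongr

include hx hm hI in
theorem e14_hB'_le (θ : ℝ) : |hB' m Kc a θ x| ≤ m.hB1 := by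
  have ht := e14_tpos hm
  have h1 := e14_cb1_le hx hm hI θ
  have h2 := hx.kc0 x hI θ
  have h3 := hx.kc1 x hI θ
  have p2 := (abs_nonneg _).trans h2
  rw [hB', XNum.hB1]
  refine (abs_add_le _ _).trans ?_
  rw [abs_mul, abs_neg, abs_of_pos ht, abs_mul, abs_mul,
    abs_of_pos (show (0 : ℝ) < 3 / 2 by norm_num)]
  gcongr

include hx hm hI in
theorem e14_hD'_le (θ : ℝ) : |hD' m Kc a θ x| ≤ m.hC1 := by
  have ht := e14_tpos hm
  have h0 := e14_cb_le hx hm hI θ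
  have h1 := e14_cb1_le hx hm hI θ
  have h2 := e14_cb2_le hx hm hI θ
  have h3 := hx.kc0 x hI θ
  have h4 := hx.kc1 x hI θ
  have h5 := hx.kc2 x hI θ
  have h6 := hx.a0 x hI θ
  have h7 := hx.a1 x hI θ
  have p3 := (abs_nonneg _).trans h3
  have p6 := (abs_nonneg _).trans h6
  have p7 := (abs_nonneg _).trans h7
  rw [hD', XNum.hC1]
  refine (abs_add_le _ _).trans (add_le_add ((abs_add_le _ _).trans (add_le_add ?_ ?_)) ?_)
  · rw [abs_mul, abs_neg, abs_of_pos ht]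
    refine mul_le_mul_of_nonneg_left ((abs_add_le _ _).trans ?_) ht.le
    rw [abs_mul, abs_mul]
    gcongr
  · rw [abs_mul, abs_of_pos ht]
    gcongr
  · rw [abs_div, abs_of_pos (show (0 : ℝ) < 2 by norm_num)]
    have h8 : |pu Kc θ x ^ 2 + Kc θ x * pu (pu Kc) θ x| ≤ m.kc1 ^ 2 + m.kc0 * m.kc2 := by
      refine (abs_add_le _ _).trans ?_
      rw [abs_pow, abs_mul]
      gcongr
    gcongr

variable {l : ℝ} (hl : 0 < l) (hl4 : l ^ 4 = P x)

include hx hm hI hl hl4 in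
/-- the quadratic form -/
theorem e14_qf (θ : ℝ) (w s p : ℝ) :
    low w s p (curv (fun θ => (l : ℂ) * C θ x) θ)
        (dsR (fun θ => (l : ℂ) * C θ x) (curv (fun θ => (l : ℂ) * C θ x)) θ)
        (dsR (fun θ => (l : ℂ) * C θ x) (dsR (fun θ => (l : ℂ) * C θ x)
          (curv (fun θ => (l : ℂ) * C θ x))) θ) +
      (hA' m a θ x / l / (l * ‖pu C θ x‖) * s ^ 2 + 2 * (hA m a θ x / l) * s * p +
        2 * (hB' m Kc a θ x / l ^ 2 / (l * ‖pu C θ x‖)) * w * s +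
        2 * (hB m Kc a θ x / l ^ 2) * s ^ 2 + 2 * (hB m Kc a θ x / l ^ 2) * w * p +
        hD' m Kc a θ x / l ^ 3 / (l * ‖pu C θ x‖) * w ^ 2 +
        2 * (hD m Kc a θ x / l ^ 3) * w * s) ≤
      -n.eta * p ^ 2 + n.es * s ^ 2 + (m.lam0 + m.lam1 * x + m.lam2 * x ^ 2) * w ^ 2 := by
  have hg := e14_geo hx hm hI hl
  have hE := e14_E hx hm hI
  have hec0 := hm.ec0
  have hec1 := hm.ec1
  have hec2 := hm.ec2
  obtain ⟨hE0, hE1, hE2⟩ := hE
  have key : ∀ z k c E ec : ℝ, |z - k| ≤ E → |k - c| ≤ ec → |z - c| ≤ ec + E := by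
    intro z k c E ec h1 h2
    calc |z - c| ≤ |z - k| + |k - c| := abs_sub_le _ _ _
      _ ≤ E + ec := add_le_add h1 h2
      _ = ec + E := add_comm _ _
  have hcert := hx.cert x hI θ
  refine qf_point (m := m) hl (e14_l hx hm hI hl hl4).1 hm.l0 (by rw [XNum.ek0]; positivity)
    (by rw [XNum.ek1]; positivity) (by rw [XNum.ek2]; positivity) hm.eB0
    hm.eta' hm.eta (e14_b hx hm hI θ).2.2.2.1
    (key _ _ _ _ _ (hg.2.2.2.1 θ) (hx.c0 x hI θ))
    (key _ _ _ _ _ (hg.2.2.2.2.1 θ) (hx.c1 x hI θ))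
    (key _ _ _ _ _ (hg.2.2.2.2.2 θ) (hx.c2 x hI θ)) (hx.kc0 x hI θ) (hx.kc1 x hI θ) (hx.kc2 x hI θ)
    (hx.a0 x hI θ) (hx.a1 x hI θ) (hx.a2 x hI θ) (hx.a3 x hI θ) hm.es ?_ w s p
  rw [hl4]
  have h1 := hm.mg
  have h2 : m.t = 1 - m.eta' := rfl
  rw [h2]
  linarith

end fixed

/-! ### the residual -/

theorem e14_cubes {y k A : ℝ} (hy : |y| ≤ A) (hk : |k| ≤ A) :
    |y * y + y * k + k * k| ≤ 3 * A ^ 2 := by
  have h14 : 0 ≤ A := (abs_nonneg _).trans hy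
  have a1 : |y * y| ≤ A * A := by rw [abs_mul]; gcongr
  have a2 : |y * k| ≤ A * A := by rw [abs_mul]; gcongr
  have a3 : |k * k| ≤ A * A := by rw [abs_mul]; gcongr
  calc _ ≤ |y * y + y * k| + |k * k| := abs_add_le _ _
    _ ≤ |y * y| + |y * k| + |k * k| := by
        gcongr
        exact abs_add_le _ _
    _ ≤ A * A + A * A + A * A := by gcongr
    _ = _ := by ring

theorem e14_inner (z T : ℂ) : ⟪z, Complex.I * T⟫_ℝ = (z * conj T).im := by
  rw [Complex.inner]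
  simp only [Complex.mul_re, Complex.mul_im, Complex.conj_re, Complex.conj_im, Complex.I_re,
    Complex.I_im]
  ring

theorem e14_res (hx : XFacts C K Kc a P m) (hm : m.Ok n Lp) {l : ℝ → ℝ} {tc t : ℝ} (hl : ∀ x, 0 < l x)
    (hI : (t - tc) / m.h ∈ Set.Icc (-1 : ℝ) 1)
    (hl4 : l ((t - tc) / m.h) ^ 4 = P ((t - tc) / m.h))
    (hld : HasDerivAt l (deriv P ((t - tc) / m.h) / (4 * l ((t - tc) / m.h) ^ 3)) ((t - tc) / m.h))
    (θ : ℝ) :
    |resE (fun θ t => (l ((t - tc) / m.h) : ℂ) * C θ ((t - tc) / m.h)) θ t| ≤ n.rho := by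
  set x : ℝ := (t - tc) / m.h with hxdef
  have hh := hm.h
  have hlx := hl x
  have hg := e14_geo hx hm hI hlx
  obtain ⟨hβ, -, -, hβ1, hβ2, -, -⟩ := e14_b hx hm hI θ
  have hsl : sl (fun θ t => (l ((t - tc) / m.h) : ℂ) * C θ ((t - tc) / m.h)) t =
      fun θ => (l x : ℂ) * C θ x := rfl
  -- the velocity
  have hX : HasDerivAt (fun t' : ℝ => (t' - tc) / m.h) (1 / m.h) t :=
    ((hasDerivAt_id t).sub_const tc).div_const m.h
  have h1 : HasDerivAt (fun t' => (l ((t' - tc) / m.h) : ℝ)) (deriv P x / (4 * l x ^ 3) * (1 / m.h)) t :=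
    HasDerivAt.comp t hld hX
  have h2 : HasDerivAt (fun t' => C θ ((t' - tc) / m.h)) ((1 / m.h) • pt C θ x) t :=
    HasDerivAt.scomp t (e14_t hx.sC θ x) hX
  have h3 := h1.ofReal_comp.mul h2
  have h4 : deriv (fun t' => (l ((t' - tc) / m.h) : ℂ) * C θ ((t' - tc) / m.h)) t =
      ((deriv P x / (4 * l x ^ 3) * (1 / m.h) : ℝ) : ℂ) * C θ x +
        (l x : ℂ) * ((1 / m.h) • pt C θ x) := h3.deriv
  have h5 : deriv (fun θ => (l x : ℂ) * C θ x) θ = (l x : ℂ) * pu C θ x :=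
    ((e14_u hx.sC θ x).const_mul _).deriv
  have h6 : nor (fun θ => (l x : ℂ) * C θ x) θ = Complex.I * (((1 / ‖pu C θ x‖ : ℝ) : ℂ) * pu C θ x) := by
    have h8 : ((l x : ℝ) : ℂ) ≠ 0 := by exact_mod_cast hlx.ne'
    have h9 : ((‖pu C θ x‖ : ℝ) : ℂ) ≠ 0 := by exact_mod_cast hβ.ne'
    rw [nor, tang, dsC, h5, hg.2.1 θ]
    push_cast
    field_simp
  -- the algebra
  have h7 : l x ^ 3 * nuE (fun θ t => (l ((t - tc) / m.h) : ℂ) * C θ ((t - tc) / m.h)) θ t =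
      (xR C K P m.h θ x / m.h - (pu (pu K) θ x + K θ x ^ 3 / 2)) * (1 / ‖pu C θ x‖) := by
    have h8 : nuE (fun θ t => (l ((t - tc) / m.h) : ℂ) * C θ ((t - tc) / m.h)) θ t =
        ((((deriv P x / (4 * l x ^ 3) * (1 / m.h) : ℝ) : ℂ) * C θ x +
          (l x : ℂ) * ((1 / m.h) • pt C θ x)) * conj (((1 / ‖pu C θ x‖ : ℝ) : ℂ) * pu C θ x)).im := by
      rw [← e14_inner, ← h6, ← h4]
      rfl
    rw [h8, xR, ← hl4, map_mul, Complex.conj_ofReal]
    simp only [Complex.add_im, Complex.mul_im, Complex.add_re, Complex.mul_re, Complex.ofReal_re,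
      Complex.ofReal_im, Complex.real_smul, Complex.conj_re, Complex.conj_im]
    field_simp
    ring
  have hR := hx.R x hI θ
  have hK0 := hx.K0 x hI θ
  have hK2 := hx.K2 x hI θ
  have g1 := hg.2.2.2.1 θ
  have g3 := hg.2.2.2.2.2 θ
  have hE := (e14_E hx hm hI).1
  refine e14_abs_div (k := 3) hm.l0 (e14_l hx hm hI hlx hl4).1 (M := 101 / 100 * m.eR / m.h +
    m.eB0 * (m.k2 + m.k0 ^ 3) + m.E2 + 2 * (m.k0 + m.E0) ^ 2 * m.E0) ?_ hm.rho
  rw [resE, hsl, mul_add, mul_add, h7]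
  set κ := curv (fun θ => (l x : ℂ) * C θ x) θ with hκ
  set κ2 := dsR (fun θ => (l x : ℂ) * C θ x) (dsR (fun θ => (l x : ℂ) * C θ x)
      (curv (fun θ => (l x : ℂ) * C θ x))) θ with hκ2
  set β := ‖pu C θ x‖ with hβdef
  set Q := pu (pu K) θ x
  set k := K θ x
  set R := xR C K P m.h θ x
  have h9 : (R / m.h - (Q + k ^ 3 / 2)) * (1 / β) + l x ^ 3 * κ2 + l x ^ 3 * (κ ^ 3 / 2) =
      R / m.h * (1 / β) - (Q + k ^ 3 / 2) * (1 / β - 1) + (l x ^ 3 * κ2 - Q) +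
        ((l x * κ) ^ 3 - k ^ 3) / 2 := by ring
  rw [h9]
  have b1 : |R / m.h * (1 / β)| ≤ 101 / 100 * m.eR / m.h := by
    rw [abs_mul, abs_div, abs_of_pos hh, abs_of_pos (show 0 < 1 / β by positivity)]
    calc |R| / m.h * (1 / β) ≤ m.eR / m.h * (101 / 100) := by
          have := hm.eR
          gcongr
      _ = 101 / 100 * m.eR / m.h := by ring
  have b2 : |(Q + k ^ 3 / 2) * (1 / β - 1)| ≤ m.eB0 * (m.k2 + m.k0 ^ 3) := by
    rw [abs_mul, mul_comm]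
    have h10 : |Q + k ^ 3 / 2| ≤ m.k2 + m.k0 ^ 3 := by
      refine (abs_add_le _ _).trans (add_le_add hK2 ?_)
      rw [abs_div, abs_pow, abs_of_pos (show (0 : ℝ) < 2 by norm_num)]
      have h11 : |k| ^ 3 ≤ m.k0 ^ 3 := by gcongr
      have h12 : 0 ≤ |k| ^ 3 := by positivity
      linarith
    have := hm.eB0
    gcongr
  have b4 : |((l x * κ) ^ 3 - k ^ 3) / 2| ≤ 2 * (m.k0 + m.E0) ^ 2 * m.E0 := by
    have h10 : |l x * κ| ≤ m.k0 + m.E0 := by
      calc |l x * κ| = |k + (l x * κ - k)| := by rw [add_sub_cancel]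
        _ ≤ |k| + |l x * κ - k| := abs_add_le _ _
        _ ≤ _ := add_le_add hK0 g1
    have h11 : |k| ≤ m.k0 + m.E0 := by linarith
    have h12 : (l x * κ) ^ 3 - k ^ 3 =
        (l x * κ - k) * ((l x * κ) * (l x * κ) + (l x * κ) * k + k * k) := by ring
    have h13 := e14_cubes h10 h11
    rw [abs_div, abs_of_pos (show (0 : ℝ) < 2 by norm_num), h12, abs_mul]
    have h15 : |l x * κ - k| * |(l x * κ) * (l x * κ) + (l x * κ) * k + k * k| ≤
        m.E0 * (3 * (m.k0 + m.E0) ^ 2) := by gcongr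
    have h16 : 0 ≤ m.E0 * (m.k0 + m.E0) ^ 2 := by positivity
    linarith
  calc _ ≤ |R / m.h * (1 / β) - (Q + k ^ 3 / 2) * (1 / β - 1) + (l x ^ 3 * κ2 - Q)| +
        |((l x * κ) ^ 3 - k ^ 3) / 2| := abs_add_le _ _
    _ ≤ (|R / m.h * (1 / β) - (Q + k ^ 3 / 2) * (1 / β - 1)| + |l x ^ 3 * κ2 - Q|) +
        |((l x * κ) ^ 3 - k ^ 3) / 2| := by
          gcongr
          exact abs_add_le _ _
    _ ≤ ((|R / m.h * (1 / β)| + |(Q + k ^ 3 / 2) * (1 / β - 1)|) + |l x ^ 3 * κ2 - Q|) +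
        |((l x * κ) ^ 3 - k ^ 3) / 2| := by
          gcongr
          exact abs_sub _ _
    _ ≤ _ := by gcongr

end Pool.Agent.EM
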