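import Pool.Agent.EM.EM11
import Pool.Agent.EM.EM14
import Pool.Agent.helper22.FE.Fin

/-!
# EM-20: the chain of intervals and the final theorem

`Node`: a time, a curve and the constants of a `State` relative to this curve.
`Reach A B`: every flow which is in the state `A` at the time of `A` is in the state `B` at the time of `B`.
`reach_piece`: one explicit piece.  `migrating_of_reach`: the conclusion.
-/

set_option autoImplicit false

open scoped Real ContDiff InnerProductSpace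
open MeasureTheory

namespace Pool.Agent.EM

open Pool.Agent.helper19.EL Pool.Agent.helper19.EM

/-- a time, the constants of a state and a curve of period `2π` -/
structure Node where
  t : ℝ
  W : ℝ
  S : ℝ
  N : ℝ
  e1 : ℝ
  c : ℝ → ℂ

/-- smooth immersed closed curves of period `2π` -/
structure Cv (c : ℝ → ℂ) : Prop where
  smooth : ContDiff ℝ ∞ c
  per : ∀ θ, c (θ + 2 * π) = c θ
  imm : ∀ θ, deriv c θ ≠ 0

/-- the flow `γ` is in the state `A` at the time of `A` -/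
def Node.At (A : Node) (γ : ℝ → ℝ → ℂ) : Prop :=
  State γ (fun θ _ => A.c θ) A.t A.W A.S A.N A.e1

/-- every flow in the state `A` is later in the state `B` -/
structure Reach (A B : Node) : Prop where
  cA : Cv A.c
  cB : Cv B.c
  le : A.t ≤ B.t
  step : ∀ (γ : ℝ → ℝ → ℂ) (T : ℝ), IsFlow γ T → B.t < T → A.At γ → B.At γ

/-- the state `B` is weaker than the state `A` -/
structure Node.Weak (A B : Node) : Prop where
  t : A.t = B.t
  W : A.W ≤ B.W
  S : A.S ≤ B.S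
  N0 : 0 ≤ A.N
  N : A.N ≤ B.N
  e1 : A.e1 ≤ B.e1
  c : ∀ θ, A.c θ = B.c θ

theorem Node.Weak.at {A B : Node} (h : A.Weak B) {γ : ℝ → ℝ → ℂ} (hA : A.At γ) : B.At γ := by
  obtain ⟨⟨α, hα, hX⟩, hE⟩ := hA
  have hc : A.c = B.c := funext h.c
  have ht := h.t
  unfold Node.At
  rw [← ht, ← hc]
  refine ⟨⟨α, lab_mono hα le_rfl le_rfl (fun t ht u => (hα.w_le t ht u).trans h.W)
    (fun t ht u => (hα.s_le t ht u).trans h.S), hX.trans (pow_le_pow_left₀ h.N0 h.N 2)⟩,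
    hE.trans (by linarith [h.e1])⟩

theorem Reach.trans {A B C D : Node} (h1 : Reach A B) (h : B.Weak C) (h2 : Reach C D) :
    Reach A D where
  cA := h1.cA
  cB := h2.cB
  le := h1.le.trans (h.t ▸ h2.le)
  step := fun γ T hγ hT hA =>
    h2.step γ T hγ hT (h.at (h1.step γ T hγ ((h.t.trans_le h2.le).trans_lt hT) hA))

/-- **One explicit piece.**  `μ0 + μ1 x + μ2 x²` is an upper bound of the growth rate. -/
theorem reach_piece {C : ℝ → ℝ → ℂ} {K Kc a : ℝ → ℝ → ℝ} {P : ℝ → ℝ} {m : XNum ℝ} {n : SNum ℝ}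
    {k : INum ℝ} {tc μ0 μ1 μ2 : ℝ} (hx : XFacts C K Kc a P m) (hm : m.Ok n k.Lp) (hn : n.Ok)
    (hk : k.Ok n) (h0 : 0 ≤ tc - m.h) (hlen : 2 * m.h ≤ k.len)
    (hμ : |μ1 - m.lam1| + |μ2 - m.lam2| < μ0 - m.lam0 - n.Lr) (hμ0 : |μ1| + |μ2| ≤ μ0)
    (hY : m.h * (2 * μ0 + 2 / 3 * μ2) ≤ k.Y)
    (hLb : m.lam0 + |m.lam1| + |m.lam2| + n.Lr ≤ k.Lb) :
    Reach ⟨tc - m.h, n.W / 2, n.S / 2, k.n0, k.e0, fun θ => ((P (-1) ^ (1 / 4 : ℝ) : ℝ) : ℂ) * C θ (-1)⟩
      ⟨tc + m.h, k.Wo, k.So, k.N, k.e1, fun θ => ((P 1 ^ (1 / 4 : ℝ) : ℝ) : ℂ) * C θ 1⟩ := by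
  obtain ⟨e, A, A', B, B', D, D', he, hp⟩ := mk_piece (tc := tc) hx hm
  have hh := hm.h
  have heA : ∀ θ, e θ (tc - m.h) = ((P (-1) ^ (1 / 4 : ℝ) : ℝ) : ℂ) * C θ (-1) := by
    intro θ
    have h1 := he (-1) ⟨le_rfl, by norm_num⟩ θ
    rw [show tc + m.h * -1 = tc - m.h by ring] at h1
    exact h1
  have heB : ∀ θ, e θ (tc + m.h) = ((P 1 ^ (1 / 4 : ℝ) : ℝ) : ℂ) * C θ 1 := by
    intro θ
    have h1 := he 1 ⟨by norm_num, le_rfl⟩ θ
    rw [mul_one] at h1
    exact h1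
  have hcv : ∀ t ∈ Set.Icc (tc - m.h) (tc + m.h), Cv fun θ => e θ t := by
    intro t ht
    have h1 : ContDiff ℝ ∞ fun u : ℝ => ((u, t) : ℝ × ℝ) := contDiff_id.prodMk contDiff_const
    exact ⟨hp.fam.smooth.comp h1, fun θ => hp.fam.per θ t, hp.fam.imm t ht⟩
  -- the growth function
  have hx1 : ∀ t ∈ Set.Icc (tc - m.h) (tc + m.h), |(t - tc) / m.h| ≤ 1 := by
    intro t ht
    rw [abs_div, abs_of_pos hh, div_le_one hh, abs_le]
    exact ⟨by linarith [ht.1], by linarith [ht.2]⟩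
  have hquad : ∀ p q x : ℝ, |x| ≤ 1 → |p * x + q * x ^ 2| ≤ |p| + |q| := by
    intro p q x hx
    have h1 : |p * x| ≤ |p| := by
      rw [abs_mul]
      exact mul_le_of_le_one_right (abs_nonneg _) hx
    have h2 : |q * x ^ 2| ≤ |q| := by
      rw [abs_mul, abs_pow]
      exact mul_le_of_le_one_right (abs_nonneg _) (pow_le_one₀ (abs_nonneg _) hx)
    exact (abs_add_le _ _).trans (add_le_add h1 h2)
  obtain ⟨y, hy⟩ : ∃ y : ℝ → ℝ, y = fun t => m.h * (μ0 * ((t - tc) / m.h + 1) +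
      μ1 * (((t - tc) / m.h) ^ 2 - 1) / 2 + μ2 * (((t - tc) / m.h) ^ 3 + 1) / 3) := ⟨_, rfl⟩
  have hder : ∀ t, HasDerivAt y (μ0 + μ1 * ((t - tc) / m.h) + μ2 * ((t - tc) / m.h) ^ 2) t := by
    intro t
    have d1 : HasDerivAt (fun t => (t - tc) / m.h) (1 / m.h) t :=
      ((hasDerivAt_id t).sub_const tc).div_const m.h
    have d2 := (((d1.add_const 1).const_mul μ0).add ((((d1.pow 2).sub_const 1).const_mul
      μ1).div_const 2)).add ((((d1.pow 3).add_const 1).const_mul μ2).div_const 3)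
    have d3 := d2.const_mul m.h
    rw [hy]
    refine d3.congr_deriv ?_
    norm_num
    field_simp
  refine ⟨?_, ?_, by simp only; linarith, ?_⟩
  · have h1 := hcv (tc - m.h) ⟨le_rfl, by linarith⟩
    have h2 : (fun θ => e θ (tc - m.h)) = fun θ => ((P (-1) ^ (1 / 4 : ℝ) : ℝ) : ℂ) * C θ (-1) :=
      funext heA
    rw [h2] at h1
    exact h1
  · have h1 := hcv (tc + m.h) ⟨by linarith, le_rfl⟩
    have h2 : (fun θ => e θ (tc + m.h)) = fun θ => ((P 1 ^ (1 / 4 : ℝ) : ℝ) : ℂ) * C θ 1 :=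
      funext heB
    rw [h2] at h1
    exact h1
  · intro γ T hγ hT hA
    have hs : State γ e (tc - m.h) (n.W / 2) (n.S / 2) k.n0 k.e0 :=
      State.next hA fun θ => (heA θ).symm
    have h1 := one_interval (a := tc - m.h) (b := tc + m.h) (y := y)
      (y' := fun t => μ0 + μ1 * ((t - tc) / m.h) + μ2 * ((t - tc) / m.h) ^ 2) hγ h0 (by linarith)
      hT hn hk hp (by linarith) (fun t _ => hder t) ?_ ?_ ?_ ?_ ?_ le_rfl le_rfl hs
    · exact State.next h1 heB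
    · intro t ht
      have h2 := (abs_le.1 (hquad (μ1 - m.lam1) (μ2 - m.lam2) _ (hx1 t ht))).1
      beta_reduce
      linarith
    · rw [hy]
      have : (tc - m.h - tc) / m.h = -1 := by
        rw [show tc - m.h - tc = -m.h by ring, neg_div, div_self hh.ne']
      simp only [this]
      ring
    · intro t ht
      have h2 := (abs_le.1 (hquad μ1 μ2 _ (hx1 t ht))).1
      beta_reduce
      linarith
    · rw [hy]
      have : (tc + m.h - tc) / m.h = 1 := by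
        rw [show tc + m.h - tc = m.h by ring, div_self hh.ne']
      simp only [this]
      refine le_trans (le_of_eq ?_) hY
      ring
    · intro t ht
      have h2 := (abs_le.1 (hquad m.lam1 m.lam2 _ (hx1 t ht))).2
      beta_reduce
      linarith

/-- **The conclusion.**  The curve of `A` is in the upper half-plane and the curve of `B` is in the lower
half-plane, with a distance from the real axis of more than `B.W`. -/
theorem migrating_of_reach {A B : Node} (h : Reach A B) (hA : A.t = 0) (hW : 0 ≤ A.W) (hS : 0 ≤ A.S)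
    (he : 0 ≤ A.e1) (hB : 0 < B.t) (hpos : ∀ θ, 0 < (A.c θ).im) (hneg : ∀ θ, (B.c θ).im < -B.W) :
    ∃ (c : ℝ → ℂ) (t : ℝ), ContDiff ℝ ∞ c ∧ (∀ u, c (u + 1) = c u) ∧ (∀ u, deriv c u ≠ 0) ∧
      (∀ u, 0 < (c u).im) ∧ 0 < t ∧
      (∀ T : ℝ, 0 < T → ∃ γ : ℝ → ℝ → ℂ, IsFlow γ T ∧ ∀ u, γ u 0 = c u) ∧
      ∀ (γ : ℝ → ℝ → ℂ) (T : ℝ), IsFlow γ T → t < T → (∀ u, γ u 0 = c u) →
        ∀ u, (γ u t).im < 0 := by
  have hc1 : ContDiff ℝ ∞ fun u => A.c (2 * π * u) :=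
    h.cA.smooth.comp (contDiff_const.mul contDiff_id)
  have hc2 : ∀ u, A.c (2 * π * (u + 1)) = A.c (2 * π * u) := fun u => by
    rw [mul_add, mul_one, h.cA.per]
  have hc3 : ∀ u, deriv (fun u => A.c (2 * π * u)) u ≠ 0 := fun u => by
    rw [deriv_comp_mul_left, Complex.real_smul]
    exact mul_ne_zero (by rw [Ne, Complex.ofReal_eq_zero]; positivity) (h.cA.imm _)
  refine ⟨fun u => A.c (2 * π * u), B.t, hc1, hc2, hc3, fun u => hpos _, hB, fun T hT =>
    Pool.Agent.helper22.FE.exists_flow _ hc1 hc2 hc3 T hT, fun γ T hγ hT h0 u => ?_⟩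
  have hT0 : 0 < T := hB.trans hT
  have hfam : ∀ {c : ℝ → ℂ} (a b : ℝ), Cv c → Fam (fun θ _ => c θ) a b := fun a b hc =>
    ⟨hc.smooth.comp contDiff_fst, fun θ _ => hc.per θ, fun t _ θ => hc.imm θ⟩
  have hAγ : A.At γ := by
    unfold Node.At
    rw [hA]
    exact state_zero (b := 0) hγ hT0 (hfam 0 0 h.cA) le_rfl h0 hW hS he
  have hBγ := h.step γ T hγ hT hAγ
  obtain ⟨θ, hθ⟩ := State.near hγ ⟨hB.le, hT⟩ (hfam B.t B.t h.cB) hBγ u
  have h1 : |(γ u B.t - B.c θ).im| ≤ B.W := (Complex.abs_im_le_norm _).trans hθ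
  rw [Complex.sub_im] at h1
  have h2 := (abs_le.1 h1).2
  have h3 := hneg θ
  linarith

end Pool.Agent.EM
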