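import Pool.Agent.EM.EM19
import Pool.Agent.EM.EM20

/-!
# EM-21: one interval from the facts about the explicit functions and a check over `ℚ`
-/

set_option autoImplicit false

open scoped Real ContDiff InnerProductSpace

namespace Pool.Agent.EM

open Pool.Agent.helper19.EL Pool.Agent.helper19.EM

/-- all rational numbers of one interval; `μ0 + μ1 x + μ2 x²` is a bound of the growth rate -/
structure RNum where
  (x : XNum ℚ) (n : SNum ℚ) (k : INum ℚ) (tc μ0 μ1 μ2 : ℚ)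

/-- the check of the rational numbers of one interval -/
def RNum.chk (r : RNum) : Bool :=
  r.x.chk r.n r.k.Lp && r.n.chk && r.k.chk r.n &&
  decide (0 ≤ r.tc - r.x.h) && decide (2 * r.x.h ≤ r.k.len) &&
  decide (|r.μ1 - r.x.lam1| + |r.μ2 - r.x.lam2| < r.μ0 - r.x.lam0 - r.n.Lr) &&
  decide (|r.μ1| + |r.μ2| ≤ r.μ0) &&
  decide (r.x.h * (2 * r.μ0 + 2 / 3 * r.μ2) ≤ r.k.Y) &&
  decide (r.x.lam0 + |r.x.lam1| + |r.x.lam2| + r.n.Lr ≤ r.k.Lb)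

/-- the state at the beginning of an interval -/
noncomputable def RNum.A (r : RNum) (C : ℝ → ℝ → ℂ) (P : ℝ → ℝ) : Node :=
  ⟨((r.tc - r.x.h : ℚ) : ℝ), ((r.n.W / 2 : ℚ) : ℝ), ((r.n.S / 2 : ℚ) : ℝ), (r.k.n0 : ℝ), (r.k.e0 : ℝ),
    fun θ => ((P (-1) ^ (1 / 4 : ℝ) : ℝ) : ℂ) * C θ (-1)⟩

/-- the state at the end of an interval -/
noncomputable def RNum.B (r : RNum) (C : ℝ → ℝ → ℂ) (P : ℝ → ℝ) : Node :=
  ⟨((r.tc + r.x.h : ℚ) : ℝ), (r.k.Wo : ℝ), (r.k.So : ℝ), (r.k.N : ℝ), (r.k.e1 : ℝ),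
    fun θ => ((P 1 ^ (1 / 4 : ℝ) : ℝ) : ℂ) * C θ 1⟩

/-- **One interval.** -/
theorem RNum.reach (r : RNum) (h : r.chk = true) {C : ℝ → ℝ → ℂ} {K Kc a : ℝ → ℝ → ℝ} {P : ℝ → ℝ}
    (hx : XFacts C K Kc a P r.x.cast) : Reach (r.A C P) (r.B C P) := by
  unfold RNum.chk at h
  simp only [Bool.and_eq_true, decide_eq_true_eq] at h
  obtain ⟨⟨⟨⟨⟨⟨⟨⟨h1, h2⟩, h3⟩, h4⟩, h5⟩, h6⟩, h7⟩, h8⟩, h9⟩ := h
  have a1 := XNum.ok_cast _ _ _ (XNum.ok_of_chk _ _ _ h1)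
  have a2 := SNum.ok_cast _ (SNum.ok_of_chk _ h2)
  have a3 := INum.ok_cast _ _ (INum.ok_of_chk _ _ h3)
  have b4 := (Rat.cast_le (K := ℝ)).2 h4
  have b5 := (Rat.cast_le (K := ℝ)).2 h5
  have b6 := (Rat.cast_lt (K := ℝ)).2 h6
  have b7 := (Rat.cast_le (K := ℝ)).2 h7
  have b8 := (Rat.cast_le (K := ℝ)).2 h8
  have b9 := (Rat.cast_le (K := ℝ)).2 h9
  push_cast at b4 b5 b6 b7 b8 b9
  have h10 := reach_piece (tc := (r.tc : ℝ)) (μ0 := (r.μ0 : ℝ)) (μ1 := (r.μ1 : ℝ))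
    (μ2 := (r.μ2 : ℝ)) hx a1 a2 a3 b4 b5 b6 b7 b8 b9
  have eA : (⟨(r.tc : ℝ) - r.x.cast.h, r.n.cast.W / 2, r.n.cast.S / 2, r.k.cast.n0, r.k.cast.e0,
      fun θ => ((P (-1) ^ (1 / 4 : ℝ) : ℝ) : ℂ) * C θ (-1)⟩ : Node) = r.A C P := by
    unfold RNum.A
    simp only [XNum.cast_h, SNum.cast_W, SNum.cast_S, INum.cast_n0, INum.cast_e0]
    push_cast
    rfl
  have eB : (⟨(r.tc : ℝ) + r.x.cast.h, r.k.cast.Wo, r.k.cast.So, r.k.cast.N, r.k.cast.e1,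
      fun θ => ((P 1 ^ (1 / 4 : ℝ) : ℝ) : ℂ) * C θ 1⟩ : Node) = r.B C P := by
    unfold RNum.B
    simp only [XNum.cast_h, INum.cast_Wo, INum.cast_So, INum.cast_N, INum.cast_e1]
    push_cast
    rfl
  rw [eA, eB] at h10
  exact h10

/-- the check of the constants at a common end point: `r` first, `r'` next -/
def RNum.link (r r' : RNum) : Bool :=
  decide (r.tc + r.x.h = r'.tc - r'.x.h) && decide (r.k.Wo ≤ r'.n.W / 2) &&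
  decide (r.k.So ≤ r'.n.S / 2) && decide (0 ≤ r.k.N) && decide (r.k.N ≤ r'.k.n0) &&
  decide (r.k.e1 ≤ r'.k.e0)

theorem RNum.weak {r r' : RNum} (h : r.link r' = true) {C C' : ℝ → ℝ → ℂ} {P P' : ℝ → ℝ}
    (hC : ∀ θ, C θ 1 = C' θ (-1)) (hP : P 1 = P' (-1)) : (r.B C P).Weak (r'.A C' P') := by
  unfold RNum.link at h
  simp only [Bool.and_eq_true, decide_eq_true_eq] at h
  obtain ⟨⟨⟨⟨⟨h1, h2⟩, h3⟩, h4⟩, h5⟩, h6⟩ := h
  refine ⟨?_, ?_, ?_, ?_, ?_, ?_, fun θ => ?_⟩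
  · show ((r.tc + r.x.h : ℚ) : ℝ) = ((r'.tc - r'.x.h : ℚ) : ℝ)
    rw [h1]
  · exact (Rat.cast_le (K := ℝ)).2 h2
  · exact (Rat.cast_le (K := ℝ)).2 h3
  · have := (Rat.cast_le (K := ℝ)).2 h4
    rw [Rat.cast_zero] at this
    exact this
  · exact (Rat.cast_le (K := ℝ)).2 h5
  · exact (Rat.cast_le (K := ℝ)).2 h6
  · show ((P 1 ^ (1 / 4 : ℝ) : ℝ) : ℂ) * C θ 1 = ((P' (-1) ^ (1 / 4 : ℝ) : ℝ) : ℂ) * C' θ (-1)
    rw [hC, hP]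

end Pool.Agent.EM
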