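import Pool.Agent.EM.Defs2

/-!
# EM: hypotheses on one explicit piece and the constants of one time interval
-/

set_option autoImplicit false

open scoped Real ContDiff InnerProductSpace
open MeasureTheory

namespace Pool.Agent.EM

open Pool.Agent.helper19.EL

/-- what has to be known about the explicit family `e` on the time interval `[a, b]`.
`A, B, C` (with `θ`-derivatives `A', B', C'`): the functions of the certificate. -/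
structure Piece (e : ℝ → ℝ → ℂ) (a b : ℝ) (n : SNum ℝ) (A A' B B' C C' : ℝ → ℝ → ℝ) (Lam : ℝ → ℝ)
    (Lp : ℝ) : Prop where
  fam : Fam e a b
  K_le : ∀ t ∈ Set.Icc a b, ∀ θ, |curv (sl e t) θ| ≤ n.b0
  K1_le : ∀ t ∈ Set.Icc a b, ∀ θ, |dsR (sl e t) (curv (sl e t)) θ| ≤ n.b1
  K2_le : ∀ t ∈ Set.Icc a b, ∀ θ, |dsR (sl e t) (dsR (sl e t) (curv (sl e t))) θ| ≤ n.b2
  dA : ∀ t ∈ Set.Icc a b, ∀ θ, HasDerivAt (fun θ' => A θ' t) (A' θ t) θ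
  dB : ∀ t ∈ Set.Icc a b, ∀ θ, HasDerivAt (fun θ' => B θ' t) (B' θ t) θ
  dC : ∀ t ∈ Set.Icc a b, ∀ θ, HasDerivAt (fun θ' => C θ' t) (C' θ t) θ
  cA : ∀ t ∈ Set.Icc a b, Continuous fun θ => A' θ t
  cB : ∀ t ∈ Set.Icc a b, Continuous fun θ => B' θ t
  cC : ∀ t ∈ Set.Icc a b, Continuous fun θ => C' θ t
  pA : ∀ t ∈ Set.Icc a b, ∀ θ, A (θ + 2 * π) t = A θ t
  pB : ∀ t ∈ Set.Icc a b, ∀ θ, B (θ + 2 * π) t = B θ t
  pC : ∀ t ∈ Set.Icc a b, ∀ θ, C (θ + 2 * π) t = C θ t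
  A_le : ∀ t ∈ Set.Icc a b, ∀ θ, |A θ t| ≤ n.a0
  A1_le : ∀ t ∈ Set.Icc a b, ∀ θ, |A' θ t / speed (sl e t) θ| ≤ n.a1
  B_le : ∀ t ∈ Set.Icc a b, ∀ θ, |B θ t| ≤ n.d0
  B1_le : ∀ t ∈ Set.Icc a b, ∀ θ, |B' θ t / speed (sl e t) θ| ≤ n.d1
  C1_le : ∀ t ∈ Set.Icc a b, ∀ θ, |C' θ t / speed (sl e t) θ| ≤ n.g1
  res_le : ∀ t ∈ Set.Icc a b, ∀ θ, |resE e θ t| ≤ n.rho
  len_le : ∀ t ∈ Set.Icc a b, 103 / 100 * Len2 (sl e t) ≤ n.Lhi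
  le_len : ∀ t ∈ Set.Icc a b, 103 / 100 * n.Llo ≤ Len2 (sl e t)
  qf : ∀ t ∈ Set.Icc a b, ∀ θ, ∀ w s p : ℝ,
    low w s p (curv (sl e t) θ) (dsR (sl e t) (curv (sl e t)) θ)
        (dsR (sl e t) (dsR (sl e t) (curv (sl e t))) θ) +
      (A' θ t / speed (sl e t) θ * s ^ 2 + 2 * A θ t * s * p +
        2 * (B' θ t / speed (sl e t) θ) * w * s + 2 * B θ t * s ^ 2 + 2 * B θ t * w * p +
        C' θ t / speed (sl e t) θ * w ^ 2 + 2 * C θ t * w * s) ≤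
      -n.eta * p ^ 2 + n.es * s ^ 2 + Lam t * w ^ 2
  lip : ∀ t ∈ Set.Icc a b, ∀ t' ∈ Set.Icc a b, |En2 (sl e t) - En2 (sl e t')| ≤ Lp * |t - t'|

/-- the other constants of a time interval of length `len`.
`n0`: bound of the norm at the beginning; `N`: bound of the norm; `dl`: window; `D`: dissipation over a window;
`e0, e1`: bounds of the energy difference; `Phi`: bound of `Y`; `G`: bound of the norm of `s`;
`Wo, So`: bounds of `|w|, |s|` obtained; `Lp`: Lipschitz constant of the energy; `Lb`: upper bound of `Lam + Lr`;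
`Y`: upper bound of `y`; `len`: length of the time interval. -/
structure INum (R : Type) where
  (n0 N dl D e0 e1 Phi G Wo So Lp Lb Y len : R)

structure INum.Ok {R : Type} [Field R] [LinearOrder R] (m : INum R) (n : SNum R) : Prop where
  n0 : 0 < m.n0
  dl : 0 < m.dl
  e0 : 0 ≤ m.e0
  Phi : 0 < m.Phi
  G : 0 < m.G
  Wo : 0 < m.Wo
  So : 0 < m.So
  Lp : 0 ≤ m.Lp
  Lb : 0 ≤ m.Lb
  Y0 : 0 ≤ m.Y
  Y1 : m.Y ≤ 1
  len : 0 < m.len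
  hN : (m.n0 + n.rho * n.rL * m.len) * (1 + m.Y + m.Y ^ 2 / 2 + m.Y ^ 3 / 4) ≤ m.N
  hD : 2 / n.eta * (m.N ^ 2 / 2 + m.dl * (m.Lb * m.N ^ 2 + n.rho * n.rL * m.N)) ≤ m.D
  h1 : m.e0 + m.dl * m.Lp ≤ m.e1
  h2 : m.dl * m.Lp + n.cL * m.N + n.cQ * m.N ^ 2 + 5 / 4 * m.D / m.dl ≤ m.e1
  hPhi : 4 / 3 * (m.e1 + n.cL * m.N + n.cQ * m.N ^ 2) ≤ m.Phi ^ 2
  hG : m.N * m.Phi ≤ m.G ^ 2
  hWo : 2 * m.N * m.G + m.N ^ 2 / n.Llo ≤ m.Wo ^ 2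
  hSo : 2 * m.G * m.Phi + m.G ^ 2 / n.Llo ≤ m.So ^ 2
  hW : m.Wo ≤ n.W / 2
  hS : m.So ≤ n.S / 2

/-- the state at one time: a label with bounds for distance, angle, norm and energy -/
structure State (γ e : ℝ → ℝ → ℂ) (t W S N e1 : ℝ) : Prop where
  ex : ∃ α : ℝ → ℝ → ℝ, Lab γ e α t t W S ∧ (sd γ e α t).X2 ≤ N ^ 2
  en : iW γ t ≤ En2 (sl e t) + e1

end Pool.Agent.EM
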